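import Pool.Agent.IS.Red3

/-!
# Assembly: nonnegativity of all graded pieces from the lowest one
-/

set_option autoImplicit false
open Classical

namespace Pool.IS

variable {α : Type*} [DecidableEq α]

/-- nonspanning predicate of a paving matroid of rank `r` -/
structure Pav (r : ℕ) (N : Finset α → Prop) : Prop where
  mono : ∀ {A B : Finset α}, A ⊆ B → N B → N A
  small : ∀ {A : Finset α}, A.card < r → N A
  glue : ∀ {P Q : Finset α}, N P → N Q → r ≤ (P ∩ Q).card + 1 → N (P ∪ Q)

variable {r : ℕ} {N : Finset α → Prop} {e f : α}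

theorem Pav.sys (hP : Pav r N) {W U : Finset α} (hW : W.card < r) (hef : e ≠ f)
    (heW : e ∉ W) (hfW : f ∉ W) (heU : e ∉ U) (hfU : f ∉ U) (hWU : Disjoint W U) :
    Sys (r - W.card) U (fun A => N (insert e (W ∪ A))) (fun A => N (insert f (W ∪ A)))
      (fun A => N (insert e (insert f (W ∪ A)))) := by
  have cU : ∀ A : Finset α, A ⊆ U → (W ∪ A).card = W.card + A.card := by
    intro A hA
    exact Finset.card_union_of_disjoint (hWU.mono_right hA)
  have e1 : ∀ A : Finset α, A ⊆ U → e ∉ W ∪ A := by
    intro A hA hh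
    rcases Finset.mem_union.mp hh with h1 | h1
    · exact heW h1
    · exact heU (hA h1)
  have f1 : ∀ A : Finset α, A ⊆ U → f ∉ W ∪ A := by
    intro A hA hh
    rcases Finset.mem_union.mp hh with h1 | h1
    · exact hfW h1
    · exact hfU (hA h1)
  have ef1 : ∀ A : Finset α, A ⊆ U → e ∉ insert f (W ∪ A) := by
    intro A hA hh
    rcases Finset.mem_insert.mp hh with h1 | h1
    · exact hef h1
    · exact e1 A hA h1
  have ce : ∀ A : Finset α, A ⊆ U → (insert e (W ∪ A)).card = W.card + A.card + 1 := by
    intro A hA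
    rw [Finset.card_insert_of_notMem (e1 A hA), cU A hA]
  have cf : ∀ A : Finset α, A ⊆ U → (insert f (W ∪ A)).card = W.card + A.card + 1 := by
    intro A hA
    rw [Finset.card_insert_of_notMem (f1 A hA), cU A hA]
  have cef : ∀ A : Finset α, A ⊆ U → (insert e (insert f (W ∪ A))).card = W.card + A.card + 2 := by
    intro A hA
    rw [Finset.card_insert_of_notMem (ef1 A hA), cf A hA]
  have sub : ∀ (S T X : Finset α) (k : ℕ), X ⊆ S ∩ T → k = X.card → k ≤ (S ∩ T).card := by
    intro S T X k h1 h2
    rw [h2]
    exact Finset.card_le_card h1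
  refine ⟨?_, ?_, ?_, ?_, ?_, ?_, ?_, ?_, ?_, ?_, ?_, ?_, ?_, ?_⟩
  · intro A B h1 _ h2
    exact hP.mono (Finset.insert_subset_insert _ (Finset.union_subset_union_right h1)) h2
  · intro A B h1 _ h2
    exact hP.mono (Finset.insert_subset_insert _ (Finset.union_subset_union_right h1)) h2
  · intro A B h1 _ h2
    exact hP.mono (Finset.insert_subset_insert _ (Finset.insert_subset_insert _
      (Finset.union_subset_union_right h1))) h2
  · intro A _ h2
    exact hP.mono (Finset.insert_subset_insert _ (Finset.subset_insert _ _)) h2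
  · intro A _ h2
    exact hP.mono (Finset.subset_insert _ _) h2
  · intro A hA h2
    apply hP.small
    rw [ce A hA]
    omega
  · intro A hA h2
    apply hP.small
    rw [cf A hA]
    omega
  · intro A hA h2
    apply hP.small
    rw [cef A hA]
    omega
  · intro P Q hPU hQU h1 h2 hc
    have hPQ : P ∩ Q ⊆ U := Finset.inter_subset_left.trans hPU
    have := hP.glue h1 h2 (by
      have := sub (insert e (W ∪ P)) (insert e (W ∪ Q)) (insert e (W ∪ (P ∩ Q))) _ (by
        intro x hx
        simp only [Finset.mem_inter, Finset.mem_insert, Finset.mem_union] at hx ⊢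
        tauto) (ce _ hPQ).symm
      omega)
    refine hP.mono ?_ this
    intro x hx
    simp only [Finset.mem_insert, Finset.mem_union] at hx ⊢
    tauto
  · intro P Q hPU hQU h1 h2 hc
    have hPQ : P ∩ Q ⊆ U := Finset.inter_subset_left.trans hPU
    have := hP.glue h1 h2 (by
      have := sub (insert f (W ∪ P)) (insert f (W ∪ Q)) (insert f (W ∪ (P ∩ Q))) _ (by
        intro x hx
        simp only [Finset.mem_inter, Finset.mem_insert, Finset.mem_union] at hx ⊢
        tauto) (cf _ hPQ).symm
      omega)
    refine hP.mono ?_ this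
    intro x hx
    simp only [Finset.mem_insert, Finset.mem_union] at hx ⊢
    tauto
  · intro P Q hPU hQU h1 h2 hc
    have hPQ : P ∩ Q ⊆ U := Finset.inter_subset_left.trans hPU
    have := hP.glue h1 h2 (by
      have := sub (insert e (W ∪ P)) (insert f (W ∪ Q)) (W ∪ (P ∩ Q)) _ (by
        intro x hx
        simp only [Finset.mem_inter, Finset.mem_insert, Finset.mem_union] at hx ⊢
        tauto) (cU _ hPQ).symm
      omega)
    refine hP.mono ?_ this
    intro x hx
    simp only [Finset.mem_insert, Finset.mem_union] at hx ⊢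
    tauto
  · intro P Q hPU hQU h1 h2 hc
    have hPQ : P ∩ Q ⊆ U := Finset.inter_subset_left.trans hPU
    have := hP.glue h1 h2 (by
      have := sub (insert e (W ∪ P)) (insert e (insert f (W ∪ Q))) (insert e (W ∪ (P ∩ Q))) _ (by
        intro x hx
        simp only [Finset.mem_inter, Finset.mem_insert, Finset.mem_union] at hx ⊢
        tauto) (ce _ hPQ).symm
      omega)
    refine hP.mono ?_ this
    intro x hx
    simp only [Finset.mem_insert, Finset.mem_union] at hx ⊢
    tauto
  · intro P Q hPU hQU h1 h2 hc
    have hPQ : P ∩ Q ⊆ U := Finset.inter_subset_left.trans hPU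
    have := hP.glue h1 h2 (by
      have := sub (insert f (W ∪ P)) (insert e (insert f (W ∪ Q))) (insert f (W ∪ (P ∩ Q))) _ (by
        intro x hx
        simp only [Finset.mem_inter, Finset.mem_insert, Finset.mem_union] at hx ⊢
        tauto) (cf _ hPQ).symm
      omega)
    refine hP.mono ?_ this
    intro x hx
    simp only [Finset.mem_insert, Finset.mem_union] at hx ⊢
    tauto
  · intro P Q hPU hQU h1 h2 hc
    have hPQ : P ∩ Q ⊆ U := Finset.inter_subset_left.trans hPU
    have := hP.glue h1 h2 (by
      have := sub (insert e (insert f (W ∪ P))) (insert e (insert f (W ∪ Q)))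
        (insert e (insert f (W ∪ (P ∩ Q)))) _ (by
        intro x hx
        simp only [Finset.mem_inter, Finset.mem_insert, Finset.mem_union] at hx ⊢
        tauto) (cef _ hPQ).symm
      omega)
    refine hP.mono ?_ this
    intro x hx
    simp only [Finset.mem_insert, Finset.mem_union] at hx ⊢
    tauto

/-- the coefficient `c(U)` in the contraction by `W` -/
noncomputable def cW (N : Finset α → Prop) (e f : α) (W U : Finset α) : ℤ :=
  cc (fun A => N (insert e (W ∪ A))) (fun A => N (insert f (W ∪ A)))
    (fun A => N (insert e (insert f (W ∪ A)))) (fun A => N (W ∪ A)) U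

/-- all instances of KEY -/
def KEYall (α : Type*) [DecidableEq α] : Prop :=
  ∀ (r : ℕ) (U : Finset α) (a b g : Finset α → Prop), Sys r U a b g → 1 ≤ r →
    2 * r ≤ U.card + 1 → KEY r U a b g

theorem Pav.ML (hP : Pav r N) (hK : KEYall α) {W U : Finset α} (hW : W.card < r) (hef : e ≠ f)
    (heW : e ∉ W) (hfW : f ∉ W) (heU : e ∉ U) (hfU : f ∉ U) (hWU : Disjoint W U)
    (hm : 2 * (r - W.card) ≤ U.card + 1) :
    ∑ y ∈ U, cW N e f W (U.erase y) ≤ ((U.card : ℤ) + 1 - (r - W.card)) * cW N e f W U := by
  have hs := hP.sys hW hef heW hfW heU hfU hWU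
  have := ML_of_KEY (n := fun A => N (W ∪ A)) hs (by omega) hm ?_ (hK _ _ _ _ _ hs (by omega) hm)
  · have hc : ((r - W.card : ℕ) : ℤ) = (r : ℤ) - W.card := by omega
    rw [hc] at this
    exact this
  · intro A hA hz
    rcases hz with h1 | h1 | h1
    · apply hP.small
      rw [Finset.card_union_of_disjoint (hWU.mono_right hA)]
      omega
    · exact hP.mono (Finset.subset_insert _ _) h1
    · exact hP.mono (Finset.subset_insert _ _) h1

noncomputable def zp (z : α → ℝ) (A : Finset α) : ℝ := ∏ x ∈ A, z x

theorem zp_pos {z : α → ℝ} (hz : ∀ x, 0 < z x) (A : Finset α) : 0 < zp z A :=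
  Finset.prod_pos (fun x _ => hz x)

theorem zp_insert (z : α → ℝ) {A : Finset α} {y : α} (hy : y ∉ A) :
    zp z (insert y A) = z y * zp z A := Finset.prod_insert hy

theorem zp_erase (z : α → ℝ) {A : Finset α} {y : α} (hy : y ∈ A) :
    z y * zp z (A.erase y) = zp z A := Finset.mul_prod_erase A z hy

/-- the summand of the graded piece -/
noncomputable def tm (r : ℕ) (N : Finset α → Prop) (e f : α) (z : α → ℝ) (d : ℕ)
    (W V U : Finset α) : ℝ :=
  if W.card + V.card < r ∧ 2 * V.card + U.card = d then
    (zp z V) ^ 2 * zp z U * (cW N e f (W ∪ V) U : ℝ) else 0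

/-- graded piece of the difference, contraction by `W`, restriction to `R` -/
noncomputable def DD (r : ℕ) (N : Finset α → Prop) (e f : α) (z : α → ℝ) (d : ℕ)
    (W R : Finset α) : ℝ :=
  ∑ V ∈ R.powerset, ∑ U ∈ (R \ V).powerset, tm r N e f z d W V U

theorem sum_first (z : α → ℝ) {d : ℕ} {W R : Finset α} (hWR : Disjoint W R) (hWr : W.card < r)
    (hd : 2 * (r - W.card) ≤ d + 1) :
    ∑ y ∈ R, (z y) ^ 2 * DD r N e f z (d - 2) (insert y W) (R.erase y) =
      ∑ V ∈ R.powerset, ∑ U ∈ (R \ V).powerset, (V.card : ℝ) * tm r N e f z d W V U := by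
  have e1 : ∀ y ∈ R, (z y) ^ 2 * DD r N e f z (d - 2) (insert y W) (R.erase y) =
      ∑ V ∈ (R.erase y).powerset, (z y) ^ 2 * ∑ U ∈ ((R \ V).erase y).powerset,
        tm r N e f z (d - 2) (insert y W) V U := by
    intro y _
    unfold DD
    rw [Finset.mul_sum]
    apply Finset.sum_congr rfl
    intro V _
    rw [erase_sdiff']
  rw [Finset.sum_congr rfl e1, sum_erase_powerset R (fun V y => (z y) ^ 2 *
    ∑ U ∈ ((R \ V).erase y).powerset, tm r N e f z (d - 2) (insert y W) V U)]
  have e2 : ∀ V ∈ R.powerset, ∀ y ∈ R \ V, (z y) ^ 2 *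
      ∑ U ∈ ((R \ V).erase y).powerset, tm r N e f z (d - 2) (insert y W) V U =
      (fun V' _ => ∑ U ∈ (R \ V').powerset, tm r N e f z d W V' U) (insert y V) y := by
    intro V hV y hy
    rw [Finset.mem_powerset] at hV
    rw [Finset.mem_sdiff] at hy
    have hyW : y ∉ W := fun hh => Finset.disjoint_left.mp hWR hh hy.1
    have s1 : R \ insert y V = (R \ V).erase y := by
      ext x
      simp only [Finset.mem_sdiff, Finset.mem_erase, Finset.mem_insert]
      tauto
    have s2 : insert y W ∪ V = W ∪ insert y V := by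
      ext x
      simp only [Finset.mem_union, Finset.mem_insert]
      tauto
    simp only
    rw [s1, Finset.mul_sum]
    apply Finset.sum_congr rfl
    intro U _
    unfold tm
    rw [Finset.card_insert_of_notMem hyW, Finset.card_insert_of_notMem hy.2, s2]
    by_cases h1 : W.card + 1 + V.card < r
    · have h2 : W.card + (V.card + 1) < r := by omega
      by_cases h3 : 2 * V.card + U.card = d - 2
      · rw [if_pos ⟨h1, h3⟩, if_pos ⟨h2, by omega⟩, zp_insert z hy.2]
        ring
      · rw [if_neg (fun hh => h3 hh.2), if_neg (fun hh => h3 (by omega)), mul_zero]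
    · rw [if_neg (fun hh => h1 hh.1), if_neg (fun hh => h1 (by omega)), mul_zero]
  rw [Finset.sum_congr rfl (fun V hV => Finset.sum_congr rfl (e2 V hV)),
    sum_insert_powerset R (fun V' _ => ∑ U ∈ (R \ V').powerset, tm r N e f z d W V' U)]
  apply Finset.sum_congr rfl
  intro V _
  rw [Finset.sum_const, nsmul_eq_mul, Finset.mul_sum]

theorem sum_second (z : α → ℝ) {d : ℕ} {W R : Finset α} (hd : 1 ≤ d) :
    ∑ y ∈ R, z y * DD r N e f z (d - 1) W (R.erase y) =
      ∑ V ∈ R.powerset, ∑ U ∈ (R \ V).powerset,
        if W.card + V.card < r ∧ 2 * V.card + U.card = d then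
          (zp z V) ^ 2 * zp z U * ∑ y ∈ U, (cW N e f (W ∪ V) (U.erase y) : ℝ) else 0 := by
  have e1 : ∀ y ∈ R, z y * DD r N e f z (d - 1) W (R.erase y) =
      ∑ V ∈ (R.erase y).powerset, z y * ∑ U ∈ ((R \ V).erase y).powerset,
        tm r N e f z (d - 1) W V U := by
    intro y _
    unfold DD
    rw [Finset.mul_sum]
    apply Finset.sum_congr rfl
    intro V _
    rw [erase_sdiff']
  rw [Finset.sum_congr rfl e1, sum_erase_powerset R (fun V y => z y *
    ∑ U ∈ ((R \ V).erase y).powerset, tm r N e f z (d - 1) W V U)]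
  apply Finset.sum_congr rfl
  intro V _
  have e2 : ∑ y ∈ R \ V, z y * ∑ U ∈ ((R \ V).erase y).powerset, tm r N e f z (d - 1) W V U =
      ∑ y ∈ R \ V, ∑ U ∈ ((R \ V).erase y).powerset, z y * tm r N e f z (d - 1) W V U := by
    apply Finset.sum_congr rfl
    intro y _
    rw [Finset.mul_sum]
  rw [e2, sum_erase_powerset (R \ V) (fun U y => z y * tm r N e f z (d - 1) W V U)]
  have e3 : ∀ U ∈ (R \ V).powerset, ∀ y ∈ (R \ V) \ U, z y * tm r N e f z (d - 1) W V U =
      (fun U' y' => z y' * tm r N e f z (d - 1) W V (U'.erase y')) (insert y U) y := by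
    intro U _ y hy
    rw [Finset.mem_sdiff] at hy
    simp only
    rw [Finset.erase_insert hy.2]
  rw [Finset.sum_congr rfl (fun U hU => Finset.sum_congr rfl (e3 U hU)),
    sum_insert_powerset (R \ V) (fun U' y' => z y' * tm r N e f z (d - 1) W V (U'.erase y'))]
  apply Finset.sum_congr rfl
  intro U _
  by_cases h1 : W.card + V.card < r ∧ 2 * V.card + U.card = d
  · rw [if_pos h1, Finset.mul_sum]
    apply Finset.sum_congr rfl
    intro y hy
    have hc := Finset.card_erase_of_mem hy
    have hp : 1 ≤ U.card := Finset.card_pos.mpr ⟨y, hy⟩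
    unfold tm
    rw [if_pos ⟨h1.1, by omega⟩, ← zp_erase z hy]
    ring
  · rw [if_neg h1]
    apply Finset.sum_eq_zero
    intro y hy
    have hc := Finset.card_erase_of_mem hy
    have hp : 1 ≤ U.card := Finset.card_pos.mpr ⟨y, hy⟩
    unfold tm
    rw [if_neg, mul_zero]
    rintro ⟨h2, h3⟩
    exact h1 ⟨h2, by omega⟩

/-- the recursive inequality -/
theorem DD_rec (hP : Pav r N) (hK : KEYall α) (hef : e ≠ f) {z : α → ℝ} (hz : ∀ x, 0 < z x)
    {d : ℕ} {W R : Finset α} (hWR : Disjoint W R) (heW : e ∉ W) (hfW : f ∉ W) (heR : e ∉ R)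
    (hfR : f ∉ R) (hW : W.card < r) (hd : 2 * (r - W.card) ≤ d + 1) :
    ∑ y ∈ R, (z y) ^ 2 * DD r N e f z (d - 2) (insert y W) (R.erase y) +
      ∑ y ∈ R, z y * DD r N e f z (d - 1) W (R.erase y) ≤
      ((d : ℝ) + 1 - (r - W.card)) * DD r N e f z d W R := by
  rw [sum_first z hWR hW hd, sum_second z (by omega), ← Finset.sum_add_distrib]
  unfold DD
  rw [Finset.mul_sum]
  apply Finset.sum_le_sum
  intro V hV
  rw [Finset.mem_powerset] at hV
  rw [← Finset.sum_add_distrib, Finset.mul_sum]
  apply Finset.sum_le_sum
  intro U hU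
  rw [Finset.mem_powerset] at hU
  by_cases h1 : W.card + V.card < r ∧ 2 * V.card + U.card = d
  · rw [if_pos h1]
    have hWV : Disjoint W V := hWR.mono_right hV
    have hUR : U ⊆ R := hU.trans Finset.sdiff_subset
    have hVU : Disjoint V U := (Finset.disjoint_sdiff).mono_right hU
    have hc : (W ∪ V).card = W.card + V.card := Finset.card_union_of_disjoint hWV
    have hml := hP.ML (e := e) (f := f) hK (W := W ∪ V) (U := U) (by omega) hef
      (fun hh => by
        rcases Finset.mem_union.mp hh with h2 | h2
        · exact heW h2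
        · exact heR (hV h2))
      (fun hh => by
        rcases Finset.mem_union.mp hh with h2 | h2
        · exact hfW h2
        · exact hfR (hV h2))
      (fun hh => heR (hUR hh)) (fun hh => hfR (hUR hh))
      (Finset.disjoint_union_left.mpr ⟨hWR.mono_right hUR, hVU⟩) (by omega)
    have hml' : (∑ y ∈ U, (cW N e f (W ∪ V) (U.erase y) : ℝ)) ≤
        ((U.card : ℝ) + 1 - (r - (W.card + V.card))) * (cW N e f (W ∪ V) U : ℝ) := by
      have := (Int.cast_le (R := ℝ)).mpr hml
      rw [hc] at this
      push_cast at this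
      linarith
    unfold tm
    rw [if_pos h1]
    have hz1 : 0 < (zp z V) ^ 2 * zp z U := mul_pos (pow_pos (zp_pos hz V) 2) (zp_pos hz U)
    have hd' : (d : ℝ) = 2 * (V.card : ℝ) + U.card := by
      rw [← h1.2]
      push_cast
      ring
    have h3 := mul_le_mul_of_nonneg_left hml' hz1.le
    rw [hd']
    nlinarith
  · rw [if_neg h1]
    unfold tm
    rw [if_neg h1]
    simp

/-- all graded pieces are nonnegative if the lowest ones are -/
theorem DD_nonneg (hP : Pav r N) (hK : KEYall α) (hef : e ≠ f) {z : α → ℝ} (hz : ∀ x, 0 < z x)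
    (hbase : ∀ W R : Finset α, Disjoint W R → e ∉ W → f ∉ W → e ∉ R → f ∉ R → W.card < r →
      0 ≤ DD r N e f z (2 * (r - W.card) - 2) W R) :
    ∀ (k : ℕ) (W R : Finset α), R.card = k → Disjoint W R → e ∉ W → f ∉ W → e ∉ R → f ∉ R →
      ∀ d, 2 * (r - W.card) ≤ d + 2 → 0 ≤ DD r N e f z d W R := by
  intro k
  induction k with
  | zero =>
    intro W R hR hWR heW hfW heR hfR d hd
    by_cases hW : W.card < r
    · by_cases hd2 : d = 2 * (r - W.card) - 2
      · rw [hd2]
        exact hbase W R hWR heW hfW heR hfR hW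
      · have h1 := DD_rec hP hK hef hz hWR heW hfW heR hfR hW (d := d) (by omega)
        have hR0 : R = ∅ := Finset.card_eq_zero.mp hR
        rw [hR0] at h1 ⊢
        simp only [Finset.sum_empty, add_zero] at h1
        have h2 : (0 : ℝ) < (d : ℝ) + 1 - (r - W.card) := by
          have : (r : ℝ) < (d : ℝ) + 1 + W.card := by
            exact_mod_cast (by omega : r < d + 1 + W.card)
          linarith
        exact nonneg_of_mul_nonneg_right h1 h2
    · apply le_of_eq
      symm
      unfold DD
      apply Finset.sum_eq_zero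
      intro V _
      apply Finset.sum_eq_zero
      intro U _
      unfold tm
      rw [if_neg]
      omega
  | succ k ih =>
    intro W R hR hWR heW hfW heR hfR d hd
    by_cases hW : W.card < r
    · by_cases hd2 : d = 2 * (r - W.card) - 2
      · rw [hd2]
        exact hbase W R hWR heW hfW heR hfR hW
      · have h1 := DD_rec hP hK hef hz hWR heW hfW heR hfR hW (d := d) (by omega)
        have h2 : (0 : ℝ) < (d : ℝ) + 1 - (r - W.card) := by
          have : (r : ℝ) < (d : ℝ) + 1 + W.card := by
            exact_mod_cast (by omega : r < d + 1 + W.card)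
          linarith
        have h3 : 0 ≤ ∑ y ∈ R, (z y) ^ 2 * DD r N e f z (d - 2) (insert y W) (R.erase y) := by
          apply Finset.sum_nonneg
          intro y hy
          apply mul_nonneg (sq_nonneg _)
          have hyW : y ∉ W := fun hh => Finset.disjoint_left.mp hWR hh hy
          have hcy := Finset.card_insert_of_notMem hyW
          apply ih
          · rw [Finset.card_erase_of_mem hy, hR]
            rfl
          · rw [Finset.disjoint_left]
            intro x hx hx'
            rw [Finset.mem_erase] at hx'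
            rcases Finset.mem_insert.mp hx with h4 | h4
            · exact hx'.1 h4
            · exact Finset.disjoint_left.mp hWR h4 hx'.2
          · intro hh
            rcases Finset.mem_insert.mp hh with h4 | h4
            · exact heR (h4 ▸ hy)
            · exact heW h4
          · intro hh
            rcases Finset.mem_insert.mp hh with h4 | h4
            · exact hfR (h4 ▸ hy)
            · exact hfW h4
          · exact fun hh => heR (Finset.mem_of_mem_erase hh)
          · exact fun hh => hfR (Finset.mem_of_mem_erase hh)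
          · omega
        have h4 : 0 ≤ ∑ y ∈ R, z y * DD r N e f z (d - 1) W (R.erase y) := by
          apply Finset.sum_nonneg
          intro y hy
          apply mul_nonneg (hz y).le
          apply ih
          · rw [Finset.card_erase_of_mem hy, hR]
            rfl
          · exact hWR.mono_right (Finset.erase_subset _ _)
          · exact heW
          · exact hfW
          · exact fun hh => heR (Finset.mem_of_mem_erase hh)
          · exact fun hh => hfR (Finset.mem_of_mem_erase hh)
          · omega
        exact nonneg_of_mul_nonneg_right (by linarith) h2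
    · apply le_of_eq
      symm
      unfold DD
      apply Finset.sum_eq_zero
      intro V _
      apply Finset.sum_eq_zero
      intro U _
      unfold tm
      rw [if_neg]
      omega

end Pool.IS
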