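import Pool.Agent.IS.Tot

/-!
# The lowest graded pieces from the correlation inequality for independent sets
-/

set_option autoImplicit false
open Classical

namespace Pool.IS

variable {α : Type*} [DecidableEq α]

/-- what is used about independent and spanning sets -/
structure BI (r : ℕ) (I S : Finset α → Prop) : Prop where
  ile : ∀ {A : Finset α}, I A → A.card ≤ r
  sle : ∀ {A : Finset α}, S A → r ≤ A.card
  iff : ∀ {A : Finset α}, A.card = r → (I A ↔ S A)

variable {r : ℕ} {I S : Finset α → Prop} {e f : α}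

/-- exponent weights -/
noncomputable def ww (W R : Finset α) (x : α) : ℕ := if x ∈ W then 2 else if x ∈ R then 1 else 0

theorem ww_le (W R A : Finset α) : ∑ x ∈ A, ww W R x ≤ (A ∩ W).card + A.card := by
  have h1 : (A ∩ W).card + A.card = ∑ x ∈ A, ((if x ∈ W then 1 else 0) + 1) := by
    rw [Finset.sum_add_distrib, ← Finset.card_filter, Finset.filter_mem_eq_inter,
      ← Finset.card_eq_sum_ones]
  rw [h1]
  apply Finset.sum_le_sum
  intro x _
  unfold ww
  split_ifs <;> omega

theorem ww_lt {W R A : Finset α} (h : ¬ A ⊆ W ∪ R) :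
    ∑ x ∈ A, ww W R x < (A ∩ W).card + A.card := by
  have h1 : (A ∩ W).card + A.card = ∑ x ∈ A, ((if x ∈ W then 1 else 0) + 1) := by
    rw [Finset.sum_add_distrib, ← Finset.card_filter, Finset.filter_mem_eq_inter,
      ← Finset.card_eq_sum_ones]
  rw [h1]
  obtain ⟨x, hx, hx'⟩ := Finset.not_subset.mp h
  rw [Finset.mem_union, not_or] at hx'
  apply Finset.sum_lt_sum
  · intro y _
    unfold ww
    split_ifs <;> omega
  · refine ⟨x, hx, ?_⟩
    unfold ww
    rw [if_neg hx'.1, if_neg hx'.2, if_neg hx'.1]
    omega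

theorem ww_eq {W R A : Finset α} (h : A ⊆ W ∪ R) :
    ∑ x ∈ A, ww W R x = (A ∩ W).card + A.card := by
  have h1 : (A ∩ W).card + A.card = ∑ x ∈ A, ((if x ∈ W then 1 else 0) + 1) := by
    rw [Finset.sum_add_distrib, ← Finset.card_filter, Finset.filter_mem_eq_inter,
      ← Finset.card_eq_sum_ones]
  rw [h1]
  apply Finset.sum_congr rfl
  intro x hx
  have := h hx
  rw [Finset.mem_union] at this
  unfold ww
  by_cases h2 : x ∈ W
  · rw [if_pos h2, if_pos h2]
  · rw [if_neg h2, if_neg h2, if_pos (by tauto)]

theorem phi_I_zero (hB : BI r I S) {A B : Finset α} (hef : e ≠ f) (heA : e ∉ A) (hfA : f ∉ A)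
    (hfB : f ∉ B) (h : 2 * r < A.card + B.card + 2) : phi I e f A B = 0 := by
  have c1 : (insert e A).card = A.card + 1 := Finset.card_insert_of_notMem heA
  have c2 : (insert f B).card = B.card + 1 := Finset.card_insert_of_notMem hfB
  have c3 : (insert f A).card = A.card + 1 := Finset.card_insert_of_notMem hfA
  have c4 : (insert e (insert f A)).card = A.card + 2 := by
    rw [Finset.card_insert_of_notMem, c3]
    simp [hef, heA]
  unfold phi
  rw [indR_false, indR_false, sub_zero]
  · rintro ⟨h1, h2⟩
    have := hB.ile h1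
    have := hB.ile h2
    omega
  · rintro ⟨h1, h2⟩
    have := hB.ile h1
    have := hB.ile h2
    omega

theorem phi_I_S (hB : BI r I S) {A B : Finset α} (hef : e ≠ f) (heA : e ∉ A) (hfA : f ∉ A)
    (hfB : f ∉ B) (h : A.card + B.card + 2 = 2 * r) : phi I e f A B = phi S e f A B := by
  have c1 : (insert e A).card = A.card + 1 := Finset.card_insert_of_notMem heA
  have c2 : (insert f B).card = B.card + 1 := Finset.card_insert_of_notMem hfB
  have c3 : (insert f A).card = A.card + 1 := Finset.card_insert_of_notMem hfA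
  have c4 : (insert e (insert f A)).card = A.card + 2 := by
    rw [Finset.card_insert_of_notMem, c3]
    simp [hef, heA]
  unfold phi
  congr 1
  · apply indR_congr
    constructor
    · rintro ⟨h1, h2⟩
      have k1 := hB.ile h1
      have k2 := hB.ile h2
      exact ⟨(hB.iff (by omega)).mp h1, (hB.iff (by omega)).mp h2⟩
    · rintro ⟨h1, h2⟩
      have k1 := hB.sle h1
      have k2 := hB.sle h2
      exact ⟨(hB.iff (by omega)).mpr h1, (hB.iff (by omega)).mpr h2⟩
  · apply indR_congr
    constructor
    · rintro ⟨h1, h2⟩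
      have k1 := hB.ile h1
      have k2 := hB.ile h2
      exact ⟨(hB.iff (by omega)).mp h1, (hB.iff (by omega)).mp h2⟩
    · rintro ⟨h1, h2⟩
      have k1 := hB.sle h1
      have k2 := hB.sle h2
      exact ⟨(hB.iff (by omega)).mpr h1, (hB.iff (by omega)).mpr h2⟩

theorem zp_scale (z : α → ℝ) (T : ℝ) (w : α → ℕ) (A : Finset α) :
    zp (fun x => z x * T ^ w x) A = zp z A * T ^ (∑ x ∈ A, w x) := by
  unfold zp
  rw [Finset.prod_mul_distrib, Finset.prod_pow_eq_pow_sum]

/-- restricting a sum over subsets of `G` to the sets `W + A`, `A` a subset of `R` -/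
theorem sum_restrict {G W R : Finset α} (hWG : W ⊆ G) (hRG : R ⊆ G) (hWR : Disjoint W R)
    (h : Finset α → ℝ) (h0 : ∀ A ⊆ G, ¬ (W ⊆ A ∧ A ⊆ W ∪ R) → h A = 0) :
    ∑ A ∈ G.powerset, h A = ∑ A ∈ R.powerset, h (W ∪ A) := by
  have e1 : ∑ A ∈ R.powerset, h (W ∪ A) = ∑ A ∈ R.powerset.image (fun A => W ∪ A), h A := by
    rw [Finset.sum_image]
    intro A hA B hB hAB
    simp only [Finset.coe_powerset, Set.mem_preimage, Set.mem_powerset_iff, Finset.coe_subset] at hA hB
    simp only at hAB
    have : ∀ X : Finset α, X ⊆ R → (W ∪ X) \ W = X := by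
      intro X hX
      rw [Finset.union_sdiff_left]
      exact Finset.sdiff_eq_self_of_disjoint (hWR.mono_right hX).symm
    rw [← this A hA, ← this B hB, hAB]
  rw [e1]
  symm
  apply Finset.sum_subset
  · intro A hA
    rw [Finset.mem_image] at hA
    obtain ⟨B, hB, rfl⟩ := hA
    rw [Finset.mem_powerset] at hB ⊢
    exact Finset.union_subset hWG (hB.trans hRG)
  · intro A hA hA'
    apply h0 A (Finset.mem_powerset.mp hA)
    rintro ⟨h1, h2⟩
    apply hA'
    rw [Finset.mem_image]
    refine ⟨A \ W, ?_, Finset.union_sdiff_of_subset h1⟩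
    rw [Finset.mem_powerset]
    intro x hx
    rw [Finset.mem_sdiff] at hx
    rcases Finset.mem_union.mp (h2 hx.1) with h3 | h3
    · exact absurd h3 hx.2
    · exact h3

theorem base_nonneg (hB : BI r I S) (hef : e ≠ f) {G W R : Finset α} (heG : e ∉ G) (hfG : f ∉ G)
    (hI : ∀ z : α → ℝ, (∀ x, 0 < z x) →
      0 ≤ ∑ A ∈ G.powerset, ∑ B ∈ G.powerset, zp z A * zp z B * phi I e f A B)
    (hWG : W ⊆ G) (hRG : R ⊆ G) (hWR : Disjoint W R) (hW : W.card < r)
    {z : α → ℝ} (hz : ∀ x, 0 < z x) :
    0 ≤ DD r (fun A => ¬ S A) e f z (2 * (r - W.card) - 2) W R := by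
  set K := 2 * W.card + (2 * r - 2) with hK
  let k : Finset α → ℕ := fun A => ∑ x ∈ A, ww W R x
  let F : ℝ → ℝ := fun x => ∑ A ∈ G.powerset, ∑ B ∈ G.powerset,
    zp z A * zp z B * phi I e f A B * x ^ (K - (k A + k B))
  have hkle : ∀ A B : Finset α, A.card + B.card + 2 ≤ 2 * r → k A + k B ≤ K := by
    intro A B h
    have h1 := ww_le W R A
    have h2 := ww_le W R B
    have h3 := Finset.card_le_card (Finset.inter_subset_right : A ∩ W ⊆ W)
    have h4 := Finset.card_le_card (Finset.inter_subset_right : B ∩ W ⊆ W)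
    change ∑ x ∈ A, ww W R x + ∑ x ∈ B, ww W R x ≤ K
    omega
  have hFpos : ∀ x : ℝ, 0 < x → 0 ≤ F x := by
    intro x hx
    have h1 := hI (fun y => z y * (x⁻¹) ^ ww W R y) (fun y => mul_pos (hz y) (pow_pos (inv_pos.mpr hx) _))
    have h2 : F x = x ^ K * ∑ A ∈ G.powerset, ∑ B ∈ G.powerset,
        zp (fun y => z y * (x⁻¹) ^ ww W R y) A * zp (fun y => z y * (x⁻¹) ^ ww W R y) B *
        phi I e f A B := by
      rw [Finset.mul_sum]
      apply Finset.sum_congr rfl
      intro A hA
      rw [Finset.mul_sum]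
      apply Finset.sum_congr rfl
      intro B hB'
      rw [Finset.mem_powerset] at hA hB'
      rw [zp_scale, zp_scale]
      by_cases hc : A.card + B.card + 2 ≤ 2 * r
      · have h3 := hkle A B hc
        have h4 : x ^ K * ((x⁻¹) ^ (k A) * (x⁻¹) ^ (k B)) = x ^ (K - (k A + k B)) := by
          rw [← pow_add, inv_pow]
          have hx' : x ^ (k A + k B) ≠ 0 := (pow_pos hx _).ne'
          have : x ^ K = x ^ (K - (k A + k B)) * x ^ (k A + k B) := by
            rw [← pow_add, Nat.sub_add_cancel h3]
          rw [this, mul_assoc, mul_inv_cancel₀ hx', mul_one]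
        rw [← h4]
        change _ = x ^ K * (zp z A * x⁻¹ ^ (k A) * (zp z B * x⁻¹ ^ (k B)) * phi I e f A B)
        ring
      · rw [phi_I_zero hB hef (fun hh => heG (hA hh)) (fun hh => hfG (hA hh))
          (fun hh => hfG (hB' hh)) (by omega)]
        ring
    rw [h2]
    exact mul_nonneg (pow_pos hx _).le h1
  have hF0 : 0 ≤ F 0 := by
    have hcont : Continuous F := by
      apply continuous_finsetSum
      intro A _
      apply continuous_finsetSum
      intro B _
      exact continuous_const.mul (continuous_pow _)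
    have ht : Filter.Tendsto F (nhdsWithin 0 (Set.Ioi 0)) (nhds (F 0)) :=
      (hcont.tendsto 0).mono_left nhdsWithin_le_nhds
    apply ge_of_tendsto ht
    filter_upwards [self_mem_nhdsWithin] with x hx
    exact hFpos x hx
  -- evaluate F 0
  have hterm : ∀ A ⊆ G, ∀ B ⊆ G, zp z A * zp z B * phi I e f A B * (0 : ℝ) ^ (K - (k A + k B)) =
      if (W ⊆ A ∧ A ⊆ W ∪ R) ∧ (W ⊆ B ∧ B ⊆ W ∪ R) ∧ A.card + B.card + 2 = 2 * r then
        zp z A * zp z B * phi S e f A B else 0 := by
    intro A hA B hB'
    have hq1 := ww_le W R A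
    have hq2 := ww_le W R B
    have hq3 := Finset.card_le_card (Finset.inter_subset_right : A ∩ W ⊆ W)
    have hq4 := Finset.card_le_card (Finset.inter_subset_right : B ∩ W ⊆ W)
    by_cases hc : A.card + B.card + 2 ≤ 2 * r
    · by_cases hall : (W ⊆ A ∧ A ⊆ W ∪ R) ∧ (W ⊆ B ∧ B ⊆ W ∪ R) ∧ A.card + B.card + 2 = 2 * r
      · rw [if_pos hall]
        obtain ⟨⟨h1, h2⟩, ⟨h3, h4⟩, h5⟩ := hall
        have g1 := ww_eq h2
        have g2 := ww_eq h4
        have g3 : A ∩ W = W := Finset.inter_eq_right.mpr h1
        have g4 : B ∩ W = W := Finset.inter_eq_right.mpr h3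
        rw [g3] at g1
        rw [g4] at g2
        have g5 : K - (k A + k B) = 0 := by
          change K - (∑ x ∈ A, ww W R x + ∑ x ∈ B, ww W R x) = 0
          omega
        rw [g5, pow_zero, mul_one, phi_I_S hB hef (fun hh => heG (hA hh)) (fun hh => hfG (hA hh))
          (fun hh => hfG (hB' hh)) h5]
      · rw [if_neg hall]
        have g5 : K - (k A + k B) ≠ 0 := by
          change K - (∑ x ∈ A, ww W R x + ∑ x ∈ B, ww W R x) ≠ 0
          intro hh
          apply hall
          have a1 : W ⊆ A := by
            by_contra hna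
            have : (A ∩ W).card < W.card := by
              apply Finset.card_lt_card
              refine ⟨Finset.inter_subset_right, ?_⟩
              intro hs
              exact hna (hs.trans Finset.inter_subset_left)
            omega
          have a2 : A ⊆ W ∪ R := by
            by_contra hna
            have := ww_lt hna
            omega
          have a3 : W ⊆ B := by
            by_contra hna
            have : (B ∩ W).card < W.card := by
              apply Finset.card_lt_card
              refine ⟨Finset.inter_subset_right, ?_⟩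
              intro hs
              exact hna (hs.trans Finset.inter_subset_left)
            omega
          have a4 : B ⊆ W ∪ R := by
            by_contra hna
            have := ww_lt hna
            omega
          exact ⟨⟨a1, a2⟩, ⟨a3, a4⟩, by omega⟩
        rw [zero_pow g5, mul_zero]
    · rw [phi_I_zero hB hef (fun hh => heG (hA hh)) (fun hh => hfG (hA hh))
        (fun hh => hfG (hB' hh)) (by omega), if_neg (fun hh => hc (by omega))]
      ring
  have hF0' : F 0 = (zp z W) ^ 2 * DD r (fun A => ¬ S A) e f z (2 * (r - W.card) - 2) W R := by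
    have e1 : F 0 = ∑ A ∈ R.powerset, ∑ B ∈ R.powerset,
        if (W ∪ A).card + (W ∪ B).card + 2 = 2 * r then
          zp z (W ∪ A) * zp z (W ∪ B) * phi S e f (W ∪ A) (W ∪ B) else 0 := by
      have e2 : F 0 = ∑ A ∈ G.powerset, ∑ B ∈ G.powerset,
          if (W ⊆ A ∧ A ⊆ W ∪ R) ∧ (W ⊆ B ∧ B ⊆ W ∪ R) ∧ A.card + B.card + 2 = 2 * r then
          zp z A * zp z B * phi S e f A B else 0 := by
        apply Finset.sum_congr rfl
        intro A hA
        apply Finset.sum_congr rfl
        intro B hB'
        exact hterm A (Finset.mem_powerset.mp hA) B (Finset.mem_powerset.mp hB')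
      rw [e2, sum_restrict hWG hRG hWR]
      · apply Finset.sum_congr rfl
        intro A hA
        rw [Finset.mem_powerset] at hA
        rw [sum_restrict hWG hRG hWR]
        · apply Finset.sum_congr rfl
          intro B hB'
          rw [Finset.mem_powerset] at hB'
          have c1 : (W ⊆ W ∪ A ∧ W ∪ A ⊆ W ∪ R) :=
            ⟨Finset.subset_union_left, Finset.union_subset_union_right hA⟩
          have c2 : (W ⊆ W ∪ B ∧ W ∪ B ⊆ W ∪ R) :=
            ⟨Finset.subset_union_left, Finset.union_subset_union_right hB'⟩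
          by_cases h5 : (W ∪ A).card + (W ∪ B).card + 2 = 2 * r
          · rw [if_pos ⟨c1, c2, h5⟩, if_pos h5]
          · rw [if_neg (fun hh => h5 hh.2.2), if_neg h5]
        · intro B _ hn
          rw [if_neg]
          rintro ⟨-, h2, -⟩
          exact hn h2
      · intro A _ hn
        apply Finset.sum_eq_zero
        intro B _
        rw [if_neg]
        rintro ⟨h2, -⟩
        exact hn h2
    rw [e1, sum_pairs R (fun A B => if (W ∪ A).card + (W ∪ B).card + 2 = 2 * r then
          zp z (W ∪ A) * zp z (W ∪ B) * phi S e f (W ∪ A) (W ∪ B) else 0)]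
    unfold DD
    rw [Finset.mul_sum]
    apply Finset.sum_congr rfl
    intro V hV
    rw [Finset.mul_sum]
    apply Finset.sum_congr rfl
    intro U hU
    rw [Finset.mem_powerset] at hV hU
    have hWV : Disjoint W V := hWR.mono_right hV
    have hUR : U ⊆ R := hU.trans Finset.sdiff_subset
    have hVU : Disjoint V U := (Finset.disjoint_sdiff).mono_right hU
    have hWVU : Disjoint (W ∪ V) U := Finset.disjoint_union_left.mpr ⟨hWR.mono_right hUR, hVU⟩
    have hc : ∀ A ⊆ U, (W ∪ (V ∪ A)).card + (W ∪ (V ∪ (U \ A))).card =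
        2 * W.card + 2 * V.card + U.card := by
      intro A hA
      rw [← Finset.union_assoc, ← Finset.union_assoc,
        Finset.card_union_of_disjoint (hWVU.mono_right hA),
        Finset.card_union_of_disjoint (hWVU.mono_right Finset.sdiff_subset),
        Finset.card_union_of_disjoint hWV]
      have := Finset.card_sdiff_add_card_eq_card hA
      omega
    unfold tm
    by_cases h5 : 2 * W.card + 2 * V.card + U.card + 2 = 2 * r
    · rw [if_pos ⟨by omega, by omega⟩]
      have e3 : ∀ A ∈ U.powerset, (if (W ∪ (V ∪ A)).card + (W ∪ (V ∪ (U \ A))).card + 2 = 2 * r then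
          zp z (W ∪ (V ∪ A)) * zp z (W ∪ (V ∪ (U \ A))) *
            phi S e f (W ∪ (V ∪ A)) (W ∪ (V ∪ (U \ A))) else 0) =
          zp z ((W ∪ V) ∪ A) * zp z ((W ∪ V) ∪ (U \ A)) *
            phi (fun X => ¬ ¬ S X) e f ((W ∪ V) ∪ A) ((W ∪ V) ∪ (U \ A)) := by
        intro A hA
        rw [Finset.mem_powerset] at hA
        have hc' := hc A hA
        rw [if_pos (by omega), ← Finset.union_assoc, ← Finset.union_assoc]
        simp only [not_not]
      rw [Finset.sum_congr rfl e3, sum_phi (N := fun A => ¬ S A) z (W ∪ V) hWVU]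
      have e4 : zp z (W ∪ V) = zp z W * zp z V := Finset.prod_union hWV
      rw [e4]
      ring
    · rw [if_neg (fun hh => h5 (by omega)), mul_zero]
      apply Finset.sum_eq_zero
      intro A hA
      rw [Finset.mem_powerset] at hA
      have hc' := hc A hA
      rw [if_neg (fun hh => h5 (by omega))]
  rw [hF0'] at hF0
  exact nonneg_of_mul_nonneg_right hF0 (pow_pos (zp_pos hz W) 2)

end Pool.IS
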