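import Mathlib

/-!
# Paving systems: definitions and block API (MP_c59e09_co)

`Sys r U a b g` abstracts a paving matroid of rank `r` seen from two elements `e, f` and a set
`U` of other elements: `a A` says that `A + e` is nonspanning, `b A` that `A + f` is nonspanning,
`g A` that `A + e + f` is nonspanning (`A` a subset of `U`).
-/

set_option autoImplicit false
open Classical

namespace Pool.IS

variable {α : Type*} [DecidableEq α]

structure Sys (r : ℕ) (U : Finset α) (a b g : Finset α → Prop) : Prop where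
  am : ∀ {A B : Finset α}, A ⊆ B → B ⊆ U → a B → a A
  bm : ∀ {A B : Finset α}, A ⊆ B → B ⊆ U → b B → b A
  gm : ∀ {A B : Finset α}, A ⊆ B → B ⊆ U → g B → g A
  ga : ∀ {A : Finset α}, A ⊆ U → g A → a A
  gb : ∀ {A : Finset α}, A ⊆ U → g A → b A
  sa : ∀ {A : Finset α}, A ⊆ U → A.card + 1 < r → a A
  sb : ∀ {A : Finset α}, A ⊆ U → A.card + 1 < r → b A
  sg : ∀ {A : Finset α}, A ⊆ U → A.card + 2 < r → g A
  aa : ∀ {P Q : Finset α}, P ⊆ U → Q ⊆ U → a P → a Q → r ≤ (P ∩ Q).card + 2 → a (P ∪ Q)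
  bb : ∀ {P Q : Finset α}, P ⊆ U → Q ⊆ U → b P → b Q → r ≤ (P ∩ Q).card + 2 → b (P ∪ Q)
  ab : ∀ {P Q : Finset α}, P ⊆ U → Q ⊆ U → a P → b Q → r ≤ (P ∩ Q).card + 1 → g (P ∪ Q)
  ag : ∀ {P Q : Finset α}, P ⊆ U → Q ⊆ U → a P → g Q → r ≤ (P ∩ Q).card + 2 → g (P ∪ Q)
  bg : ∀ {P Q : Finset α}, P ⊆ U → Q ⊆ U → b P → g Q → r ≤ (P ∩ Q).card + 2 → g (P ∪ Q)
  gg : ∀ {P Q : Finset α}, P ⊆ U → Q ⊆ U → g P → g Q → r ≤ (P ∩ Q).card + 3 → g (P ∪ Q)

variable {r : ℕ} {U : Finset α} {a b g : Finset α → Prop}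

theorem Sys.symm (h : Sys r U a b g) : Sys r U b a g where
  am := h.bm
  bm := h.am
  gm := h.gm
  ga := h.gb
  gb := h.ga
  sa := h.sb
  sb := h.sa
  sg := h.sg
  aa := h.bb
  bb := h.aa
  ab := by
    intro P Q hP hQ p q hc
    rw [Finset.union_comm]
    exact h.ab hQ hP q p (by rw [Finset.inter_comm]; exact hc)
  ag := h.bg
  bg := h.ag
  gg := h.gg

theorem Sys.mono (h : Sys r U a b g) {U' : Finset α} (hU : U' ⊆ U) : Sys r U' a b g where
  am := fun h1 h2 => h.am h1 (h2.trans hU)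
  bm := fun h1 h2 => h.bm h1 (h2.trans hU)
  gm := fun h1 h2 => h.gm h1 (h2.trans hU)
  ga := fun h1 => h.ga (h1.trans hU)
  gb := fun h1 => h.gb (h1.trans hU)
  sa := fun h1 => h.sa (h1.trans hU)
  sb := fun h1 => h.sb (h1.trans hU)
  sg := fun h1 => h.sg (h1.trans hU)
  aa := fun h1 h2 => h.aa (h1.trans hU) (h2.trans hU)
  bb := fun h1 h2 => h.bb (h1.trans hU) (h2.trans hU)
  ab := fun h1 h2 => h.ab (h1.trans hU) (h2.trans hU)
  ag := fun h1 h2 => h.ag (h1.trans hU) (h2.trans hU)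
  bg := fun h1 h2 => h.bg (h1.trans hU) (h2.trans hU)
  gg := fun h1 h2 => h.gg (h1.trans hU) (h2.trans hU)

/-- `X` (at least `r - 1` elements) lies in a block through `e` only. -/
def isE (r : ℕ) (a g : Finset α → Prop) (X : Finset α) : Prop := r ≤ X.card + 1 ∧ a X ∧ ¬ g X

/-- good sets `V`: the complement in `U` has `r - 2` elements and is not in a block through `e, f`,
and no `V - v` is in a block. -/
def gd (r : ℕ) (U : Finset α) (a b g : Finset α → Prop) (V : Finset α) : Prop :=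
  (U \ V).card + 2 = r ∧ ¬ g (U \ V) ∧ ∀ v ∈ V, ¬ a (V.erase v) ∧ ¬ b (V.erase v)

noncomputable def SG (r : ℕ) (U : Finset α) (a b g : Finset α → Prop) : Finset (Finset α) :=
  U.powerset.filter (gd r U a b g)

/-- splits `(X, y)` : `U = X + y + Z`, `X` an `E`-set, `Z` an `F`-set, `y` in neither block. -/
noncomputable def N0 (r : ℕ) (U : Finset α) (a b g : Finset α → Prop) : Finset (Finset α × α) :=
  (U.powerset ×ˢ U).filter (fun p => p.2 ∉ p.1 ∧ isE r a g p.1 ∧ isE r b g ((U \ p.1).erase p.2) ∧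
    ¬ a (insert p.2 p.1) ∧ ¬ b (U \ p.1))

/-- splits `(X, y)` : `U = X + y + Z`, `X` an `E`-set, `Z` an `F`-set, `y` in both blocks. -/
noncomputable def N2 (r : ℕ) (U : Finset α) (a b g : Finset α → Prop) : Finset (Finset α × α) :=
  (U.powerset ×ˢ U).filter (fun p => p.2 ∉ p.1 ∧ isE r a g p.1 ∧ isE r b g ((U \ p.1).erase p.2) ∧
    a (insert p.2 p.1) ∧ b (U \ p.1))

/-- partitions `U = X + Y`, both of size at least `r`, `X` an `E`-set, `Y` an `F`-set. -/
noncomputable def MM (r : ℕ) (U : Finset α) (a b g : Finset α → Prop) : Finset (Finset α) :=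
  U.powerset.filter (fun X => r ≤ X.card ∧ r ≤ (U \ X).card ∧ isE r a g X ∧ isE r b g (U \ X))

/-- the key counting inequality -/
def KEY (r : ℕ) (U : Finset α) (a b g : Finset α → Prop) : Prop :=
  (N0 r U a b g).card + (r - 1) * (MM r U a b g).card ≤ (SG r U a b g).card + (N2 r U a b g).card

/-- the blocks through `e` only (traces on `U`, at least `r - 1` elements); `blk r U b g` are the
blocks through `f` only. -/
noncomputable def blk (r : ℕ) (U : Finset α) (a g : Finset α → Prop) : Finset (Finset α) :=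
  U.powerset.filter (fun H => isE r a g H ∧ ∀ y ∈ U, a (insert y H) → y ∈ H)

theorem mem_blk {H : Finset α} : H ∈ blk r U a g ↔
    H ⊆ U ∧ (r ≤ H.card + 1 ∧ a H ∧ ¬ g H) ∧ ∀ y ∈ U, a (insert y H) → y ∈ H := by
  rw [blk, Finset.mem_filter, Finset.mem_powerset]
  rfl

theorem mem_SG {V : Finset α} : V ∈ SG r U a b g ↔ V ⊆ U ∧ gd r U a b g V := by
  simp [SG, Finset.mem_filter, Finset.mem_powerset]

theorem mem_N0 {p : Finset α × α} : p ∈ N0 r U a b g ↔ (p.1 ⊆ U ∧ p.2 ∈ U) ∧ p.2 ∉ p.1 ∧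
    isE r a g p.1 ∧ isE r b g ((U \ p.1).erase p.2) ∧ ¬ a (insert p.2 p.1) ∧ ¬ b (U \ p.1) := by
  simp [N0, Finset.mem_filter, Finset.mem_product, Finset.mem_powerset]

theorem mem_N2 {p : Finset α × α} : p ∈ N2 r U a b g ↔ (p.1 ⊆ U ∧ p.2 ∈ U) ∧ p.2 ∉ p.1 ∧
    isE r a g p.1 ∧ isE r b g ((U \ p.1).erase p.2) ∧ a (insert p.2 p.1) ∧ b (U \ p.1) := by
  simp [N2, Finset.mem_filter, Finset.mem_product, Finset.mem_powerset]

theorem mem_MM {X : Finset α} : X ∈ MM r U a b g ↔ X ⊆ U ∧ r ≤ X.card ∧ r ≤ (U \ X).card ∧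
    isE r a g X ∧ isE r b g (U \ X) := by
  simp [MM, Finset.mem_filter, Finset.mem_powerset]

namespace Sys

/-- every `E`-set lies in a block -/
theorem exists_blk (h : Sys r U a b g) {X : Finset α} (hX : X ⊆ U) (hE : isE r a g X) :
    ∃ H ∈ blk r U a g, X ⊆ H := by
  obtain ⟨h1, h2, h3⟩ := hE
  let H := U.filter (fun y => a (insert y X))
  have hHU : H ⊆ U := Finset.filter_subset _ _
  have hXH : X ⊆ H := by
    intro x hx
    rw [Finset.mem_filter]
    refine ⟨hX hx, ?_⟩
    rw [Finset.insert_eq_of_mem hx]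
    exact h2
  have key : ∀ S : Finset α, S ⊆ H → a (X ∪ S) := by
    intro S
    induction S using Finset.induction_on with
    | empty => intro _; simpa using h2
    | insert y S hy ih =>
      intro hS
      have hS' : S ⊆ H := fun x hx => hS (Finset.mem_insert_of_mem hx)
      have hyH : y ∈ H := hS (Finset.mem_insert_self _ _)
      have hyU := hHU hyH
      have hya : a (insert y X) := (Finset.mem_filter.mp hyH).2
      have e1 : X ∪ insert y S = (X ∪ S) ∪ insert y X := by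
        ext x
        simp only [Finset.mem_union, Finset.mem_insert]
        tauto
      rw [e1]
      refine h.aa (Finset.union_subset hX (hS'.trans hHU))
        (Finset.insert_subset hyU hX) (ih hS') hya ?_
      have : X ⊆ (X ∪ S) ∩ insert y X := by
        intro x hx
        simp only [Finset.mem_inter, Finset.mem_union, Finset.mem_insert]
        tauto
      have := Finset.card_le_card this
      omega
  have haH : a H := by
    have := key H (Finset.Subset.refl _)
    rwa [Finset.union_eq_right.mpr hXH] at this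
  refine ⟨H, ?_, hXH⟩
  rw [mem_blk]
  refine ⟨hHU, ⟨?_, haH, ?_⟩, ?_⟩
  · have := Finset.card_le_card hXH
    omega
  · intro hg
    exact h3 (h.gm hXH hHU hg)
  · intro y hy hya
    rw [Finset.mem_filter]
    refine ⟨hy, h.am ?_ (Finset.insert_subset hy hHU) hya⟩
    exact Finset.insert_subset_insert _ hXH

/-- a set meeting a block in at least `r - 2` elements and nonspanning with `e` lies in it -/
theorem sub_blk (h : Sys r U a b g) {H S : Finset α} (hH : H ∈ blk r U a g) (hS : S ⊆ U)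
    (ha : a S) (hc : r ≤ (H ∩ S).card + 2) : S ⊆ H := by
  obtain ⟨h1, ⟨h2, h3, h4⟩, h5⟩ := mem_blk.mp hH
  intro y hy
  apply h5 y (hS hy)
  have := h.aa h1 hS h3 ha hc
  exact h.am (Finset.insert_subset (Finset.mem_union_right _ hy) Finset.subset_union_left)
    (Finset.union_subset h1 hS) this

/-- two distinct blocks of the same kind meet in at most `r - 3` elements -/
theorem blk_inter (h : Sys r U a b g) {H H' : Finset α} (hH : H ∈ blk r U a g)
    (hH' : H' ∈ blk r U a g) (hne : H ≠ H') : (H ∩ H').card + 3 ≤ r := by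
  by_contra hc
  push Not at hc
  apply hne
  obtain ⟨h1, ⟨h2, h3, h4⟩, h5⟩ := mem_blk.mp hH
  obtain ⟨h1', ⟨h2', h3', h4'⟩, h5'⟩ := mem_blk.mp hH'
  apply Finset.Subset.antisymm
  · apply h.sub_blk hH' h1 h3
    rw [Finset.inter_comm]
    omega
  · apply h.sub_blk hH h1' h3'
    omega

/-- an `E`-block meets every set nonspanning with `f` in at most `r - 2` elements -/
theorem blk_b (h : Sys r U a b g) {H S : Finset α} (hH : H ∈ blk r U a g) (hS : S ⊆ U)
    (hb : b S) : (H ∩ S).card + 2 ≤ r := by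
  by_contra hc
  push Not at hc
  obtain ⟨h1, ⟨h2, h3, h4⟩, h5⟩ := mem_blk.mp hH
  exact h4 (h.gm Finset.subset_union_left (Finset.union_subset h1 hS)
    (h.ab h1 hS h3 hb (by omega)))

/-- an `E`-block meets every set nonspanning with `e, f` in at most `r - 3` elements -/
theorem blk_g (h : Sys r U a b g) {H S : Finset α} (hH : H ∈ blk r U a g) (hS : S ⊆ U)
    (hg : g S) : (H ∩ S).card + 3 ≤ r := by
  by_contra hc
  push Not at hc
  obtain ⟨h1, ⟨h2, h3, h4⟩, h5⟩ := mem_blk.mp hH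
  exact h4 (h.gm Finset.subset_union_left (Finset.union_subset h1 hS)
    (h.ag h1 hS h3 hg (by omega)))

/-- for sets with at least `r - 1` elements, nonspanning with `e` means: in an `E`-block, or
nonspanning with `e, f` -/
theorem a_iff (h : Sys r U a b g) {S : Finset α} (hS : S ⊆ U) (hc : r ≤ S.card + 1) :
    a S ↔ (∃ H ∈ blk r U a g, S ⊆ H) ∨ g S := by
  constructor
  · intro ha
    by_cases hg : g S
    · exact Or.inr hg
    · exact Or.inl (h.exists_blk hS ⟨hc, ha, hg⟩)
  · rintro (⟨H, hH, hSH⟩ | hg)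
    · obtain ⟨h1, ⟨h2, h3, h4⟩, h5⟩ := mem_blk.mp hH
      exact h.am hSH h1 h3
    · exact h.ga hS hg

end Sys

/-- the symmetry exchanging `e` and `f` -/
theorem N0_symm : (N0 r U b a g).card = (N0 r U a b g).card := by
  apply Finset.card_bij (fun p _ => ((U \ p.1).erase p.2, p.2))
  · rintro ⟨X, y⟩ hp
    rw [mem_N0] at hp ⊢
    obtain ⟨⟨h1, h2⟩, h3, h4, h5, h6, h7⟩ := hp
    simp only at h1 h2 h3 h4 h5 h6 h7 ⊢
    have e1 : insert y ((U \ X).erase y) = U \ X :=
      Finset.insert_erase (Finset.mem_sdiff.mpr ⟨h2, h3⟩)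
    have e2 : U \ (U \ X).erase y = insert y X := by
      ext x
      simp only [Finset.mem_sdiff, Finset.mem_erase, Finset.mem_insert]
      constructor
      · rintro ⟨hx, hx'⟩
        by_cases hxy : x = y
        · exact Or.inl hxy
        · right
          by_contra hxX
          exact hx' ⟨hxy, hx, hxX⟩
      · rintro (rfl | hx)
        · exact ⟨h2, fun hh => hh.1 rfl⟩
        · exact ⟨h1 hx, fun hh => hh.2.2 hx⟩
    have e3 : (U \ (U \ X).erase y).erase y = X := by
      rw [e2, Finset.erase_insert h3]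
    rw [e1, e3, e2]
    refine ⟨⟨(Finset.erase_subset _ _).trans Finset.sdiff_subset, h2⟩, ?_, h5, h4, h7, h6⟩
    simp
  · rintro ⟨X, y⟩ hp ⟨X', y'⟩ hp' he
    rw [mem_N0] at hp hp'
    obtain ⟨⟨h1, h2⟩, h3, -⟩ := hp
    obtain ⟨⟨h1', h2'⟩, h3', -⟩ := hp'
    simp only [Prod.mk.injEq] at he h1 h2 h3 h1' h2' h3' ⊢
    obtain ⟨he1, rfl⟩ := he
    refine ⟨?_, rfl⟩
    have : U \ X = U \ X' := by
      rw [← Finset.insert_erase (Finset.mem_sdiff.mpr ⟨h2, h3⟩), he1,
        Finset.insert_erase (Finset.mem_sdiff.mpr ⟨h2, h3'⟩)]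
    rw [← Finset.sdiff_sdiff_eq_self h1, this, Finset.sdiff_sdiff_eq_self h1']
  · rintro ⟨X, y⟩ hp
    rw [mem_N0] at hp
    obtain ⟨⟨h1, h2⟩, h3, h4, h5, h6, h7⟩ := hp
    simp only at h1 h2 h3 h4 h5 h6 h7
    have e1 : insert y ((U \ X).erase y) = U \ X :=
      Finset.insert_erase (Finset.mem_sdiff.mpr ⟨h2, h3⟩)
    have e2 : U \ (U \ X).erase y = insert y X := by
      ext x
      simp only [Finset.mem_sdiff, Finset.mem_erase, Finset.mem_insert]
      constructor
      · rintro ⟨hx, hx'⟩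
        by_cases hxy : x = y
        · exact Or.inl hxy
        · right
          by_contra hxX
          exact hx' ⟨hxy, hx, hxX⟩
      · rintro (rfl | hx)
        · exact ⟨h2, fun hh => hh.1 rfl⟩
        · exact ⟨h1 hx, fun hh => hh.2.2 hx⟩
    have e3 : (U \ (U \ X).erase y).erase y = X := by
      rw [e2, Finset.erase_insert h3]
    refine ⟨((U \ X).erase y, y), ?_, ?_⟩
    · rw [mem_N0]
      simp only
      rw [e1, e3, e2]
      refine ⟨⟨(Finset.erase_subset _ _).trans Finset.sdiff_subset, h2⟩, ?_, h5, h4, h7, h6⟩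
      simp
    · simp only
      rw [e3]

end Pool.IS
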