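import Pool.Agent.IS.Tau

/-!
# KEY for `|U| = 2r - 1`: the full splits are paid by `N2`
-/

set_option autoImplicit false
open Classical

namespace Pool.IS

variable {α : Type*} [DecidableEq α]

variable {r : ℕ} {U : Finset α} {a b g : Finset α → Prop} {X Z H K : Finset α} {y : α}

theorem isE_of_blk (h : Sys r U a b g) (hH : H ∈ blk r U a g) (hX : X ⊆ H)
    (hc : r ≤ X.card + 1) : isE r a g X := by
  obtain ⟨h1, ⟨h2, h3, h4⟩, h5⟩ := mem_blk.mp hH
  refine ⟨hc, h.am hX h1 h3, fun hg => ?_⟩
  have h6 := h.blk_g hH (hX.trans h1) hg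
  rw [Finset.inter_eq_right.mpr hX] at h6
  omega

/-- pairs of blocks covering `U` and meeting in `r - 2` elements -/
noncomputable def CP (r : ℕ) (U : Finset α) (a b g : Finset α → Prop) :
    Finset (Finset α × Finset α) :=
  (blk r U a g ×ˢ blk r U b g).filter (fun P => P.1 ∪ P.2 = U ∧ (P.1 ∩ P.2).card + 2 = r ∧
    3 ≤ (U \ P.1).card ∧ 3 ≤ (U \ P.2).card)

theorem mem_CP {P : Finset α × Finset α} : P ∈ CP r U a b g ↔
    (P.1 ∈ blk r U a g ∧ P.2 ∈ blk r U b g) ∧ P.1 ∪ P.2 = U ∧ (P.1 ∩ P.2).card + 2 = r ∧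
    3 ≤ (U \ P.1).card ∧ 3 ≤ (U \ P.2).card := by
  rw [CP, Finset.mem_filter, Finset.mem_product]

theorem CP_card {P : Finset α × Finset α} (hP : P ∈ CP r U a b g) (hU : U.card + 1 = 2 * r) :
    (P.1 \ P.2).card = (U \ P.2).card ∧ (P.2 \ P.1).card = (U \ P.1).card ∧
      (U \ P.1).card + (U \ P.2).card = r + 1 := by
  rw [mem_CP] at hP
  obtain ⟨⟨h1, h2⟩, h3, h4, h5, h6⟩ := hP
  have e1 : P.1 \ P.2 = U \ P.2 := by
    rw [← h3, Finset.union_sdiff_right]
  have e2 : P.2 \ P.1 = U \ P.1 := by
    rw [← h3, Finset.union_sdiff_left]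
  have e3 := Finset.card_sdiff_add_card_inter P.1 P.2
  have e4 := Finset.card_sdiff_add_card_eq_card (mem_blk.mp h1).1
  rw [e1] at e3 ⊢
  rw [e2]
  refine ⟨rfl, rfl, by omega⟩

theorem choose_ge (n : ℕ) : ∀ k, 1 ≤ k → k + 1 ≤ n → n ≤ n.choose k := by
  induction n with
  | zero => intro k h1 h2; omega
  | succ n ih =>
    intro k h1 h2
    obtain ⟨k, rfl⟩ : ∃ j, k = j + 1 := ⟨k - 1, by omega⟩
    rw [Nat.choose_succ_succ']
    by_cases hk0 : k = 0
    · subst hk0
      rw [Nat.choose_zero_right, Nat.choose_one_right]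
      omega
    · have h3 := ih k (by omega) (by omega)
      have h4 : 0 < n.choose (k + 1) := Nat.choose_pos (by omega)
      omega

/-- lower bound for `N2` -/
theorem CP_le_N2 (h : Sys r U a b g) (hU : U.card + 1 = 2 * r) (hr : 5 ≤ r) :
    (CP r U a b g).card * (r + 1) ≤ (N2 r U a b g).card := by
  have h1 : (CP r U a b g).card * (r + 1) ≤
      ((CP r U a b g).sigma (fun P => (P.1 ∩ P.2).sigma
        (fun v => ((P.1 ∩ P.2).erase v).powersetCard ((U \ P.1).card - 2)))).card := by
    rw [Finset.card_sigma, ← smul_eq_mul, ← Finset.sum_const]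
    apply Finset.sum_le_sum
    intro P hP
    obtain ⟨c1, c2, c3⟩ := CP_card hP hU
    rw [mem_CP] at hP
    obtain ⟨-, -, h4, h5, h6⟩ := hP
    rw [Finset.card_sigma]
    have h7 : ∀ v ∈ P.1 ∩ P.2,
        (((P.1 ∩ P.2).erase v).powersetCard ((U \ P.1).card - 2)).card =
          (r - 3).choose ((U \ P.1).card - 2) := by
      intro v hv
      rw [Finset.card_powersetCard, Finset.card_erase_of_mem hv]
      congr 1
      omega
    rw [Finset.sum_congr rfl h7, Finset.sum_const, smul_eq_mul]
    have h8 := choose_ge (r - 3) ((U \ P.1).card - 2) (by omega) (by omega)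
    calc r + 1 ≤ (r - 2) * (r - 3) := by
          obtain ⟨s, rfl⟩ : ∃ s, r = s + 5 := ⟨r - 5, by omega⟩
          rw [show s + 5 - 2 = s + 3 by omega, show s + 5 - 3 = s + 2 by omega]
          nlinarith
      _ ≤ (P.1 ∩ P.2).card * (r - 3).choose ((U \ P.1).card - 2) := by
          apply Nat.mul_le_mul _ h8
          omega
  refine h1.trans ?_
  -- the injection
  apply Finset.card_le_card_of_injOn (fun q => ((q.1.1 \ q.1.2) ∪ q.2.2, q.2.1))
  · rintro ⟨P, v, A⟩ hq
    rw [Finset.mem_coe, Finset.mem_sigma, Finset.mem_sigma, Finset.mem_powersetCard] at hq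
    obtain ⟨hP, hv, hA1, hA2⟩ := hq
    simp only at hP hv hA1 hA2 ⊢
    obtain ⟨c1, c2, c3⟩ := CP_card hP hU
    rw [mem_CP] at hP
    obtain ⟨⟨b1, b2⟩, h3, h4, h5, h6⟩ := hP
    have hAP : A ⊆ P.1 ∩ P.2 := hA1.trans (Finset.erase_subset _ _)
    have hdis : Disjoint (P.1 \ P.2) A := by
      rw [Finset.disjoint_left]
      intro u hu hu'
      exact (Finset.mem_sdiff.mp hu).2 (Finset.mem_inter.mp (hAP hu')).2
    have hX1 : (P.1 \ P.2) ∪ A ⊆ P.1 :=
      Finset.union_subset Finset.sdiff_subset (hAP.trans Finset.inter_subset_left)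
    have hXc : ((P.1 \ P.2) ∪ A).card + 1 = r := by
      rw [Finset.card_union_of_disjoint hdis, c1, hA2]
      omega
    have hvX : v ∉ (P.1 \ P.2) ∪ A := by
      rw [Finset.mem_union, Finset.mem_sdiff]
      rintro (hh | hh)
      · exact hh.2 (Finset.mem_inter.mp hv).2
      · exact Finset.notMem_erase v _ (hA1 hh)
    have hUX : U \ ((P.1 \ P.2) ∪ A) ⊆ P.2 := by
      intro u hu
      rw [Finset.mem_sdiff, Finset.mem_union, Finset.mem_sdiff] at hu
      have hu1 := hu.1
      rw [← h3, Finset.mem_union] at hu1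
      tauto
    have hU1 := (mem_blk.mp b1).1
    have hvU : v ∈ U := hU1 (Finset.mem_inter.mp hv).1
    have hZc : ((U \ ((P.1 \ P.2) ∪ A)).erase v).card + 1 = r := by
      rw [Finset.card_erase_of_mem (Finset.mem_sdiff.mpr ⟨hvU, hvX⟩)]
      have := Finset.card_sdiff_add_card_eq_card (hX1.trans hU1)
      omega
    rw [Finset.mem_coe, mem_N2]
    simp only
    refine ⟨⟨hX1.trans hU1, hvU⟩, hvX, isE_of_blk h b1 hX1 (by omega),
      isE_of_blk h.symm b2 ((Finset.erase_subset _ _).trans hUX) (by omega), ?_, ?_⟩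
    · exact h.am (Finset.insert_subset (Finset.mem_inter.mp hv).1 hX1) hU1 (mem_blk.mp b1).2.1.2.1
    · exact h.bm hUX (mem_blk.mp b2).1 (mem_blk.mp b2).2.1.2.1
  · -- injectivity
    have key : ∀ (P : Finset α × Finset α) (v : α) (A : Finset α), P ∈ CP r U a b g →
        v ∈ P.1 ∩ P.2 → A ⊆ (P.1 ∩ P.2).erase v → A.card = (U \ P.1).card - 2 →
        cl U a ((P.1 \ P.2) ∪ A) = P.1 ∧
        cl U b ((U \ ((P.1 \ P.2) ∪ A)).erase v) = P.2 ∧
        ((P.1 \ P.2) ∪ A) \ (P.1 \ P.2) = A := by
      intro P v A hP hv hA1 hA2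
      obtain ⟨c1, c2, c3⟩ := CP_card hP hU
      rw [mem_CP] at hP
      obtain ⟨⟨b1, b2⟩, h3, h4, h5, h6⟩ := hP
      have hAP : A ⊆ P.1 ∩ P.2 := hA1.trans (Finset.erase_subset _ _)
      have hdis : Disjoint (P.1 \ P.2) A := by
        rw [Finset.disjoint_left]
        intro u hu hu'
        exact (Finset.mem_sdiff.mp hu).2 (Finset.mem_inter.mp (hAP hu')).2
      have hX1 : (P.1 \ P.2) ∪ A ⊆ P.1 :=
        Finset.union_subset Finset.sdiff_subset (hAP.trans Finset.inter_subset_left)
      have hXc : ((P.1 \ P.2) ∪ A).card + 1 = r := by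
        rw [Finset.card_union_of_disjoint hdis, c1, hA2]
        omega
      have hvX : v ∉ (P.1 \ P.2) ∪ A := by
        rw [Finset.mem_union, Finset.mem_sdiff]
        rintro (hh | hh)
        · exact hh.2 (Finset.mem_inter.mp hv).2
        · exact Finset.notMem_erase v _ (hA1 hh)
      have hUX : U \ ((P.1 \ P.2) ∪ A) ⊆ P.2 := by
        intro u hu
        rw [Finset.mem_sdiff, Finset.mem_union, Finset.mem_sdiff] at hu
        have hu1 := hu.1
        rw [← h3, Finset.mem_union] at hu1
        tauto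
      have hU1 := (mem_blk.mp b1).1
      have hvU : v ∈ U := hU1 (Finset.mem_inter.mp hv).1
      have hZc : ((U \ ((P.1 \ P.2) ∪ A)).erase v).card + 1 = r := by
        rw [Finset.card_erase_of_mem (Finset.mem_sdiff.mpr ⟨hvU, hvX⟩)]
        have := Finset.card_sdiff_add_card_eq_card (hX1.trans hU1)
        omega
      refine ⟨?_, ?_, ?_⟩
      · exact h.cl_eq (isE_of_blk h b1 hX1 (by omega)) b1 hX1
      · have h7 : (U \ ((P.1 \ P.2) ∪ A)).erase v ⊆ P.2 := (Finset.erase_subset _ _).trans hUX
        exact h.symm.cl_eq (isE_of_blk h.symm b2 h7 (by omega)) b2 h7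
      · rw [Finset.union_sdiff_left, Finset.sdiff_eq_self_of_disjoint hdis.symm]
    rintro ⟨P, v, A⟩ hq ⟨P', v', A'⟩ hq' he
    rw [Finset.mem_coe, Finset.mem_sigma, Finset.mem_sigma, Finset.mem_powersetCard] at hq hq'
    obtain ⟨hP, hv, hA1, hA2⟩ := hq
    obtain ⟨hP', hv', hA1', hA2'⟩ := hq'
    simp only [Prod.mk.injEq] at hP hv hA1 hA2 hP' hv' hA1' hA2' he
    obtain ⟨he1, rfl⟩ := he
    obtain ⟨k1, k2, k3⟩ := key P v A hP hv hA1 hA2
    obtain ⟨k1', k2', k3'⟩ := key P' v A' hP' hv' hA1' hA2'
    have e1 : P.1 = P'.1 := by rw [← k1, ← k1', he1]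
    have e2 : P.2 = P'.2 := by rw [← k2, ← k2', he1]
    have e3 : P = P' := Prod.ext e1 e2
    subst e3
    have e4 : A = A' := by rw [← k3, ← k3', he1]
    subst e4
    rfl

/-- the `E`-block `H` and the `F`-block through `X - x` and `U - H` -/
theorem full_CP (h : Sys r U a b g) (t : Tau r U a b g X Z H K y) (hr : 5 ≤ r)
    (hw : 3 ≤ (U \ H).card) {x : α} (hx : x ∈ X) (hb : b (X.erase x ∪ (U \ H))) :
    ∃ K', (H, K') ∈ CP r U a b g ∧ X.erase x = H ∩ K' := by
  set S := X.erase x ∪ (U \ H) with hS
  have hcX := t.cX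
  have hXe : (X.erase x).card = r - 2 := by
    rw [Finset.card_erase_of_mem hx]; omega
  have hSU : S ⊆ U :=
    Finset.union_subset ((Finset.erase_subset _ _).trans t.hX) Finset.sdiff_subset
  have hdis : Disjoint (X.erase x) (U \ H) := by
    rw [Finset.disjoint_left]
    intro u hu hu'
    exact (Finset.mem_sdiff.mp hu').2 (t.XH (Finset.mem_of_mem_erase hu))
  have hSc : S.card = r - 2 + (U \ H).card := by
    rw [hS, Finset.card_union_of_disjoint hdis, hXe]
  have hSE : isE r b g S := by
    refine ⟨by omega, hb, fun hg => ?_⟩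
    have h1 := h.blk_g t.hH hSU hg
    have h2 : X.erase x ⊆ H ∩ S :=
      Finset.subset_inter ((Finset.erase_subset _ _).trans t.XH) Finset.subset_union_left
    have h3 := Finset.card_le_card h2
    omega
  have hK' := h.symm.cl_blk hSU hSE
  have hSK' : S ⊆ cl U b S := sub_cl hSU hSE
  have hyK' : y ∈ cl U b S := by
    apply hSK'
    apply Finset.mem_union_right
    rw [Finset.mem_sdiff]
    exact ⟨t.hy, t.yH⟩
  have hcov : H ∪ cl U b S = U := by
    apply Finset.Subset.antisymm (Finset.union_subset t.HU cl_sub)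
    intro u hu
    by_cases huH : u ∈ H
    · exact Finset.mem_union_left _ huH
    · apply Finset.mem_union_right
      apply hSK'
      apply Finset.mem_union_right
      exact Finset.mem_sdiff.mpr ⟨hu, huH⟩
  have hint := h.blk_b t.hH cl_sub (mem_blk.mp hK').2.1.2.1
  have hsub : X.erase x ⊆ H ∩ cl U b S :=
    Finset.subset_inter ((Finset.erase_subset _ _).trans t.XH)
      (Finset.subset_union_left.trans hSK')
  have hint2 := Finset.card_le_card hsub
  have hne : K ≠ cl U b S := fun hh => t.yK (by rw [hh]; exact hyK')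
  have hKK := h.symm.blk_inter t.hK hK' hne
  have hsub2 : Z \ H ⊆ K ∩ cl U b S := by
    intro u hu
    rw [Finset.mem_sdiff] at hu
    rw [Finset.mem_inter]
    refine ⟨t.ZK hu.1, hSK' (Finset.mem_union_right _ ?_)⟩
    exact Finset.mem_sdiff.mpr ⟨t.hZ hu.1, hu.2⟩
  have h5 := Finset.card_le_card hsub2
  have h6 := Finset.card_sdiff_add_card_inter Z H
  have h7 := t.W_card
  have h8 := t.cZ
  have hUc := t.cU
  refine ⟨cl U b S, ?_, ?_⟩
  · rw [mem_CP]
    refine ⟨⟨t.hH, hK'⟩, hcov, by simp only; omega, hw, ?_⟩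
    simp only
    -- `|U - K'| = r + 1 - w`
    have e1 : H \ cl U b S = U \ cl U b S := by
      ext u
      rw [Finset.mem_sdiff, Finset.mem_sdiff]
      constructor
      · exact fun hh => ⟨t.HU hh.1, hh.2⟩
      · rintro ⟨hh1, hh2⟩
        rw [← hcov, Finset.mem_union] at hh1
        exact ⟨hh1.resolve_right hh2, hh2⟩
    have e3 := Finset.card_sdiff_add_card_inter H (cl U b S)
    have e4 := Finset.card_sdiff_add_card_eq_card t.HU
    rw [e1] at e3
    omega
  · apply Finset.eq_of_subset_of_card_le hsub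
    omega

theorem key1_full (h : Sys r U a b g) (hU : U.card + 1 = 2 * r) (hr : 5 ≤ r)
    (hw : ∀ p ∈ N0 r U a b g, wide U a b p) :
    ((N0 r U a b g).filter (fun p => fullE U a b p ∨ fullF U a b p)).card ≤
      (N2 r U a b g).card := by
  refine le_trans ?_ (CP_le_N2 h hU hr)
  -- injection of the `E`-full ones
  have hE : ((N0 r U a b g).filter (fun p => fullE U a b p)).card ≤
      ∑ P ∈ CP r U a b g, (P.1 \ P.2).card := by
    calc ((N0 r U a b g).filter (fun p => fullE U a b p)).card
        = (((N0 r U a b g).filter (fun p => fullE U a b p)).image Prod.fst).card := by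
          rw [Finset.card_image_of_injOn]
          rintro ⟨X, y⟩ hp ⟨X', y'⟩ hp' he
          rw [Finset.mem_coe, Finset.mem_filter] at hp hp'
          simp only at he
          subst he
          have t := Tau.of_N0 h hU hp.1
          have t' := Tau.of_N0 h hU hp'.1
          simp only at t t'
          rw [Tau.y_uniq h t t']
      _ ≤ ((CP r U a b g).biUnion
            (fun P => (P.1 \ P.2).image (fun x => insert x (P.1 ∩ P.2)))).card := by
          apply Finset.card_le_card
          intro X hX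
          rw [Finset.mem_image] at hX
          obtain ⟨p, hp, rfl⟩ := hX
          rw [Finset.mem_filter] at hp
          obtain ⟨hp1, x, hx, hb⟩ := hp
          have t := Tau.of_N0 h hU hp1
          obtain ⟨K', hP, he⟩ := full_CP h t hr (hw p hp1).1 hx hb
          rw [Finset.mem_biUnion]
          refine ⟨(cl U a p.1, K'), hP, ?_⟩
          rw [Finset.mem_image]
          refine ⟨x, ?_, ?_⟩
          · simp only
            rw [Finset.mem_sdiff]
            refine ⟨t.XH hx, fun hh => ?_⟩
            have : x ∈ p.1.erase x := by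
              rw [he]
              exact Finset.mem_inter.mpr ⟨t.XH hx, hh⟩
            exact Finset.notMem_erase x _ this
          · simp only
            rw [← he, Finset.insert_erase hx]
      _ ≤ ∑ P ∈ CP r U a b g, ((P.1 \ P.2).image (fun x => insert x (P.1 ∩ P.2))).card :=
          Finset.card_biUnion_le
      _ ≤ ∑ P ∈ CP r U a b g, (P.1 \ P.2).card :=
          Finset.sum_le_sum (fun P _ => Finset.card_image_le)
  have hF : ((N0 r U a b g).filter (fun p => fullF U a b p)).card ≤
      ∑ P ∈ CP r U a b g, (P.2 \ P.1).card := by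
    calc ((N0 r U a b g).filter (fun p => fullF U a b p)).card
        = (((N0 r U a b g).filter (fun p => fullF U a b p)).image (oth U)).card := by
          rw [Finset.card_image_of_injOn]
          rintro ⟨X, y⟩ hp ⟨X', y'⟩ hp' he
          rw [Finset.mem_coe, Finset.mem_filter] at hp hp'
          have t := (Tau.of_N0 h hU hp.1).symm
          have t' := (Tau.of_N0 h hU hp'.1).symm
          simp only at t t' he
          rw [he] at t
          have hyy := Tau.y_uniq h.symm t t'
          subst hyy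
          have e1 : ∀ {Y : Finset α} {K1 H1 : Finset α}, Tau r U b a g (oth U (X', y)) Y K1 H1 y →
              Y = (U \ oth U (X', y)).erase y := by
            intro Y K1 H1 t
            exact t.oth_eq.symm
          rw [e1 t, ← e1 t']
      _ ≤ ((CP r U a b g).biUnion
            (fun P => (P.2 \ P.1).image (fun x => insert x (P.1 ∩ P.2)))).card := by
          apply Finset.card_le_card
          intro X hX
          rw [Finset.mem_image] at hX
          obtain ⟨p, hp, rfl⟩ := hX
          rw [Finset.mem_filter] at hp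
          obtain ⟨hp1, x, hx, hb⟩ := hp
          have t := (Tau.of_N0 h hU hp1).symm
          obtain ⟨K', hP, he⟩ := full_CP h.symm t hr (hw p hp1).2 hx hb
          rw [Finset.mem_biUnion]
          refine ⟨(K', cl U b (oth U p)), ?_, ?_⟩
          · rw [mem_CP] at hP ⊢
            obtain ⟨⟨b1, b2⟩, h3, h4, h5, h6⟩ := hP
            refine ⟨⟨b2, b1⟩, ?_, ?_, h6, h5⟩
            · rw [Finset.union_comm]; exact h3
            · rw [Finset.inter_comm]; exact h4
          · rw [Finset.mem_image]
            refine ⟨x, ?_, ?_⟩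
            · simp only
              rw [Finset.mem_sdiff]
              refine ⟨t.XH hx, fun hh => ?_⟩
              have : x ∈ (oth U p).erase x := by
                rw [he]
                exact Finset.mem_inter.mpr ⟨t.XH hx, hh⟩
              exact Finset.notMem_erase x _ this
            · simp only
              rw [Finset.inter_comm, ← he, Finset.insert_erase hx]
      _ ≤ ∑ P ∈ CP r U a b g, ((P.2 \ P.1).image (fun x => insert x (P.1 ∩ P.2))).card :=
          Finset.card_biUnion_le
      _ ≤ ∑ P ∈ CP r U a b g, (P.2 \ P.1).card :=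
          Finset.sum_le_sum (fun P _ => Finset.card_image_le)
  have hsum : ∑ P ∈ CP r U a b g, (P.1 \ P.2).card + ∑ P ∈ CP r U a b g, (P.2 \ P.1).card =
      (CP r U a b g).card * (r + 1) := by
    rw [← Finset.sum_add_distrib, ← smul_eq_mul, ← Finset.sum_const]
    apply Finset.sum_congr rfl
    intro P hP
    obtain ⟨c1, c2, c3⟩ := CP_card hP hU
    omega
  calc ((N0 r U a b g).filter (fun p => fullE U a b p ∨ fullF U a b p)).card
      ≤ ((N0 r U a b g).filter (fun p => fullE U a b p) ∪
          (N0 r U a b g).filter (fun p => fullF U a b p)).card := by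
        apply Finset.card_le_card
        intro p hp
        rw [Finset.mem_filter] at hp
        rw [Finset.mem_union, Finset.mem_filter, Finset.mem_filter]
        tauto
    _ ≤ ((N0 r U a b g).filter (fun p => fullE U a b p)).card +
          ((N0 r U a b g).filter (fun p => fullF U a b p)).card := Finset.card_union_le _ _
    _ ≤ (CP r U a b g).card * (r + 1) := by omega

end Pool.IS
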