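import Pool.Agent.IS.Key1Five

/-!
# KEY for `|U| = 2r - 1`, `r = 5`: the load of a good set
-/

set_option autoImplicit false
open Classical

namespace Pool.IS

variable {α : Type*} [DecidableEq α] {ι : Type*}
variable {U : Finset α} {a b g : Finset α → Prop}

/-- a family of splits attached to `V` on the `E`-side -/
structure Hit (U : Finset α) (a b g : Finset α → Prop) (V : Finset α) (M : Finset ι)
    (X Z : ι → Finset α) (y : ι → α) : Prop where
  hV : V ⊆ U
  cV : V.card = 6
  cU : U.card = 9
  s : ∀ i ∈ M, S1 5 U a b g (X i) (Z i) (y i)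
  wd : ∀ i ∈ M, 3 ≤ (U \ cl U a (X i)).card ∧ 3 ≤ (U \ cl U b (Z i)).card
  vx : ∀ i ∈ M, V ∩ cl U a (X i) = X i
  inj : ∀ i ∈ M, ∀ j ∈ M, X i = X j → i = j

namespace Hit

variable {V : Finset α} {M : Finset ι} {X Z : ι → Finset α} {y : ι → α}

theorem cVH (t : Hit U a b g V M X Z y) {i : ι} (hi : i ∈ M) : (V \ cl U a (X i)).card = 2 := by
  have h1 := Finset.card_sdiff_add_card_inter V (cl U a (X i))
  rw [t.vx i hi] at h1
  have h2 := (t.s i hi).cX
  have h3 := t.cV
  omega

theorem cHV (t : Hit U a b g V M X Z y) {i : ι} (hi : i ∈ M) :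
    cl U a (X i) \ V = Z i ∩ cl U a (X i) := by
  have sp := t.s i hi
  ext x
  rw [Finset.mem_inter, Finset.mem_sdiff]
  constructor
  · rintro ⟨h1, h2⟩
    refine ⟨?_, h1⟩
    rcases Finset.mem_union.mp (sp.H_sub h1) with h3 | h3
    · exfalso
      apply h2
      rw [← t.vx i hi] at h3
      exact (Finset.mem_inter.mp h3).1
    · exact h3
  · rintro ⟨h1, h2⟩
    refine ⟨h2, fun h3 => ?_⟩
    have : x ∈ X i := by
      rw [← t.vx i hi]
      exact Finset.mem_inter.mpr ⟨h3, h2⟩
    exact Finset.disjoint_left.mp sp.dj this h1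

theorem dis (t : Hit U a b g V M X Z y) (h : Sys 5 U a b g) {i j : ι} (hi : i ∈ M) (hj : j ∈ M)
    (hne : i ≠ j) : Disjoint (V \ cl U a (X i)) (V \ cl U a (X j)) ∧
      Disjoint (cl U a (X i) \ V) (cl U a (X j) \ V) := by
  set H := cl U a (X i) with hH
  set H' := cl U a (X j) with hH'
  have hne' : H ≠ H' := by
    intro he
    apply hne
    apply t.inj i hi j hj
    rw [← t.vx i hi, ← t.vx j hj, ← hH, ← hH', he]
  have h1 := h.blk_inter ((t.s i hi).hH h) ((t.s j hj).hH h) hne'
  have c1 := t.cVH hi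
  have c2 := t.cVH hj
  rw [← hH, ← hH'] at h1
  rw [← hH] at c1
  rw [← hH'] at c2
  have cV := t.cV
  have c3 : (V \ H ∪ V \ H').card + (V ∩ (H ∩ H')).card = V.card := by
    have e1 : V \ H ∪ V \ H' = V \ (H ∩ H') := by
      ext x
      simp only [Finset.mem_union, Finset.mem_sdiff, Finset.mem_inter]
      tauto
    rw [e1]
    exact Finset.card_sdiff_add_card_inter _ _
  have c4 := Finset.card_union_add_card_inter (V \ H) (V \ H')
  have c5 : (V ∩ (H ∩ H')).card + ((H \ V) ∩ (H' \ V)).card ≤ (H ∩ H').card := by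
    rw [← Finset.card_union_of_disjoint]
    · apply Finset.card_le_card
      intro x
      simp only [Finset.mem_union, Finset.mem_sdiff, Finset.mem_inter]
      tauto
    · rw [Finset.disjoint_left]
      intro x
      simp only [Finset.mem_sdiff, Finset.mem_inter]
      tauto
  constructor
  · rw [Finset.disjoint_iff_inter_eq_empty, ← Finset.card_eq_zero]
    omega
  · rw [Finset.disjoint_iff_inter_eq_empty, ← Finset.card_eq_zero]
    omega

/-- sums of disjoint pieces -/
theorem sum_le (t : Hit U a b g V M X Z y) (h : Sys 5 U a b g) (M' : Finset ι) (hM : M' ⊆ M)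
    (f : ι → Finset α) (T : Finset α)
    (hf : (∀ i ∈ M', f i ⊆ V \ cl U a (X i)) ∨ (∀ i ∈ M', f i ⊆ cl U a (X i) \ V))
    (hT : ∀ i ∈ M', f i ⊆ T) : ∑ i ∈ M', (f i).card ≤ T.card := by
  rw [← Finset.card_biUnion]
  · apply Finset.card_le_card
    intro x hx
    rw [Finset.mem_biUnion] at hx
    obtain ⟨i, hi, hx⟩ := hx
    exact hT i hi hx
  · intro i hi j hj hne
    have hd := t.dis h (hM hi) (hM hj) hne
    rcases hf with hf | hf
    · exact Disjoint.mono (hf i hi) (hf j hj) hd.1
    · exact Disjoint.mono (hf i hi) (hf j hj) hd.2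

theorem card_le (t : Hit U a b g V M X Z y) (h : Sys 5 U a b g) : M.card ≤ 3 := by
  have h1 := t.sum_le h M (Finset.Subset.refl _) (fun i => V \ cl U a (X i)) V
    (Or.inl (fun i _ => Finset.Subset.refl _)) (fun i _ => Finset.sdiff_subset)
  rw [Finset.sum_congr rfl (fun i hi => t.cVH hi), Finset.sum_const, smul_eq_mul, t.cV] at h1
  omega

theorem sum_p (t : Hit U a b g V M X Z y) (h : Sys 5 U a b g) :
    ∑ i ∈ M, (Z i ∩ cl U a (X i)).card ≤ 3 := by
  have h1 := t.sum_le h M (Finset.Subset.refl _) (fun i => cl U a (X i) \ V) (U \ V)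
    (Or.inr (fun i _ => Finset.Subset.refl _)) (fun i _ => Finset.sdiff_subset_sdiff cl_sub
      (Finset.Subset.refl _))
  have h2 := Finset.card_sdiff_add_card_eq_card t.hV
  have h3 := t.cV
  have h4 := t.cU
  rw [Finset.sum_congr rfl (fun i hi => by rw [t.cHV hi])] at h1
  omega

theorem wt_p1 {X Z : Finset α} {y : α} (s : S1 5 U a b g X Z y) (hw : 3 ≤ (U \ cl U a X).card)
    (hp : (X ∩ cl U b Z).card ≤ 1) : wt5 U a b X Z ≤ 15 + 5 * (Z ∩ cl U a X).card := by
  have p1 := s.card_W
  have p2 := s.symm.card_W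
  unfold wt5
  split_ifs <;> omega

/-- the load from one side, if no attached split has `p = 2` and `y ∈ V` -/
theorem sixty (t : Hit U a b g V M X Z y) (h : Sys 5 U a b g)
    (hno : ∀ i ∈ M, ¬ ((X i ∩ cl U b (Z i)).card = 2 ∧ y i ∈ V)) :
    ∑ i ∈ M, wt5 U a b (X i) (Z i) ≤ 60 := by
  by_cases hA : ∀ i ∈ M, (X i ∩ cl U b (Z i)).card ≤ 1
  · calc ∑ i ∈ M, wt5 U a b (X i) (Z i) ≤ ∑ i ∈ M, (15 + 5 * (Z i ∩ cl U a (X i)).card) :=
          Finset.sum_le_sum (fun i hi => wt_p1 (t.s i hi) (t.wd i hi).1 (hA i hi))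
      _ = 15 * M.card + 5 * ∑ i ∈ M, (Z i ∩ cl U a (X i)).card := by
          rw [Finset.sum_add_distrib, Finset.sum_const, smul_eq_mul, Finset.mul_sum]
          ring
      _ ≤ 60 := by
          have := t.card_le h
          have := t.sum_p h
          omega
  · push Not at hA
    obtain ⟨i0, hi0, hp0⟩ := hA
    have s0 := t.s i0 hi0
    have q1 := s0.card_W
    have q2 := s0.symm.card_W
    have q3 := (t.wd i0 hi0).2
    have q4 := s0.pp h
    have hp2 : (X i0 ∩ cl U b (Z i0)).card = 2 := by omega
    have hy0 : y i0 ∉ V := fun hh => hno i0 hi0 ⟨hp2, hh⟩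
    set K0 := cl U b (Z i0) with hK0
    have hK0b := s0.hK h
    have cV := t.cV
    have cU := t.cU
    have hVH0 : V \ cl U a (X i0) ⊆ K0 := by
      intro v hv
      rw [Finset.mem_sdiff] at hv
      rcases s0.W_cases (Finset.mem_sdiff.mpr ⟨t.hV hv.1, hv.2⟩) with h1 | h1
      · exact absurd (h1 ▸ hv.1) hy0
      · exact s0.ZK h1
    -- |V ∩ K0| = 4
    have cVK : (V ∩ K0).card = 4 := by
      have e1 : V ∩ K0 = (X i0 ∩ K0) ∪ (V \ cl U a (X i0)) := by
        ext x
        rw [Finset.mem_inter, Finset.mem_union, Finset.mem_inter, Finset.mem_sdiff]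
        constructor
        · rintro ⟨h1, h2⟩
          by_cases h3 : x ∈ cl U a (X i0)
          · left
            refine ⟨?_, h2⟩
            rw [← t.vx i0 hi0]
            exact Finset.mem_inter.mpr ⟨h1, h3⟩
          · exact Or.inr ⟨h1, h3⟩
        · rintro (⟨h1, h2⟩ | ⟨h1, h2⟩)
          · refine ⟨?_, h2⟩
            rw [← t.vx i0 hi0] at h1
            exact (Finset.mem_inter.mp h1).1
          · exact ⟨h1, hVH0 (Finset.mem_sdiff.mpr ⟨h1, h2⟩)⟩
      rw [e1, Finset.card_union_of_disjoint, hp2, t.cVH hi0]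
      rw [Finset.disjoint_left]
      intro x h1 h2
      exact (Finset.mem_sdiff.mp h2).2 (s0.XH (Finset.mem_inter.mp h1).1)
    have cK : K0.card = 6 := by
      have h1 := Finset.card_sdiff_add_card_eq_card (cl_sub : cl U b (Z i0) ⊆ U)
      rw [← hK0] at h1
      omega
    have cKV : (K0 \ V).card = 2 := by
      have h1 := Finset.card_sdiff_add_card_inter K0 V
      rw [Finset.inter_comm] at h1
      omega
    have cUV : (U \ V).card = 3 := by
      have h1 := Finset.card_sdiff_add_card_eq_card t.hV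
      omega
    let n : ι → Finset α := fun i => (V ∩ K0) \ cl U a (X i)
    have hα : ∀ i ∈ M, 1 + ((cl U a (X i) \ V) ∩ K0).card ≤ (n i).card := by
      intro i hi
      have h1 := h.blk_b ((t.s i hi).hH h) (mem_blk.mp hK0b).1 (mem_blk.mp hK0b).2.1.2.1
      have h2 : ((V ∩ K0) ∩ cl U a (X i)) ∪ ((cl U a (X i) \ V) ∩ K0) ⊆
          cl U a (X i) ∩ cl U b (Z i0) := by
        intro x
        simp only [Finset.mem_union, Finset.mem_inter, Finset.mem_sdiff]
        tauto
      have h3 := Finset.card_le_card h2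
      rw [Finset.card_union_of_disjoint (by
        rw [Finset.disjoint_left]
        intro x
        simp only [Finset.mem_inter, Finset.mem_sdiff]
        tauto)] at h3
      have h4 := Finset.card_sdiff_add_card_inter (V ∩ K0) (cl U a (X i))
      change _ ≤ ((V ∩ K0) \ cl U a (X i)).card
      omega
    have hβ : ∑ i ∈ M, (n i).card ≤ 4 := by
      have := t.sum_le h M (Finset.Subset.refl _) n (V ∩ K0)
        (Or.inl (fun i _ => Finset.sdiff_subset_sdiff Finset.inter_subset_left
          (Finset.Subset.refl _))) (fun i _ => Finset.sdiff_subset)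
      omega
    have hγ : (n i0).card = 2 := by
      have : n i0 = V \ cl U a (X i0) := by
        ext x
        simp only [n, Finset.mem_sdiff, Finset.mem_inter]
        constructor
        · tauto
        · rintro ⟨h1, h2⟩
          exact ⟨⟨h1, hVH0 (Finset.mem_sdiff.mpr ⟨h1, h2⟩)⟩, h2⟩
      rw [this, t.cVH hi0]
    have hM3 := t.card_le h
    have hMe := Finset.card_erase_add_one hi0
    rw [← Finset.add_sum_erase _ _ hi0] at hβ
    by_cases hM2 : M.card ≤ 2
    · calc ∑ i ∈ M, wt5 U a b (X i) (Z i) ≤ ∑ i ∈ M, 24 :=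
            Finset.sum_le_sum (fun i _ => wt5_le _ _)
        _ = M.card * 24 := by rw [Finset.sum_const, smul_eq_mul]
        _ ≤ 60 := by omega
    · -- three attached splits
      have hn1 : ∀ i ∈ M.erase i0, (n i).card = 1 := by
        intro i hi
        have h1 : ∀ j ∈ M.erase i0, 1 ≤ (n j).card := by
          intro j hj
          have := hα j (Finset.mem_of_mem_erase hj)
          omega
        rw [← Finset.add_sum_erase _ _ hi] at hβ
        have h2 : ((M.erase i0).erase i).card ≤ ∑ j ∈ (M.erase i0).erase i, (n j).card := by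
          rw [Finset.card_eq_sum_ones]
          exact Finset.sum_le_sum (fun j hj => h1 j (Finset.mem_of_mem_erase hj))
        have h3 := Finset.card_erase_add_one hi
        have h4 := h1 i hi
        omega
      have hδ : ∀ i ∈ M.erase i0, (X i ∩ cl U b (Z i)).card ≤ 1 := by
        intro i hi
        by_contra hc
        have hiM := Finset.mem_of_mem_erase hi
        have si := t.s i hiM
        have hn := hn1 i hi
        change ((V ∩ K0) \ cl U a (X i)).card = 1 at hn
        -- K0 inside the complement of X i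
        have e1 : K0 ∩ (U \ X i) = (K0 \ V) ∪ ((V ∩ K0) \ cl U a (X i)) := by
          ext x
          simp only [Finset.mem_inter, Finset.mem_sdiff, Finset.mem_union]
          constructor
          · rintro ⟨h1, h2, h3⟩
            by_cases h4 : x ∈ V
            · right
              refine ⟨⟨h4, h1⟩, fun h5 => h3 ?_⟩
              rw [← t.vx i hiM]
              exact Finset.mem_inter.mpr ⟨h4, h5⟩
            · exact Or.inl ⟨h1, h4⟩
          · rintro (⟨h1, h2⟩ | ⟨⟨h1, h2⟩, h3⟩)
            · refine ⟨h1, (mem_blk.mp hK0b).1 h1, fun h3 => h2 ?_⟩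
              rw [← t.vx i hiM] at h3
              exact (Finset.mem_inter.mp h3).1
            · refine ⟨h2, (mem_blk.mp hK0b).1 h2, fun h4 => h3 (si.XH h4)⟩
        have c1 : (K0 ∩ (U \ X i)).card = 3 := by
          rw [e1, Finset.card_union_of_disjoint]
          · omega
          · rw [Finset.disjoint_left]
            intro x
            simp only [Finset.mem_inter, Finset.mem_sdiff]
            tauto
        have hne : cl U b (Z i) ≠ K0 := by
          intro he
          have h1 : Z i ⊆ K0 ∩ (U \ X i) := by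
            intro x hx
            rw [Finset.mem_inter, si.U_sdiff, Finset.mem_insert, ← he]
            exact ⟨si.ZK hx, Or.inr hx⟩
          have h2 := Finset.card_le_card h1
          have h3 := si.cZ
          omega
        have h1 := h.symm.blk_inter (si.hK h) hK0b hne
        rw [← hK0] at h1
        have c2 : (K0 ∩ (U \ X i)).card ≤ (K0 ∩ Z i).card + 1 := by
          have : K0 ∩ (U \ X i) ⊆ insert (y i) (K0 ∩ Z i) := by
            intro x hx
            rw [Finset.mem_inter, si.U_sdiff, Finset.mem_insert] at hx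
            rw [Finset.mem_insert, Finset.mem_inter]
            rcases hx.2 with h3 | h3
            · exact Or.inl h3
            · exact Or.inr ⟨hx.1, h3⟩
          exact (Finset.card_le_card this).trans (Finset.card_insert_le _ _)
        have c3 : (K0 ∩ Z i).card + (X i ∩ cl U b (Z i) ∩ K0).card ≤ (cl U b (Z i) ∩ K0).card := by
          rw [← Finset.card_union_of_disjoint]
          · apply Finset.card_le_card
            intro x hx
            rw [Finset.mem_union, Finset.mem_inter, Finset.mem_inter, Finset.mem_inter] at hx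
            rw [Finset.mem_inter]
            rcases hx with ⟨h3, h4⟩ | ⟨⟨h3, h4⟩, h5⟩
            · exact ⟨si.ZK h4, h3⟩
            · exact ⟨h4, h5⟩
          · rw [Finset.disjoint_left]
            intro x hx hx'
            rw [Finset.mem_inter] at hx hx'
            exact Finset.disjoint_left.mp si.dj (Finset.mem_inter.mp hx'.1).1 hx.2
        have c4 : (X i \ K0).card = 1 := by
          have h3 := Finset.card_sdiff_add_card_inter (X i) K0
          have h4 := Finset.card_sdiff_add_card_inter (V ∩ K0) (cl U a (X i))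
          have h5 : V ∩ K0 ∩ cl U a (X i) = X i ∩ K0 := by
            rw [Finset.inter_right_comm, t.vx i hiM]
          rw [h5] at h4
          have h6 := si.cX
          omega
        have c5 : (X i ∩ cl U b (Z i)).card ≤ (X i ∩ cl U b (Z i) ∩ K0).card + (X i \ K0).card := by
          refine le_trans (Finset.card_le_card ?_) (Finset.card_union_le _ _)
          intro x hx
          rw [Finset.mem_union, Finset.mem_inter, Finset.mem_sdiff]
          by_cases h3 : x ∈ K0
          · exact Or.inl ⟨hx, h3⟩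
          · exact Or.inr ⟨(Finset.mem_inter.mp hx).1, h3⟩
        omega
      have hε : ∑ i ∈ M.erase i0, (Z i ∩ cl U a (X i)).card ≤ 1 := by
        have h1 := t.sum_le h (M.erase i0) (Finset.erase_subset _ _)
          (fun i => cl U a (X i) \ V) ((U \ V) \ K0) (Or.inr (fun i _ => Finset.Subset.refl _)) (by
          intro i hi x hx
          have h2 := hα i (Finset.mem_of_mem_erase hi)
          have h3 := hn1 i hi
          have h4 : ((cl U a (X i) \ V) ∩ K0) = ∅ := by
            rw [← Finset.card_eq_zero]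
            omega
          rw [Finset.mem_sdiff, Finset.mem_sdiff]
          have hx' := Finset.mem_sdiff.mp hx
          refine ⟨⟨cl_sub hx'.1, hx'.2⟩, fun h5 => ?_⟩
          have : x ∈ (cl U a (X i) \ V) ∩ K0 := Finset.mem_inter.mpr ⟨hx, h5⟩
          rw [h4] at this
          exact Finset.notMem_empty _ this)
        have h2 : ((U \ V) \ K0).card = 1 := by
          have h3 := Finset.card_sdiff_add_card_inter (U \ V) K0
          have h4 : (U \ V) ∩ K0 = K0 \ V := by
            ext x
            simp only [Finset.mem_inter, Finset.mem_sdiff]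
            constructor
            · tauto
            · rintro ⟨h5, h6⟩
              exact ⟨⟨(mem_blk.mp hK0b).1 h5, h6⟩, h5⟩
          rw [h4] at h3
          omega
        rw [Finset.sum_congr rfl (fun i hi => by rw [t.cHV (Finset.mem_of_mem_erase hi)])] at h1
        omega
      rw [← Finset.add_sum_erase _ _ hi0]
      have h1 := wt5_le (U := U) (a := a) (b := b) (X i0) (Z i0)
      have h2 : ∑ i ∈ M.erase i0, wt5 U a b (X i) (Z i) ≤
          15 * (M.erase i0).card + 5 * ∑ i ∈ M.erase i0, (Z i ∩ cl U a (X i)).card := by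
        calc ∑ i ∈ M.erase i0, wt5 U a b (X i) (Z i) ≤
            ∑ i ∈ M.erase i0, (15 + 5 * (Z i ∩ cl U a (X i)).card) :=
              Finset.sum_le_sum (fun i hi => wt_p1 (t.s i (Finset.mem_of_mem_erase hi))
                (t.wd i (Finset.mem_of_mem_erase hi)).1 (hδ i hi))
          _ = _ := by
            rw [Finset.sum_add_distrib, Finset.sum_const, smul_eq_mul, Finset.mul_sum]
            ring
      omega

/-- if an attached split has `p = 2` and `y ∈ V`, the splits of the other side have `q = 0` -/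
theorem other_zero (t : Hit U a b g V M X Z y) (h : Sys 5 U a b g) {i : ι} (hi : i ∈ M)
    (hp2 : (X i ∩ cl U b (Z i)).card = 2) (hy : y i ∈ V) {Xf Zf : Finset α} {yf : α}
    (sf : S1 5 U a b g Xf Zf yf) (hf : V ∩ cl U b Zf = Zf) : (Xf ∩ cl U b Zf).card = 0 := by
  have s0 := t.s i hi
  have cK' : (cl U b (Z i)).card = 6 := by
    have h1 := Finset.card_sdiff_add_card_eq_card (cl_sub : cl U b (Z i) ⊆ U)
    have h2 := s0.symm.card_W
    have h3 := t.cU
    omega
  set K0 := cl U b (Z i) with hK0
  have hK0b := s0.hK h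
  have cV := t.cV
  have cU := t.cU
  have hDK : U \ V ⊆ K0 := by
    intro x hx
    rw [Finset.mem_sdiff] at hx
    rcases s0.mem_cases hx.1 with h1 | h1 | h1
    · exact absurd (h1 ▸ hy) hx.2
    · exfalso
      apply hx.2
      rw [← t.vx i hi] at h1
      exact (Finset.mem_inter.mp h1).1
    · exact s0.ZK h1
  have cUV : (U \ V).card = 3 := by
    have h1 := Finset.card_sdiff_add_card_eq_card t.hV
    omega
  have cK : K0.card = 6 := cK'
  have cVK : (V ∩ K0).card = 3 := by
    have h1 := Finset.card_sdiff_add_card_inter K0 V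
    have h2 : K0 \ V = U \ V := by
      ext x
      simp only [Finset.mem_sdiff]
      constructor
      · rintro ⟨h3, h4⟩
        exact ⟨(mem_blk.mp hK0b).1 h3, h4⟩
      · rintro ⟨h3, h4⟩
        exact ⟨hDK (Finset.mem_sdiff.mpr ⟨h3, h4⟩), h4⟩
    rw [h2, Finset.inter_comm] at h1
    omega
  set Kf := cl U b Zf with hKf
  have hKfb := sf.hK h
  have cVf : (V ∩ Kf).card = 4 := by
    rw [hf]
    have := sf.cZ
    omega
  have hne : Kf ≠ K0 := by
    intro he
    rw [he] at cVf
    omega
  have h1 := h.symm.blk_inter hKfb hK0b hne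
  rw [← hKf, ← hK0] at h1
  have c1 : (Kf \ V).card + ((V ∩ K0) ∩ Kf).card ≤ (Kf ∩ K0).card := by
    rw [← Finset.card_union_of_disjoint]
    · apply Finset.card_le_card
      intro x hx
      rw [Finset.mem_union, Finset.mem_sdiff, Finset.mem_inter, Finset.mem_inter] at hx
      rw [Finset.mem_inter]
      rcases hx with ⟨h3, h4⟩ | ⟨⟨h3, h4⟩, h5⟩
      · exact ⟨h3, hDK (Finset.mem_sdiff.mpr ⟨(mem_blk.mp hKfb).1 h3, h4⟩)⟩
      · exact ⟨h5, h4⟩
    · rw [Finset.disjoint_left]
      intro x
      simp only [Finset.mem_inter, Finset.mem_sdiff]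
      tauto
  have c2 := Finset.card_sdiff_add_card_inter (V ∩ K0) Kf
  have c3 := Finset.card_sdiff_add_card_inter V Kf
  have hXf : Xf ∩ Kf ⊆ Kf \ V := by
    intro x hx
    rw [Finset.mem_inter] at hx
    rw [Finset.mem_sdiff]
    refine ⟨hx.2, fun h3 => ?_⟩
    have : x ∈ Zf := by
      rw [← hf]
      exact Finset.mem_inter.mpr ⟨h3, hx.2⟩
    exact Finset.disjoint_left.mp sf.dj hx.1 this
  have c4 := Finset.card_le_card hXf
  by_cases hsub : V \ Kf ⊆ K0
  · exfalso
    have h2 : Xf ⊆ cl U a Xf ∩ K0 := by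
      intro x hx
      rw [Finset.mem_inter]
      refine ⟨sf.XH hx, ?_⟩
      by_cases h3 : x ∈ V
      · apply hsub
        rw [Finset.mem_sdiff]
        refine ⟨h3, fun h4 => ?_⟩
        have : x ∈ Zf := by
          rw [← hf]
          exact Finset.mem_inter.mpr ⟨h3, h4⟩
        exact Finset.disjoint_left.mp sf.dj hx this
      · exact hDK (Finset.mem_sdiff.mpr ⟨sf.hX hx, h3⟩)
    have h3 := h.blk_b (sf.hH h) (mem_blk.mp hK0b).1 (mem_blk.mp hK0b).2.1.2.1
    rw [← hK0] at h3
    have h4 := Finset.card_le_card h2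
    have h5 := sf.cX
    omega
  · have h2 : ((V ∩ K0) \ Kf).card < (V \ Kf).card := by
      apply Finset.card_lt_card
      refine ⟨?_, ?_⟩
      · exact Finset.sdiff_subset_sdiff Finset.inter_subset_left (Finset.Subset.refl _)
      · intro hh
        apply hsub
        intro x hx
        exact (Finset.mem_inter.mp (Finset.mem_sdiff.mp (hh hx)).1).2
    omega

end Hit

/-- the load of a good set -/
theorem load5 (h : Sys 5 U a b g) (hU : U.card + 1 = 2 * 5) {V : Finset α}
    (hV : V ∈ SG 5 U a b g) (N : Finset (Finset α × α)) (hN : N ⊆ N0 5 U a b g)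
    (hw : ∀ p ∈ N, wide U a b p) :
    ∑ p ∈ N.filter (fun p => V ∩ cl U a p.1 = p.1), wt5 U a b p.1 (oth U p) +
      ∑ p ∈ N.filter (fun p => V ∩ cl U b (oth U p) = oth U p), wt5 U a b p.1 (oth U p) ≤ 120 := by
  obtain ⟨hVU, hVc⟩ := SG_card hU hV
  set E := N.filter (fun p => V ∩ cl U a p.1 = p.1) with hE
  set F := N.filter (fun p => V ∩ cl U b (oth U p) = oth U p) with hF
  have tE : Hit U a b g V E (fun p => p.1) (fun p => oth U p) (fun p => p.2) := by
    refine ⟨hVU, by omega, by omega, ?_, ?_, ?_, ?_⟩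
    · intro p hp
      exact S1_of_N0 hU (hN (Finset.mem_filter.mp hp).1)
    · intro p hp
      exact hw p (Finset.mem_filter.mp hp).1
    · intro p hp
      exact (Finset.mem_filter.mp hp).2
    · intro p hp q hq he
      exact N0_inj h hU (hN (Finset.mem_filter.mp hp).1) (hN (Finset.mem_filter.mp hq).1) he
  have tF : Hit U b a g V F (fun p => oth U p) (fun p => p.1) (fun p => p.2) := by
    refine ⟨hVU, by omega, by omega, ?_, ?_, ?_, ?_⟩
    · intro p hp
      exact (S1_of_N0 hU (hN (Finset.mem_filter.mp hp).1)).symm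
    · intro p hp
      exact (hw p (Finset.mem_filter.mp hp).1).symm
    · intro p hp
      exact (Finset.mem_filter.mp hp).2
    · intro p hp q hq he
      exact oth_inj h hU (hN (Finset.mem_filter.mp hp).1) (hN (Finset.mem_filter.mp hq).1) he
  have cE := tE.card_le h
  have cF := tF.card_le h.symm
  have e1 : ∑ p ∈ E, wt5 U a b p.1 (oth U p) ≤ 72 := by
    calc ∑ p ∈ E, wt5 U a b p.1 (oth U p) ≤ ∑ p ∈ E, 24 :=
          Finset.sum_le_sum (fun p _ => wt5_le _ _)
      _ = E.card * 24 := by rw [Finset.sum_const, smul_eq_mul]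
      _ ≤ 72 := by omega
  have e2 : ∑ p ∈ F, wt5 U a b p.1 (oth U p) ≤ 72 := by
    calc ∑ p ∈ F, wt5 U a b p.1 (oth U p) ≤ ∑ p ∈ F, 24 :=
          Finset.sum_le_sum (fun p _ => wt5_le _ _)
      _ = F.card * 24 := by rw [Finset.sum_const, smul_eq_mul]
      _ ≤ 72 := by omega
  by_cases hcE : ∃ p ∈ E, (p.1 ∩ cl U b (oth U p)).card = 2 ∧ p.2 ∈ V
  · obtain ⟨p, hp, h1, h2⟩ := hcE
    have e3 : ∑ q ∈ F, wt5 U a b q.1 (oth U q) ≤ 45 := by
      calc ∑ q ∈ F, wt5 U a b q.1 (oth U q) ≤ ∑ q ∈ F, 15 := by
            apply Finset.sum_le_sum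
            intro q hq
            have sq := tF.s q hq
            have h3 := tE.other_zero h hp h1 h2 sq.symm (tF.vx q hq)
            have h4 := sq.card_W
            unfold wt5
            rw [if_pos]
            right
            omega
        _ = F.card * 15 := by rw [Finset.sum_const, smul_eq_mul]
        _ ≤ 45 := by omega
    omega
  · by_cases hcF : ∃ p ∈ F, (oth U p ∩ cl U a p.1).card = 2 ∧ p.2 ∈ V
    · obtain ⟨p, hp, h1, h2⟩ := hcF
      have e3 : ∑ q ∈ E, wt5 U a b q.1 (oth U q) ≤ 45 := by
        calc ∑ q ∈ E, wt5 U a b q.1 (oth U q) ≤ ∑ q ∈ E, 15 := by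
              apply Finset.sum_le_sum
              intro q hq
              have sq := tE.s q hq
              have h3 := tF.other_zero h.symm hp h1 h2 sq.symm (tE.vx q hq)
              have h4 := sq.card_W
              unfold wt5
              rw [if_pos]
              left
              omega
          _ = E.card * 15 := by rw [Finset.sum_const, smul_eq_mul]
          _ ≤ 45 := by omega
      omega
    · push Not at hcE hcF
      have e3 := tE.sixty h (fun p hp hh => hcE p hp hh.1 hh.2)
      have e4 := tF.sixty h.symm (fun p hp hh => hcF p hp hh.1 hh.2)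
      have e5 : ∑ p ∈ F, wt5 U b a (oth U p) p.1 = ∑ p ∈ F, wt5 U a b p.1 (oth U p) :=
        Finset.sum_congr rfl (fun p _ => wt5_symm _ _)
      rw [e5] at e4
      omega

theorem key1_five {r : ℕ} (h : Sys r U a b g) (hU : U.card + 1 = 2 * r) (hr : r = 5)
    (hw : ∀ p ∈ N0 r U a b g, wide U a b p) :
    ((N0 r U a b g).filter (fun p => ¬ (fullE U a b p ∨ fullF U a b p))).card ≤
      (SG r U a b g).card := by
  subst hr
  set N := (N0 5 U a b g).filter (fun p => ¬ (fullE U a b p ∨ fullF U a b p)) with hN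
  have hNN : N ⊆ N0 5 U a b g := Finset.filter_subset _ _
  have h1 : ∀ p ∈ N, 120 ≤ ∑ V ∈ SG 5 U a b g,
      ((if V ∩ cl U a p.1 = p.1 then wt5 U a b p.1 (oth U p) else 0) +
        (if V ∩ cl U b (oth U p) = oth U p then wt5 U a b p.1 (oth U p) else 0)) := by
    intro p hp
    rw [hN, Finset.mem_filter] at hp
    have sp := S1_of_N0 hU hp.1
    have hwp := hw p hp.1
    have hnf : ¬ fullE U a b p := fun hh => hp.2 (Or.inl hh)
    have hnf' : ¬ fullF U a b p := fun hh => hp.2 (Or.inr hh)
    have := sp.five_ineq h hwp.1 hwp.2 hnf hnf'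
    rw [Finset.sum_add_distrib, ← Finset.sum_filter, ← Finset.sum_filter, Finset.sum_const,
      Finset.sum_const, smul_eq_mul, smul_eq_mul, ← Nat.add_mul, mul_comm]
    exact this
  have h2 : N.card * 120 ≤ ∑ V ∈ SG 5 U a b g, ∑ p ∈ N,
      ((if V ∩ cl U a p.1 = p.1 then wt5 U a b p.1 (oth U p) else 0) +
        (if V ∩ cl U b (oth U p) = oth U p then wt5 U a b p.1 (oth U p) else 0)) := by
    rw [Finset.sum_comm]
    calc N.card * 120 = ∑ p ∈ N, 120 := by rw [Finset.sum_const, smul_eq_mul]
      _ ≤ _ := Finset.sum_le_sum h1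
  have h3 : ∑ V ∈ SG 5 U a b g, ∑ p ∈ N,
      ((if V ∩ cl U a p.1 = p.1 then wt5 U a b p.1 (oth U p) else 0) +
        (if V ∩ cl U b (oth U p) = oth U p then wt5 U a b p.1 (oth U p) else 0)) ≤
      (SG 5 U a b g).card * 120 := by
    calc _ ≤ ∑ V ∈ SG 5 U a b g, 120 := by
          apply Finset.sum_le_sum
          intro V hV
          rw [Finset.sum_add_distrib, ← Finset.sum_filter, ← Finset.sum_filter]
          exact load5 h hU hV N hNN (fun p hp => hw p (hNN hp))
      _ = _ := by rw [Finset.sum_const, smul_eq_mul]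
  exact Nat.le_of_mul_le_mul_right (h2.trans h3) (by norm_num)

end Pool.IS
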