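import Pool.Agent.IS.Key1Six

/-!
# KEY for `|U| = 2r - 1`, `r = 3, 4`
-/

set_option autoImplicit false
open Classical

namespace Pool.IS

section PC

variable {α : Type*} [DecidableEq α] {ι : Type*}
variable {W : Finset α} {y : α} {I : Finset ι} {S : ι → Finset α} {G : α → α → Prop}

/-- ordered matched pairs -/
noncomputable def gs' (W : Finset α) (G : α → α → Prop) : Finset (α × α) :=
  (W ×ˢ W).filter (fun q => G q.1 q.2)

theorem PC.gs_le (h : PC W y I S G) : (gs' W G).card + 1 ≤ W.card := by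
  have hy : 1 ≤ W.card := Finset.card_pos.mpr ⟨y, h.yW⟩
  have h1 : (gs' W G).card ≤ (W.erase y).card := by
    apply Finset.card_le_card_of_injOn (fun q => q.1)
    · intro q hq
      simp only [gs', Finset.mem_coe, Finset.mem_filter, Finset.mem_product] at hq
      rw [Finset.mem_coe, Finset.mem_erase]
      refine ⟨?_, hq.1.1⟩
      intro he
      simp only at he
      rw [he] at hq
      exact h.gy _ hq.2
    · intro q hq q' hq' he
      simp only [gs', Finset.mem_coe, Finset.mem_filter, Finset.mem_product] at hq hq'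
      simp only at he
      apply Prod.ext he
      refine h.gu q.1 hq.1.1 q.2 hq.1.2 q'.2 hq'.1.2 hq.2 ?_
      rw [he]
      exact hq'.2
  rw [Finset.card_erase_of_mem h.yW] at h1
  omega

theorem PC.lG : W.card * W.card ≤
    (gp W I S G).card + W.card + ∑ i ∈ I, (S i).card * ((S i).card - 1) + (gs' W G).card := by
  have hsub : W ×ˢ W ⊆ gp W I S G ∪ W.diag ∪ I.biUnion (fun i => (S i).offDiag) ∪ gs' W G := by
    intro q hq
    rw [Finset.mem_product] at hq
    simp only [Finset.mem_union, Finset.mem_diag, Finset.mem_biUnion, Finset.mem_offDiag, mem_gp,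
      gs', Finset.mem_filter, Finset.mem_product]
    by_cases h1 : q.1 = q.2
    · left; left; right
      exact ⟨hq.1, h1⟩
    · by_cases h2 : G q.1 q.2
      · right
        exact ⟨hq, h2⟩
      · by_cases h3 : ∀ i ∈ I, ¬ (q.1 ∈ S i ∧ q.2 ∈ S i)
        · left; left; left
          exact ⟨hq, h1, h3, h2⟩
        · push Not at h3
          obtain ⟨i, hi, h4, h5⟩ := h3
          left; right
          exact ⟨i, hi, h4, h5, h1⟩
  have h1 := Finset.card_le_card hsub
  rw [Finset.card_product] at h1
  have h2 := Finset.card_union_le (gp W I S G ∪ W.diag ∪ I.biUnion (fun i => (S i).offDiag))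
    (gs' W G)
  have h3 := Finset.card_union_le (gp W I S G ∪ W.diag) (I.biUnion (fun i => (S i).offDiag))
  have h4 := Finset.card_union_le (gp W I S G) W.diag
  have h5 : (I.biUnion (fun i => (S i).offDiag)).card ≤ ∑ i ∈ I, (S i).card * ((S i).card - 1) := by
    refine (Finset.card_biUnion_le).trans (Finset.sum_le_sum ?_)
    intro i _
    rw [Finset.offDiag_card, Nat.mul_sub_one]
  rw [Finset.diag_card] at h4
  omega

end PC

variable {α : Type*} [DecidableEq α]
variable {r : ℕ} {U : Finset α} {a b g : Finset α → Prop} {X Z : Finset α} {y : α}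

/-- sum over the classes when `|S_x - y| ≤ 1` -/
theorem sigma_le (s : S1 r U a b g X Z y) (h : Sys r U a b g)
    (hc : ∀ x ∈ X, ((Sx U a b X x).erase y).card ≤ 1) :
    ∑ x ∈ X, (Sx U a b X x).card * ((Sx U a b X x).card - 1) ≤ 2 := by
  have hpc := s.pc h
  have h1 : ∀ x ∈ X, (Sx U a b X x).card * ((Sx U a b X x).card - 1) ≤
      if y ∈ Sx U a b X x then 2 else 0 := by
    intro x hx
    have h2 := hc x hx
    by_cases hy : y ∈ Sx U a b X x
    · rw [if_pos hy]
      rw [Finset.card_erase_of_mem hy] at h2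
      have h3 : (Sx U a b X x).card ≤ 2 := by omega
      calc (Sx U a b X x).card * ((Sx U a b X x).card - 1) ≤ 2 * 1 :=
            Nat.mul_le_mul h3 (by omega)
        _ = 2 := rfl
    · rw [if_neg hy]
      rw [Finset.erase_eq_of_notMem hy] at h2
      have h3 : (Sx U a b X x).card - 1 = 0 := by omega
      rw [h3, mul_zero]
  refine (Finset.sum_le_sum h1).trans ?_
  rw [← Finset.sum_filter, Finset.sum_const, smul_eq_mul]
  have h2 : (X.filter (fun x => y ∈ Sx U a b X x)).card ≤ 1 := by
    rw [Finset.card_le_one]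
    intro x hx x' hx'
    rw [Finset.mem_filter] at hx hx'
    by_contra hne
    exact Finset.disjoint_left.mp (hpc.dj x hx.1 x' hx'.1 hne) hx.2 hx'.2
  omega

/-- `r = 4`: `|S_x - y| ≤ 1` -/
theorem class4 (s : S1 4 U a b g X Z y) (h : Sys 4 U a b g) (hw' : 3 ≤ (U \ cl U b Z).card) :
    ∀ x ∈ X, ((Sx U a b X x).erase y).card ≤ 1 := by
  intro x hx
  by_cases hne : (Sx U a b X x).Nonempty
  · have := s.class_le h hw' hx hne
    omega
  · rw [Finset.not_nonempty_iff_eq_empty] at hne
    rw [hne]
    simp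

theorem four_w4 (s : S1 4 U a b g X Z y) (h : Sys 4 U a b g) (hw : (U \ cl U a X).card = 4)
    (hw' : 3 ≤ (U \ cl U b Z).card) :
    4 ≤ ((SG 4 U a b g).filter (fun V => V ∩ cl U a X = X)).card := by
  have h1 := s.gp_le h
  have h2 := sigma_le s h (class4 s h hw')
  have hpc := s.pc h
  have h3 := hpc.gs_le
  have h4 := PC.lG (W := U \ cl U a X) (I := X) (S := Sx U a b X) (G := Gr U a g X)
  rw [hw] at h3 h4
  omega

/-- a nontrivial class in the case `r = 4`, `w' = 3` -/
theorem class_form (s : S1 4 U a b g X Z y) (h : Sys 4 U a b g)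
    (hw' : (U \ cl U b Z).card = 3) {x : α} (hx : x ∈ X) (hs : 2 ≤ (Sx U a b X x).card) :
    x ∈ cl U b Z ∧ y ∈ Sx U a b X x := by
  have hne : (Sx U a b X x).Nonempty := Finset.card_pos.mp (by omega)
  have h1 := s.class_le h (by omega) hx hne
  have h2 := s.symm.card_W
  have h3 := Finset.pred_card_le_card_erase (s := Sx U a b X x) (a := y)
  constructor
  · by_contra hxK
    have h4 : x ∉ X ∩ cl U b Z := fun hh => hxK (Finset.mem_inter.mp hh).2
    rw [Finset.erase_eq_of_notMem h4] at h1
    omega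
  · by_contra hy
    rw [Finset.erase_eq_of_notMem hy] at h1
    omega

theorem four_33 (s : S1 4 U a b g X Z y) (h : Sys 4 U a b g) (hw : (U \ cl U a X).card = 3)
    (hw' : (U \ cl U b Z).card = 3) :
    4 ≤ ((SG 4 U a b g).filter (fun V => V ∩ cl U a X = X)).card +
      ((SG 4 U a b g).filter (fun V => V ∩ cl U b Z = Z)).card := by
  have h1 := s.gp_le h
  have h1' := s.symm.gp_le h.symm
  rw [SG_symm] at h1'
  have h2 := sigma_le s h (class4 s h (by omega))
  have h2' := sigma_le s.symm h.symm (class4 s.symm h.symm (by omega))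
  have h3 := (s.pc h).gs_le
  have h3' := (s.symm.pc h.symm).gs_le
  have h4 := PC.lG (W := U \ cl U a X) (I := X) (S := Sx U a b X) (G := Gr U a g X)
  have h4' := PC.lG (W := U \ cl U b Z) (I := Z) (S := Sx U b a Z) (G := Gr U b g Z)
  have p1 := s.card_W
  have p2 := s.symm.card_W
  rw [hw] at h3 h4
  rw [hw'] at h3' h4'
  -- not both sides have a class
  have hA : (∑ x ∈ X, (Sx U a b X x).card * ((Sx U a b X x).card - 1)) = 0 ∨
      (∑ x ∈ Z, (Sx U b a Z x).card * ((Sx U b a Z x).card - 1)) = 0 := by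
    by_contra hc
    rw [not_or] at hc
    obtain ⟨c1, c2⟩ := hc
    obtain ⟨x, hx, hx0⟩ := Finset.exists_ne_zero_of_sum_ne_zero c1
    obtain ⟨z, hz, hz0⟩ := Finset.exists_ne_zero_of_sum_ne_zero c2
    have hx2 : 2 ≤ (Sx U a b X x).card := by
      by_contra hh
      apply hx0
      have : (Sx U a b X x).card - 1 = 0 := by omega
      rw [this, mul_zero]
    have hz2 : 2 ≤ (Sx U b a Z z).card := by
      by_contra hh
      apply hz0
      have : (Sx U b a Z z).card - 1 = 0 := by omega
      rw [this, mul_zero]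
    obtain ⟨hxK, hy⟩ := class_form s h hw' hx hx2
    obtain ⟨hzH, hy'⟩ := class_form s.symm h.symm hw hz hz2
    have hcr := s.cross_le h hx hz ⟨y, hy⟩ ⟨y, hy'⟩
    rw [if_pos ⟨hy, hy'⟩] at hcr
    have e1 : z ∉ (Sx U a b X x).erase y := by
      intro hh
      have := Finset.mem_of_mem_erase hh
      rw [mem_Sx] at this
      exact this.1.2 hzH
    have e2 : x ∉ (Sx U b a Z z).erase y := by
      intro hh
      have := Finset.mem_of_mem_erase hh
      rw [mem_Sx] at this
      exact this.1.2 hxK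
    rw [Finset.erase_eq_of_notMem e1, Finset.erase_eq_of_notMem e2, Finset.card_erase_of_mem hy,
      Finset.card_erase_of_mem hy'] at hcr
    omega
  -- not both sides have a blocked pair
  have hB : (gs' (U \ cl U a X) (Gr U a g X)).card = 0 ∨
      (gs' (U \ cl U b Z) (Gr U b g Z)).card = 0 := by
    by_contra hc
    rw [not_or] at hc
    obtain ⟨c1, c2⟩ := hc
    obtain ⟨⟨c, c'⟩, hq⟩ := Finset.card_pos.mp (Nat.pos_of_ne_zero c1)
    obtain ⟨⟨d, d'⟩, hq'⟩ := Finset.card_pos.mp (Nat.pos_of_ne_zero c2)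
    simp only [gs', Finset.mem_filter, Finset.mem_product] at hq hq'
    obtain ⟨⟨hcW, hcW'⟩, hG⟩ := hq
    obtain ⟨⟨hdW, hdW'⟩, hG'⟩ := hq'
    have hpc := s.pc h
    have hpc' := s.symm.pc h.symm
    have hcy : c ≠ y := fun hh => hpc.gy _ (hh ▸ hG)
    have hcy' : c' ≠ y := fun hh => hpc.gy _ (hh ▸ (hpc.gs _ _ hG))
    have hdy : d ≠ y := fun hh => hpc'.gy _ (hh ▸ hG')
    have hdy' : d' ≠ y := fun hh => hpc'.gy _ (hh ▸ (hpc'.gs _ _ hG'))
    obtain ⟨zs, hzs⟩ := Finset.card_pos.mp (show 0 < (Z ∩ cl U a X).card by omega)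
    obtain ⟨xs, hxs⟩ := Finset.card_pos.mp (show 0 < (X ∩ cl U b Z).card by omega)
    rw [Finset.mem_inter] at hzs hxs
    have hDU : ((U \ X).erase c).erase c' ⊆ U :=
      (Finset.erase_subset _ _).trans ((Finset.erase_subset _ _).trans Finset.sdiff_subset)
    have hDU' : ((U \ Z).erase d).erase d' ⊆ U :=
      (Finset.erase_subset _ _).trans ((Finset.erase_subset _ _).trans Finset.sdiff_subset)
    rw [Finset.mem_sdiff] at hcW hcW' hdW hdW'
    have hyD : y ∈ ((U \ X).erase c).erase c' := by
      rw [Finset.mem_erase, Finset.mem_erase, Finset.mem_sdiff]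
      exact ⟨hcy'.symm, hcy.symm, s.hy, s.yX⟩
    have hyD' : y ∈ ((U \ Z).erase d).erase d' := by
      rw [Finset.mem_erase, Finset.mem_erase, Finset.mem_sdiff]
      exact ⟨hdy'.symm, hdy.symm, s.hy, s.yZ⟩
    have hzD : zs ∈ ((U \ X).erase c).erase c' := by
      rw [Finset.mem_erase, Finset.mem_erase, Finset.mem_sdiff]
      refine ⟨fun hh => hcW'.2 (hh ▸ hzs.2), fun hh => hcW.2 (hh ▸ hzs.2), s.hZ hzs.1, fun hh => ?_⟩
      exact Finset.disjoint_left.mp s.dj hh hzs.1
    have hxD : xs ∈ ((U \ Z).erase d).erase d' := by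
      rw [Finset.mem_erase, Finset.mem_erase, Finset.mem_sdiff]
      refine ⟨fun hh => hdW'.2 (hh ▸ hxs.2), fun hh => hdW.2 (hh ▸ hxs.2), s.hX hxs.1, fun hh => ?_⟩
      exact Finset.disjoint_left.mp s.dj hxs.1 hh
    have hgg := h.gg hDU hDU' hG.2.2.2 hG'.2.2.2 (by
      have : {y} ⊆ (((U \ X).erase c).erase c') ∩ (((U \ Z).erase d).erase d') := by
        rw [Finset.singleton_subset_iff, Finset.mem_inter]
        exact ⟨hyD, hyD'⟩
      have := Finset.card_le_card this
      rw [Finset.card_singleton] at this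
      omega)
    have hbg := h.blk_g (s.hH h) (Finset.union_subset hDU hDU') hgg
    have hsub : {xs, zs} ⊆ cl U a X ∩ ((((U \ X).erase c).erase c') ∪ (((U \ Z).erase d).erase d')) := by
      rw [Finset.insert_subset_iff, Finset.singleton_subset_iff, Finset.mem_inter, Finset.mem_inter,
        Finset.mem_union, Finset.mem_union]
      exact ⟨⟨s.XH hxs.1, Or.inr hxD⟩, hzs.2, Or.inl hzD⟩
    have hne : xs ≠ zs := fun hh => Finset.disjoint_left.mp s.dj hxs.1 (hh ▸ hzs.1)
    have hcc := Finset.card_le_card hsub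
    rw [Finset.card_pair hne] at hcc
    omega
  omega

theorem four_bound (s : S1 4 U a b g X Z y) (h : Sys 4 U a b g) (hw : 3 ≤ (U \ cl U a X).card)
    (hw' : 3 ≤ (U \ cl U b Z).card) :
    4 ≤ ((SG 4 U a b g).filter (fun V => V ∩ cl U a X = X)).card +
      ((SG 4 U a b g).filter (fun V => V ∩ cl U b Z = Z)).card := by
  have p1 := s.card_W
  have p2 := s.symm.card_W
  by_cases h4 : (U \ cl U a X).card = 4
  · have := four_w4 s h h4 hw'
    omega
  · by_cases h4' : (U \ cl U b Z).card = 4
    · have := four_w4 s.symm h.symm h4' hw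
      rw [SG_symm] at this
      omega
    · exact four_33 s h (by omega) (by omega)

theorem three_side (s : S1 3 U a b g X Z y) (h : Sys 3 U a b g) (hw : 3 ≤ (U \ cl U a X).card)
    (hw' : 3 ≤ (U \ cl U b Z).card) :
    2 ≤ ((SG 3 U a b g).filter (fun V => V ∩ cl U a X = X)).card := by
  have h1 := s.gp_le h
  have p1 := s.card_W
  have hpc := s.pc h
  have h2 := hpc.triv (by
    intro x hx
    by_cases hne : (Sx U a b X x).Nonempty
    · have h3 := s.class_le h hw' hx hne
      have h4 := Finset.pred_card_le_card_erase (s := Sx U a b X x) (a := y)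
      omega
    · rw [Finset.not_nonempty_iff_eq_empty] at hne
      rw [hne]
      simp)
  have h3 : (U \ cl U a X).card = 3 := by omega
  rw [h3] at h2
  omega

theorem load_cardE (h : Sys r U a b g) (hU : U.card + 1 = 2 * r) {V : Finset α}
    (hV : V ∈ SG r U a b g) :
    2 * ((N0 r U a b g).filter (fun p => V ∩ cl U a p.1 = p.1)).card ≤ r + 1 := by
  obtain ⟨hVU, hVc⟩ := SG_card hU hV
  obtain ⟨l1, l2⟩ := load_blk h hVU hVc hU
  have h1 : ((N0 r U a b g).filter (fun p => V ∩ cl U a p.1 = p.1)).card ≤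
      (BV r U a g V).card := by
    apply Finset.card_le_card_of_injOn (fun p => cl U a p.1)
    · intro p hp
      rw [Finset.mem_coe, Finset.mem_filter] at hp
      have sp := S1_of_N0 hU hp.1
      rw [Finset.mem_coe, BV, Finset.mem_filter]
      refine ⟨sp.hH h, ?_⟩
      rw [hp.2]
      exact sp.cX
    · intro p hp q hq he
      rw [Finset.mem_coe, Finset.mem_filter] at hp hq
      simp only at he
      apply N0_inj h hU hp.1 hq.1
      rw [← hp.2, ← hq.2, he]
  omega

theorem load_cardF (h : Sys r U a b g) (hU : U.card + 1 = 2 * r) {V : Finset α}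
    (hV : V ∈ SG r U a b g) :
    2 * ((N0 r U a b g).filter (fun p => V ∩ cl U b (oth U p) = oth U p)).card ≤ r + 1 := by
  obtain ⟨hVU, hVc⟩ := SG_card hU hV
  obtain ⟨l1, l2⟩ := load_blk h.symm hVU hVc hU
  have h1 : ((N0 r U a b g).filter (fun p => V ∩ cl U b (oth U p) = oth U p)).card ≤
      (BV r U b g V).card := by
    apply Finset.card_le_card_of_injOn (fun p => cl U b (oth U p))
    · intro p hp
      rw [Finset.mem_coe, Finset.mem_filter] at hp
      have sp := (S1_of_N0 hU hp.1).symm
      rw [Finset.mem_coe, BV, Finset.mem_filter]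
      refine ⟨sp.hH h.symm, ?_⟩
      rw [hp.2]
      exact sp.cX
    · intro p hp q hq he
      rw [Finset.mem_coe, Finset.mem_filter] at hp hq
      simp only at he
      apply oth_inj h hU hp.1 hq.1
      rw [← hp.2, ← hq.2, he]
  omega

/-- double counting for small rank -/
theorem small_count (h : Sys r U a b g) (hU : U.card + 1 = 2 * r) (hr : r ≤ 4)
    (hb : ∀ p ∈ N0 r U a b g, 4 ≤ ((SG r U a b g).filter (fun V => V ∩ cl U a p.1 = p.1)).card +
      ((SG r U a b g).filter (fun V => V ∩ cl U b (oth U p) = oth U p)).card) :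
    (N0 r U a b g).card ≤ (SG r U a b g).card := by
  have h1 : (N0 r U a b g).card * 4 ≤ ∑ p ∈ N0 r U a b g, ∑ V ∈ SG r U a b g,
      ((if V ∩ cl U a p.1 = p.1 then 1 else 0) +
        (if V ∩ cl U b (oth U p) = oth U p then 1 else 0)) := by
    rw [← smul_eq_mul, ← Finset.sum_const]
    apply Finset.sum_le_sum
    intro p hp
    rw [Finset.sum_add_distrib, ← Finset.card_filter, ← Finset.card_filter]
    exact hb p hp
  have h2 : ∑ p ∈ N0 r U a b g, ∑ V ∈ SG r U a b g,
      ((if V ∩ cl U a p.1 = p.1 then 1 else 0) +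
        (if V ∩ cl U b (oth U p) = oth U p then 1 else 0)) ≤ (SG r U a b g).card * 4 := by
    rw [Finset.sum_comm, ← smul_eq_mul, ← Finset.sum_const]
    apply Finset.sum_le_sum
    intro V hV
    rw [Finset.sum_add_distrib, ← Finset.card_filter, ← Finset.card_filter]
    have k1 := load_cardE h hU hV
    have k2 := load_cardF h hU hV
    omega
  omega

theorem key1_four (h : Sys r U a b g) (hU : U.card + 1 = 2 * r) (hr : r = 4)
    (hw : ∀ p ∈ N0 r U a b g, wide U a b p) : (N0 r U a b g).card ≤ (SG r U a b g).card := by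
  subst hr
  apply small_count h hU (by omega)
  intro p hp
  exact four_bound (S1_of_N0 hU hp) h (hw p hp).1 (hw p hp).2

theorem key1_three (h : Sys r U a b g) (hU : U.card + 1 = 2 * r) (hr : r = 3)
    (hw : ∀ p ∈ N0 r U a b g, wide U a b p) : (N0 r U a b g).card ≤ (SG r U a b g).card := by
  subst hr
  apply small_count h hU (by omega)
  intro p hp
  have s := S1_of_N0 hU hp
  have k1 := three_side s h (hw p hp).1 (hw p hp).2
  have k2 := three_side s.symm h.symm (hw p hp).2 (hw p hp).1
  rw [SG_symm] at k2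
  omega

end Pool.IS
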