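import Pool.Agent.IS.Tau

/-!
# KEY for `|U| = 2r - 1`: a block with `|U - H| = 2`, and rank two
-/

set_option autoImplicit false
open Classical

namespace Pool.IS

variable {α : Type*} [DecidableEq α]

variable {r : ℕ} {U : Finset α} {a b g : Finset α → Prop} {X Z H K : Finset α} {y : α}

theorem gd_swap {V : Finset α} (hV : gd r U b a g V) : gd r U a b g V :=
  ⟨hV.1, hV.2.1, fun v hv => (hV.2.2 v hv).symm⟩

theorem SG_swap : SG r U b a g = SG r U a b g := by
  ext V
  rw [mem_SG, mem_SG]
  exact ⟨fun hh => ⟨hh.1, gd_swap hh.2⟩, fun hh => ⟨hh.1, gd_swap hh.2⟩⟩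

theorem mem_GD {D : Finset α} : D ∈ GD r U a b g ↔ D ⊆ U ∧ gd r U a b g (U \ D) := by
  rw [GD, Finset.mem_filter, Finset.mem_powerset]

namespace Tau

/-- goodness of `D ⊆ X` on the `F`-side when `|Z ∩ H| = r - 2` -/
theorem goodF (t : Tau r U a b g X Z H K y) (h : Sys r U a b g) (hb : (Z ∩ H).card + 2 = r)
    {D : Finset α} (hD : D ⊆ X) (hDc : D.card + 2 = r) : D ∈ GD r U a b g := by
  have hab := t.ab_le h
  have hXK : X ∩ K = ∅ := by
    rw [← Finset.card_eq_zero]
    omega
  rw [mem_GD]
  refine ⟨hD.trans t.hX, gd_swap ?_⟩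
  apply (t.src h).symm.good h.symm _ _ hD hDc
  · right
    rw [t.clX h]
    exact hb
  · rw [t.clZ h, hXK]
    exact Finset.empty_subset _

end Tau

theorem narrowE (h : Sys r U a b g) (hU : U.card + 1 = 2 * r) (hr : 3 ≤ r)
    (hn : ∃ p ∈ N0 r U a b g, (U \ cl U a p.1).card ≤ 2) :
    (N0 r U a b g).card ≤ (SG r U a b g).card := by
  obtain ⟨p0, hp0, hw0⟩ := hn
  have t0 := Tau.of_N0 h hU hp0
  set H0 := cl U a p0.1 with hH0
  have hab0 := t0.ab_le h
  have hW0 := t0.W_card
  have hHc0 := t0.H_card
  have hcX0 := t0.cX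
  have hWc : (U \ H0).card = 2 := by omega
  have hHc : H0.card + 3 = 2 * r := by omega
  -- all splits have this block
  have hall : ∀ p ∈ N0 r U a b g, cl U a p.1 = H0 := by
    intro p hp
    have t := Tau.of_N0 h hU hp
    by_contra hne
    have h1 := h.blk_inter t.hH t0.hH hne
    have h2 := h.blk_b t0.hH t.KU t.bK
    have h3 : H0 ⊆ (cl U a p.1 ∩ H0) ∪ ((H0 ∩ cl U b (oth U p)) ∪ {p.2}) := by
      intro u hu
      rcases t.cov u (t0.HU hu) with h4 | h4 | h4
      · exact Finset.mem_union_left _ (Finset.mem_inter.mpr ⟨t.XH h4, hu⟩)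
      · exact Finset.mem_union_right _ (Finset.mem_union_left _
          (Finset.mem_inter.mpr ⟨hu, t.ZK h4⟩))
      · exact Finset.mem_union_right _ (Finset.mem_union_right _ (Finset.mem_singleton.mpr h4))
    have h4 := Finset.card_le_card h3
    have h5 := Finset.card_union_le (cl U a p.1 ∩ H0) ((H0 ∩ cl U b (oth U p)) ∪ {p.2})
    have h6 := Finset.card_union_le (H0 ∩ cl U b (oth U p)) {p.2}
    rw [Finset.card_singleton] at h6
    omega
  have ht : ∀ p ∈ N0 r U a b g, Tau r U a b g p.1 (oth U p) H0 (cl U b (oth U p)) p.2 := by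
    intro p hp
    have t := Tau.of_N0 h hU hp
    rw [hall p hp] at t
    exact t
  have hb : ∀ p ∈ N0 r U a b g, (oth U p ∩ H0).card + 2 = r := by
    intro p hp
    have := (ht p hp).W_card
    omega
  have hKZ : ∀ p ∈ N0 r U a b g, cl U b (oth U p) = oth U p := by
    intro p hp
    have t := ht p hp
    have h1 := t.ab_le h
    have h2 := hb p hp
    have h3 : p.1 ∩ cl U b (oth U p) = ∅ := by
      rw [← Finset.card_eq_zero]
      omega
    have h4 := t.K_eq
    rw [h3, Finset.union_empty] at h4
    exact h4
  have key : ((N0 r U a b g).sigma (fun p => p.1)).card ≤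
      ((GD r U a b g) ×ˢ (U \ H0)).card := by
    apply Finset.card_le_card_of_injOn (fun q => (q.1.1.erase q.2, q.1.2))
    · rintro ⟨p, d⟩ hq
      rw [Finset.mem_coe, Finset.mem_sigma] at hq
      obtain ⟨hp, hd⟩ := hq
      simp only at hp hd ⊢
      have t := ht p hp
      rw [Finset.mem_coe, Finset.mem_product]
      simp only
      constructor
      · apply t.goodF h (hb p hp) (Finset.erase_subset _ _)
        rw [Finset.card_erase_of_mem hd]
        have := t.cX
        omega
      · exact Finset.mem_sdiff.mpr ⟨t.hy, t.yH⟩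
    · rintro ⟨p, d⟩ hq ⟨p', d'⟩ hq' he
      rw [Finset.mem_coe, Finset.mem_sigma] at hq hq'
      obtain ⟨hp, hd⟩ := hq
      obtain ⟨hp', hd'⟩ := hq'
      simp only [Prod.mk.injEq] at hp hd hp' hd' he
      obtain ⟨he1, he2⟩ := he
      have t := ht p hp
      have t' := ht p' hp'
      have hcX := t.cX
      have hcX' := t'.cX
      -- the two `F`-blocks agree
      have hKK : cl U b (oth U p) = cl U b (oth U p') := by
        by_contra hne
        have h1 := h.symm.blk_inter t.hK t'.hK hne
        have h2 : (U \ (p.1 ∪ p'.1)).erase p.2 ⊆ cl U b (oth U p) ∩ cl U b (oth U p') := by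
          intro u hu
          rw [Finset.mem_erase, Finset.mem_sdiff, Finset.mem_union] at hu
          rw [Finset.mem_inter]
          constructor
          · rcases t.cov u hu.2.1 with h4 | h4 | h4
            · tauto
            · exact t.ZK h4
            · tauto
          · rcases t'.cov u hu.2.1 with h4 | h4 | h4
            · tauto
            · exact t'.ZK h4
            · rw [← he2] at h4
              tauto
        have h3 := Finset.card_le_card h2
        have h4 : p.2 ∈ U \ (p.1 ∪ p'.1) := by
          rw [Finset.mem_sdiff, Finset.mem_union]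
          refine ⟨t.hy, fun hh => ?_⟩
          rcases hh with hh | hh
          · exact t.yX hh
          · rw [he2] at hh
            exact t'.yX hh
        rw [Finset.card_erase_of_mem h4] at h3
        have h5 := Finset.card_sdiff_add_card_eq_card (Finset.union_subset t.hX t'.hX)
        have h6 : (p.1 ∪ p'.1).card ≤ r := by
          have h7 : p.1 ∪ p'.1 ⊆ insert d (insert d' (p.1.erase d)) := by
            intro u hu
            rw [Finset.mem_union] at hu
            rw [Finset.mem_insert, Finset.mem_insert]
            by_cases h8 : u = d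
            · exact Or.inl h8
            · by_cases h9 : u = d'
              · exact Or.inr (Or.inl h9)
              · right; right
                rcases hu with hu | hu
                · exact Finset.mem_erase.mpr ⟨h8, hu⟩
                · rw [he1]
                  exact Finset.mem_erase.mpr ⟨h9, hu⟩
          have h8 := Finset.card_le_card h7
          have h9 := Finset.card_insert_le d (insert d' (p.1.erase d))
          have h10 := Finset.card_insert_le d' (p.1.erase d)
          have h11 := Finset.card_erase_of_mem hd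
          omega
        omega
      rw [hKZ p hp, hKZ p' hp'] at hKK
      have e1 : p.1 = (U \ oth U p).erase p.2 := t.symm.oth_eq.symm
      have e2 : p'.1 = (U \ oth U p').erase p'.2 := t'.symm.oth_eq.symm
      have e3 : p.1 = p'.1 := by rw [e1, e2, hKK, he2]
      have e4 : p = p' := Prod.ext e3 he2
      subst e4
      have e5 : d = d' := by
        by_contra hne
        have : d ∈ p.1.erase d' := Finset.mem_erase.mpr ⟨hne, hd⟩
        rw [← he1] at this
        exact Finset.notMem_erase d _ this
      subst e5
      rfl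
  rw [Finset.card_sigma, Finset.card_product, hWc, card_GD] at key
  have h1 : ∑ p ∈ N0 r U a b g, p.1.card = (N0 r U a b g).card * (r - 1) := by
    rw [← smul_eq_mul, ← Finset.sum_const]
    apply Finset.sum_congr rfl
    intro p hp
    have := (ht p hp).cX
    omega
  rw [h1] at key
  have h2 : (N0 r U a b g).card * 2 ≤ (N0 r U a b g).card * (r - 1) :=
    Nat.mul_le_mul_left _ (by omega)
  omega

theorem key1_narrow (h : Sys r U a b g) (hU : U.card + 1 = 2 * r) (hr : 3 ≤ r)
    (hn : ∃ p ∈ N0 r U a b g, ¬ wide U a b p) :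
    (N0 r U a b g).card ≤ (SG r U a b g).card := by
  obtain ⟨p, hp, hw⟩ := hn
  rw [wide, not_and_or, not_le, not_le] at hw
  rcases hw with hw | hw
  · exact narrowE h hU hr ⟨p, hp, by omega⟩
  · rw [← N0_symm, ← SG_swap]
    apply narrowE h.symm hU hr
    have t := (Tau.of_N0 h hU hp).symm
    exact ⟨(oth U p, p.2), t.mem_N0 h.symm, by simp only; omega⟩

theorem key1_two (h : Sys r U a b g) (hU : U.card + 1 = 2 * r) (hr : r = 2) :
    (N0 r U a b g).card ≤ (SG r U a b g).card := by
  rcases (N0 r U a b g).eq_empty_or_nonempty with he | ⟨p0, hp0⟩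
  · rw [he]; simp
  have hX : ∀ p ∈ N0 r U a b g, cl U a p.1 = p.1 := by
    intro p hp
    have t := Tau.of_N0 h hU hp
    have h1 := t.ab_le h
    have h2 : oth U p ∩ cl U a p.1 = ∅ := by
      rw [← Finset.card_eq_zero]
      omega
    have h3 := t.H_eq
    rw [h2, Finset.union_empty] at h3
    exact h3
  have h1 : N0 r U a b g = {p0} := by
    apply Finset.eq_singleton_iff_unique_mem.mpr
    refine ⟨hp0, ?_⟩
    intro p hp
    have t0 := Tau.of_N0 h hU hp0
    have t := Tau.of_N0 h hU hp
    have h2 : cl U a p.1 = cl U a p0.1 := by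
      by_contra hne
      have := h.blk_inter t.hH t0.hH hne
      omega
    rw [hX p hp, hX p0 hp0] at h2
    obtain ⟨X, y⟩ := p
    obtain ⟨X0, y0⟩ := p0
    simp only at h2
    subst h2
    simp only at t t0
    rw [Tau.y_uniq h t t0]
  have t0 := Tau.of_N0 h hU hp0
  have h2 : (∅ : Finset α) ∈ GD r U a b g := by
    have hab := t0.ab_le h
    apply t0.goodF h _ (Finset.empty_subset _)
    · simp [hr]
    · omega
  rw [h1, Finset.card_singleton, ← card_GD]
  exact Finset.card_pos.mpr ⟨_, h2⟩

end Pool.IS
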