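import Pool.Agent.IS.Asm
import Pool.Agent.IS.Full
import Pool.Agent.IS.Narrow
import Pool.Agent.IS.Key1Four
import Pool.Agent.IS.Key1FiveB

/-!
# KEY in all cases
-/

set_option autoImplicit false
open Classical

namespace Pool.IS

variable {α : Type*} [DecidableEq α]
variable {r : ℕ} {U : Finset α} {a b g : Finset α → Prop}

theorem MM_empty (hU : U.card + 1 = 2 * r) : MM r U a b g = ∅ := by
  rw [Finset.eq_empty_iff_forall_notMem]
  intro X hX
  rw [mem_MM] at hX
  obtain ⟨h1, h2, h3, -⟩ := hX
  have := Finset.card_sdiff_add_card_eq_card h1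
  omega

/-- the key counting inequality for `|U| = 2 r - 1` -/
theorem key1 (h : Sys r U a b g) (hU : U.card + 1 = 2 * r) : KEY r U a b g := by
  rw [KEY, MM_empty hU, Finset.card_empty, mul_zero, add_zero]
  rcases (N0 r U a b g).eq_empty_or_nonempty with he | ⟨p0, hp0⟩
  · rw [he, Finset.card_empty]
    exact Nat.zero_le _
  have hr2 := (S1_of_N0 hU hp0).r2 h
  by_cases h2 : r = 2
  · exact (key1_two h hU h2).trans (Nat.le_add_right _ _)
  by_cases hw : ∀ p ∈ N0 r U a b g, wide U a b p
  · by_cases h3 : r = 3
    · exact (key1_three h hU h3 hw).trans (Nat.le_add_right _ _)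
    by_cases h4 : r = 4
    · exact (key1_four h hU h4 hw).trans (Nat.le_add_right _ _)
    have k1 := key1_full h hU (by omega) hw
    have k2 : ((N0 r U a b g).filter (fun p => ¬ (fullE U a b p ∨ fullF U a b p))).card ≤
        (SG r U a b g).card := by
      by_cases h5 : r = 5
      · exact key1_five h hU h5 hw
      · exact key1_six h hU (by omega) hw
    have k3 := Finset.card_filter_add_card_filter_not (s := N0 r U a b g)
      (fun p => fullE U a b p ∨ fullF U a b p)
    omega
  · push Not at hw
    exact (key1_narrow h hU (by omega) hw).trans (Nat.le_add_right _ _)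

/-- all instances of KEY hold -/
theorem keyAll : KEYall α := by
  intro r U a b g h _ hU
  by_cases hc : 2 * r ≤ U.card
  · exact key2 h hc
  · exact key1 h (by omega)

end Pool.IS
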