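import Pool.Agent.IS.Key2

/-!
# KEY for `|U| = 2r - 1`: shared definitions
-/

set_option autoImplicit false
open Classical

namespace Pool.IS

variable {α : Type*} [DecidableEq α]

/-- the other part `Z` of the split `(X, y)` -/
def oth (U : Finset α) (p : Finset α × α) : Finset α := (U \ p.1).erase p.2

/-- all pairs outside the `E`-block of `X` are in one `F`-block together with `X - x` -/
def fullE (U : Finset α) (a b : Finset α → Prop) (p : Finset α × α) : Prop :=
  ∃ x ∈ p.1, b (p.1.erase x ∪ (U \ cl U a p.1))

def fullF (U : Finset α) (a b : Finset α → Prop) (p : Finset α × α) : Prop :=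
  ∃ z ∈ oth U p, a ((oth U p).erase z ∪ (U \ cl U b (oth U p)))

/-- both complements of the two blocks have at least three elements -/
def wide (U : Finset α) (a b : Finset α → Prop) (p : Finset α × α) : Prop :=
  3 ≤ (U \ cl U a p.1).card ∧ 3 ≤ (U \ cl U b (oth U p)).card

end Pool.IS
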