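import Pool.Agent.IS.Key1Six

/-!
# KEY for `|U| = 2r - 1`, `r = 5`
-/

set_option autoImplicit false
open Classical

namespace Pool.IS

variable {α : Type*} [DecidableEq α]
variable {U : Finset α} {a b g : Finset α → Prop}

/-- the weight of a split -/
noncomputable def wt5 (U : Finset α) (a b : Finset α → Prop) (X Z : Finset α) : ℕ :=
  if (U \ cl U a X).card = 5 ∨ (U \ cl U b Z).card = 5 then 15
  else if (U \ cl U a X).card = 4 ∧ (U \ cl U b Z).card = 4 then 20 else 24

theorem wt5_symm (X Z : Finset α) : wt5 U b a Z X = wt5 U a b X Z := by
  unfold wt5
  split_ifs <;> first | rfl | (exfalso; omega)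

theorem wt5_le (X Z : Finset α) : wt5 U a b X Z ≤ 24 := by
  unfold wt5
  split_ifs <;> omega

namespace S1

variable {X Z : Finset α} {y : α}

/-- if every class of size at least two contains `y` and has size two, the sum is at most two -/
theorem sum_two (s : S1 5 U a b g X Z y) (h : Sys 5 U a b g)
    (hc : ∀ x ∈ X, (Sx U a b X x).card ≤ 2 ∧ ((Sx U a b X x).card = 2 → y ∈ Sx U a b X x)) :
    ∑ x ∈ X, (Sx U a b X x).card * ((Sx U a b X x).card - 1) ≤ 2 := by
  have hpc := s.pc h
  have h1 : ∀ x ∈ X, (Sx U a b X x).card * ((Sx U a b X x).card - 1) ≤
      if y ∈ Sx U a b X x then 2 else 0 := by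
    intro x hx
    obtain ⟨h2, h3⟩ := hc x hx
    by_cases h4 : (Sx U a b X x).card = 2
    · rw [if_pos (h3 h4), h4]
    · have h5 : (Sx U a b X x).card - 1 = 0 := by omega
      rw [h5, mul_zero]
      exact Nat.zero_le _
  refine (Finset.sum_le_sum h1).trans ?_
  rw [← Finset.sum_filter, Finset.sum_const, smul_eq_mul]
  have h2 : (X.filter (fun x => y ∈ Sx U a b X x)).card ≤ 1 := by
    rw [Finset.card_le_one]
    intro x hx x' hx'
    rw [Finset.mem_filter] at hx hx'
    by_contra hne
    exact Finset.disjoint_left.mp (hpc.dj x hx.1 x' hx'.1 hne) hx.2 hx'.2
  omega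

/-- `w = 3`: the other side has many good sets -/
theorem three_other5 (s : S1 5 U a b g X Z y) (h : Sys 5 U a b g)
    (hw : (U \ cl U a X).card = 3) :
    (U \ cl U b Z).card * (U \ cl U b Z).card ≤
      2 * ((SG 5 U a b g).filter (fun V => V ∩ cl U b Z = Z)).card + 2 * (U \ cl U b Z).card + 1 := by
  have hg := s.symm.gp_le h.symm
  have hpc := s.symm.pc h.symm
  have h1 := s.symm.sum_two h.symm (by
    intro z hz
    by_cases hne : (Sx U b a Z z).Nonempty
    · have h1 := s.symm.class_le h.symm (by omega) hz hne
      have h2 := Finset.pred_card_le_card_erase (s := Z ∩ cl U a X) (a := z)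
      have h3 := Finset.pred_card_le_card_erase (s := Sx U b a Z z) (a := y)
      have h4 := s.card_W
      refine ⟨by omega, ?_⟩
      intro h5
      by_contra hy
      rw [Finset.erase_eq_of_notMem hy] at h1
      omega
    · rw [Finset.not_nonempty_iff_eq_empty] at hne
      rw [hne]
      simp)
  have h2 := hpc.l0
  rw [SG_symm] at hg
  omega

theorem star_info (s : S1 5 U a b g X Z y) (h : Sys 5 U a b g) (hw : (U \ cl U a X).card = 4)
    (hw' : 3 ≤ (U \ cl U b Z).card) {x : α} (hx : x ∈ X)
    (hs : (Sx U a b X x).card + 1 = (U \ cl U a X).card) :
    y ∈ Sx U a b X x ∧ ((X ∩ cl U b Z).Nonempty → x ∈ cl U b Z) := by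
  have hne : (Sx U a b X x).Nonempty := Finset.card_pos.mp (by omega)
  have h1 := s.class_le h hw' hx hne
  have h3 := Finset.pred_card_le_card_erase (s := Sx U a b X x) (a := y)
  constructor
  · by_contra hy
    rw [Finset.erase_eq_of_notMem hy] at h1
    omega
  · intro hn
    by_contra hxK
    have : x ∉ X ∩ cl U b Z := fun hh => hxK (Finset.mem_inter.mp hh).2
    rw [Finset.erase_eq_of_notMem this] at h1
    have := Finset.card_pos.mpr hn
    omega

/-- the weighted number of good sets of a split -/
theorem five_ineq_aux (s : S1 5 U a b g X Z y) (h : Sys 5 U a b g)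
    (hw : 3 ≤ (U \ cl U a X).card) (hw' : 3 ≤ (U \ cl U b Z).card)
    (hf : ¬ ∃ x ∈ X, b (X.erase x ∪ (U \ cl U a X)))
    (hf' : ¬ ∃ z ∈ Z, a (Z.erase z ∪ (U \ cl U b Z)))
    (hle : (U \ cl U a X).card ≤ (U \ cl U b Z).card) :
    120 ≤ wt5 U a b X Z * (((SG 5 U a b g).filter (fun V => V ∩ cl U a X = X)).card +
      ((SG 5 U a b g).filter (fun V => V ∩ cl U b Z = Z)).card) := by
  have p1 := s.card_W
  have p2 := s.symm.card_W
  have p3 := s.pp h
  have gE := s.gp_le h
  have gF := s.symm.gp_le h.symm
  rw [SG_symm] at gF
  have pcE := s.pc h
  have pcF := s.symm.pc h.symm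
  have l0E := pcE.l0
  have l0F := pcF.l0
  generalize hvE : ((SG 5 U a b g).filter (fun V => V ∩ cl U a X = X)).card = vE at *
  generalize hvF : ((SG 5 U a b g).filter (fun V => V ∩ cl U b Z = Z)).card = vF at *
  by_cases hw3 : (U \ cl U a X).card = 3
  · have k1 := s.three_bound h hw3 hf
    have k2 := s.three_other5 h hw3
    rw [hvE] at k1
    rw [hvF] at k2
    have hw4 : (U \ cl U b Z).card = 4 ∨ (U \ cl U b Z).card = 5 := by omega
    rcases hw4 with hw4 | hw4
    · have : wt5 U a b X Z = 24 := by
        unfold wt5
        rw [if_neg (by omega), if_neg (by omega)]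
      rw [this]
      rw [hw4] at k2
      omega
    · have : wt5 U a b X Z = 15 := by
        unfold wt5
        rw [if_pos (by omega)]
      rw [this]
      rw [hw4] at k2
      omega
  · -- `w ≥ 4`
    have hw4 : (U \ cl U a X).card = 4 ∨ (U \ cl U a X).card = 5 := by omega
    rcases hw4 with hw4 | hw4
    · have b1 := s.side_bound h (by omega) hw' hf
      have b2 := s.symm.side_bound h.symm (by omega) (by omega) hf'
      rw [SG_symm] at b2
      rw [hvE] at b1
      rw [hvF] at b2
      have hp' : (Z ∩ cl U a X).card = 1 := by omega
      have hw4' : (U \ cl U b Z).card = 4 ∨ (U \ cl U b Z).card = 5 := by omega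
      rcases hw4' with hw4' | hw4'
      · -- (4, 4)
        have hwt : wt5 U a b X Z = 20 := by
          unfold wt5
          rw [if_neg (by omega), if_pos ⟨hw4, hw4'⟩]
        rw [hwt]
        have hp : (X ∩ cl U b Z).card = 1 := by omega
        rcases b1 with ⟨⟨x, hx, hs⟩, k1, k2⟩ | ⟨k0, k1, k2⟩
        · rcases b2 with ⟨⟨z, hz, hs'⟩, k3, k4⟩ | ⟨k3, k4, k5⟩
          · exact (s.no_two_stars h hw hw' hx hz hs hs').elim
          · -- star on the E-side
            obtain ⟨i1, i2⟩ := s.star_info h hw4 hw' hx hs
            have i3 := i2 (Finset.card_pos.mp (by omega))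
            have hneE : (Sx U a b X x).Nonempty := ⟨y, i1⟩
            have hsum := s.symm.sum_two h.symm (by
              intro z hz
              have h6 := k3 z hz
              refine ⟨by omega, ?_⟩
              intro h7
              by_contra hy
              have hne' : (Sx U b a Z z).Nonempty := Finset.card_pos.mp (by omega)
              have c1 := s.symm.class_le h.symm hw hz hne'
              rw [Finset.erase_eq_of_notMem hy] at c1
              have hzH : z ∈ Z ∩ cl U a X := by
                by_contra hc
                rw [Finset.erase_eq_of_notMem hc] at c1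
                omega
              have c2 := s.cross_le h hx hz hneE hne'
              rw [if_neg (fun hh => hy hh.2), Finset.erase_eq_of_notMem (s := Sx U b a Z z) hy] at c2
              have n1 : z ∉ (Sx U a b X x).erase y := by
                intro hh
                rw [Finset.mem_erase, mem_Sx] at hh
                exact hh.2.1.2 (Finset.mem_inter.mp hzH).2
              have n2 : x ∉ Sx U b a Z z := by
                intro hh
                rw [mem_Sx] at hh
                exact hh.1.2 i3
              rw [Finset.erase_eq_of_notMem n1, Finset.erase_eq_of_notMem n2,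
                Finset.card_erase_of_mem i1] at c2
              omega)
            rw [hw4'] at l0F
            omega
        · rcases b2 with ⟨⟨z, hz, hs'⟩, k3, k4⟩ | ⟨k3, k4, k5⟩
          · -- star on the F-side
            obtain ⟨i1, i2⟩ := s.symm.star_info h.symm hw4' hw hz hs'
            have i3 := i2 (Finset.card_pos.mp (by omega))
            have hneF : (Sx U b a Z z).Nonempty := ⟨y, i1⟩
            have hsum := s.sum_two h (by
              intro x hx
              have h6 := k0 x hx
              refine ⟨by omega, ?_⟩
              intro h7
              by_contra hy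
              have hne' : (Sx U a b X x).Nonempty := Finset.card_pos.mp (by omega)
              have c1 := s.class_le h hw' hx hne'
              rw [Finset.erase_eq_of_notMem hy] at c1
              have hxK : x ∈ X ∩ cl U b Z := by
                by_contra hc
                rw [Finset.erase_eq_of_notMem hc] at c1
                omega
              have c2 := s.cross_le h hx hz hne' hneF
              rw [if_neg (fun hh => hy hh.1), Finset.erase_eq_of_notMem (s := Sx U a b X x) hy] at c2
              have n1 : x ∉ (Sx U b a Z z).erase y := by
                intro hh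
                rw [Finset.mem_erase, mem_Sx] at hh
                exact hh.2.1.2 (Finset.mem_inter.mp hxK).2
              have n2 : z ∉ Sx U a b X x := by
                intro hh
                rw [mem_Sx] at hh
                exact hh.1.2 i3
              rw [Finset.erase_eq_of_notMem n1, Finset.erase_eq_of_notMem n2,
                Finset.card_erase_of_mem i1] at c2
              omega)
            rw [hw4] at l0E
            omega
          · have := k2 hw4
            have := k5 hw4'
            omega
      · -- (4, 5)
        have hwt : wt5 U a b X Z = 15 := by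
          unfold wt5
          rw [if_pos (by omega)]
        rw [hwt]
        rcases b2 with ⟨-, -, k4⟩ | ⟨k3, k4, k5⟩
        · omega
        · -- classes of size three on the F-side
          have hbig : ∀ z ∈ Z, (Sx U b a Z z).card = 3 → y ∈ Sx U b a Z z ∧ z ∈ cl U a X := by
            intro z hz h3
            have hne' : (Sx U b a Z z).Nonempty := Finset.card_pos.mp (by omega)
            have c1 := s.symm.class_le h.symm hw hz hne'
            have c3 := Finset.pred_card_le_card_erase (s := Sx U b a Z z) (a := y)
            constructor
            · by_contra hy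
              rw [Finset.erase_eq_of_notMem hy] at c1
              omega
            · by_contra hc
              have : z ∉ Z ∩ cl U a X := fun hh => hc (Finset.mem_inter.mp hh).2
              rw [Finset.erase_eq_of_notMem this] at c1
              omega
          rcases b1 with ⟨⟨x, hx, hs⟩, k1, k2⟩ | ⟨k0, k1, k2⟩
          · -- star on the E-side: all classes on the F-side have size at most two
            obtain ⟨i1, -⟩ := s.star_info h hw4 hw' hx hs
            have hneE : (Sx U a b X x).Nonempty := ⟨y, i1⟩
            have htwo := pcF.two (by
              intro z hz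
              have h6 := k3 z hz
              by_contra hc
              have h7 : (Sx U b a Z z).card = 3 := by omega
              obtain ⟨j1, j2⟩ := hbig z hz h7
              have c2 := s.cross_le h hx hz hneE ⟨y, j1⟩
              rw [if_pos ⟨i1, j1⟩] at c2
              have n1 : z ∉ (Sx U a b X x).erase y := by
                intro hh
                rw [Finset.mem_erase, mem_Sx] at hh
                exact hh.2.1.2 j2
              have c4 := Finset.pred_card_le_card_erase (s := (Sx U b a Z z).erase y) (a := x)
              rw [Finset.card_erase_of_mem j1] at c4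
              rw [Finset.erase_eq_of_notMem n1, Finset.card_erase_of_mem i1] at c2
              omega)
            rw [hw4'] at htwo
            omega
          · -- no star
            have h3 := k2 hw4
            have hsum : ∑ z ∈ Z, (Sx U b a Z z).card * ((Sx U b a Z z).card - 1) ≤ 6 := by
              by_cases hex : ∃ z ∈ Z, (Sx U b a Z z).card = 3
              · obtain ⟨z, hz, hz3⟩ := hex
                obtain ⟨j1, j2⟩ := hbig z hz hz3
                rw [← Finset.add_sum_erase _ _ hz, hz3]
                have hrest : ∑ u ∈ Z.erase z, (Sx U b a Z u).card * ((Sx U b a Z u).card - 1) = 0 := by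
                  apply Finset.sum_eq_zero
                  intro u hu
                  rw [Finset.mem_erase] at hu
                  have hyu : y ∉ Sx U b a Z u := fun hh =>
                    Finset.disjoint_left.mp (pcF.dj u hu.2 z hz hu.1) hh j1
                  have hle1 : (Sx U b a Z u).card ≤ 1 := by
                    by_contra hc
                    have hne' : (Sx U b a Z u).Nonempty := Finset.card_pos.mp (by omega)
                    have c1 := s.symm.class_le h.symm hw hu.2 hne'
                    rw [Finset.erase_eq_of_notMem hyu] at c1
                    have hzm : z ∈ (Z ∩ cl U a X).erase u :=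
                      Finset.mem_erase.mpr ⟨hu.1.symm, Finset.mem_inter.mpr ⟨hz, j2⟩⟩
                    have := Finset.card_pos.mpr ⟨z, hzm⟩
                    omega
                  have : (Sx U b a Z u).card - 1 = 0 := by omega
                  rw [this, mul_zero]
                rw [hrest]
              · push Not at hex
                have h8 : ∑ z ∈ Z, (Sx U b a Z z).card * ((Sx U b a Z z).card - 1) ≤
                    ∑ z ∈ Z, (Sx U b a Z z).card := by
                  apply Finset.sum_le_sum
                  intro z hz
                  have h9 := hex z hz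
                  have h10 := k3 z hz
                  calc (Sx U b a Z z).card * ((Sx U b a Z z).card - 1) ≤ (Sx U b a Z z).card * 1 :=
                        Nat.mul_le_mul_left _ (by omega)
                    _ = (Sx U b a Z z).card := mul_one _
                have h11 : ∑ z ∈ Z, (Sx U b a Z z).card ≤ (U \ cl U b Z).card := by
                  rw [← Finset.card_biUnion (fun i hi j hj hij => pcF.dj i hi j hj hij)]
                  apply Finset.card_le_card
                  intro u hu
                  rw [Finset.mem_biUnion] at hu
                  obtain ⟨i, hi, hu⟩ := hu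
                  exact pcF.sub i hi hu
                omega
            rw [hw4'] at l0F
            omega
    · -- (5, 5)
      have hw5 : (U \ cl U b Z).card = 5 := by omega
      have hwt : wt5 U a b X Z = 15 := by
        unfold wt5
        rw [if_pos (by omega)]
      rw [hwt]
      have b1 := s.side_bound h (by omega) hw' hf
      have b2 := s.symm.side_bound h.symm (by omega) (by omega) hf'
      rw [SG_symm] at b2
      rw [hvE] at b1
      rw [hvF] at b2
      have e1 : 4 ≤ vE := by
        rcases b1 with ⟨⟨x, hx, hs⟩, k1, k2⟩ | ⟨k0, k1, k2⟩
        · exfalso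
          have c1 := s.class_le h hw' hx (Finset.card_pos.mp (by omega))
          have := Finset.pred_card_le_card_erase (s := Sx U a b X x) (a := y)
          omega
        · omega
      have e2 : 4 ≤ vF := by
        rcases b2 with ⟨⟨x, hx, hs⟩, k1, k2⟩ | ⟨k0, k1, k2⟩
        · exfalso
          have c1 := s.symm.class_le h.symm hw hx (Finset.card_pos.mp (by omega))
          have := Finset.pred_card_le_card_erase (s := Sx U b a Z x) (a := y)
          omega
        · omega
      omega

theorem five_ineq (s : S1 5 U a b g X Z y) (h : Sys 5 U a b g)
    (hw : 3 ≤ (U \ cl U a X).card) (hw' : 3 ≤ (U \ cl U b Z).card)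
    (hf : ¬ ∃ x ∈ X, b (X.erase x ∪ (U \ cl U a X)))
    (hf' : ¬ ∃ z ∈ Z, a (Z.erase z ∪ (U \ cl U b Z))) :
    120 ≤ wt5 U a b X Z * (((SG 5 U a b g).filter (fun V => V ∩ cl U a X = X)).card +
      ((SG 5 U a b g).filter (fun V => V ∩ cl U b Z = Z)).card) := by
  rcases le_total (U \ cl U a X).card (U \ cl U b Z).card with hle | hle
  · exact s.five_ineq_aux h hw hw' hf hf' hle
  · have := s.symm.five_ineq_aux h.symm hw' hw hf' hf hle
    rw [wt5_symm, SG_symm, add_comm] at this
    exact this

end S1

end Pool.IS
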