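import Pool.Agent.IS.Key1Src

/-!
# KEY for `|U| = 2r - 1`, `r ≥ 6`
-/

set_option autoImplicit false
open Classical

namespace Pool.IS

variable {α : Type*} [DecidableEq α]
variable {r : ℕ} {U : Finset α} {a b g : Finset α → Prop}

/-- the blocks meeting `V` in all but two elements -/
noncomputable def BV (r : ℕ) (U : Finset α) (a g : Finset α → Prop) (V : Finset α) :
    Finset (Finset α) :=
  (blk r U a g).filter (fun H => (V ∩ H).card + 1 = r)

theorem load_blk (h : Sys r U a b g) {V : Finset α} (hV : V ⊆ U) (hVc : V.card = r + 1)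
    (hU : U.card + 1 = 2 * r) :
    2 * (BV r U a g V).card ≤ r + 1 ∧ (∑ H ∈ BV r U a g V, (H \ V).card) + 2 ≤ r := by
  have key : ∀ H ∈ BV r U a g V, ∀ H' ∈ BV r U a g V, H ≠ H' →
      Disjoint (V \ H) (V \ H') ∧ Disjoint (H \ V) (H' \ V) := by
    intro H hH H' hH' hne
    rw [BV, Finset.mem_filter] at hH hH'
    have h1 := h.blk_inter hH.1 hH'.1 hne
    have c1 := Finset.card_sdiff_add_card_inter V H
    have c2 := Finset.card_sdiff_add_card_inter V H'
    have c3 : (V \ H ∪ V \ H').card + (V ∩ (H ∩ H')).card = V.card := by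
      have e1 : V \ H ∪ V \ H' = V \ (H ∩ H') := by
        ext x
        simp only [Finset.mem_union, Finset.mem_sdiff, Finset.mem_inter]
        tauto
      rw [e1]
      exact Finset.card_sdiff_add_card_inter _ _
    have c4 := Finset.card_union_add_card_inter (V \ H) (V \ H')
    have c5 : (V ∩ (H ∩ H')).card + ((H \ V) ∩ (H' \ V)).card ≤ (H ∩ H').card := by
      rw [← Finset.card_union_of_disjoint]
      · apply Finset.card_le_card
        intro x
        simp only [Finset.mem_union, Finset.mem_sdiff, Finset.mem_inter]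
        tauto
      · rw [Finset.disjoint_left]
        intro x
        simp only [Finset.mem_sdiff, Finset.mem_inter]
        tauto
    constructor
    · rw [Finset.disjoint_iff_inter_eq_empty, ← Finset.card_eq_zero]
      omega
    · rw [Finset.disjoint_iff_inter_eq_empty, ← Finset.card_eq_zero]
      omega
  constructor
  · have h1 : ∑ H ∈ BV r U a g V, (V \ H).card ≤ V.card := by
      rw [← Finset.card_biUnion (fun H hH H' hH' hne => (key H hH H' hH' hne).1)]
      apply Finset.card_le_card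
      intro x hx
      rw [Finset.mem_biUnion] at hx
      obtain ⟨H, -, hx⟩ := hx
      exact (Finset.mem_sdiff.mp hx).1
    have h2 : ∑ H ∈ BV r U a g V, (V \ H).card = ∑ H ∈ BV r U a g V, 2 := by
      apply Finset.sum_congr rfl
      intro H hH
      rw [BV, Finset.mem_filter] at hH
      have := Finset.card_sdiff_add_card_inter V H
      omega
    rw [h2, Finset.sum_const, smul_eq_mul] at h1
    omega
  · have h1 : ∑ H ∈ BV r U a g V, (H \ V).card ≤ (U \ V).card := by
      rw [← Finset.card_biUnion (fun H hH H' hH' hne => (key H hH H' hH' hne).2)]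
      apply Finset.card_le_card
      intro x hx
      rw [Finset.mem_biUnion] at hx
      obtain ⟨H, hH, hx⟩ := hx
      rw [BV, Finset.mem_filter] at hH
      rw [Finset.mem_sdiff] at hx ⊢
      exact ⟨(mem_blk.mp hH.1).1 hx.1, hx.2⟩
    have := Finset.card_sdiff_add_card_eq_card hV
    omega

/-- a good set has `r + 1` elements -/
theorem SG_card (hU : U.card + 1 = 2 * r) {V : Finset α} (hV : V ∈ SG r U a b g) :
    V ⊆ U ∧ V.card = r + 1 := by
  rw [mem_SG] at hV
  have := Finset.card_sdiff_add_card_eq_card hV.1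
  have := hV.2.1
  exact ⟨hV.1, by omega⟩

/-- a split is determined by `X` -/
theorem N0_inj (h : Sys r U a b g) (hU : U.card + 1 = 2 * r) {p q : Finset α × α}
    (hp : p ∈ N0 r U a b g) (hq : q ∈ N0 r U a b g) (he : p.1 = q.1) : p = q := by
  have sp := S1_of_N0 hU hp
  have sq := S1_of_N0 hU hq
  apply Prod.ext he
  by_contra hne
  have e1 : oth U p ∪ oth U q = U \ p.1 := by
    unfold oth
    rw [← he]
    ext x
    simp only [Finset.mem_union, Finset.mem_erase]
    constructor
    · tauto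
    · intro hx
      by_cases h1 : x = p.2
      · right
        exact ⟨by rw [h1]; exact hne, hx⟩
      · left
        exact ⟨h1, hx⟩
  have c1 := Finset.card_union_add_card_inter (oth U p) (oth U q)
  have c2 := Finset.card_sdiff_add_card_eq_card sp.hX
  have k1 := sp.cZ
  have k2 := sq.cZ
  have k3 := sp.cX
  rw [e1] at c1
  have h1 := h.bb sp.hZ sq.hZ sp.eZ.2.1 sq.eZ.2.1 (by omega)
  rw [e1, sp.U_sdiff] at h1
  exact sp.nb h1

/-- the load of a good set from one side -/
theorem load_side (h : Sys r U a b g) (hU : U.card + 1 = 2 * r) {V : Finset α}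
    (hV : V ∈ SG r U a b g) (N : Finset (Finset α × α)) (hN : N ⊆ N0 r U a b g) :
    ∑ p ∈ N.filter (fun p => V ∩ cl U a p.1 = p.1), (2 + (oth U p ∩ cl U a p.1).card) ≤
      2 * ((r + 1) / 2) + (r - 2) := by
  obtain ⟨hVU, hVc⟩ := SG_card hU hV
  obtain ⟨l1, l2⟩ := load_blk h hVU hVc hU
  set M := N.filter (fun p => V ∩ cl U a p.1 = p.1) with hM
  have hinj : ∀ p ∈ M, ∀ q ∈ M, cl U a p.1 = cl U a q.1 → p = q := by
    intro p hp q hq he
    rw [hM, Finset.mem_filter] at hp hq
    apply N0_inj h hU (hN hp.1) (hN hq.1)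
    rw [← hp.2, ← hq.2, he]
  have e1 : ∑ p ∈ M, (2 + (oth U p ∩ cl U a p.1).card) = ∑ p ∈ M, (2 + (cl U a p.1 \ V).card) := by
    apply Finset.sum_congr rfl
    intro p hp
    rw [hM, Finset.mem_filter] at hp
    have sp := S1_of_N0 hU (hN hp.1)
    congr 2
    ext x
    rw [Finset.mem_inter, Finset.mem_sdiff]
    constructor
    · rintro ⟨h1, h2⟩
      refine ⟨h2, fun h3 => ?_⟩
      have : x ∈ p.1 := by
        rw [← hp.2]
        exact Finset.mem_inter.mpr ⟨h3, h2⟩
      exact Finset.disjoint_left.mp sp.dj this h1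
    · rintro ⟨h1, h2⟩
      refine ⟨?_, h1⟩
      rcases Finset.mem_union.mp (sp.H_sub h1) with h3 | h3
      · exfalso
        apply h2
        rw [← hp.2] at h3
        exact (Finset.mem_inter.mp h3).1
      · exact h3
  have e2 : ∑ p ∈ M, (2 + (cl U a p.1 \ V).card) ≤ ∑ H ∈ BV r U a g V, (2 + (H \ V).card) := by
    rw [← Finset.sum_image (f := fun H => 2 + (H \ V).card) (g := fun p : Finset α × α => cl U a p.1)
      (s := M) hinj]
    apply Finset.sum_le_sum_of_subset
    intro H hH
    rw [Finset.mem_image] at hH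
    obtain ⟨p, hp, rfl⟩ := hH
    rw [hM, Finset.mem_filter] at hp
    have sp := S1_of_N0 hU (hN hp.1)
    rw [BV, Finset.mem_filter]
    refine ⟨sp.hH h, ?_⟩
    rw [hp.2]
    exact sp.cX
  rw [e1]
  refine e2.trans ?_
  rw [Finset.sum_add_distrib, Finset.sum_const, smul_eq_mul]
  omega

/-- the arithmetic of the weights -/
theorem arith_main {r w w' vE vF : ℕ} (hr : 6 ≤ r) (hw : 4 ≤ w) (hw' : 4 ≤ w') (hwr : w ≤ r)
    (hwr' : w' ≤ r) (hww : r + 2 ≤ w + w')
    (hF : 2 * w' ≤ vF + 6 ∧ (w' = 4 → 3 ≤ vF))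
    (hE : (w ≤ vE + 2 ∧ w ≤ w') ∨ (2 * w ≤ vE + 6 ∧ (w = 4 → 3 ≤ vE))) :
    4 * ((r + 1) / 2) + 2 * (r - 2) ≤ (2 + (r - w)) * vE + (2 + (r - w')) * vF := by
  -- the contribution of the second side
  have hF2 : (w' = 4 ∧ 3 * (r - 2) ≤ (2 + (r - w')) * vF) ∨ (5 ≤ w' ∧ 4 * (r - 3) ≤ (2 + (r - w')) * vF) := by
    by_cases h4 : w' = 4
    · left
      refine ⟨h4, ?_⟩
      have h3 := hF.2 h4
      subst h4
      have : 2 + (r - 4) = r - 2 := by omega
      rw [this, mul_comm]
      exact Nat.mul_le_mul_left _ h3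
    · right
      refine ⟨by omega, ?_⟩
      obtain ⟨u, hu⟩ : ∃ u, w' = u + 5 := ⟨w' - 5, by omega⟩
      obtain ⟨v, hv⟩ : ∃ v, r = u + 5 + v := ⟨r - w', by omega⟩
      have h1 : 2 * u + 4 ≤ vF := by omega
      have h2 : 2 + (r - w') = v + 2 := by omega
      have h3 : r - 3 = u + v + 2 := by omega
      rw [h2, h3]
      calc 4 * (u + v + 2) ≤ (v + 2) * (2 * u + 4) := by nlinarith [Nat.zero_le (u * v)]
        _ ≤ (v + 2) * vF := Nat.mul_le_mul_left _ h1
  rcases hE with ⟨h1, h2⟩ | ⟨h1, h2⟩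
  · by_cases h4 : w = 4
    · subst h4
      have e1 : 2 * (r - 2) ≤ (2 + (r - 4)) * vE := by
        have : 2 + (r - 4) = r - 2 := by omega
        rw [this, mul_comm]
        exact Nat.mul_le_mul_left _ (by omega)
      rcases hF2 with ⟨h5, h6⟩ | ⟨h5, h6⟩ <;> omega
    · obtain ⟨u, hu⟩ : ∃ u, w = u + 5 := ⟨w - 5, by omega⟩
      obtain ⟨v, hv⟩ : ∃ v, r = u + 5 + v := ⟨r - w, by omega⟩
      have h3 : u + 3 ≤ vE := by omega
      have h5 : 2 + (r - w) = v + 2 := by omega
      have h6 : u * v + 3 * v + 2 * u + 6 ≤ (2 + (r - w)) * vE := by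
        rw [h5]
        calc u * v + 3 * v + 2 * u + 6 = (v + 2) * (u + 3) := by ring
          _ ≤ (v + 2) * vE := Nat.mul_le_mul_left _ h3
      have h7 : 0 ≤ u * v := Nat.zero_le _
      rcases hF2 with ⟨h8, h9⟩ | ⟨h8, h9⟩
      · omega
      · generalize hA : (2 + (r - w)) * vE = A at *
        generalize hB : (2 + (r - w')) * vF = B at *
        generalize hC : u * v = C at *
        omega
  · have h3 : (w = 4 ∧ 3 * (r - 2) ≤ (2 + (r - w)) * vE) ∨ (5 ≤ w ∧ 4 * (r - 3) ≤ (2 + (r - w)) * vE) := by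
      by_cases h4 : w = 4
      · left
        refine ⟨h4, ?_⟩
        have h3 := h2 h4
        subst h4
        have : 2 + (r - 4) = r - 2 := by omega
        rw [this, mul_comm]
        exact Nat.mul_le_mul_left _ h3
      · right
        refine ⟨by omega, ?_⟩
        obtain ⟨u, hu⟩ : ∃ u, w = u + 5 := ⟨w - 5, by omega⟩
        obtain ⟨v, hv⟩ : ∃ v, r = u + 5 + v := ⟨r - w, by omega⟩
        have h1 : 2 * u + 4 ≤ vE := by omega
        have h2 : 2 + (r - w) = v + 2 := by omega
        have h3 : r - 3 = u + v + 2 := by omega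
        rw [h2, h3]
        calc 4 * (u + v + 2) ≤ (v + 2) * (2 * u + 4) := by nlinarith [Nat.zero_le (u * v)]
          _ ≤ (v + 2) * vE := Nat.mul_le_mul_left _ h1
    rcases h3 with ⟨h4, h5⟩ | ⟨h4, h5⟩ <;> rcases hF2 with ⟨h6, h7⟩ | ⟨h6, h7⟩ <;> omega

theorem arith_three {r w' vE vF : ℕ} (hr : 6 ≤ r) (hwr' : w' ≤ r) (hww : r + 2 ≤ 3 + w')
    (hE : 1 ≤ vE) (hF : w' * w' + 1 ≤ 2 * vF + 3 * w') :
    4 * ((r + 1) / 2) + 2 * (r - 2) ≤ (2 + (r - 3)) * vE + (2 + (r - w')) * vF := by
  have e1 : r - 1 ≤ (2 + (r - 3)) * vE := by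
    have : 2 + (r - 3) = r - 1 := by omega
    rw [this]
    exact Nat.le_mul_of_pos_right _ hE
  obtain ⟨v, hv⟩ : ∃ v, r = v + 6 := ⟨r - 6, by omega⟩
  have hw : w' = r ∨ w' + 1 = r := by omega
  rcases hw with hw | hw
  · have h1 : 2 + (r - w') = 2 := by omega
    rw [h1]
    have h2 : w' = v + 6 := by omega
    rw [h2] at hF
    have h3 : v * v + 9 * v + 19 ≤ 2 * vF := by nlinarith
    have h4 : 0 ≤ v * v := Nat.zero_le _
    generalize hA : (2 + (r - 3)) * vE = A at *
    generalize hC : v * v = C at *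
    omega
  · have h1 : 2 + (r - w') = 3 := by omega
    rw [h1]
    have h2 : w' = v + 5 := by omega
    rw [h2] at hF
    have h3 : v * v + 7 * v + 11 ≤ 2 * vF := by nlinarith
    have h4 : 0 ≤ v * v := Nat.zero_le _
    generalize hA : (2 + (r - 3)) * vE = A at *
    generalize hC : v * v = C at *
    omega

namespace S1

variable {X Z : Finset α} {y : α}

/-- `E`-star implies `w ≤ w'` -/
theorem star_le (s : S1 r U a b g X Z y) (h : Sys r U a b g) (hw : 3 ≤ (U \ cl U a X).card)
    (hw' : 3 ≤ (U \ cl U b Z).card) {x : α} (hx : x ∈ X)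
    (hs : (Sx U a b X x).card + 1 = (U \ cl U a X).card) :
    (U \ cl U a X).card ≤ (U \ cl U b Z).card := by
  have hne : (Sx U a b X x).Nonempty := Finset.card_pos.mp (by omega)
  have h1 := s.class_le h hw' hx hne
  have h2 := Finset.pred_card_le_card_erase (s := X ∩ cl U b Z) (a := x)
  have h3 := Finset.pred_card_le_card_erase (s := Sx U a b X x) (a := y)
  have h4 := s.symm.card_W
  omega

/-- there are no stars on both sides -/
theorem no_two_stars (s : S1 r U a b g X Z y) (h : Sys r U a b g)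
    (hw : 3 ≤ (U \ cl U a X).card) (hw' : 3 ≤ (U \ cl U b Z).card) {x z : α} (hx : x ∈ X)
    (hz : z ∈ Z) (hs : (Sx U a b X x).card + 1 = (U \ cl U a X).card)
    (hs' : (Sx U b a Z z).card + 1 = (U \ cl U b Z).card) : False := by
  have hne : (Sx U a b X x).Nonempty := Finset.card_pos.mp (by omega)
  have hne' : (Sx U b a Z z).Nonempty := Finset.card_pos.mp (by omega)
  have k1 := s.star_le h hw hw' hx hs
  have k2 := s.symm.star_le h.symm hw' hw hz hs'
  have c1 := s.class_le h hw' hx hne
  have c2 := s.symm.class_le h.symm hw hz hne'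
  have p1 := s.card_W
  have p2 := s.symm.card_W
  have p3 := s.pp h
  -- `x ∈ K`, `y` in the class
  have hxK : x ∈ X ∩ cl U b Z := by
    by_contra hc
    rw [Finset.erase_eq_of_notMem hc] at c1
    have := Finset.pred_card_le_card_erase (s := Sx U a b X x) (a := y)
    omega
  have hyS : y ∈ Sx U a b X x := by
    by_contra hc
    rw [Finset.erase_eq_of_notMem hc] at c1
    have := Finset.pred_card_le_card_erase (s := X ∩ cl U b Z) (a := x)
    omega
  have hzH : z ∈ Z ∩ cl U a X := by
    by_contra hc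
    rw [Finset.erase_eq_of_notMem hc] at c2
    have := Finset.pred_card_le_card_erase (s := Sx U b a Z z) (a := y)
    omega
  have hyS' : y ∈ Sx U b a Z z := by
    by_contra hc
    rw [Finset.erase_eq_of_notMem hc] at c2
    have := Finset.pred_card_le_card_erase (s := Z ∩ cl U a X) (a := z)
    omega
  have c3 := s.cross_le h hx hz hne hne'
  rw [if_pos ⟨hyS, hyS'⟩] at c3
  have hz1 : z ∉ (Sx U a b X x).erase y := by
    intro hh
    rw [Finset.mem_erase, mem_Sx] at hh
    exact hh.2.1.2 (Finset.mem_inter.mp hzH).2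
  have hx1 : x ∉ (Sx U b a Z z).erase y := by
    intro hh
    rw [Finset.mem_erase, mem_Sx] at hh
    exact hh.2.1.2 (Finset.mem_inter.mp hxK).2
  rw [Finset.erase_eq_of_notMem hz1, Finset.erase_eq_of_notMem hx1,
    Finset.card_erase_of_mem hyS, Finset.card_erase_of_mem hyS'] at c3
  omega

/-- the numbers of good sets on one side (`E`) for `w ≥ 4` -/
theorem side_bound (s : S1 r U a b g X Z y) (h : Sys r U a b g)
    (hw : 4 ≤ (U \ cl U a X).card) (hw' : 3 ≤ (U \ cl U b Z).card)
    (hf : ¬ ∃ x ∈ X, b (X.erase x ∪ (U \ cl U a X))) :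
    ((∃ x ∈ X, (Sx U a b X x).card + 1 = (U \ cl U a X).card) ∧
      (U \ cl U a X).card ≤ ((SG r U a b g).filter (fun V => V ∩ cl U a X = X)).card + 2 ∧
      (U \ cl U a X).card ≤ (U \ cl U b Z).card) ∨
    ((∀ x ∈ X, (Sx U a b X x).card + 2 ≤ (U \ cl U a X).card) ∧
      2 * (U \ cl U a X).card ≤ ((SG r U a b g).filter (fun V => V ∩ cl U a X = X)).card + 6 ∧
      ((U \ cl U a X).card = 4 →
        3 ≤ ((SG r U a b g).filter (fun V => V ∩ cl U a X = X)).card)) := by
  have hg := s.gp_le h
  have hpc := s.pc h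
  by_cases hex : ∃ x ∈ X, (Sx U a b X x).card + 1 = (U \ cl U a X).card
  · left
    obtain ⟨x, hx, hs⟩ := hex
    refine ⟨⟨x, hx, hs⟩, ?_, s.star_le h (by omega) hw' hx hs⟩
    have := hpc.star hx hs
    omega
  · right
    push Not at hex
    have hall : ∀ x ∈ X, (Sx U a b X x).card + 2 ≤ (U \ cl U a X).card := by
      intro x hx
      have h1 := s.not_full h hf hx
      have h2 := hex x hx
      omega
    refine ⟨hall, ?_⟩
    obtain ⟨k1, k2⟩ := hpc.nonstar hall hw
    constructor
    · omega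
    · intro h4
      have := k2 h4
      omega

/-- the numbers of good sets when `w = 3` -/
theorem three_bound (s : S1 r U a b g X Z y) (h : Sys r U a b g)
    (hw : (U \ cl U a X).card = 3) (hf : ¬ ∃ x ∈ X, b (X.erase x ∪ (U \ cl U a X))) :
    1 ≤ ((SG r U a b g).filter (fun V => V ∩ cl U a X = X)).card := by
  have hg := s.gp_le h
  have hpc := s.pc h
  by_cases hex : ∃ x ∈ X, (Sx U a b X x).card + 1 = (U \ cl U a X).card
  · obtain ⟨x, hx, hs⟩ := hex
    have := hpc.star hx hs
    omega
  · push Not at hex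
    have := hpc.triv (fun x hx => by
      have h1 := s.not_full h hf hx
      have h2 := hex x hx
      omega)
    rw [hw] at this
    omega

theorem three_other (s : S1 r U a b g X Z y) (h : Sys r U a b g)
    (hw : (U \ cl U a X).card = 3) :
    (U \ cl U b Z).card * (U \ cl U b Z).card + 1 ≤
      2 * ((SG r U b a g).filter (fun V => V ∩ cl U b Z = Z)).card + 3 * (U \ cl U b Z).card := by
  have hg := s.symm.gp_le h.symm
  have hpc := s.symm.pc h.symm
  have := hpc.two (by
    intro z hz
    by_cases hne : (Sx U b a Z z).Nonempty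
    · have h1 := s.symm.class_le h.symm (by omega) hz hne
      have h2 := Finset.pred_card_le_card_erase (s := Z ∩ cl U a X) (a := z)
      have h3 := Finset.pred_card_le_card_erase (s := Sx U b a Z z) (a := y)
      have h4 := s.card_W
      omega
    · rw [Finset.not_nonempty_iff_eq_empty] at hne
      rw [hne]
      simp)
  omega

end S1

theorem SG_symm : SG r U b a g = SG r U a b g := by
  ext V
  rw [mem_SG, mem_SG]
  unfold gd
  constructor
  · rintro ⟨h1, h2, h3, h4⟩
    exact ⟨h1, h2, h3, fun v hv => ⟨(h4 v hv).2, (h4 v hv).1⟩⟩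
  · rintro ⟨h1, h2, h3, h4⟩
    exact ⟨h1, h2, h3, fun v hv => ⟨(h4 v hv).2, (h4 v hv).1⟩⟩

/-- the main inequality for one split -/
theorem main_ineq (h : Sys r U a b g) (hr : 6 ≤ r) {X Z : Finset α} {y : α}
    (s : S1 r U a b g X Z y) (hw : 3 ≤ (U \ cl U a X).card) (hw' : 3 ≤ (U \ cl U b Z).card)
    (hf : ¬ ∃ x ∈ X, b (X.erase x ∪ (U \ cl U a X)))
    (hf' : ¬ ∃ z ∈ Z, a (Z.erase z ∪ (U \ cl U b Z))) :
    4 * ((r + 1) / 2) + 2 * (r - 2) ≤
      (2 + (Z ∩ cl U a X).card) * ((SG r U a b g).filter (fun V => V ∩ cl U a X = X)).card +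
      (2 + (X ∩ cl U b Z).card) * ((SG r U a b g).filter (fun V => V ∩ cl U b Z = Z)).card := by
  have p1 := s.card_W
  have p2 := s.symm.card_W
  have p3 := s.pp h
  have q1 : (Z ∩ cl U a X).card = r - (U \ cl U a X).card := by omega
  have q2 : (X ∩ cl U b Z).card = r - (U \ cl U b Z).card := by omega
  rw [q1, q2]
  by_cases hw3 : (U \ cl U a X).card = 3
  · have k1 := s.three_bound h hw3 hf
    have k2 := s.three_other h hw3
    rw [SG_symm] at k2
    rw [hw3]
    exact arith_three hr (by omega) (by omega) k1 k2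
  · by_cases hw3' : (U \ cl U b Z).card = 3
    · have k1 := s.symm.three_bound h.symm hw3' hf'
      have k2 := s.symm.three_other h.symm hw3'
      rw [SG_symm] at k1
      rw [hw3']
      have k3 := arith_three hr (by omega) (by omega) k1 k2
      linarith
    · have k1 := s.side_bound h (by omega) hw' hf
      have k2 := s.symm.side_bound h.symm (by omega) hw hf'
      rw [SG_symm] at k2
      rcases k2 with ⟨⟨z, hz, hs'⟩, k3, k4⟩ | ⟨k3, k4, k5⟩
      · rcases k1 with ⟨⟨x, hx, hs⟩, -⟩ | ⟨k5, k6, k7⟩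
        · exact (s.no_two_stars h hw hw' hx hz hs hs').elim
        · have k8 := arith_main hr (w := (U \ cl U b Z).card) (w' := (U \ cl U a X).card)
            (by omega) (by omega) (by omega) (by omega) (by omega) ⟨k6, k7⟩ (Or.inl ⟨k3, k4⟩)
          linarith
      · rcases k1 with ⟨-, k6, k7⟩ | ⟨-, k6, k7⟩
        · exact arith_main hr (by omega) (by omega) (by omega) (by omega) (by omega) ⟨k4, k5⟩
            (Or.inl ⟨k6, k7⟩)
        · exact arith_main hr (by omega) (by omega) (by omega) (by omega) (by omega) ⟨k4, k5⟩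
            (Or.inr ⟨k6, k7⟩)

theorem oth_inj (h : Sys r U a b g) (hU : U.card + 1 = 2 * r) {p q : Finset α × α}
    (hp : p ∈ N0 r U a b g) (hq : q ∈ N0 r U a b g) (he : oth U p = oth U q) : p = q := by
  have sp := S1_of_N0 hU hp
  have sq := S1_of_N0 hU hq
  have k1 := sp.symm.U_sdiff
  have k2 := sq.symm.U_sdiff
  rw [he, k2] at k1
  -- insert q.2 q.1 = insert p.2 p.1
  have hy : p.2 = q.2 := by
    by_contra hne
    have e1 : p.1 ∪ q.1 = insert p.2 p.1 := by
      apply Finset.Subset.antisymm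
      · apply Finset.union_subset (Finset.subset_insert _ _)
        rw [← k1]
        exact Finset.subset_insert _ _
      · apply Finset.insert_subset _ Finset.subset_union_left
        have : p.2 ∈ insert q.2 q.1 := by
          rw [k1]
          exact Finset.mem_insert_self _ _
        rcases Finset.mem_insert.mp this with h1 | h1
        · exact absurd h1 hne
        · exact Finset.mem_union_right _ h1
    have c1 := Finset.card_union_add_card_inter p.1 q.1
    rw [e1, Finset.card_insert_of_notMem sp.yX] at c1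
    have c2 := sp.cX
    have c3 := sq.cX
    have h1 := h.aa sp.hX sq.hX sp.eX.2.1 sq.eX.2.1 (by omega)
    rw [e1] at h1
    exact sp.na h1
  apply Prod.ext _ hy
  have h1 : (insert p.2 p.1).erase p.2 = (insert q.2 q.1).erase q.2 := by
    rw [k1, hy]
  rw [Finset.erase_insert sp.yX, Finset.erase_insert sq.yX] at h1
  exact h1

/-- the load from the `F`-side -/
theorem load_side' (h : Sys r U a b g) (hU : U.card + 1 = 2 * r) {V : Finset α}
    (hV : V ∈ SG r U a b g) (N : Finset (Finset α × α)) (hN : N ⊆ N0 r U a b g) :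
    ∑ p ∈ N.filter (fun p => V ∩ cl U b (oth U p) = oth U p), (2 + (p.1 ∩ cl U b (oth U p)).card) ≤
      2 * ((r + 1) / 2) + (r - 2) := by
  obtain ⟨hVU, hVc⟩ := SG_card hU hV
  obtain ⟨l1, l2⟩ := load_blk h.symm hVU hVc hU
  set M := N.filter (fun p => V ∩ cl U b (oth U p) = oth U p) with hM
  have hinj : ∀ p ∈ M, ∀ q ∈ M, cl U b (oth U p) = cl U b (oth U q) → p = q := by
    intro p hp q hq he
    rw [hM, Finset.mem_filter] at hp hq
    apply oth_inj h hU (hN hp.1) (hN hq.1)
    rw [← hp.2, ← hq.2, he]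
  have e1 : ∑ p ∈ M, (2 + (p.1 ∩ cl U b (oth U p)).card) =
      ∑ p ∈ M, (2 + (cl U b (oth U p) \ V).card) := by
    apply Finset.sum_congr rfl
    intro p hp
    rw [hM, Finset.mem_filter] at hp
    have sp := (S1_of_N0 hU (hN hp.1)).symm
    congr 2
    ext x
    rw [Finset.mem_inter, Finset.mem_sdiff]
    constructor
    · rintro ⟨h1, h2⟩
      refine ⟨h2, fun h3 => ?_⟩
      have : x ∈ oth U p := by
        rw [← hp.2]
        exact Finset.mem_inter.mpr ⟨h3, h2⟩
      exact Finset.disjoint_left.mp sp.dj this h1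
    · rintro ⟨h1, h2⟩
      refine ⟨?_, h1⟩
      rcases Finset.mem_union.mp (sp.H_sub h1) with h3 | h3
      · exfalso
        apply h2
        rw [← hp.2] at h3
        exact (Finset.mem_inter.mp h3).1
      · exact h3
  have e2 : ∑ p ∈ M, (2 + (cl U b (oth U p) \ V).card) ≤
      ∑ H ∈ BV r U b g V, (2 + (H \ V).card) := by
    rw [← Finset.sum_image (f := fun H => 2 + (H \ V).card)
      (g := fun p : Finset α × α => cl U b (oth U p)) (s := M) hinj]
    apply Finset.sum_le_sum_of_subset
    intro H hH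
    rw [Finset.mem_image] at hH
    obtain ⟨p, hp, rfl⟩ := hH
    rw [hM, Finset.mem_filter] at hp
    have sp := S1_of_N0 hU (hN hp.1)
    rw [BV, Finset.mem_filter]
    refine ⟨sp.hK h, ?_⟩
    rw [hp.2]
    exact sp.cZ
  rw [e1]
  refine e2.trans ?_
  rw [Finset.sum_add_distrib, Finset.sum_const, smul_eq_mul]
  omega

theorem key1_six (h : Sys r U a b g) (hU : U.card + 1 = 2 * r) (hr : 6 ≤ r)
    (hw : ∀ p ∈ N0 r U a b g, wide U a b p) :
    ((N0 r U a b g).filter (fun p => ¬ (fullE U a b p ∨ fullF U a b p))).card ≤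
      (SG r U a b g).card := by
  set N := (N0 r U a b g).filter (fun p => ¬ (fullE U a b p ∨ fullF U a b p)) with hN
  have hNN : N ⊆ N0 r U a b g := Finset.filter_subset _ _
  set M := 4 * ((r + 1) / 2) + 2 * (r - 2) with hM
  have hMpos : 0 < M := by omega
  have h1 : ∀ p ∈ N, M ≤ ∑ V ∈ SG r U a b g,
      ((if V ∩ cl U a p.1 = p.1 then (2 + (oth U p ∩ cl U a p.1).card) else 0) +
        (if V ∩ cl U b (oth U p) = oth U p then (2 + (p.1 ∩ cl U b (oth U p)).card) else 0)) := by
    intro p hp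
    have hp' := hp
    rw [hN, Finset.mem_filter] at hp
    have sp := S1_of_N0 hU hp.1
    have hwp := hw p hp.1
    have hnf : ¬ fullE U a b p := fun hh => hp.2 (Or.inl hh)
    have hnf' : ¬ fullF U a b p := fun hh => hp.2 (Or.inr hh)
    have := main_ineq h hr sp hwp.1 hwp.2 hnf hnf'
    rw [Finset.sum_add_distrib, ← Finset.sum_filter, ← Finset.sum_filter, Finset.sum_const,
      Finset.sum_const, smul_eq_mul, smul_eq_mul]
    rw [mul_comm ((SG r U a b g).filter (fun V => V ∩ cl U a p.1 = p.1)).card,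
      mul_comm ((SG r U a b g).filter (fun V => V ∩ cl U b (oth U p) = oth U p)).card]
    exact this
  have h2 : N.card * M ≤ ∑ V ∈ SG r U a b g, ∑ p ∈ N,
      ((if V ∩ cl U a p.1 = p.1 then (2 + (oth U p ∩ cl U a p.1).card) else 0) +
        (if V ∩ cl U b (oth U p) = oth U p then (2 + (p.1 ∩ cl U b (oth U p)).card) else 0)) := by
    rw [Finset.sum_comm]
    calc N.card * M = ∑ p ∈ N, M := by rw [Finset.sum_const, smul_eq_mul]
      _ ≤ _ := Finset.sum_le_sum h1
  have h3 : ∑ V ∈ SG r U a b g, ∑ p ∈ N,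
      ((if V ∩ cl U a p.1 = p.1 then (2 + (oth U p ∩ cl U a p.1).card) else 0) +
        (if V ∩ cl U b (oth U p) = oth U p then (2 + (p.1 ∩ cl U b (oth U p)).card) else 0)) ≤
      (SG r U a b g).card * M := by
    calc _ ≤ ∑ V ∈ SG r U a b g, M := by
          apply Finset.sum_le_sum
          intro V hV
          rw [Finset.sum_add_distrib, ← Finset.sum_filter, ← Finset.sum_filter]
          have k1 := load_side h hU hV N hNN
          have k2 := load_side' h hU hV N hNN
          omega
      _ = _ := by rw [Finset.sum_const, smul_eq_mul]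
  exact Nat.le_of_mul_le_mul_right (h2.trans h3) hMpos

end Pool.IS
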