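import Mathlib

/-!
# Counting pairs of a set that are in no class and not matched
-/

set_option autoImplicit false
open Classical

namespace Pool.IS

variable {α : Type*} [DecidableEq α] {ι : Type*}

/-- `S i` disjoint classes in `W`, `G` a matching of `W` avoiding `y` -/
structure PC (W : Finset α) (y : α) (I : Finset ι) (S : ι → Finset α) (G : α → α → Prop) :
    Prop where
  yW : y ∈ W
  sub : ∀ i ∈ I, S i ⊆ W
  dj : ∀ i ∈ I, ∀ j ∈ I, i ≠ j → Disjoint (S i) (S j)
  gy : ∀ c, ¬ G y c
  gs : ∀ c c', G c c' → G c' c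
  gu : ∀ c ∈ W, ∀ c' ∈ W, ∀ c'' ∈ W, G c c' → G c c'' → c' = c''

/-- ordered good pairs -/
noncomputable def gp (W : Finset α) (I : Finset ι) (S : ι → Finset α) (G : α → α → Prop) :
    Finset (α × α) :=
  (W ×ˢ W).filter (fun q => q.1 ≠ q.2 ∧ (∀ i ∈ I, ¬ (q.1 ∈ S i ∧ q.2 ∈ S i)) ∧ ¬ G q.1 q.2)

variable {W : Finset α} {y : α} {I : Finset ι} {S : ι → Finset α} {G : α → α → Prop}

theorem mem_gp {q : α × α} : q ∈ gp W I S G ↔ (q.1 ∈ W ∧ q.2 ∈ W) ∧ q.1 ≠ q.2 ∧
    (∀ i ∈ I, ¬ (q.1 ∈ S i ∧ q.2 ∈ S i)) ∧ ¬ G q.1 q.2 := by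
  rw [gp, Finset.mem_filter, Finset.mem_product]

namespace PC

/-- general bound -/
theorem l0 (h : PC W y I S G) : W.card * W.card + 1 ≤
    (gp W I S G).card + W.card + ∑ i ∈ I, (S i).card * ((S i).card - 1) + W.card := by
  have hy : 1 ≤ W.card := Finset.card_pos.mpr ⟨y, h.yW⟩
  let Gs : Finset (α × α) := (W ×ˢ W).filter (fun q => G q.1 q.2)
  have hG : Gs.card + 1 ≤ W.card := by
    have h1 : Gs.card ≤ (W.erase y).card := by
      apply Finset.card_le_card_of_injOn (fun q => q.1)
      · intro q hq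
        simp only [Gs, Finset.mem_coe, Finset.mem_filter, Finset.mem_product] at hq
        rw [Finset.mem_coe, Finset.mem_erase]
        refine ⟨?_, hq.1.1⟩
        intro he
        simp only at he
        rw [he] at hq
        exact h.gy _ hq.2
      · intro q hq q' hq' he
        simp only [Gs, Finset.mem_coe, Finset.mem_filter, Finset.mem_product] at hq hq'
        simp only at he
        apply Prod.ext he
        refine h.gu q.1 hq.1.1 q.2 hq.1.2 q'.2 hq'.1.2 hq.2 ?_
        rw [he]
        exact hq'.2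
    rw [Finset.card_erase_of_mem h.yW] at h1
    omega
  have hsub : W ×ˢ W ⊆ gp W I S G ∪ W.diag ∪ I.biUnion (fun i => (S i).offDiag) ∪ Gs := by
    intro q hq
    rw [Finset.mem_product] at hq
    simp only [Finset.mem_union, Finset.mem_diag, Finset.mem_biUnion, Finset.mem_offDiag, mem_gp,
      Gs, Finset.mem_filter, Finset.mem_product]
    by_cases h1 : q.1 = q.2
    · left; left; right
      exact ⟨hq.1, h1⟩
    · by_cases h2 : G q.1 q.2
      · right
        exact ⟨hq, h2⟩
      · by_cases h3 : ∀ i ∈ I, ¬ (q.1 ∈ S i ∧ q.2 ∈ S i)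
        · left; left; left
          exact ⟨hq, h1, h3, h2⟩
        · push Not at h3
          obtain ⟨i, hi, h4, h5⟩ := h3
          left; right
          exact ⟨i, hi, h4, h5, h1⟩
  have h1 := Finset.card_le_card hsub
  rw [Finset.card_product] at h1
  have h2 := Finset.card_union_le (gp W I S G ∪ W.diag ∪ I.biUnion (fun i => (S i).offDiag)) Gs
  have h3 := Finset.card_union_le (gp W I S G ∪ W.diag) (I.biUnion (fun i => (S i).offDiag))
  have h4 := Finset.card_union_le (gp W I S G) W.diag
  have h5 : (I.biUnion (fun i => (S i).offDiag)).card ≤ ∑ i ∈ I, (S i).card * ((S i).card - 1) := by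
    refine (Finset.card_biUnion_le).trans (Finset.sum_le_sum ?_)
    intro i _
    rw [Finset.offDiag_card, Nat.mul_sub_one]
  rw [Finset.diag_card] at h4
  omega

/-- bound from one class -/
theorem l1 (h : PC W y I S G) {i : ι} (hi : i ∈ I) :
    2 * ((S i).card * (W \ S i).card) ≤ (gp W I S G).card + 2 * ((S i).erase y).card ∧
    2 * ((S i).card * (W \ S i).card) ≤ (gp W I S G).card + 2 * ((W \ S i).erase y).card := by
  set A := S i with hA
  set B := W \ A with hB
  have hAW : A ⊆ W := h.sub i hi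
  have hBW : B ⊆ W := Finset.sdiff_subset
  let P1 := (A ×ˢ B).filter (fun q => ¬ G q.1 q.2)
  let P2 := (B ×ˢ A).filter (fun q => ¬ G q.1 q.2)
  let Q1 := (A ×ˢ B).filter (fun q => G q.1 q.2)
  let Q2 := (B ×ˢ A).filter (fun q => G q.1 q.2)
  have hP1 : P1.card + Q1.card = A.card * B.card := by
    rw [← Finset.card_product, ← Finset.card_filter_add_card_filter_not (s := A ×ˢ B)
      (fun q => ¬ G q.1 q.2)]
    congr 2
    simp only [not_not, Q1]
  have hP2 : P2.card + Q2.card = A.card * B.card := by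
    rw [mul_comm, ← Finset.card_product, ← Finset.card_filter_add_card_filter_not (s := B ×ˢ A)
      (fun q => ¬ G q.1 q.2)]
    congr 2
    simp only [not_not, Q2]
  have hdis : Disjoint P1 P2 := by
    rw [Finset.disjoint_left]
    intro q h1 h2
    simp only [P1, P2, Finset.mem_filter, Finset.mem_product] at h1 h2
    exact (Finset.mem_sdiff.mp h2.1.1).2 h1.1.1
  have hsub : P1 ∪ P2 ⊆ gp W I S G := by
    intro q hq
    rw [mem_gp]
    have key : ∀ c ∈ A, ∀ c' ∈ B, c ≠ c' ∧ ∀ j ∈ I, ¬ (c ∈ S j ∧ c' ∈ S j) := by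
      intro c hc c' hc'
      rw [hB, Finset.mem_sdiff] at hc'
      refine ⟨?_, ?_⟩
      · rintro rfl
        exact hc'.2 hc
      · intro j hj hh
        by_cases hij : i = j
        · subst hij
          exact hc'.2 hh.2
        · exact Finset.disjoint_left.mp (h.dj i hi j hj hij) hc hh.1
    rcases Finset.mem_union.mp hq with h1 | h1
    · simp only [P1, Finset.mem_filter, Finset.mem_product] at h1
      obtain ⟨k1, k2⟩ := key q.1 h1.1.1 q.2 h1.1.2
      exact ⟨⟨hAW h1.1.1, hBW h1.1.2⟩, k1, k2, h1.2⟩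
    · simp only [P2, Finset.mem_filter, Finset.mem_product] at h1
      obtain ⟨k1, k2⟩ := key q.2 h1.1.2 q.1 h1.1.1
      exact ⟨⟨hBW h1.1.1, hAW h1.1.2⟩, k1.symm, fun j hj hh => k2 j hj ⟨hh.2, hh.1⟩, h1.2⟩
  have h1 := Finset.card_le_card hsub
  rw [Finset.card_union_of_disjoint hdis] at h1
  have q1 : Q1.card ≤ (A.erase y).card := by
    apply Finset.card_le_card_of_injOn (fun q => q.1)
    · intro q hq
      simp only [Q1, Finset.mem_coe, Finset.mem_filter, Finset.mem_product] at hq
      rw [Finset.mem_coe, Finset.mem_erase]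
      refine ⟨?_, hq.1.1⟩
      intro he
      simp only at he
      rw [he] at hq
      exact h.gy _ hq.2
    · intro q hq q' hq' he
      simp only [Q1, Finset.mem_coe, Finset.mem_filter, Finset.mem_product] at hq hq'
      simp only at he
      apply Prod.ext he
      refine h.gu q.1 (hAW hq.1.1) q.2 (hBW hq.1.2) q'.2 (hBW hq'.1.2) hq.2 ?_
      rw [he]
      exact hq'.2
  have q2 : Q2.card ≤ (B.erase y).card := by
    apply Finset.card_le_card_of_injOn (fun q => q.1)
    · intro q hq
      simp only [Q2, Finset.mem_coe, Finset.mem_filter, Finset.mem_product] at hq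
      rw [Finset.mem_coe, Finset.mem_erase]
      refine ⟨?_, hq.1.1⟩
      intro he
      simp only at he
      rw [he] at hq
      exact h.gy _ hq.2
    · intro q hq q' hq' he
      simp only [Q2, Finset.mem_coe, Finset.mem_filter, Finset.mem_product] at hq hq'
      simp only at he
      apply Prod.ext he
      refine h.gu q.1 (hBW hq.1.1) q.2 (hAW hq.1.2) q'.2 (hAW hq'.1.2) hq.2 ?_
      rw [he]
      exact hq'.2
  have q12 : Q1.card = Q2.card := by
    apply Finset.card_bij (fun q _ => (q.2, q.1))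
    · intro q hq
      simp only [Q1, Q2, Finset.mem_filter, Finset.mem_product] at hq ⊢
      exact ⟨⟨hq.1.2, hq.1.1⟩, h.gs _ _ hq.2⟩
    · intro q _ q' _ he
      simp only [Prod.mk.injEq] at he
      exact Prod.ext he.2 he.1
    · intro q hq
      simp only [Q1, Q2, Finset.mem_filter, Finset.mem_product] at hq ⊢
      exact ⟨(q.2, q.1), ⟨⟨hq.1.2, hq.1.1⟩, h.gs _ _ hq.2⟩, rfl⟩
  omega

theorem erase_le (A : Finset α) (y : α) : (A.erase y).card ≤ A.card := Finset.card_erase_le

/-- a class with all but one element -/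
theorem star (h : PC W y I S G) {i : ι} (hi : i ∈ I) (hs : (S i).card + 1 = W.card) :
    2 * W.card ≤ (gp W I S G).card + 4 := by
  have h1 := (h.l1 hi).2
  have h2 := Finset.card_sdiff_add_card_eq_card (h.sub i hi)
  have h3 : (W \ S i).card = 1 := by omega
  have h4 := erase_le (W \ S i) y
  rw [h3] at h1 h4
  omega

/-- all classes trivial -/
theorem triv (h : PC W y I S G) (hs : ∀ i ∈ I, (S i).card ≤ 1) :
    W.card * W.card + 1 ≤ (gp W I S G).card + 2 * W.card := by
  have h0 := h.l0
  have h1 : ∑ i ∈ I, (S i).card * ((S i).card - 1) = 0 := by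
    apply Finset.sum_eq_zero
    intro i hi
    have := hs i hi
    have h2 : (S i).card - 1 = 0 := by omega
    rw [h2, mul_zero]
  omega

/-- all classes with at most two elements -/
theorem two (h : PC W y I S G) (hs : ∀ i ∈ I, (S i).card ≤ 2) :
    W.card * W.card + 1 ≤ (gp W I S G).card + 3 * W.card := by
  have h0 := h.l0
  have h1 : ∑ i ∈ I, (S i).card * ((S i).card - 1) ≤ ∑ i ∈ I, (S i).card := by
    apply Finset.sum_le_sum
    intro i hi
    have := hs i hi
    have h2 : (S i).card - 1 ≤ 1 := by omega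
    calc (S i).card * ((S i).card - 1) ≤ (S i).card * 1 := Nat.mul_le_mul_left _ h2
      _ = (S i).card := mul_one _
  have h2 : ∑ i ∈ I, (S i).card ≤ W.card := by
    rw [← Finset.card_biUnion (fun i hi j hj hij => h.dj i hi j hj hij)]
    apply Finset.card_le_card
    intro x hx
    rw [Finset.mem_biUnion] at hx
    obtain ⟨i, hi, hx⟩ := hx
    exact h.sub i hi hx
  omega

/-- no class with all but one element -/
theorem nonstar (h : PC W y I S G) (hs : ∀ i ∈ I, (S i).card + 2 ≤ W.card) (hw : 4 ≤ W.card) :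
    4 * W.card ≤ (gp W I S G).card + 12 ∧ (W.card = 4 → 6 ≤ (gp W I S G).card) := by
  by_cases hex : ∃ i ∈ I, 2 ≤ (S i).card
  · obtain ⟨i, hi, h2⟩ := hex
    obtain ⟨h3, h4⟩ := h.l1 hi
    have h5 := Finset.card_sdiff_add_card_eq_card (h.sub i hi)
    have h6 := hs i hi
    have h7 := erase_le (S i) y
    have h8 := erase_le (W \ S i) y
    obtain ⟨u, hu⟩ : ∃ u, (S i).card = u + 2 := ⟨(S i).card - 2, by omega⟩
    obtain ⟨v, hv⟩ : ∃ v, (W \ S i).card = v + 2 := ⟨(W \ S i).card - 2, by omega⟩
    rw [hu, hv] at h3 h4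
    have hW : W.card = u + v + 4 := by omega
    constructor
    · rcases le_total u v with huv | huv
      · nlinarith [Nat.zero_le (u * v), Nat.mul_le_mul huv (le_refl u)]
      · nlinarith [Nat.zero_le (u * v), Nat.mul_le_mul huv (le_refl v)]
    · intro hW4
      have hu0 : u = 0 := by omega
      have hv0 : v = 0 := by omega
      subst hu0 hv0
      by_cases hy : y ∈ S i
      · have := Finset.card_erase_of_mem hy
        omega
      · have hy' : y ∈ W \ S i := Finset.mem_sdiff.mpr ⟨h.yW, hy⟩
        have := Finset.card_erase_of_mem hy'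
        omega
  · push Not at hex
    have h3 := h.triv (fun i hi => by
      have := hex i hi
      omega)
    obtain ⟨u, hu⟩ : ∃ u, W.card = u + 4 := ⟨W.card - 4, by omega⟩
    rw [hu] at h3 ⊢
    constructor
    · nlinarith [Nat.zero_le (u * u)]
    · intro h4
      have : u = 0 := by omega
      subst this
      omega

end PC

end Pool.IS
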