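import Pool.Agent.IS.Key1Defs
import Pool.Agent.IS.PC

/-!
# KEY for `|U| = 2r - 1`: the structure of a split
-/

set_option autoImplicit false
open Classical

namespace Pool.IS

variable {α : Type*} [DecidableEq α]
variable {r : ℕ} {U : Finset α} {a b g : Finset α → Prop}

structure S1 (r : ℕ) (U : Finset α) (a b g : Finset α → Prop) (X Z : Finset α) (y : α) : Prop where
  hX : X ⊆ U
  hZ : Z ⊆ U
  hy : y ∈ U
  yX : y ∉ X
  yZ : y ∉ Z
  dj : Disjoint X Z
  cov : insert y (X ∪ Z) = U
  cX : X.card + 1 = r
  cZ : Z.card + 1 = r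
  eX : isE r a g X
  eZ : isE r b g Z
  na : ¬ a (insert y X)
  nb : ¬ b (insert y Z)

theorem S1.symm {X Z : Finset α} {y : α} (s : S1 r U a b g X Z y) : S1 r U b a g Z X y where
  hX := s.hZ
  hZ := s.hX
  hy := s.hy
  yX := s.yZ
  yZ := s.yX
  dj := s.dj.symm
  cov := by rw [Finset.union_comm]; exact s.cov
  cX := s.cZ
  cZ := s.cX
  eX := s.eZ
  eZ := s.eX
  na := s.nb
  nb := s.na

theorem S1_of_N0 (hU : U.card + 1 = 2 * r) {p : Finset α × α} (hp : p ∈ N0 r U a b g) :
    S1 r U a b g p.1 (oth U p) p.2 := by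
  obtain ⟨⟨h1, h2⟩, h3, h4, h5, h6, h7⟩ := mem_N0.mp hp
  have hm : p.2 ∈ U \ p.1 := Finset.mem_sdiff.mpr ⟨h2, h3⟩
  have e1 : insert p.2 (oth U p) = U \ p.1 := Finset.insert_erase hm
  have c1 := Finset.card_sdiff_add_card_eq_card h1
  have c2 : (oth U p).card = (U \ p.1).card - 1 := Finset.card_erase_of_mem hm
  have c3 : 1 ≤ (U \ p.1).card := Finset.card_pos.mpr ⟨_, hm⟩
  have h4' := h4.1
  have h5' := h5.1
  have h5'' : r ≤ (oth U p).card + 1 := h5'
  refine ⟨h1, (Finset.erase_subset _ _).trans Finset.sdiff_subset, h2, h3,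
    Finset.notMem_erase _ _, ?_, ?_, by omega, by omega, h4, h5, h6, ?_⟩
  · rw [Finset.disjoint_left]
    intro x hx hx'
    exact (Finset.mem_sdiff.mp (Finset.mem_of_mem_erase hx')).2 hx
  · rw [← Finset.union_insert, e1]
    exact Finset.union_sdiff_of_subset h1
  · rw [e1]
    exact h7

/-- the class of `x` -/
noncomputable def Sx (U : Finset α) (a b : Finset α → Prop) (X : Finset α) (x : α) : Finset α :=
  (U \ cl U a X).filter (fun c => b (insert c (X.erase x)))

theorem mem_Sx {X : Finset α} {x c : α} : c ∈ Sx U a b X x ↔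
    (c ∈ U ∧ c ∉ cl U a X) ∧ b (insert c (X.erase x)) := by
  rw [Sx, Finset.mem_filter, Finset.mem_sdiff]

/-- pairs blocked by a block through `e, f` -/
def Gr (U : Finset α) (a g : Finset α → Prop) (X : Finset α) (c c' : α) : Prop :=
  c ≠ c' ∧ c ∈ U \ cl U a X ∧ c' ∈ U \ cl U a X ∧ g (((U \ X).erase c).erase c')

namespace S1

variable {X Z : Finset α} {y : α}

theorem r2 (s : S1 r U a b g X Z y) (h : Sys r U a b g) : 2 ≤ r := by
  by_contra hc
  have h1 := s.cX
  have hX0 : X = ∅ := Finset.card_eq_zero.mp (by omega)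
  have hZ0 : Z = ∅ := Finset.card_eq_zero.mp (by have := s.cZ; omega)
  have := h.ab s.hX s.hZ s.eX.2.1 s.eZ.2.1 (by omega)
  rw [hX0, hZ0, Finset.union_empty] at this
  exact s.eX.2.2 (by rw [hX0]; exact this)

theorem nbX (s : S1 r U a b g X Z y) (h : Sys r U a b g) : ¬ b X := by
  intro hb
  have := h.ab s.hX s.hX s.eX.2.1 hb (by rw [Finset.inter_self]; exact s.eX.1)
  rw [Finset.union_self] at this
  exact s.eX.2.2 this

theorem hH (s : S1 r U a b g X Z y) (h : Sys r U a b g) : cl U a X ∈ blk r U a g :=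
  h.cl_blk s.hX s.eX

theorem hK (s : S1 r U a b g X Z y) (h : Sys r U a b g) : cl U b Z ∈ blk r U b g :=
  h.symm.cl_blk s.hZ s.eZ

theorem XH (s : S1 r U a b g X Z y) : X ⊆ cl U a X := sub_cl s.hX s.eX

theorem ZK (s : S1 r U a b g X Z y) : Z ⊆ cl U b Z := sub_cl s.hZ s.eZ

theorem yH (s : S1 r U a b g X Z y) : y ∉ cl U a X := by
  rw [mem_cl]
  exact fun hh => s.na hh.2

theorem yK (s : S1 r U a b g X Z y) : y ∉ cl U b Z := s.symm.yH

theorem mem_cases (s : S1 r U a b g X Z y) {c : α} (hc : c ∈ U) : c = y ∨ c ∈ X ∨ c ∈ Z := by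
  rw [← s.cov, Finset.mem_insert, Finset.mem_union] at hc
  exact hc

theorem W_cases (s : S1 r U a b g X Z y) {c : α} (hc : c ∈ U \ cl U a X) : c = y ∨ c ∈ Z := by
  rw [Finset.mem_sdiff] at hc
  rcases s.mem_cases hc.1 with h1 | h1 | h1
  · exact Or.inl h1
  · exact absurd (s.XH h1) hc.2
  · exact Or.inr h1

theorem U_sdiff (s : S1 r U a b g X Z y) : U \ X = insert y Z := by
  ext c
  rw [Finset.mem_sdiff, Finset.mem_insert]
  constructor
  · rintro ⟨h1, h2⟩
    rcases s.mem_cases h1 with h3 | h3 | h3
    · exact Or.inl h3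
    · exact absurd h3 h2
    · exact Or.inr h3
  · rintro (rfl | h1)
    · exact ⟨s.hy, s.yX⟩
    · exact ⟨s.hZ h1, fun hh => Finset.disjoint_left.mp s.dj hh h1⟩

theorem card_U (s : S1 r U a b g X Z y) : U.card + 1 = 2 * r := by
  have h1 := Finset.card_sdiff_add_card_eq_card s.hX
  rw [s.U_sdiff, Finset.card_insert_of_notMem s.yZ] at h1
  have := s.cX
  have := s.cZ
  omega

theorem H_sub (s : S1 r U a b g X Z y) : cl U a X ⊆ X ∪ Z := by
  intro c hc
  rw [Finset.mem_union]
  rcases s.mem_cases (cl_sub hc) with h1 | h1 | h1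
  · rw [h1] at hc
    exact absurd hc s.yH
  · exact Or.inl h1
  · exact Or.inr h1

/-- `w = r - p'` -/
theorem card_W (s : S1 r U a b g X Z y) : (U \ cl U a X).card + (Z ∩ cl U a X).card = r := by
  have h1 : U \ cl U a X = insert y (Z \ cl U a X) := by
    ext c
    rw [Finset.mem_sdiff, Finset.mem_insert, Finset.mem_sdiff]
    constructor
    · rintro ⟨h1, h2⟩
      rcases s.W_cases (Finset.mem_sdiff.mpr ⟨h1, h2⟩) with h3 | h3
      · exact Or.inl h3
      · exact Or.inr ⟨h3, h2⟩
    · rintro (rfl | ⟨h1, h2⟩)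
      · exact ⟨s.hy, s.yH⟩
      · exact ⟨s.hZ h1, h2⟩
  rw [h1, Finset.card_insert_of_notMem (fun hh => s.yZ (Finset.mem_sdiff.mp hh).1)]
  have h2 := Finset.card_sdiff_add_card_inter Z (cl U a X)
  have := s.cZ
  omega

/-- `p + p' ≤ r - 2` -/
theorem pp (s : S1 r U a b g X Z y) (h : Sys r U a b g) :
    (X ∩ cl U b Z).card + (Z ∩ cl U a X).card + 2 ≤ r := by
  have h1 := h.blk_b (s.hH h) cl_sub (mem_blk.mp (s.hK h)).2.1.2.1
  have h2 : (X ∩ cl U b Z) ∪ (Z ∩ cl U a X) ⊆ cl U a X ∩ cl U b Z := by
    intro c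
    simp only [Finset.mem_union, Finset.mem_inter]
    rintro (⟨h3, h4⟩ | ⟨h3, h4⟩)
    · exact ⟨s.XH h3, h4⟩
    · exact ⟨h4, s.ZK h3⟩
  have h3 := Finset.card_le_card h2
  rw [Finset.card_union_of_disjoint] at h3
  · omega
  · rw [Finset.disjoint_left]
    intro c hc hc'
    exact Finset.disjoint_left.mp s.dj (Finset.mem_inter.mp hc).1 (Finset.mem_inter.mp hc').1

theorem pc (s : S1 r U a b g X Z y) (h : Sys r U a b g) :
    PC (U \ cl U a X) y X (Sx U a b X) (Gr U a g X) where
  yW := Finset.mem_sdiff.mpr ⟨s.hy, s.yH⟩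
  sub := fun x _ => Finset.filter_subset _ _
  dj := by
    intro x hx x' hx' hne
    rw [Finset.disjoint_left]
    intro c hc hc'
    rw [mem_Sx] at hc hc'
    have hcX : c ∉ X := fun hh => hc.1.2 (s.XH hh)
    have e1 : (insert c (X.erase x)) ∪ (insert c (X.erase x')) = insert c X := by
      ext u
      simp only [Finset.mem_union, Finset.mem_insert, Finset.mem_erase]
      constructor
      · tauto
      · rintro (h1 | h1)
        · tauto
        · by_cases h2 : u = x
          · right; right
            exact ⟨by rw [h2]; exact hne, h1⟩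
          · left; right
            exact ⟨h2, h1⟩
    have e2 : insert c ((X.erase x).erase x') ⊆ (insert c (X.erase x)) ∩ (insert c (X.erase x')) := by
      intro u
      simp only [Finset.mem_inter, Finset.mem_insert, Finset.mem_erase]
      tauto
    have c1 := Finset.card_le_card e2
    have hxx : x' ∈ X.erase x := Finset.mem_erase.mpr ⟨hne.symm, hx'⟩
    rw [Finset.card_insert_of_notMem (fun hh => hcX (Finset.mem_of_mem_erase
      (Finset.mem_of_mem_erase hh))), Finset.card_erase_of_mem hxx,
      Finset.card_erase_of_mem hx] at c1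
    have c2 : 1 ≤ (X.erase x).card := Finset.card_pos.mpr ⟨x', hxx⟩
    rw [Finset.card_erase_of_mem hx] at c2
    have hs1 : insert c (X.erase x) ⊆ U :=
      Finset.insert_subset hc.1.1 ((Finset.erase_subset _ _).trans s.hX)
    have hs2 : insert c (X.erase x') ⊆ U :=
      Finset.insert_subset hc.1.1 ((Finset.erase_subset _ _).trans s.hX)
    have h1 := h.bb hs1 hs2 hc.2 hc'.2 (by have := s.cX; omega)
    rw [e1] at h1
    exact s.nbX h (h.bm (Finset.subset_insert _ _) (Finset.insert_subset hc.1.1 s.hX) h1)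
  gy := by
    rintro c ⟨h1, h2, h3, h4⟩
    rw [s.U_sdiff, Finset.erase_insert s.yZ] at h4
    have hcZ : c ∈ Z := by
      rcases s.W_cases h3 with h5 | h5
      · exact absurd h5.symm h1
      · exact h5
    have h5 := h.bg s.hZ ((Finset.erase_subset _ _).trans s.hZ) s.eZ.2.1 h4 (by
      have : Z ∩ Z.erase c = Z.erase c := Finset.inter_eq_right.mpr (Finset.erase_subset _ _)
      rw [this, Finset.card_erase_of_mem hcZ]
      have := s.cZ
      have : 1 ≤ Z.card := Finset.card_pos.mpr ⟨c, hcZ⟩
      omega)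
    exact s.eZ.2.2 (h.gm Finset.subset_union_left (Finset.union_subset s.hZ
      ((Finset.erase_subset _ _).trans s.hZ)) h5)
  gs := by
    rintro c c' ⟨h1, h2, h3, h4⟩
    refine ⟨h1.symm, h3, h2, ?_⟩
    rw [Finset.erase_right_comm]
    exact h4
  gu := by
    intro c hc c' hc' c'' hc'' h1 h2
    by_contra hne
    obtain ⟨h3, -, -, h4⟩ := h1
    obtain ⟨h5, -, -, h6⟩ := h2
    have hsub : ∀ u v : α, (((U \ X).erase u).erase v) ⊆ U := fun u v =>
      (Finset.erase_subset _ _).trans ((Finset.erase_subset _ _).trans Finset.sdiff_subset)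
    have e1 : (((U \ X).erase c).erase c') ∪ (((U \ X).erase c).erase c'') = (U \ X).erase c := by
      ext u
      simp only [Finset.mem_union, Finset.mem_erase]
      constructor
      · tauto
      · intro hu
        by_cases h7 : u = c'
        · right
          exact ⟨by rw [h7]; exact hne, hu⟩
        · left
          exact ⟨h7, hu⟩
    have e2 : ((((U \ X).erase c).erase c').erase c'') ⊆
        (((U \ X).erase c).erase c') ∩ (((U \ X).erase c).erase c'') := by
      intro u
      simp only [Finset.mem_inter, Finset.mem_erase]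
      tauto
    have hm : ∀ u ∈ U \ cl U a X, u ∈ U \ X := by
      intro u hu
      rw [Finset.mem_sdiff] at hu ⊢
      exact ⟨hu.1, fun hh => hu.2 (s.XH hh)⟩
    have m1 : c' ∈ (U \ X).erase c := Finset.mem_erase.mpr ⟨h3.symm, hm c' hc'⟩
    have m2 : c'' ∈ ((U \ X).erase c).erase c' :=
      Finset.mem_erase.mpr ⟨Ne.symm hne, Finset.mem_erase.mpr ⟨h5.symm, hm c'' hc''⟩⟩
    have k0 : (U \ X).card = r := by
      rw [s.U_sdiff, Finset.card_insert_of_notMem s.yZ]
      exact s.cZ
    have k1 : ((U \ X).erase c).card + 1 = r := by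
      have := Finset.card_erase_add_one (hm c hc)
      omega
    have k2 := Finset.card_erase_add_one m1
    have k3 := Finset.card_erase_add_one m2
    have k4 := Finset.card_le_card e2
    have h7 := h.gg (hsub c c') (hsub c c'') h4 h6 (by omega)
    rw [e1] at h7
    -- now `Y - c` is in a block through `e, f`
    have h8 := h.bg s.hZ ((Finset.erase_subset _ _).trans Finset.sdiff_subset) s.eZ.2.1 h7 (by
      have : Z.erase c ⊆ Z ∩ (U \ X).erase c := by
        intro u hu
        rw [Finset.mem_erase] at hu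
        rw [Finset.mem_inter, Finset.mem_erase, s.U_sdiff, Finset.mem_insert]
        exact ⟨hu.2, hu.1, Or.inr hu.2⟩
      have := Finset.card_le_card this
      have := Finset.pred_card_le_card_erase (s := Z) (a := c)
      have := s.cZ
      omega)
    exact s.eZ.2.2 (h.gm Finset.subset_union_left (Finset.union_subset s.hZ
      ((Finset.erase_subset _ _).trans Finset.sdiff_subset)) h8)

/-- a good pair gives a good set -/
theorem good_of_gp (s : S1 r U a b g X Z y) (h : Sys r U a b g) {q : α × α}
    (hq : q ∈ gp (U \ cl U a X) X (Sx U a b X) (Gr U a g X)) :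
    insert q.1 (insert q.2 X) ∈ SG r U a b g ∧ insert q.1 (insert q.2 X) ∩ cl U a X = X := by
  obtain ⟨⟨h1, h2⟩, h3, h4, h5⟩ := mem_gp.mp hq
  have hsU := h1
  have hs2U := h2
  rw [Finset.mem_sdiff] at h1 h2
  have hqX : q.1 ∉ X := fun hh => h1.2 (s.XH hh)
  have hqX2 : q.2 ∉ X := fun hh => h2.2 (s.XH hh)
  have hq1 : q.1 ∉ insert q.2 X := by
    rw [Finset.mem_insert, not_or]
    exact ⟨h3, hqX⟩
  have hVU : insert q.1 (insert q.2 X) ⊆ U :=
    Finset.insert_subset h1.1 (Finset.insert_subset h2.1 s.hX)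
  have cV : (insert q.1 (insert q.2 X)).card = r + 1 := by
    rw [Finset.card_insert_of_notMem hq1, Finset.card_insert_of_notMem hqX2]
    have := s.cX
    omega
  constructor
  · rw [mem_SG]
    refine ⟨hVU, ?_, ?_, ?_⟩
    · have k1 := Finset.card_sdiff_add_card_eq_card hVU
      have k2 := s.card_U
      omega
    · intro hg
      apply h5
      refine ⟨h3, hsU, hs2U, ?_⟩
      have e1 : ((U \ X).erase q.1).erase q.2 = U \ insert q.1 (insert q.2 X) := by
        ext u
        simp only [Finset.mem_erase, Finset.mem_sdiff, Finset.mem_insert]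
        tauto
      rw [e1]
      exact hg
    · intro v hv
      constructor
      · intro ha
        have k1 : (insert q.1 (insert q.2 X)).erase v ⊆ cl U a X := by
          apply h.sub_blk (s.hH h) ((Finset.erase_subset _ _).trans hVU) ha
          have : X.erase v ⊆ cl U a X ∩ (insert q.1 (insert q.2 X)).erase v := by
            intro u hu
            rw [Finset.mem_erase] at hu
            rw [Finset.mem_inter, Finset.mem_erase, Finset.mem_insert, Finset.mem_insert]
            exact ⟨s.XH hu.2, hu.1, Or.inr (Or.inr hu.2)⟩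
          have := Finset.card_le_card this
          have := Finset.pred_card_le_card_erase (s := X) (a := v)
          have := s.cX
          omega
        by_cases hv1 : v = q.1
        · apply h2.2
          apply k1
          rw [Finset.mem_erase, Finset.mem_insert, Finset.mem_insert]
          exact ⟨by rw [hv1]; exact h3.symm, Or.inr (Or.inl rfl)⟩
        · apply h1.2
          apply k1
          rw [Finset.mem_erase, Finset.mem_insert]
          exact ⟨Ne.symm hv1, Or.inl rfl⟩
      · intro hb
        have hsub : (insert q.1 (insert q.2 X)).erase v ⊆ U := (Finset.erase_subset _ _).trans hVU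
        by_cases hvX : v ∈ X
        · apply h4 v hvX
          constructor
          · rw [mem_Sx]
            refine ⟨h1, h.bm ?_ hsub hb⟩
            intro u hu
            rw [Finset.mem_insert, Finset.mem_erase] at hu
            rw [Finset.mem_erase, Finset.mem_insert, Finset.mem_insert]
            rcases hu with hu | hu
            · refine ⟨?_, Or.inl hu⟩
              rw [hu]
              rintro rfl
              exact hqX hvX
            · exact ⟨hu.1, Or.inr (Or.inr hu.2)⟩
          · rw [mem_Sx]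
            refine ⟨h2, h.bm ?_ hsub hb⟩
            intro u hu
            rw [Finset.mem_insert, Finset.mem_erase] at hu
            rw [Finset.mem_erase, Finset.mem_insert, Finset.mem_insert]
            rcases hu with hu | hu
            · refine ⟨?_, Or.inr (Or.inl hu)⟩
              rw [hu]
              rintro rfl
              exact hqX2 hvX
            · exact ⟨hu.1, Or.inr (Or.inr hu.2)⟩
        · apply s.nbX h
          apply h.bm ?_ hsub hb
          intro u hu
          rw [Finset.mem_erase, Finset.mem_insert, Finset.mem_insert]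
          refine ⟨?_, Or.inr (Or.inr hu)⟩
          rintro rfl
          exact hvX hu
  · ext u
    rw [Finset.mem_inter, Finset.mem_insert, Finset.mem_insert]
    constructor
    · rintro ⟨h6 | h6 | h6, h7⟩
      · exact absurd (h6 ▸ h7) h1.2
      · exact absurd (h6 ▸ h7) h2.2
      · exact h6
    · intro h6
      exact ⟨Or.inr (Or.inr h6), s.XH h6⟩

/-- the number of good sets attached to the split on the `E`-side -/
theorem gp_le (s : S1 r U a b g X Z y) (h : Sys r U a b g) :
    (gp (U \ cl U a X) X (Sx U a b X) (Gr U a g X)).card ≤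
      2 * ((SG r U a b g).filter (fun V => V ∩ cl U a X = X)).card := by
  set P := gp (U \ cl U a X) X (Sx U a b X) (Gr U a g X) with hP
  have h1 : P.card ≤ 2 * (P.image (fun q => insert q.1 (insert q.2 X))).card := by
    apply Finset.card_le_mul_card_image
    intro V hV
    rw [Finset.mem_image] at hV
    obtain ⟨q, hq, rfl⟩ := hV
    have h2 : (P.filter (fun q' => insert q'.1 (insert q'.2 X) = insert q.1 (insert q.2 X))) ⊆
        {(q.1, q.2), (q.2, q.1)} := by
      intro q' hq'
      rw [Finset.mem_filter] at hq'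
      obtain ⟨h3, h4⟩ := hq'
      obtain ⟨⟨k1, k2⟩, k3, -, -⟩ := mem_gp.mp h3
      rw [Finset.mem_sdiff] at k1 k2
      have n1 : q'.1 ∉ X := fun hh => k1.2 (s.XH hh)
      have n2 : q'.2 ∉ X := fun hh => k2.2 (s.XH hh)
      have m1 : q'.1 ∈ insert q.1 (insert q.2 X) := by
        rw [← h4]
        exact Finset.mem_insert_self _ _
      have m2 : q'.2 ∈ insert q.1 (insert q.2 X) := by
        rw [← h4]
        exact Finset.mem_insert_of_mem (Finset.mem_insert_self _ _)
      simp only [Finset.mem_insert] at m1 m2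
      simp only [Finset.mem_insert, Finset.mem_singleton]
      rcases m1 with m1 | m1 | m1
      · rcases m2 with m2 | m2 | m2
        · exact absurd (m1.trans m2.symm) k3
        · left
          exact Prod.ext m1 m2
        · exact absurd m2 n2
      · rcases m2 with m2 | m2 | m2
        · right
          exact Prod.ext m1 m2
        · exact absurd (m1.trans m2.symm) k3
        · exact absurd m2 n2
      · exact absurd m1 n1
    exact (Finset.card_le_card h2).trans Finset.card_le_two
  refine h1.trans (Nat.mul_le_mul_left 2 (Finset.card_le_card ?_))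
  intro V hV
  rw [Finset.mem_image] at hV
  obtain ⟨q, hq, rfl⟩ := hV
  rw [Finset.mem_filter]
  exact s.good_of_gp h hq

/-- the `F`-block of a class -/
theorem Kx (s : S1 r U a b g X Z y) (h : Sys r U a b g) {x : α} (hx : x ∈ X)
    (hne : (Sx U a b X x).Nonempty) : ∃ K' ∈ blk r U b g, X.erase x ⊆ K' ∧ Sx U a b X x ⊆ K' := by
  obtain ⟨c, hc⟩ := hne
  rw [mem_Sx] at hc
  have hcX : c ∉ X := fun hh => hc.1.2 (s.XH hh)
  have hsub : ∀ u ∈ U, insert u (X.erase x) ⊆ U := fun u hu =>
    Finset.insert_subset hu ((Finset.erase_subset _ _).trans s.hX)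
  have hcard : (X.erase x).card + 2 = r := by
    have := Finset.card_erase_add_one hx
    have := s.cX
    omega
  have hE : isE r b g (insert c (X.erase x)) := by
    refine ⟨?_, hc.2, ?_⟩
    · rw [Finset.card_insert_of_notMem (fun hh => hcX (Finset.mem_of_mem_erase hh))]
      omega
    · intro hg
      have := h.ag s.hX (hsub c hc.1.1) s.eX.2.1 hg (by
        have : X.erase x ⊆ X ∩ insert c (X.erase x) := by
          intro u hu
          rw [Finset.mem_inter, Finset.mem_insert]
          exact ⟨Finset.mem_of_mem_erase hu, Or.inr hu⟩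
        have := Finset.card_le_card this
        omega)
      exact s.eX.2.2 (h.gm Finset.subset_union_left (Finset.union_subset s.hX (hsub c hc.1.1)) this)
  obtain ⟨K', hK', hcK⟩ := h.symm.exists_blk (hsub c hc.1.1) hE
  have hXK : X.erase x ⊆ K' := (Finset.subset_insert _ _).trans hcK
  refine ⟨K', hK', hXK, ?_⟩
  intro u hu
  rw [mem_Sx] at hu
  have := h.symm.sub_blk hK' (hsub u hu.1.1) hu.2 (by
    have : X.erase x ⊆ K' ∩ insert u (X.erase x) := by
      intro v hv
      rw [Finset.mem_inter, Finset.mem_insert]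
      exact ⟨hXK hv, Or.inr hv⟩
    have := Finset.card_le_card this
    omega)
  exact this (Finset.mem_insert_self _ _)

/-- the size constraint of a class -/
theorem class_le (s : S1 r U a b g X Z y) (h : Sys r U a b g)
    (hw : 3 ≤ (U \ cl U b Z).card) {x : α} (hx : x ∈ X) (hne : (Sx U a b X x).Nonempty) :
    ((X ∩ cl U b Z).erase x).card + ((Sx U a b X x).erase y).card + 3 ≤ r := by
  obtain ⟨K', hK', h1, h2⟩ := s.Kx h hx hne
  have hp := s.symm.card_W
  have hcard : (X.erase x).card + 2 = r := by
    have := Finset.card_erase_add_one hx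
    have := s.cX
    omega
  have hKne : K' ≠ cl U b Z := by
    rintro rfl
    have h3 : X.erase x ⊆ X ∩ cl U b Z := by
      intro u hu
      rw [Finset.mem_inter]
      exact ⟨Finset.mem_of_mem_erase hu, h1 hu⟩
    have := Finset.card_le_card h3
    omega
  have h3 := h.symm.blk_inter hK' (s.hK h) hKne
  have h4 : ((X ∩ cl U b Z).erase x) ∪ ((Sx U a b X x).erase y) ⊆ K' ∩ cl U b Z := by
    intro u hu
    rw [Finset.mem_inter]
    rcases Finset.mem_union.mp hu with hu | hu
    · rw [Finset.mem_erase, Finset.mem_inter] at hu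
      exact ⟨h1 (Finset.mem_erase.mpr ⟨hu.1, hu.2.1⟩), hu.2.2⟩
    · rw [Finset.mem_erase] at hu
      refine ⟨h2 hu.2, ?_⟩
      rcases s.W_cases (Finset.filter_subset _ _ hu.2) with h5 | h5
      · exact absurd h5 hu.1
      · exact s.ZK h5
  have h5 := Finset.card_le_card h4
  rw [Finset.card_union_of_disjoint] at h5
  · omega
  · rw [Finset.disjoint_left]
    intro u hu hu'
    rw [Finset.mem_erase] at hu'
    have hu1 : u ∈ X := (Finset.mem_inter.mp (Finset.mem_of_mem_erase hu)).1
    rcases s.W_cases (Finset.filter_subset _ _ hu'.2) with h6 | h6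
    · exact hu'.1 h6
    · exact Finset.disjoint_left.mp s.dj hu1 h6

/-- the cross constraint of a class on either side -/
theorem cross_le (s : S1 r U a b g X Z y) (h : Sys r U a b g) {x z : α} (hx : x ∈ X) (hz : z ∈ Z)
    (hne : (Sx U a b X x).Nonempty) (hne' : (Sx U b a Z z).Nonempty) :
    (((Sx U a b X x).erase y).erase z).card + (((Sx U b a Z z).erase y).erase x).card +
      (if y ∈ Sx U a b X x ∧ y ∈ Sx U b a Z z then 1 else 0) + 2 ≤ r := by
  obtain ⟨K', hK', h1, h2⟩ := s.Kx h hx hne
  obtain ⟨H', hH', h3, h4⟩ := s.symm.Kx h.symm hz hne'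
  have h5 := h.blk_b hH' (mem_blk.mp hK').1 (mem_blk.mp hK').2.1.2.1
  set A := ((Sx U a b X x).erase y).erase z with hA
  set B := ((Sx U b a Z z).erase y).erase x with hB
  have hAZ : A ⊆ Z := by
    intro u hu
    rw [hA, Finset.mem_erase, Finset.mem_erase] at hu
    rcases s.W_cases (Finset.filter_subset _ _ hu.2.2) with h6 | h6
    · exact absurd h6 hu.2.1
    · exact h6
  have hBX : B ⊆ X := by
    intro u hu
    rw [hB, Finset.mem_erase, Finset.mem_erase] at hu
    rcases s.symm.W_cases (Finset.filter_subset _ _ hu.2.2) with h6 | h6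
    · exact absurd h6 hu.2.1
    · exact h6
  have hAs : A ⊆ H' ∩ K' := by
    intro u hu
    have hu' := hu
    rw [hA, Finset.mem_erase, Finset.mem_erase] at hu'
    rw [Finset.mem_inter]
    exact ⟨h3 (Finset.mem_erase.mpr ⟨hu'.1, hAZ hu⟩), h2 hu'.2.2⟩
  have hBs : B ⊆ H' ∩ K' := by
    intro u hu
    have hu' := hu
    rw [hB, Finset.mem_erase, Finset.mem_erase] at hu'
    rw [Finset.mem_inter]
    exact ⟨h4 hu'.2.2, h1 (Finset.mem_erase.mpr ⟨hu'.1, hBX hu⟩)⟩
  have hAB : Disjoint A B := by
    rw [Finset.disjoint_left]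
    intro u hu hu'
    exact Finset.disjoint_left.mp s.dj (hBX hu') (hAZ hu)
  by_cases hy : y ∈ Sx U a b X x ∧ y ∈ Sx U b a Z z
  · rw [if_pos hy]
    have hyAB : y ∉ A ∪ B := by
      rw [Finset.mem_union, hA, hB]
      simp
    have h6 : insert y (A ∪ B) ⊆ H' ∩ K' := by
      apply Finset.insert_subset
      · rw [Finset.mem_inter]
        exact ⟨h4 hy.2, h2 hy.1⟩
      · exact Finset.union_subset hAs hBs
    have h7 := Finset.card_le_card h6
    rw [Finset.card_insert_of_notMem hyAB, Finset.card_union_of_disjoint hAB] at h7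
    omega
  · rw [if_neg hy]
    have h7 := Finset.card_le_card (Finset.union_subset hAs hBs)
    rw [Finset.card_union_of_disjoint hAB] at h7
    omega

/-- a class cannot be everything for a split that is not full -/
theorem not_full (s : S1 r U a b g X Z y) (h : Sys r U a b g)
    (hf : ¬ ∃ x ∈ X, b (X.erase x ∪ (U \ cl U a X))) {x : α} (hx : x ∈ X) :
    (Sx U a b X x).card + 1 ≤ (U \ cl U a X).card := by
  by_contra hc
  apply hf
  refine ⟨x, hx, ?_⟩
  have hsub : Sx U a b X x ⊆ U \ cl U a X := Finset.filter_subset _ _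
  have he : Sx U a b X x = U \ cl U a X :=
    Finset.eq_of_subset_of_card_le hsub (by omega)
  have hyW : y ∈ U \ cl U a X := Finset.mem_sdiff.mpr ⟨s.hy, s.yH⟩
  obtain ⟨K', hK', h1, h2⟩ := s.Kx h hx ⟨y, by rw [he]; exact hyW⟩
  rw [he] at h2
  exact h.bm (Finset.union_subset h1 h2) (mem_blk.mp hK').1 (mem_blk.mp hK').2.1.2.1

end S1

end Pool.IS
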