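import Pool.Agent.IS.Defs

/-!
# The key counting inequality, case `|U| ≥ 2 r` (MP_c59e09_co)

Every split `(X, Z)` (either a partition of `U` into an `E`-set and an `F`-set with at least `r`
elements each, or such a partition of `U - y`, `y` in neither closure) distributes a demand over
sets `D` with `r - 2` elements, `Z ∩ cl X ⊆ D ⊆ Z`.  The load of `D` is bounded with the LYM
inequality inside `cl D - D`.
-/

set_option autoImplicit false
open Classical

namespace Pool.IS

variable {α : Type*} [DecidableEq α]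

/-- LYM inequality for antichains of subsets of a finset `W` -/
theorem lym (W : Finset α) (F : Finset (Finset α)) (hW : ∀ A ∈ F, A ⊆ W)
    (hF : ∀ A ∈ F, ∀ B ∈ F, A ⊆ B → A = B) :
    ∑ A ∈ F, ((W.card.choose A.card : ℚ))⁻¹ ≤ 1 := by
  have hcard : ∀ A ∈ F, (A.subtype (· ∈ W)).card = A.card := by
    intro A hA
    rw [Finset.card_subtype]
    congr 1
    exact Finset.filter_true_of_mem (fun x hx => hW A hA hx)
  have hinj : ∀ A ∈ F, ∀ B ∈ F, A.subtype (· ∈ W) ⊆ B.subtype (· ∈ W) → A ⊆ B := by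
    intro A hA B hB hAB x hx
    have h1 : (⟨x, hW A hA hx⟩ : {y // y ∈ W}) ∈ A.subtype (· ∈ W) := by
      rw [Finset.mem_subtype]; exact hx
    have h2 := hAB h1
    rw [Finset.mem_subtype] at h2
    exact h2
  have hinj' : Set.InjOn (fun A : Finset α => A.subtype (· ∈ W)) (F : Set (Finset α)) := by
    intro A hA B hB hAB
    simp only at hAB
    exact hF A hA B hB (hinj A hA B hB (by rw [hAB]))
  have key := Finset.lubell_yamamoto_meshalkin_inequality_sum_inv_choose (𝕜 := ℚ)
    (𝒜 := F.image (fun A => A.subtype (· ∈ W))) (by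
      intro A hA B hB hne hAB
      rw [Finset.mem_coe, Finset.mem_image] at hA hB
      obtain ⟨A, hA, rfl⟩ := hA
      obtain ⟨B, hB, rfl⟩ := hB
      apply hne
      rw [hF A hA B hB (hinj A hA B hB hAB)])
  rw [Finset.sum_image hinj'] at key
  refine le_trans (le_of_eq ?_) key
  apply Finset.sum_congr rfl
  intro A hA
  rw [hcard A hA, Fintype.card_coe]

variable {r : ℕ} {U : Finset α} {a b g : Finset α → Prop}

/-- closure in `U` -/
noncomputable def cl (U : Finset α) (a : Finset α → Prop) (X : Finset α) : Finset α :=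
  U.filter (fun y => a (insert y X))

theorem cl_sub {X : Finset α} : cl U a X ⊆ U := Finset.filter_subset _ _

theorem mem_cl {X : Finset α} {y : α} : y ∈ cl U a X ↔ y ∈ U ∧ a (insert y X) := by
  rw [cl, Finset.mem_filter]

theorem Sys.cl_eq (h : Sys r U a b g) {X H : Finset α} (hE : isE r a g X)
    (hH : H ∈ blk r U a g) (hXH : X ⊆ H) : cl U a X = H := by
  obtain ⟨h1, ⟨h2, h3, h4⟩, h5⟩ := mem_blk.mp hH
  ext y
  rw [mem_cl]
  constructor
  · rintro ⟨hy, hay⟩
    have hs : insert y X ⊆ U := Finset.insert_subset hy (hXH.trans h1)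
    have := h.sub_blk hH hs hay (by
      have : X ⊆ H ∩ insert y X := Finset.subset_inter hXH (Finset.subset_insert _ _)
      have := Finset.card_le_card this
      have := hE.1
      omega)
    exact this (Finset.mem_insert_self _ _)
  · intro hy
    exact ⟨h1 hy, h.am (Finset.insert_subset hy hXH) h1 h3⟩

theorem Sys.cl_blk (h : Sys r U a b g) {X : Finset α} (hX : X ⊆ U) (hE : isE r a g X) :
    cl U a X ∈ blk r U a g := by
  obtain ⟨H, hH, hXH⟩ := h.exists_blk hX hE
  rw [h.cl_eq hE hH hXH]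
  exact hH

theorem sub_cl {X : Finset α} (hX : X ⊆ U) (hE : isE r a g X) : X ⊆ cl U a X := by
  intro x hx
  rw [mem_cl, Finset.insert_eq_of_mem hx]
  exact ⟨hX hx, hE.2.1⟩

/-- sources -/
structure Src (r : ℕ) (U : Finset α) (a b g : Finset α → Prop) (X Z : Finset α) : Prop where
  hX : X ⊆ U
  hZ : Z ⊆ U
  dj : Disjoint X Z
  eX : isE r a g X
  eZ : isE r b g Z
  na : ∀ y ∈ U, y ∉ X → y ∉ Z → ¬ a (insert y X)
  nb : ∀ y ∈ U, y ∉ X → y ∉ Z → ¬ b (insert y Z)
  c1 : (U \ (X ∪ Z)).card ≤ 1
  c0 : X ∪ Z = U → r ≤ X.card ∧ r ≤ Z.card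

theorem Src.symm {X Z : Finset α} (s : Src r U a b g X Z) : Src r U b a g Z X where
  hX := s.hZ
  hZ := s.hX
  dj := s.dj.symm
  eX := s.eZ
  eZ := s.eX
  na := fun y h1 h2 h3 => s.nb y h1 h3 h2
  nb := fun y h1 h2 h3 => s.na y h1 h3 h2
  c1 := by rw [Finset.union_comm]; exact s.c1
  c0 := fun h => (s.c0 (by rw [Finset.union_comm]; exact h)).symm

/-- twice the demand of the source on the `E`-side -/
noncomputable def dem (r : ℕ) (U : Finset α) (a b : Finset α → Prop) (X Z : Finset α) : ℕ :=
  if X ∪ Z = U then (r - 2 - (Z ∩ cl U a X).card) + 1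
  else if X.card + 1 = r then (if (X ∩ cl U b Z).card + 2 = r then 1 else 0)
  else if Z.card + 1 = r then (if (Z ∩ cl U a X).card + 2 = r then 1 else 2)
  else 1

namespace Src

variable {X Z : Finset α}

theorem XH (s : Src r U a b g X Z) : X ⊆ cl U a X := sub_cl s.hX s.eX

theorem ZK (s : Src r U a b g X Z) : Z ⊆ cl U b Z := s.symm.XH

theorem HZ (s : Src r U a b g X Z) : cl U a X ⊆ X ∪ Z := by
  intro y hy
  rw [mem_cl] at hy
  by_contra hc
  rw [Finset.mem_union, not_or] at hc
  exact s.na y hy.1 hc.1 hc.2 hy.2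

theorem KX (s : Src r U a b g X Z) : cl U b Z ⊆ X ∪ Z := by
  rw [Finset.union_comm]; exact s.symm.HZ

/-- `K = (X ∩ K) ∪ Z` -/
theorem K_eq (s : Src r U a b g X Z) : cl U b Z = (X ∩ cl U b Z) ∪ Z := by
  ext y
  simp only [Finset.mem_union, Finset.mem_inter]
  constructor
  · intro hy
    have := s.KX hy
    rw [Finset.mem_union] at this
    rcases this with h1 | h1
    · exact Or.inl ⟨h1, hy⟩
    · exact Or.inr h1
  · rintro (h1 | h1)
    · exact h1.2
    · exact s.ZK h1

theorem HK (s : Src r U a b g X Z) (h : Sys r U a b g) :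
    (cl U a X ∩ cl U b Z).card + 2 ≤ r := by
  have hH := h.cl_blk s.hX s.eX
  have hK := h.symm.cl_blk s.hZ s.eZ
  exact h.blk_b hH cl_sub (mem_blk.mp hK).2.1.2.1

/-- `a + b ≤ r - 2` -/
theorem ab_le (s : Src r U a b g X Z) (h : Sys r U a b g) :
    (X ∩ cl U b Z).card + (Z ∩ cl U a X).card + 2 ≤ r := by
  have h1 := s.HK h
  have h2 : (X ∩ cl U b Z) ∪ (Z ∩ cl U a X) ⊆ cl U a X ∩ cl U b Z := by
    intro y
    simp only [Finset.mem_union, Finset.mem_inter]
    rintro (⟨h3, h4⟩ | ⟨h3, h4⟩)
    · exact ⟨s.XH h3, h4⟩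
    · exact ⟨h4, s.ZK h3⟩
  have h3 : Disjoint (X ∩ cl U b Z) (Z ∩ cl U a X) :=
    s.dj.mono Finset.inter_subset_left Finset.inter_subset_left
  have h4 := Finset.card_le_card h2
  rw [Finset.card_union_of_disjoint h3] at h4
  omega

theorem card_U (s : Src r U a b g X Z) :
    X.card + Z.card + (U \ (X ∪ Z)).card = U.card := by
  rw [← Finset.card_union_of_disjoint s.dj]
  have := Finset.card_sdiff_add_card_eq_card (Finset.union_subset s.hX s.hZ)
  omega

theorem card_del (s : Src r U a b g X Z) (hne : X ∪ Z ≠ U) : (U \ (X ∪ Z)).card = 1 := by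
  have h1 := s.c1
  have h2 : (U \ (X ∪ Z)).card ≠ 0 := by
    rw [Ne, Finset.card_eq_zero, Finset.sdiff_eq_empty_iff_subset]
    intro hc
    exact hne (Finset.Subset.antisymm (Finset.union_subset s.hX s.hZ) hc)
  omega

theorem card_del0 (hne : X ∪ Z = U) : (U \ (X ∪ Z)).card = 0 := by
  rw [hne]; simp

end Src

/-- candidates on the `E`-side: complements of the sets `V` -/
noncomputable def cand (r : ℕ) (U : Finset α) (a : Finset α → Prop) (X Z : Finset α) :
    Finset (Finset α) :=
  ((Z \ cl U a X).powersetCard (r - 2 - (Z ∩ cl U a X).card)).image (fun T => T ∪ (Z ∩ cl U a X))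

theorem mem_cand {X Z D : Finset α} (hb : (Z ∩ cl U a X).card + 2 ≤ r) :
    D ∈ cand r U a X Z ↔ Z ∩ cl U a X ⊆ D ∧ D ⊆ Z ∧ D.card + 2 = r := by
  rw [cand, Finset.mem_image]
  constructor
  · rintro ⟨T, hT, rfl⟩
    rw [Finset.mem_powersetCard] at hT
    refine ⟨Finset.subset_union_right, ?_, ?_⟩
    · exact Finset.union_subset (hT.1.trans Finset.sdiff_subset) Finset.inter_subset_left
    · rw [Finset.card_union_of_disjoint]
      · omega
      · rw [Finset.disjoint_left]
        intro x hx hx'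
        have := hT.1 hx
        rw [Finset.mem_sdiff] at this
        rw [Finset.mem_inter] at hx'
        exact this.2 hx'.2
  · rintro ⟨h1, h2, h3⟩
    refine ⟨D \ (Z ∩ cl U a X), ?_, ?_⟩
    · rw [Finset.mem_powersetCard]
      constructor
      · intro x hx
        rw [Finset.mem_sdiff, Finset.mem_inter] at hx
        rw [Finset.mem_sdiff]
        exact ⟨h2 hx.1, fun hh => hx.2 ⟨h2 hx.1, hh⟩⟩
      · rw [Finset.card_sdiff_of_subset h1]
        omega
    · exact Finset.sdiff_union_of_subset h1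

theorem card_cand {X Z : Finset α} :
    (cand r U a X Z).card = (Z \ cl U a X).card.choose (r - 2 - (Z ∩ cl U a X).card) := by
  rw [cand, Finset.card_image_of_injOn, Finset.card_powersetCard]
  intro T hT T' hT' he
  rw [Finset.mem_coe, Finset.mem_powersetCard] at hT hT'
  simp only at he
  have key : ∀ S S' : Finset α, S ⊆ Z \ cl U a X →
      S ∪ (Z ∩ cl U a X) = S' ∪ (Z ∩ cl U a X) → S ⊆ S' := by
    intro S S' hS h x hx
    have h1 : x ∈ S' ∪ (Z ∩ cl U a X) := by
      rw [← h]; exact Finset.mem_union_left _ hx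
    rw [Finset.mem_union, Finset.mem_inter] at h1
    rcases h1 with h1 | h1
    · exact h1
    · exact absurd h1.2 (Finset.mem_sdiff.mp (hS hx)).2
  exact Finset.Subset.antisymm (key _ _ hT.1 he) (key _ _ hT'.1 he.symm)

namespace Src

variable {X Z D : Finset α}

theorem b_le (s : Src r U a b g X Z) (h : Sys r U a b g) :
    (Z ∩ cl U a X).card + 2 ≤ r := by
  have := s.ab_le h
  omega

theorem a_le (s : Src r U a b g X Z) (h : Sys r U a b g) :
    (X ∩ cl U b Z).card + 2 ≤ r := by
  have := s.ab_le h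
  omega

/-- elements outside `H` in `V = U - D` -/
theorem out_card (s : Src r U a b g X Z) (hD1 : Z ∩ cl U a X ⊆ D) (hD2 : D ⊆ Z)
    (hD3 : D.card + 2 = r) : 2 ≤ ((U \ D) \ cl U a X).card := by
  have h1 : (U \ (X ∪ Z)) ∪ (Z \ D) ⊆ (U \ D) \ cl U a X := by
    intro y
    simp only [Finset.mem_union, Finset.mem_sdiff, not_or]
    rintro (⟨h1, h2, h3⟩ | ⟨h1, h2⟩)
    · refine ⟨⟨h1, fun h => h3 (hD2 h)⟩, fun h => ?_⟩
      have := s.HZ h
      rw [Finset.mem_union] at this
      tauto
    · refine ⟨⟨s.hZ h1, h2⟩, fun h => h2 (hD1 (Finset.mem_inter.mpr ⟨h1, h⟩))⟩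
  have h2 : Disjoint (U \ (X ∪ Z)) (Z \ D) := by
    rw [Finset.disjoint_left]
    intro y hy hy'
    simp only [Finset.mem_union, Finset.mem_sdiff, not_or] at hy hy'
    exact hy.2.2 hy'.1
  have h3 := Finset.card_le_card h1
  rw [Finset.card_union_of_disjoint h2, Finset.card_sdiff_of_subset hD2] at h3
  have h4 := s.eZ.1
  by_cases hc : X ∪ Z = U
  · have := (s.c0 hc).2
    omega
  · have := s.card_del hc
    omega

theorem good (s : Src r U a b g X Z) (h : Sys r U a b g)
    (hd : r ≤ X.card ∨ (X ∩ cl U b Z).card + 2 = r) (hD1 : Z ∩ cl U a X ⊆ D) (hD2 : D ⊆ Z)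
    (hD3 : D.card + 2 = r) : gd r U a b g (U \ D) := by
  have hH := h.cl_blk s.hX s.eX
  have hK := h.symm.cl_blk s.hZ s.eZ
  have hDU : D ⊆ U := hD2.trans s.hZ
  have hDK : D ⊆ cl U b Z := hD2.trans s.ZK
  have hUD : U \ (U \ D) = D := Finset.sdiff_sdiff_eq_self hDU
  have hXV : X ⊆ U \ D := by
    intro x hx
    rw [Finset.mem_sdiff]
    exact ⟨s.hX hx, fun hh => (Finset.disjoint_left.mp s.dj) hx (hD2 hh)⟩
  have hout := s.out_card hD1 hD2 hD3
  have hX1 := s.eX.1
  refine ⟨?_, ?_, ?_⟩
  · rw [hUD]; exact hD3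
  · rw [hUD]
    intro hg
    have := h.symm.blk_g hK hDU hg
    rw [Finset.inter_eq_right.mpr hDK] at this
    omega
  · intro v hv
    have hSU : (U \ D).erase v ⊆ U := (Finset.erase_subset _ _).trans Finset.sdiff_subset
    have hXe : X.erase v ⊆ cl U a X ∩ (U \ D).erase v := by
      intro x hx
      rw [Finset.mem_erase] at hx
      rw [Finset.mem_inter, Finset.mem_erase]
      exact ⟨s.XH hx.2, hx.1, hXV hx.2⟩
    have hXc := Finset.card_le_card hXe
    have hXc' := Finset.pred_card_le_card_erase (s := X) (a := v)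
    constructor
    · intro hav
      have h1 := h.sub_blk hH hSU hav (by omega)
      have h2 : (U \ D) \ cl U a X ⊆ {v} := by
        intro y hy
        rw [Finset.mem_sdiff] at hy
        rw [Finset.mem_singleton]
        by_contra hyv
        exact hy.2 (h1 (Finset.mem_erase.mpr ⟨hyv, hy.1⟩))
      have := Finset.card_le_card h2
      rw [Finset.card_singleton] at this
      omega
    · intro hbv
      rcases hd with hd | hd
      · have := h.blk_b hH hSU hbv
        omega
      · by_cases hd' : r ≤ X.card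
        · have := h.blk_b hH hSU hbv
          omega
        · push Not at hd'
          -- `|X| = r - 1`, `|X ∩ K| = r - 2`
          have hne : X ∪ Z ≠ U := fun hc => by
            have := (s.c0 hc).1
            omega
          have hdel := s.card_del hne
          have h1 : ((X ∩ cl U b Z) ∪ (Z \ D)).erase v ⊆ cl U b Z ∩ (U \ D).erase v := by
            intro y
            simp only [Finset.mem_erase, Finset.mem_union, Finset.mem_inter, Finset.mem_sdiff]
            rintro ⟨hyv, (⟨hy1, hy2⟩ | ⟨hy1, hy2⟩)⟩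
            · exact ⟨hy2, hyv, Finset.mem_sdiff.mp (hXV hy1)⟩
            · exact ⟨s.ZK hy1, hyv, s.hZ hy1, hy2⟩
          have h2 : Disjoint (X ∩ cl U b Z) (Z \ D) :=
            s.dj.mono Finset.inter_subset_left Finset.sdiff_subset
          have h3 := Finset.card_le_card h1
          have h4 := Finset.pred_card_le_card_erase (s := (X ∩ cl U b Z) ∪ (Z \ D)) (a := v)
          rw [Finset.card_union_of_disjoint h2, Finset.card_sdiff_of_subset hD2] at h4
          have hZ1 := s.eZ.1
          have h5 := h.symm.sub_blk hK hSU hbv (by omega)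
          have h6 : (U \ (X ∪ Z)) ∪ (X \ cl U b Z) ⊆ {v} := by
            intro y hy
            rw [Finset.mem_singleton]
            by_contra hyv
            have hyK : y ∉ cl U b Z := by
              intro hh
              rw [Finset.mem_union, Finset.mem_sdiff, Finset.mem_sdiff] at hy
              rcases hy with hy | hy
              · exact hy.2 (s.KX hh)
              · exact hy.2 hh
            apply hyK
            apply h5
            rw [Finset.mem_erase]
            refine ⟨hyv, ?_⟩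
            rw [Finset.mem_union, Finset.mem_sdiff, Finset.mem_sdiff] at hy
            rcases hy with hy | hy
            · rw [Finset.mem_sdiff]
              exact ⟨hy.1, fun hh => hy.2 (Finset.mem_union_right _ (hD2 hh))⟩
            · exact hXV hy.1
          have h7 : Disjoint (U \ (X ∪ Z)) (X \ cl U b Z) := by
            rw [Finset.disjoint_left]
            intro y hy hy'
            rw [Finset.mem_sdiff] at hy hy'
            exact hy.2 (Finset.mem_union_left _ hy'.1)
          have h8 := Finset.card_le_card h6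
          rw [Finset.card_union_of_disjoint h7, Finset.card_singleton] at h8
          have h9 := Finset.card_sdiff_add_card_inter X (cl U b Z)
          omega

/-- `K` is determined by `D` -/
theorem K_uniq (h : Sys r U a b g) {X' Z' : Finset α} (s : Src r U a b g X Z)
    (s' : Src r U a b g X' Z') (hD2 : D ⊆ Z) (hD2' : D ⊆ Z')
    (hD3 : D.card + 2 = r) : cl U b Z = cl U b Z' := by
  by_contra hne
  have := h.symm.blk_inter (h.symm.cl_blk s.hZ s.eZ) (h.symm.cl_blk s'.hZ s'.eZ) hne
  have h1 : D ⊆ cl U b Z ∩ cl U b Z' :=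
    Finset.subset_inter (hD2.trans s.ZK) (hD2'.trans s'.ZK)
  have := Finset.card_le_card h1
  omega

theorem X_eq (s : Src r U a b g X Z) (hD1 : Z ∩ cl U a X ⊆ D) (hD2 : D ⊆ Z) :
    X = cl U a X \ D := by
  ext y
  rw [Finset.mem_sdiff]
  constructor
  · intro hy
    exact ⟨s.XH hy, fun hh => (Finset.disjoint_left.mp s.dj) hy (hD2 hh)⟩
  · rintro ⟨hy, hy'⟩
    have := s.HZ hy
    rw [Finset.mem_union] at this
    rcases this with h1 | h1
    · exact h1
    · exact absurd (hD1 (Finset.mem_inter.mpr ⟨h1, hy⟩)) hy'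

theorem Z_eq (s : Src r U a b g X Z) : Z = cl U b Z \ X := by
  ext y
  rw [Finset.mem_sdiff]
  constructor
  · intro hy
    exact ⟨s.ZK hy, fun hh => (Finset.disjoint_left.mp s.dj) hh hy⟩
  · rintro ⟨hy, hy'⟩
    have := s.KX hy
    rw [Finset.mem_union] at this
    tauto

/-- different sources at the same `D` have different `E`-blocks -/
theorem H_ne (h : Sys r U a b g) {X' Z' : Finset α} (s : Src r U a b g X Z)
    (s' : Src r U a b g X' Z') (hD1 : Z ∩ cl U a X ⊆ D) (hD1' : Z' ∩ cl U a X' ⊆ D)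
    (hD2 : D ⊆ Z) (hD2' : D ⊆ Z') (hD3 : D.card + 2 = r) (hne : (X, Z) ≠ (X', Z')) :
    (cl U a X ∩ cl U a X').card + 3 ≤ r := by
  apply h.blk_inter (h.cl_blk s.hX s.eX) (h.cl_blk s'.hX s'.eX)
  intro he
  apply hne
  have h1 : X = X' := by
    rw [s.X_eq hD1 hD2, s'.X_eq hD1' hD2', he]
  have h2 : Z = Z' := by
    rw [s.Z_eq, s'.Z_eq, K_uniq h s s' hD2 hD2' hD3, h1]
  rw [h1, h2]

end Src

/-- the sets used in the LYM inequality -/
noncomputable def lset (U : Finset α) (b : Finset α → Prop) (D X Z : Finset α) :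
    Finset (Finset α) :=
  if X ∪ Z = U then (Z \ D).image (fun v => insert v (X ∩ cl U b Z)) else {X ∩ cl U b Z}

namespace Src

variable {X Z D : Finset α}

theorem nb_prop (s : Src r U a b g X Z) (hD2 : D ⊆ Z) {B : Finset α} (hB : B ∈ lset U b D X Z) :
    X ∩ cl U b Z ⊆ B ∧ (B \ (X ∩ cl U b Z)).card + (U \ (X ∪ Z)).card ≤ 1 ∧
      B ⊆ cl U b Z \ D := by
  have hA : X ∩ cl U b Z ⊆ cl U b Z \ D := by
    intro x hx
    rw [Finset.mem_inter] at hx
    rw [Finset.mem_sdiff]
    exact ⟨hx.2, fun hh => (Finset.disjoint_left.mp s.dj) hx.1 (hD2 hh)⟩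
  by_cases hc : X ∪ Z = U
  · rw [lset, if_pos hc, Finset.mem_image] at hB
    obtain ⟨v, hv, rfl⟩ := hB
    refine ⟨Finset.subset_insert _ _, ?_, ?_⟩
    · rw [card_del0 hc]
      have : insert v (X ∩ cl U b Z) \ (X ∩ cl U b Z) ⊆ {v} := by
        intro y hy
        rw [Finset.mem_sdiff, Finset.mem_insert] at hy
        rw [Finset.mem_singleton]
        tauto
      have := Finset.card_le_card this
      rw [Finset.card_singleton] at this
      omega
    · rw [Finset.mem_sdiff] at hv
      apply Finset.insert_subset _ hA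
      rw [Finset.mem_sdiff]
      exact ⟨s.ZK hv.1, hv.2⟩
  · rw [lset, if_neg hc, Finset.mem_singleton] at hB
    subst hB
    refine ⟨Finset.Subset.refl _, ?_, hA⟩
    rw [s.card_del hc]
    simp

theorem anti (h : Sys r U a b g) {X' Z' : Finset α} (s : Src r U a b g X Z)
    (s' : Src r U a b g X' Z') (hD1 : Z ∩ cl U a X ⊆ D) (hD1' : Z' ∩ cl U a X' ⊆ D)
    (hD2 : D ⊆ Z) (hD2' : D ⊆ Z') (hD3 : D.card + 2 = r) (hne : (X, Z) ≠ (X', Z'))
    {B B' : Finset α} (hB : B ∈ lset U b D X Z) (hB' : B' ∈ lset U b D X' Z') : ¬ B ⊆ B' := by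
  intro hBB
  have h1 := H_ne h s s' hD1 hD1' hD2 hD2' hD3 hne
  have h2 := s.nb_prop hD2 hB
  have h3 := s'.nb_prop hD2' hB'
  have hK := K_uniq h s s' hD2 hD2' hD3
  have h4 : X \ X' ⊆ (B' \ (X' ∩ cl U b Z')) ∪ (U \ (X' ∪ Z')) := by
    intro y hy
    rw [Finset.mem_sdiff] at hy
    by_cases hyK : y ∈ cl U b Z
    · apply Finset.mem_union_left
      rw [Finset.mem_sdiff]
      refine ⟨hBB (h2.1 (Finset.mem_inter.mpr ⟨hy.1, hyK⟩)), fun hh => ?_⟩
      rw [Finset.mem_inter] at hh
      exact hy.2 hh.1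
    · apply Finset.mem_union_right
      rw [Finset.mem_sdiff, Finset.mem_union]
      refine ⟨s.hX hy.1, ?_⟩
      rintro (hh | hh)
      · exact hy.2 hh
      · exact hyK (by rw [hK]; exact s'.ZK hh)
  have h5 := Finset.card_le_card h4
  have h6 := Finset.card_union_le (B' \ (X' ∩ cl U b Z')) (U \ (X' ∪ Z'))
  have h7 : X ∩ X' ⊆ cl U a X ∩ cl U a X' := Finset.inter_subset_inter s.XH s'.XH
  have h8 := Finset.card_le_card h7
  have h9 := Finset.card_sdiff_add_card_inter X X'
  have h10 := s.eX.1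
  have h11 := h3.2.1
  omega

/-- `|K - D| = |X ∩ K| + |Z - D|` -/
theorem KD_card (s : Src r U a b g X Z) (hD2 : D ⊆ Z) :
    (cl U b Z \ D).card = (X ∩ cl U b Z).card + (Z \ D).card := by
  have h1 : cl U b Z \ D = (X ∩ cl U b Z) ∪ (Z \ D) := by
    ext y
    simp only [Finset.mem_sdiff, Finset.mem_union, Finset.mem_inter]
    constructor
    · rintro ⟨h1, h2⟩
      have := s.KX h1
      rw [Finset.mem_union] at this
      tauto
    · rintro (⟨h1, h2⟩ | ⟨h1, h2⟩)
      · exact ⟨h2, fun hh => (Finset.disjoint_left.mp s.dj) h1 (hD2 hh)⟩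
      · exact ⟨s.ZK h1, h2⟩
  rw [h1, Finset.card_union_of_disjoint]
  exact s.dj.mono Finset.inter_subset_left Finset.sdiff_subset

/-- `|Z - H| = |Z - D| + (r - 2 - b)` -/
theorem ZH_card (s : Src r U a b g X Z) (h : Sys r U a b g) (hD2 : D ⊆ Z)
    (hD3 : D.card + 2 = r) :
    (Z \ cl U a X).card = (Z \ D).card + (r - 2 - (Z ∩ cl U a X).card) := by
  have h1 := Finset.card_sdiff_add_card_inter Z (cl U a X)
  have h2 := Finset.card_sdiff_of_subset hD2
  have h3 := Finset.card_le_card hD2
  have h4 := s.b_le h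
  omega

/-- sum over the LYM sets -/
theorem nb_sum1 (s : Src r U a b g X Z) (hc : X ∪ Z = U) :
    ∑ B ∈ lset U b D X Z, (((cl U b Z \ D).card.choose B.card : ℚ))⁻¹ =
      (Z \ D).card * (((cl U b Z \ D).card.choose ((X ∩ cl U b Z).card + 1) : ℚ))⁻¹ := by
  have hv : ∀ v ∈ Z \ D, v ∉ X ∩ cl U b Z := by
    intro v hv hh
    rw [Finset.mem_sdiff] at hv
    exact (Finset.disjoint_left.mp s.dj) (Finset.mem_inter.mp hh).1 hv.1
  rw [lset, if_pos hc, Finset.sum_image]
  · rw [Finset.sum_congr rfl (fun v hv' => by rw [Finset.card_insert_of_notMem (hv v hv')]),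
      Finset.sum_const, nsmul_eq_mul]
  · intro v hv1 w hw1 he
    have hv2 := hv v hv1
    have : v ∈ insert w (X ∩ cl U b Z) := by
      simp only at he
      rw [← he]; exact Finset.mem_insert_self _ _
    rw [Finset.mem_insert] at this
    rcases this with h1 | h1
    · exact h1
    · exact absurd h1 hv2

theorem nb_sum2 (hc : X ∪ Z ≠ U) :
    ∑ B ∈ lset U b D X Z, (((cl U b Z \ D).card.choose B.card : ℚ))⁻¹ =
      (((cl U b Z \ D).card.choose ((X ∩ cl U b Z).card) : ℚ))⁻¹ := by
  rw [lset, if_neg hc, Finset.sum_singleton]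

end Src

theorem arith1 {c s t : ℕ} (hc : 1 ≤ c) (hts : t ≤ s) :
    ((s + 1 : ℕ) : ℚ) / ((c + s).choose s : ℕ) ≤ c * (((t + c).choose (t + 1) : ℚ))⁻¹ := by
  obtain ⟨d, rfl⟩ : ∃ d, c = d + 1 := ⟨c - 1, by omega⟩
  have e1 : (d + 1 + s).choose (s + 1) * (s + 1) = (d + 1 + s).choose s * (d + 1) := by
    have := Nat.choose_succ_right_eq (d + 1 + s) s
    rw [this]
    congr 1
    omega
  have e2 : (d + 1 + s).choose (s + 1) = (s + 1 + d).choose d := by
    rw [show d + 1 + s = (s + 1) + d by omega]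
    exact Nat.choose_symm_add
  have e3 : (t + (d + 1)).choose (t + 1) = (t + 1 + d).choose d := by
    rw [show t + (d + 1) = (t + 1) + d by omega]
    exact Nat.choose_symm_add
  have e4 : (t + 1 + d).choose d ≤ (s + 1 + d).choose d := Nat.choose_le_choose d (by omega)
  have p1 : 0 < (t + 1 + d).choose d := Nat.choose_pos (by omega)
  have p2 : 0 < (d + 1 + s).choose s := Nat.choose_pos (by omega)
  rw [e3, ← div_eq_mul_inv, div_le_div_iff₀ (by exact_mod_cast p2) (by exact_mod_cast p1)]
  have e5 : (s + 1) * (t + 1 + d).choose d ≤ (d + 1) * (d + 1 + s).choose s := by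
    calc (s + 1) * (t + 1 + d).choose d ≤ (s + 1) * (s + 1 + d).choose d :=
          Nat.mul_le_mul_left _ e4
      _ = (d + 1) * (d + 1 + s).choose s := by rw [← e2]; linarith
  exact_mod_cast e5

theorem arith2 {c s t : ℕ} (hts : t ≤ s) :
    ((1 : ℕ) : ℚ) / ((c + s).choose s : ℕ) ≤ (((t + c).choose t : ℚ))⁻¹ := by
  have e1 : (c + s).choose s = (s + c).choose c := by
    rw [Nat.add_comm c s]; exact Nat.choose_symm_add
  have e2 : (t + c).choose t = (t + c).choose c := Nat.choose_symm_add
  have e4 : (t + c).choose c ≤ (s + c).choose c := Nat.choose_le_choose c (by omega)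
  have p1 : 0 < (t + c).choose c := Nat.choose_pos (by omega)
  rw [e1, e2, Nat.cast_one, one_div]
  exact inv_anti₀ (by exact_mod_cast p1) (by exact_mod_cast e4)

namespace Src

variable {X Z D : Finset α}

theorem dem_le (s : Src r U a b g X Z) (h : Sys r U a b g) (hD2 : D ⊆ Z)
    (hD3 : D.card + 2 = r) (hd : X ∪ Z = U ∨ dem r U a b X Z ≤ 1) :
    (dem r U a b X Z : ℚ) / ((cand r U a X Z).card : ℚ) ≤
      ∑ B ∈ lset U b D X Z, (((cl U b Z \ D).card.choose B.card : ℚ))⁻¹ := by
  have hab := s.ab_le h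
  have hc1 := s.ZH_card h hD2 hD3
  have hc2 := s.KD_card hD2
  rw [card_cand, hc1]
  by_cases hc : X ∪ Z = U
  · rw [s.nb_sum1 hc, hc2, dem, if_pos hc]
    apply arith1
    · have := (s.c0 hc).2
      have h3 := Finset.card_sdiff_of_subset hD2
      omega
    · omega
  · rw [nb_sum2 hc, hc2]
    have hd' : dem r U a b X Z ≤ 1 := by tauto
    refine le_trans ?_ (arith2 (c := (Z \ D).card) (s := r - 2 - (Z ∩ cl U a X).card) (by omega))
    have p2 : 0 < ((Z \ D).card + (r - 2 - (Z ∩ cl U a X).card)).choose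
        (r - 2 - (Z ∩ cl U a X).card) := Nat.choose_pos (by omega)
    apply div_le_div_of_nonneg_right
    · exact_mod_cast hd'
    · positivity

end Src

/-- sources with positive demand -/
noncomputable def srcs (r : ℕ) (U : Finset α) (a b g : Finset α → Prop) :
    Finset (Finset α × Finset α) :=
  (U.powerset ×ˢ U.powerset).filter (fun p => Src r U a b g p.1 p.2 ∧ 0 < dem r U a b p.1 p.2)

theorem mem_srcs {p : Finset α × Finset α} : p ∈ srcs r U a b g ↔
    Src r U a b g p.1 p.2 ∧ 0 < dem r U a b p.1 p.2 := by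
  rw [srcs, Finset.mem_filter, Finset.mem_product, Finset.mem_powerset, Finset.mem_powerset]
  constructor
  · exact fun h => h.2
  · exact fun h => ⟨⟨h.1.hX, h.1.hZ⟩, h⟩

theorem dem_pos {X Z : Finset α} (s : Src r U a b g X Z) (h : 0 < dem r U a b X Z) :
    r ≤ X.card ∨ (X ∩ cl U b Z).card + 2 = r := by
  by_cases hc : X ∪ Z = U
  · exact Or.inl (s.c0 hc).1
  · rw [dem, if_neg hc] at h
    by_cases h1 : X.card + 1 = r
    · rw [if_pos h1] at h
      by_cases h2 : (X ∩ cl U b Z).card + 2 = r
      · exact Or.inr h2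
      · rw [if_neg h2] at h
        omega
    · left
      have := s.eX.1
      omega

theorem load_le (h : Sys r U a b g) {D : Finset α} (hD3 : D.card + 2 = r) :
    ∑ p ∈ (srcs r U a b g).filter (fun p => D ∈ cand r U a p.1 p.2),
      (dem r U a b p.1 p.2 : ℚ) / ((cand r U a p.1 p.2).card : ℚ) ≤ 1 := by
  set S := (srcs r U a b g).filter (fun p => D ∈ cand r U a p.1 p.2) with hS
  have memS : ∀ p ∈ S, Src r U a b g p.1 p.2 ∧ 0 < dem r U a b p.1 p.2 ∧
      p.2 ∩ cl U a p.1 ⊆ D ∧ D ⊆ p.2 := by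
    intro p hp
    rw [hS, Finset.mem_filter, mem_srcs] at hp
    have := (mem_cand (hp.1.1.b_le h)).mp hp.2
    exact ⟨hp.1.1, hp.1.2, this.1, this.2.1⟩
  by_cases hex : ∃ p ∈ S, ¬ (p.1 ∪ p.2 = U ∨ dem r U a b p.1 p.2 ≤ 1)
  · obtain ⟨⟨X, Z⟩, hp, hnd⟩ := hex
    obtain ⟨s, hpos, hD1, hD2⟩ := memS _ hp
    simp only at s hpos hD1 hD2 hnd
    rw [not_or] at hnd
    obtain ⟨hc, hd⟩ := hnd
    push Not at hd
    -- analyse the demand
    have hX1 : X.card + 1 ≠ r := by
      intro h1
      rw [dem, if_neg hc, if_pos h1] at hd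
      split_ifs at hd <;> omega
    have hZ1 : Z.card + 1 = r := by
      by_contra h1
      rw [dem, if_neg hc, if_neg hX1, if_neg h1] at hd
      omega
    have hb1 : (Z ∩ cl U a X).card + 2 ≠ r := by
      intro h1
      rw [dem, if_neg hc, if_neg hX1, if_pos hZ1, if_pos h1] at hd
      omega
    have hdem : dem r U a b X Z = 2 := by
      rw [dem, if_neg hc, if_neg hX1, if_pos hZ1, if_neg hb1]
    have hXr : r ≤ X.card := by
      have := s.eX.1
      omega
    have hZD : (Z \ D).card = 1 := by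
      rw [Finset.card_sdiff_of_subset hD2]
      omega
    have hdel := s.card_del hc
    have hab := s.ab_le h
    have huniq : S = {(X, Z)} := by
      apply Finset.eq_singleton_iff_unique_mem.mpr
      refine ⟨hp, ?_⟩
      rintro ⟨X', Z'⟩ hp'
      by_contra hne
      obtain ⟨s', hpos', hD1', hD2'⟩ := memS _ hp'
      simp only at s' hpos' hD1' hD2'
      have hHH := Src.H_ne h s s' hD1 hD1' hD2 hD2' hD3 (Ne.symm hne)
      have hK := Src.K_uniq h s s' hD2 hD2' hD3
      have hab' := s'.ab_le h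
      -- `|X'| ≤ r - 1`
      have h1 : X' \ X ⊆ (U \ (X ∪ Z)) ∪ (Z \ D) := by
        intro y hy
        rw [Finset.mem_sdiff] at hy
        rw [Finset.mem_union, Finset.mem_sdiff, Finset.mem_union, Finset.mem_sdiff]
        by_cases hyZ : y ∈ Z
        · right
          exact ⟨hyZ, fun hh => (Finset.disjoint_left.mp s'.dj) hy.1 (hD2' hh)⟩
        · left
          exact ⟨s'.hX hy.1, by tauto⟩
      have h2 := Finset.card_le_card h1
      have h3 := Finset.card_union_le (U \ (X ∪ Z)) (Z \ D)
      have h4 := Finset.card_sdiff_add_card_inter X' X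
      have h5 : X' ∩ X ⊆ cl U a X ∩ cl U a X' := by
        intro y hy
        rw [Finset.mem_inter] at hy
        exact Finset.mem_inter.mpr ⟨s.XH hy.2, s'.XH hy.1⟩
      have h6 := Finset.card_le_card h5
      have hX'1 : X'.card < r := by omega
      have hc' : X' ∪ Z' ≠ U := fun hh => by
        have := (s'.c0 hh).1
        omega
      have ha' : (X' ∩ cl U b Z').card + 2 = r := by
        rcases dem_pos s' hpos' with h7 | h7
        · omega
        · exact h7
      have hdel' := s'.card_del hc'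
      -- `|U - K|` computed in two ways
      have e1 : ∀ (Y T : Finset α), Src r U a b g Y T → (U \ cl U b T).card =
          (U \ (Y ∪ T)).card + (Y \ cl U b T).card := by
        intro Y T t
        rw [← Finset.card_union_of_disjoint]
        · congr 1
          ext y
          simp only [Finset.mem_sdiff, Finset.mem_union, not_or]
          constructor
          · rintro ⟨h1, h2⟩
            by_cases hY : y ∈ Y
            · exact Or.inr ⟨hY, h2⟩
            · exact Or.inl ⟨h1, hY, fun hh => h2 (t.ZK hh)⟩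
          · rintro (⟨h1, h2, h3⟩ | ⟨h1, h2⟩)
            · refine ⟨h1, fun hh => ?_⟩
              have := t.KX hh
              rw [Finset.mem_union] at this
              tauto
            · exact ⟨t.hX h1, h2⟩
        · rw [Finset.disjoint_left]
          intro y hy hy'
          rw [Finset.mem_sdiff] at hy hy'
          exact hy.2 (Finset.mem_union_left _ hy'.1)
      have e2 := e1 X Z s
      have e3 := e1 X' Z' s'
      rw [← hK] at e3 ha'
      have e4 := Finset.card_sdiff_add_card_inter X (cl U b Z)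
      have e5 := Finset.card_sdiff_add_card_inter X' (cl U b Z)
      omega
    rw [huniq, Finset.sum_singleton]
    simp only
    rw [hdem, card_cand, s.ZH_card h hD2 hD3, hZD]
    have e1 : (1 + (r - 2 - (Z ∩ cl U a X).card)).choose (r - 2 - (Z ∩ cl U a X).card) =
        1 + (r - 2 - (Z ∩ cl U a X).card) := by
      rw [Nat.choose_symm_add.symm, Nat.choose_one_right]
    rw [e1, div_le_one (by positivity)]
    have : 2 ≤ 1 + (r - 2 - (Z ∩ cl U a X).card) := by omega
    exact_mod_cast this
  · push Not at hex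
    rcases S.eq_empty_or_nonempty with he | ⟨p0, hp0⟩
    · rw [he, Finset.sum_empty]
      norm_num
    · obtain ⟨s0, hpos0, hD10, hD20⟩ := memS _ hp0
      set W := cl U b p0.2 \ D with hW
      have hWp : ∀ p ∈ S, cl U b p.2 \ D = W := by
        intro p hp
        obtain ⟨s, hpos, hD1, hD2⟩ := memS _ hp
        rw [hW, Src.K_uniq h s s0 hD2 hD20 hD3]
      calc ∑ p ∈ S, (dem r U a b p.1 p.2 : ℚ) / ((cand r U a p.1 p.2).card : ℚ)
          ≤ ∑ p ∈ S, ∑ B ∈ lset U b D p.1 p.2, ((W.card.choose B.card : ℚ))⁻¹ := by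
            apply Finset.sum_le_sum
            intro p hp
            obtain ⟨s, hpos, hD1, hD2⟩ := memS _ hp
            rw [← hWp p hp]
            apply s.dem_le h hD2 hD3
            exact hex p hp
        _ = ∑ B ∈ S.biUnion (fun p => lset U b D p.1 p.2), ((W.card.choose B.card : ℚ))⁻¹ := by
            rw [Finset.sum_biUnion]
            intro p hp q hq hne
            rw [Function.onFun, Finset.disjoint_left]
            intro B hB hB'
            obtain ⟨s, hpos, hD1, hD2⟩ := memS _ hp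
            obtain ⟨s', hpos', hD1', hD2'⟩ := memS _ hq
            exact Src.anti h s s' hD1 hD1' hD2 hD2' hD3 hne hB hB' (Finset.Subset.refl _)
        _ ≤ 1 := by
            apply lym
            · intro B hB
              rw [Finset.mem_biUnion] at hB
              obtain ⟨p, hp, hB⟩ := hB
              obtain ⟨s, hpos, hD1, hD2⟩ := memS _ hp
              rw [← hWp p hp]
              exact (s.nb_prop hD2 hB).2.2
            · intro B hB B' hB' hBB
              rw [Finset.mem_biUnion] at hB hB'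
              obtain ⟨p, hp, hB⟩ := hB
              obtain ⟨q, hq, hB'⟩ := hB'
              obtain ⟨s, hpos, hD1, hD2⟩ := memS _ hp
              obtain ⟨s', hpos', hD1', hD2'⟩ := memS _ hq
              by_cases hpq : p = q
              · subst hpq
                by_cases hc : p.1 ∪ p.2 = U
                · rw [lset, if_pos hc, Finset.mem_image] at hB hB'
                  obtain ⟨v, hv, rfl⟩ := hB
                  obtain ⟨w, hw, rfl⟩ := hB'
                  rw [Finset.mem_sdiff] at hv
                  have h1 := hBB (Finset.mem_insert_self v _)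
                  rw [Finset.mem_insert, Finset.mem_inter] at h1
                  rcases h1 with h1 | h1
                  · rw [h1]
                  · exact absurd hv.1 ((Finset.disjoint_left.mp s.dj) h1.1)
                · rw [lset, if_neg hc, Finset.mem_singleton] at hB hB'
                  rw [hB, hB']
              · exact absurd hBB (Src.anti h s s' hD1 hD1' hD2 hD2' hD3 hpq hB hB')

/-- complements of the good sets -/
noncomputable def GD (r : ℕ) (U : Finset α) (a b g : Finset α → Prop) : Finset (Finset α) :=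
  U.powerset.filter (fun D => gd r U a b g (U \ D))

theorem card_GD : (GD r U a b g).card = (SG r U a b g).card := by
  apply Finset.card_bij (fun D _ => U \ D)
  · intro D hD
    rw [GD, Finset.mem_filter, Finset.mem_powerset] at hD
    rw [mem_SG]
    exact ⟨Finset.sdiff_subset, hD.2⟩
  · intro D hD D' hD' he
    rw [GD, Finset.mem_filter, Finset.mem_powerset] at hD hD'
    rw [← Finset.sdiff_sdiff_eq_self hD.1, he, Finset.sdiff_sdiff_eq_self hD'.1]
  · intro V hV
    rw [mem_SG] at hV
    refine ⟨U \ V, ?_, Finset.sdiff_sdiff_eq_self hV.1⟩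
    rw [GD, Finset.mem_filter, Finset.mem_powerset, Finset.sdiff_sdiff_eq_self hV.1]
    exact ⟨Finset.sdiff_subset, hV.2⟩

theorem side (h : Sys r U a b g) :
    ∑ p ∈ srcs r U a b g, dem r U a b p.1 p.2 ≤ (SG r U a b g).card := by
  rw [← card_GD]
  have key : (∑ p ∈ srcs r U a b g, (dem r U a b p.1 p.2 : ℚ)) ≤ ((GD r U a b g).card : ℚ) := by
    calc ∑ p ∈ srcs r U a b g, (dem r U a b p.1 p.2 : ℚ)
        = ∑ p ∈ srcs r U a b g, ∑ D ∈ GD r U a b g,
            if D ∈ cand r U a p.1 p.2 then
              (dem r U a b p.1 p.2 : ℚ) / ((cand r U a p.1 p.2).card : ℚ) else 0 := by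
          apply Finset.sum_congr rfl
          intro p hp
          rw [mem_srcs] at hp
          obtain ⟨s, hpos⟩ := hp
          rw [← Finset.sum_filter, Finset.sum_const, nsmul_eq_mul]
          have hf : (GD r U a b g).filter (fun D => D ∈ cand r U a p.1 p.2) =
              cand r U a p.1 p.2 := by
            ext D
            rw [Finset.mem_filter]
            refine ⟨fun hh => hh.2, fun hh => ⟨?_, hh⟩⟩
            obtain ⟨h1, h2, h3⟩ := (mem_cand (s.b_le h)).mp hh
            rw [GD, Finset.mem_filter, Finset.mem_powerset]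
            exact ⟨h2.trans s.hZ, s.good h (dem_pos s hpos) h1 h2 h3⟩
          rw [hf, mul_div_cancel₀]
          have hb := s.b_le h
          have hZ1 := s.eZ.1
          have h1 := Finset.card_sdiff_add_card_inter p.2 (cl U a p.1)
          have : 0 < (cand r U a p.1 p.2).card := by
            rw [card_cand]
            exact Nat.choose_pos (by omega)
          exact_mod_cast this.ne'
      _ = ∑ D ∈ GD r U a b g, ∑ p ∈ (srcs r U a b g).filter (fun p => D ∈ cand r U a p.1 p.2),
            (dem r U a b p.1 p.2 : ℚ) / ((cand r U a p.1 p.2).card : ℚ) := by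
          rw [Finset.sum_comm]
          apply Finset.sum_congr rfl
          intro D _
          rw [Finset.sum_filter]
      _ ≤ ∑ D ∈ GD r U a b g, (1 : ℚ) := by
          apply Finset.sum_le_sum
          intro D hD
          rw [GD, Finset.mem_filter, Finset.mem_powerset] at hD
          apply load_le h
          have := hD.2.1
          rw [Finset.sdiff_sdiff_eq_self hD.1] at this
          exact this
      _ = ((GD r U a b g).card : ℚ) := by rw [Finset.sum_const, nsmul_eq_mul, mul_one]
  exact_mod_cast key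

/-- all sources -/
noncomputable def allS (r : ℕ) (U : Finset α) (a b g : Finset α → Prop) :
    Finset (Finset α × Finset α) :=
  (U.powerset ×ˢ U.powerset).filter (fun p => Src r U a b g p.1 p.2)

theorem mem_allS {p : Finset α × Finset α} : p ∈ allS r U a b g ↔ Src r U a b g p.1 p.2 := by
  rw [allS, Finset.mem_filter, Finset.mem_product, Finset.mem_powerset, Finset.mem_powerset]
  constructor
  · exact fun h => h.2
  · exact fun h => ⟨⟨h.hX, h.hZ⟩, h⟩

theorem side1 (h : Sys r U a b g) :
    ∑ p ∈ allS r U a b g, dem r U a b p.1 p.2 ≤ (SG r U a b g).card := by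
  refine le_trans (le_of_eq ?_) (side h)
  symm
  apply Finset.sum_subset
  · intro p hp
    rw [mem_srcs] at hp
    rw [mem_allS]
    exact hp.1
  · intro p hp hp'
    rw [mem_allS] at hp
    rw [mem_srcs, not_and] at hp'
    have := hp' hp
    omega

theorem side2 (h : Sys r U a b g) :
    ∑ p ∈ allS r U a b g, dem r U b a p.2 p.1 ≤ (SG r U a b g).card := by
  have hSG : SG r U b a g = SG r U a b g := by
    ext V
    rw [mem_SG, mem_SG]
    simp only [gd]
    constructor
    · rintro ⟨h1, h2, h3, h4⟩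
      exact ⟨h1, h2, h3, fun v hv => (h4 v hv).symm⟩
    · rintro ⟨h1, h2, h3, h4⟩
      exact ⟨h1, h2, h3, fun v hv => (h4 v hv).symm⟩
  rw [← hSG]
  refine le_trans (le_of_eq ?_) (side1 h.symm)
  apply Finset.sum_bij (fun p _ => (p.2, p.1))
  · intro p hp
    rw [mem_allS] at hp ⊢
    exact hp.symm
  · rintro ⟨X, Z⟩ _ ⟨X', Z'⟩ _ he
    simp only [Prod.mk.injEq] at he ⊢
    exact ⟨he.2, he.1⟩
  · rintro ⟨X, Z⟩ hp
    refine ⟨(Z, X), ?_, rfl⟩
    rw [mem_allS] at hp ⊢
    exact hp.symm
  · intro p _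
    rfl

theorem dem_two {X Z : Finset α} (s : Src r U a b g X Z) (hU : 2 * r ≤ U.card)
    (hc : X ∪ Z ≠ U) : dem r U a b X Z + dem r U b a Z X = 2 := by
  have hc' : Z ∪ X ≠ U := by rwa [Finset.union_comm]
  have h1 := s.card_U
  have h2 := s.card_del hc
  by_cases hx : X.card + 1 = r
  · have hz : Z.card + 1 ≠ r := by omega
    rw [dem, dem, if_neg hc, if_neg hc', if_pos hx, if_neg hz, if_pos hx]
    split_ifs <;> rfl
  · by_cases hz : Z.card + 1 = r
    · rw [dem, dem, if_neg hc, if_neg hc', if_neg hx, if_pos hz, if_pos hz]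
      split_ifs <;> rfl
    · rw [dem, dem, if_neg hc, if_neg hc', if_neg hx, if_neg hz, if_neg hz, if_neg hx]

theorem dem_zero {X Z : Finset α} (s : Src r U a b g X Z) (h : Sys r U a b g)
    (hc : X ∪ Z = U) : dem r U a b X Z + dem r U b a Z X +
      ((X ∩ cl U b Z).card + (Z ∩ cl U a X).card) = 2 * (r - 1) := by
  have hc' : Z ∪ X = U := by rwa [Finset.union_comm]
  have hab := s.ab_le h
  rw [dem, dem, if_pos hc, if_pos hc']
  omega

/-- the splits of type `N0` -/
theorem card_allS_N0 : ((allS r U a b g).filter (fun p => ¬ p.1 ∪ p.2 = U)).card =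
    (N0 r U a b g).card := by
  symm
  apply Finset.card_bij (fun p _ => (p.1, (U \ p.1).erase p.2))
  · rintro ⟨X, y⟩ hp
    rw [mem_N0] at hp
    obtain ⟨⟨h1, h2⟩, h3, h4, h5, h6, h7⟩ := hp
    simp only at h1 h2 h3 h4 h5 h6 h7 ⊢
    rw [Finset.mem_filter, mem_allS]
    simp only
    have hyU : y ∈ U \ X := Finset.mem_sdiff.mpr ⟨h2, h3⟩
    have hrest : ∀ z ∈ U, z ∉ X → z ∉ (U \ X).erase y → z = y := by
      intro z hz hzX hz'
      rw [Finset.mem_erase, not_and, Finset.mem_sdiff] at hz'
      by_contra hzy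
      exact hz' hzy ⟨hz, hzX⟩
    have hne : X ∪ (U \ X).erase y ≠ U := by
      intro he
      have : y ∈ X ∪ (U \ X).erase y := by rw [he]; exact h2
      rw [Finset.mem_union, Finset.mem_erase] at this
      tauto
    refine ⟨⟨h1, (Finset.erase_subset _ _).trans Finset.sdiff_subset, ?_, h4, h5, ?_, ?_, ?_, ?_⟩,
      hne⟩
    · rw [Finset.disjoint_left]
      intro z hz hz'
      rw [Finset.mem_erase, Finset.mem_sdiff] at hz'
      exact hz'.2.2 hz
    · intro z hz hzX hz'
      rw [hrest z hz hzX hz']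
      exact h6
    · intro z hz hzX hz'
      rw [hrest z hz hzX hz', Finset.insert_erase hyU]
      exact h7
    · have : U \ (X ∪ (U \ X).erase y) ⊆ {y} := by
        intro z hz
        rw [Finset.mem_sdiff, Finset.mem_union, not_or] at hz
        rw [Finset.mem_singleton]
        exact hrest z hz.1 hz.2.1 hz.2.2
      have := Finset.card_le_card this
      rw [Finset.card_singleton] at this
      exact this
    · intro he
      exact absurd he hne
  · rintro ⟨X, y⟩ hp ⟨X', y'⟩ hp' he
    rw [mem_N0] at hp hp'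
    obtain ⟨⟨h1, h2⟩, h3, -⟩ := hp
    obtain ⟨⟨h1', h2'⟩, h3', -⟩ := hp'
    simp only [Prod.mk.injEq] at he h2 h3 h2' h3' ⊢
    obtain ⟨rfl, he⟩ := he
    refine ⟨rfl, ?_⟩
    by_contra hne
    have : y ∈ (U \ X).erase y' :=
      Finset.mem_erase.mpr ⟨hne, Finset.mem_sdiff.mpr ⟨h2, h3⟩⟩
    rw [← he] at this
    exact (Finset.mem_erase.mp this).1 rfl
  · rintro ⟨X, Z⟩ hp
    rw [Finset.mem_filter, mem_allS] at hp
    obtain ⟨s, hc⟩ := hp
    simp only at s hc
    have h1 := s.card_del hc
    rw [Finset.card_eq_one] at h1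
    obtain ⟨y, hy⟩ := h1
    have hy1 : y ∈ U \ (X ∪ Z) := by rw [hy]; exact Finset.mem_singleton_self _
    rw [Finset.mem_sdiff, Finset.mem_union, not_or] at hy1
    obtain ⟨hyU, hyX, hyZ⟩ := hy1
    have hZ : (U \ X).erase y = Z := by
      ext z
      rw [Finset.mem_erase, Finset.mem_sdiff]
      constructor
      · rintro ⟨h1, h2, h3⟩
        by_contra h4
        have : z ∈ U \ (X ∪ Z) := by
          rw [Finset.mem_sdiff, Finset.mem_union]
          tauto
        rw [hy, Finset.mem_singleton] at this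
        exact h1 this
      · intro hz
        exact ⟨fun hh => hyZ (hh ▸ hz), s.hZ hz, fun hh => (Finset.disjoint_left.mp s.dj) hh hz⟩
    refine ⟨(X, y), ?_, ?_⟩
    · rw [mem_N0]
      simp only
      rw [hZ]
      have hUX : U \ X = insert y Z := by
        rw [← hZ, Finset.insert_erase (Finset.mem_sdiff.mpr ⟨hyU, hyX⟩)]
      refine ⟨⟨s.hX, hyU⟩, hyX, s.eX, s.eZ, s.na y hyU hyX hyZ, ?_⟩
      rw [hUX]
      exact s.nb y hyU hyX hyZ
    · simp only
      rw [hZ]

/-- the partitions of type `MM` -/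
theorem card_allS_MM : ((allS r U a b g).filter (fun p => p.1 ∪ p.2 = U)).card =
    (MM r U a b g).card := by
  symm
  apply Finset.card_bij (fun X _ => (X, U \ X))
  · intro X hX
    rw [mem_MM] at hX
    obtain ⟨h1, h2, h3, h4, h5⟩ := hX
    rw [Finset.mem_filter, mem_allS]
    simp only
    have he : X ∪ U \ X = U := Finset.union_sdiff_of_subset h1
    refine ⟨⟨h1, Finset.sdiff_subset, Finset.disjoint_sdiff, h4, h5, ?_, ?_, ?_, fun _ => ⟨h2, h3⟩⟩,
      he⟩
    · intro z hz hzX hz'
      exact absurd (Finset.mem_sdiff.mpr ⟨hz, hzX⟩) hz'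
    · intro z hz hzX hz'
      exact absurd (Finset.mem_sdiff.mpr ⟨hz, hzX⟩) hz'
    · rw [he]; simp
  · intro X _ X' _ he
    simp only [Prod.mk.injEq] at he
    exact he.1
  · rintro ⟨X, Z⟩ hp
    rw [Finset.mem_filter, mem_allS] at hp
    obtain ⟨s, hc⟩ := hp
    simp only at s hc
    have hZ : U \ X = Z := by
      ext z
      rw [Finset.mem_sdiff]
      constructor
      · rintro ⟨h1, h2⟩
        rw [← hc, Finset.mem_union] at h1
        tauto
      · intro hz
        exact ⟨s.hZ hz, fun hh => (Finset.disjoint_left.mp s.dj) hh hz⟩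
    refine ⟨X, ?_, by rw [hZ]⟩
    rw [mem_MM, hZ]
    exact ⟨s.hX, (s.c0 hc).1, (s.c0 hc).2, s.eX, s.eZ⟩

theorem isE_sub (h : Sys r U a b g) {X Y : Finset α} (hX : X ⊆ U) (hE : isE r a g X)
    (hY : Y ⊆ X) (hc : r ≤ Y.card + 1) : isE r a g Y := by
  refine ⟨hc, h.am hY hX hE.2.1, fun hg => ?_⟩
  have := h.blk_g (h.cl_blk hX hE) (hY.trans hX) hg
  rw [Finset.inter_eq_right.mpr (hY.trans (sub_cl hX hE))] at this
  omega

theorem sum_a_le (h : Sys r U a b g) :
    ∑ p ∈ (allS r U a b g).filter (fun p => p.1 ∪ p.2 = U), (p.1 ∩ cl U b p.2).card ≤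
      (N2 r U a b g).card := by
  rw [← Finset.card_sigma]
  apply Finset.card_le_card_of_injOn (fun q => (q.1.1.erase q.2, q.2))
  · rintro ⟨⟨X, Z⟩, v⟩ hq
    rw [Finset.mem_coe, Finset.mem_sigma, Finset.mem_filter, mem_allS] at hq
    obtain ⟨⟨s, hc⟩, hv⟩ := hq
    simp only at s hc hv ⊢
    rw [Finset.mem_inter] at hv
    have hZ : (U \ X.erase v).erase v = Z := by
      ext z
      simp only [Finset.mem_erase, Finset.mem_sdiff]
      constructor
      · rintro ⟨h1, h2, h3⟩
        rw [← hc, Finset.mem_union] at h2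
        tauto
      · intro hz
        refine ⟨fun hh => ?_, s.hZ hz, fun hh => (Finset.disjoint_left.mp s.dj) hh.2 hz⟩
        subst hh
        exact (Finset.disjoint_left.mp s.dj) hv.1 hz
    have hX' : r ≤ (X.erase v).card + 1 := by
      rw [Finset.card_erase_of_mem hv.1]
      have := (s.c0 hc).1
      omega
    rw [Finset.mem_coe, mem_N2]
    simp only
    rw [hZ, Finset.insert_erase hv.1]
    refine ⟨⟨(Finset.erase_subset _ _).trans s.hX, s.hX hv.1⟩, Finset.notMem_erase _ _,
      isE_sub h s.hX s.eX (Finset.erase_subset _ _) hX', s.eZ, s.eX.2.1, ?_⟩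
    have : U \ X.erase v = insert v Z := by
      rw [← hZ, Finset.insert_erase]
      rw [Finset.mem_sdiff]
      exact ⟨s.hX hv.1, Finset.notMem_erase _ _⟩
    rw [this]
    exact (mem_cl.mp hv.2).2
  · rintro ⟨⟨X, Z⟩, v⟩ hq ⟨⟨X', Z'⟩, v'⟩ hq' he
    rw [Finset.mem_coe, Finset.mem_sigma, Finset.mem_filter, mem_allS] at hq hq'
    obtain ⟨⟨s, hc⟩, hv⟩ := hq
    obtain ⟨⟨s', hc'⟩, hv'⟩ := hq'
    simp only [Prod.mk.injEq] at s hc hv s' hc' hv' he
    obtain ⟨he1, rfl⟩ := he
    rw [Finset.mem_inter] at hv hv'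
    have hXX : X = X' := by
      rw [← Finset.insert_erase hv.1, he1, Finset.insert_erase hv'.1]
    subst hXX
    have hZZ : Z = Z' := by
      have e1 : ∀ Y : Finset α, Disjoint X Y → X ∪ Y = U → Y = U \ X := by
        intro Y hY hY'
        rw [← hY', Finset.union_sdiff_left, Finset.sdiff_eq_self_of_disjoint hY.symm]
      rw [e1 Z s.dj hc, e1 Z' s'.dj hc']
    subst hZZ
    rfl

theorem sum_b_le (h : Sys r U a b g) :
    ∑ p ∈ (allS r U a b g).filter (fun p => p.1 ∪ p.2 = U), (p.2 ∩ cl U a p.1).card ≤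
      (N2 r U a b g).card := by
  rw [← Finset.card_sigma]
  apply Finset.card_le_card_of_injOn (fun q => (q.1.1, q.2))
  · rintro ⟨⟨X, Z⟩, v⟩ hq
    rw [Finset.mem_coe, Finset.mem_sigma, Finset.mem_filter, mem_allS] at hq
    obtain ⟨⟨s, hc⟩, hv⟩ := hq
    simp only at s hc hv ⊢
    rw [Finset.mem_inter] at hv
    have hZ : U \ X = Z := by
      rw [← hc, Finset.union_sdiff_left, Finset.sdiff_eq_self_of_disjoint s.dj.symm]
    have hZ' : r ≤ (Z.erase v).card + 1 := by
      rw [Finset.card_erase_of_mem hv.1]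
      have := (s.c0 hc).2
      omega
    rw [Finset.mem_coe, mem_N2]
    simp only
    rw [hZ]
    exact ⟨⟨s.hX, s.hZ hv.1⟩, fun hh => (Finset.disjoint_left.mp s.dj) hh hv.1, s.eX,
      isE_sub h.symm s.hZ s.eZ (Finset.erase_subset _ _) hZ', (mem_cl.mp hv.2).2, s.eZ.2.1⟩
  · rintro ⟨⟨X, Z⟩, v⟩ hq ⟨⟨X', Z'⟩, v'⟩ hq' he
    rw [Finset.mem_coe, Finset.mem_sigma, Finset.mem_filter, mem_allS] at hq hq'
    obtain ⟨⟨s, hc⟩, hv⟩ := hq
    obtain ⟨⟨s', hc'⟩, hv'⟩ := hq'
    simp only [Prod.mk.injEq] at s hc hv s' hc' hv' he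
    obtain ⟨rfl, rfl⟩ := he
    have hZZ : Z = Z' := by
      have e1 : ∀ Y : Finset α, Disjoint X Y → X ∪ Y = U → Y = U \ X := by
        intro Y hY hY'
        rw [← hY', Finset.union_sdiff_left, Finset.sdiff_eq_self_of_disjoint hY.symm]
      rw [e1 Z s.dj hc, e1 Z' s'.dj hc']
    subst hZZ
    rfl

/-- **the key counting inequality for `|U| ≥ 2 r`** -/
theorem key2 (h : Sys r U a b g) (hU : 2 * r ≤ U.card) : KEY r U a b g := by
  have h1 := side1 h
  have h2 := side2 h
  have h3 := sum_a_le h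
  have h4 := sum_b_le h
  rw [← Finset.sum_filter_add_sum_filter_not (allS r U a b g) (fun p => p.1 ∪ p.2 = U)] at h1 h2
  have h5 : ∑ p ∈ (allS r U a b g).filter (fun p => ¬ p.1 ∪ p.2 = U),
      (dem r U a b p.1 p.2 + dem r U b a p.2 p.1) = 2 * (N0 r U a b g).card := by
    rw [← card_allS_N0, Finset.sum_congr rfl (g := fun _ => 2), Finset.sum_const, smul_eq_mul,
      Nat.mul_comm]
    intro p hp
    rw [Finset.mem_filter, mem_allS] at hp
    exact dem_two hp.1 hU hp.2
  have h6 : ∑ p ∈ (allS r U a b g).filter (fun p => p.1 ∪ p.2 = U),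
      (dem r U a b p.1 p.2 + dem r U b a p.2 p.1 +
        ((p.1 ∩ cl U b p.2).card + (p.2 ∩ cl U a p.1).card)) =
        2 * ((r - 1) * (MM r U a b g).card) := by
    rw [← card_allS_MM, Finset.sum_congr rfl (g := fun _ => 2 * (r - 1)), Finset.sum_const,
      smul_eq_mul]
    · ring
    · intro p hp
      rw [Finset.mem_filter, mem_allS] at hp
      exact dem_zero hp.1 h hp.2
  rw [Finset.sum_add_distrib] at h5
  rw [Finset.sum_add_distrib, Finset.sum_add_distrib, Finset.sum_add_distrib] at h6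
  rw [KEY]
  omega

end Pool.IS
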