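import Pool.Agent.IS.Base

/-!
# Paving matroids: the theorem from KEY
-/

set_option autoImplicit false
open Classical

namespace Pool.IS

variable {α : Type*} [DecidableEq α] [Fintype α]

theorem encard_coe (A : Finset α) : (A : Set α).encard = (A.card : ℕ∞) := by
  rw [Set.encard_coe_eq_coe_finsetCard]

theorem bi_of_matroid (M : Matroid α) (hE : M.E = Set.univ) {r : ℕ} (hr : M.eRank = r) :
    BI r (fun A : Finset α => M.Indep (A : Set α)) (fun A : Finset α => M.Spanning (A : Set α)) where
  ile := by
    intro A hA
    have h1 := hA.encard_le_eRank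
    rw [hr, encard_coe] at h1
    exact_mod_cast h1
  sle := by
    intro A hA
    obtain ⟨B, hB, hBA⟩ := hA.exists_isBase_subset
    have h1 := hB.encard_eq_eRank
    have h2 := Set.encard_le_encard hBA
    rw [h1, hr, encard_coe] at h2
    exact_mod_cast h2
  iff := by
    intro A hA
    constructor
    · intro hI
      have : M.IsBase (A : Set α) := by
        apply hI.isBase_of_eRk_ge A.finite_toSet
        rw [hI.eRk_eq_encard, hr, encard_coe, hA]
      exact this.spanning
    · intro hS
      obtain ⟨B, hB, hBA⟩ := hS.exists_isBase_subset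
      have h1 := hB.encard_eq_eRank
      have h2 : B = (A : Set α) := by
        apply (A.finite_toSet.subset hBA).eq_of_subset_of_encard_le hBA
        rw [h1, hr, encard_coe, hA]
      rw [← h2]
      exact hB.indep

theorem pav_of_matroid (M : Matroid α) (hE : M.E = Set.univ) {r : ℕ} (hr : M.eRank = r)
    (hp : ∀ C, M.IsCircuit C → M.eRank ≤ C.encard) :
    Pav r (fun A : Finset α => ¬ M.Spanning (A : Set α)) where
  mono := by
    intro A B hAB hB hA
    apply hB
    exact hA.superset (Finset.coe_subset.mpr hAB) (by rw [hE]; exact Set.subset_univ _)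
  small := by
    intro A hA hS
    have := (bi_of_matroid M hE hr).sle hS
    omega
  glue := by
    intro P Q hP hQ hc hS
    have hB := bi_of_matroid M hE hr
    -- a small set is independent
    obtain ⟨I, hI1, hI2⟩ := Finset.exists_subset_card_eq (n := r - 1) (s := P ∩ Q) (by omega)
    by_cases hr0 : r = 0
    · -- rank zero: the empty set is spanning
      apply hP
      have h1 : M.Spanning ((∅ : Finset α) : Set α) := by
        apply (hB.iff (A := ∅) (by rw [hr0]; rfl)).mp
        simp
      exact h1.superset (by simp) (by rw [hE]; exact Set.subset_univ _)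
    have hind : M.Indep (I : Set α) := by
      by_contra hni
      have hd : M.Dep (I : Set α) := by
        rw [Matroid.not_indep_iff (by rw [hE]; exact Set.subset_univ _)] at hni
        exact hni
      obtain ⟨C, hC1, hC2⟩ := hd.exists_isCircuit_subset
      have h1 := hp C hC2
      have h2 := Set.encard_le_encard hC1
      rw [encard_coe, hI2] at h2
      rw [hr] at h1
      have h3 := h1.trans h2
      have h4 : r ≤ r - 1 := by exact_mod_cast h3
      omega
    have hsub : ∀ T : Finset α, I ⊆ T → ¬ M.Spanning (T : Set α) → (T : Set α) ⊆ M.closure (I : Set α) := by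
      intro T hIT hT x hx
      by_contra hxc
      apply hT
      have hxI : x ∉ (I : Set α) := by
        intro hh
        exact hxc (M.mem_closure_of_mem hh (by rw [hE]; exact Set.subset_univ _))
      have hxI' : x ∉ I := fun hh => hxI (Finset.mem_coe.mpr hh)
      have h1 : M.Indep (insert x (I : Set α)) := by
        rw [hind.insert_indep_iff_of_notMem hxI]
        exact ⟨by rw [hE]; exact Set.mem_univ _, hxc⟩
      have h2 : M.Indep ((insert x I : Finset α) : Set α) := by
        rw [Finset.coe_insert]
        exact h1
      have h3 : (insert x I).card = r := by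
        rw [Finset.card_insert_of_notMem hxI', hI2]
        omega
      have h4 := (hB.iff h3).mp h2
      refine h4.superset ?_ (by rw [hE]; exact Set.subset_univ _)
      rw [Finset.coe_insert]
      exact Set.insert_subset hx (Finset.coe_subset.mpr hIT)
    have h1 := hsub P (hI1.trans Finset.inter_subset_left) hP
    have h2 := hsub Q (hI1.trans Finset.inter_subset_right) hQ
    have h3 : ((P ∪ Q : Finset α) : Set α) ⊆ M.closure (I : Set α) := by
      rw [Finset.coe_union]
      exact Set.union_subset h1 h2
    have h4 : M.Spanning (I : Set α) := by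
      rw [Matroid.spanning_iff_ground_subset_closure (by rw [hE]; exact Set.subset_univ _)]
      have h5 := hS.closure_eq
      rw [← h5]
      exact M.closure_subset_closure_of_subset_closure h3
    have h5 := hB.sle h4
    omega

/-- the theorem, from all instances of KEY -/
theorem paving_corr (hK : KEYall α) (M : Matroid α) (hE : M.E = Set.univ)
    (hp : ∀ C, M.IsCircuit C → M.eRank ≤ C.encard) {e f : α} (hef : e ≠ f)
    (hI : ∀ z : α → ℝ, (∀ x, 0 < z x) →
      (∑ A : Finset α, if M.Indep (A : Set α) ∧ e ∈ A ∧ f ∈ A then ∏ a ∈ A, z a else 0) *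
        (∑ A : Finset α, if M.Indep (A : Set α) then ∏ a ∈ A, z a else 0) ≤
      (∑ A : Finset α, if M.Indep (A : Set α) ∧ e ∈ A then ∏ a ∈ A, z a else 0) *
        (∑ A : Finset α, if M.Indep (A : Set α) ∧ f ∈ A then ∏ a ∈ A, z a else 0))
    {z : α → ℝ} (hz : ∀ x, 0 < z x) :
    (∑ A : Finset α, if M.Spanning (A : Set α) ∧ e ∈ A ∧ f ∈ A then ∏ a ∈ A, z a else 0) *
        (∑ A : Finset α, if M.Spanning (A : Set α) then ∏ a ∈ A, z a else 0) ≤
      (∑ A : Finset α, if M.Spanning (A : Set α) ∧ e ∈ A then ∏ a ∈ A, z a else 0) *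
        (∑ A : Finset α, if M.Spanning (A : Set α) ∧ f ∈ A then ∏ a ∈ A, z a else 0) := by
  have hfin : M.eRank ≠ ⊤ := by
    have h1 := M.eRank_le_encard_ground
    intro hh
    rw [hh, hE, top_le_iff, Set.encard_eq_top_iff] at h1
    exact h1 Set.finite_univ
  obtain ⟨r, hr⟩ := ENat.ne_top_iff_exists.mp hfin
  have hB := bi_of_matroid M hE hr.symm
  have hP := pav_of_matroid M hE hr.symm hp
  set G := ((Finset.univ : Finset α).erase e).erase f with hG
  have heG : e ∉ G := fun hh => Finset.notMem_erase e _ (Finset.mem_of_mem_erase hh)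
  have hfG : f ∉ G := Finset.notMem_erase _ _
  have hIG : ∀ z : α → ℝ, (∀ x, 0 < z x) →
      0 ≤ ∑ A ∈ G.powerset, ∑ B ∈ G.powerset,
        zp z A * zp z B * phi (fun A : Finset α => M.Indep (A : Set α)) e f A B := by
    intro z hz
    have h1 := (corr_iff hef (fun A : Finset α => M.Indep (A : Set α)) hz).mp (hI z hz)
    rw [← diff_phi]
    exact h1
  have hsub : ∀ X : Finset α, e ∉ X → f ∉ X → X ⊆ G := by
    intro X h1 h2 x hx
    rw [hG, Finset.mem_erase, Finset.mem_erase]
    refine ⟨?_, ?_, Finset.mem_univ _⟩
    · rintro rfl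
      exact h2 hx
    · rintro rfl
      exact h1 hx
  have hD : ∀ d, 2 * r ≤ d + 2 →
      0 ≤ DD r (fun A : Finset α => ¬ M.Spanning (A : Set α)) e f z d ∅ G := by
    intro d hd
    apply DD_nonneg hP hK hef hz ?_ G.card ∅ G rfl (Finset.disjoint_empty_left _) (by simp)
      (by simp) heG hfG d (by simpa using hd)
    intro W R hWR heW hfW heR hfR hW
    exact base_nonneg hB hef heG hfG hIG (hsub W heW hfW) (hsub R heR hfR) hWR hW hz
  have h2 := total_nonneg hP hz G hD
  apply (corr_iff hef (fun A : Finset α => M.Spanning (A : Set α)) hz).mpr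
  have h3 := diff_phi (fun A : Finset α => M.Spanning (A : Set α)) z G e f
  simp only [not_not] at h2
  rw [← h3] at h2
  exact h2

end Pool.IS
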