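import Pool.Agent.IS.ParCore

/-!
# Loops and parallel elements
-/

set_option autoImplicit false
open Classical

namespace Pool.IS

section abstract

variable {α : Type*} [DecidableEq α] {e f : α}

theorem s4_insert (X : Finset α → Prop) (z : α → ℝ) {G : Finset α} {x : α} (hx : x ∉ G) :
    s4 X z (insert x G) = s4 X z G + z x * s4 (fun A => X (insert x A)) z G := by
  unfold s4
  rw [Finset.sum_powerset_insert hx, Finset.mul_sum]
  congr 1
  apply Finset.sum_congr rfl
  intro A hA
  rw [Finset.mem_powerset] at hA
  rw [zp_insert z (fun hh => hx (hA hh))]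
  ring

theorem s4_congr {X Y : Finset α → Prop} (z : α → ℝ) (G : Finset α) (h : ∀ A, X A ↔ Y A) :
    s4 X z G = s4 Y z G := by
  unfold s4
  apply Finset.sum_congr rfl
  intro A _
  rw [indR_congr (h A)]

theorem s4_update (X : Finset α → Prop) (z : α → ℝ) {G : Finset α} {x : α} (hx : x ∉ G) (t : ℝ) :
    s4 X (Function.update z x t) G = s4 X z G := by
  unfold s4
  apply Finset.sum_congr rfl
  intro A hA
  rw [Finset.mem_powerset] at hA
  congr 1
  unfold zp
  apply Finset.prod_congr rfl
  intro y hy
  rw [Function.update_of_ne]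
  rintro rfl
  exact hx (hA hy)

theorem s4_nonneg (X : Finset α → Prop) {z : α → ℝ} (hz : ∀ x, 0 < z x) (G : Finset α) :
    0 ≤ s4 X z G := by
  unfold s4
  apply Finset.sum_nonneg
  intro A _
  apply mul_nonneg
  · unfold indR
    split_ifs <;> norm_num
  · exact (zp_pos hz A).le

theorem s4_mono {X Y : Finset α → Prop} {z : α → ℝ} (hz : ∀ x, 0 < z x) (G : Finset α)
    (h : ∀ A, X A → Y A) : s4 X z G ≤ s4 Y z G := by
  unfold s4
  apply Finset.sum_le_sum
  intro A _
  apply mul_le_mul_of_nonneg_right _ (zp_pos hz A).le
  by_cases hX : X A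
  · rw [indR_true hX, indR_true (h A hX)]
  · rw [indR_false hX]
    unfold indR
    split_ifs <;> norm_num

/-- a loop in `G` -/
theorem Qf_loop {X : Finset α → Prop} {z : α → ℝ} {G : Finset α} {x : α} (hx : x ∉ G)
    (h : ∀ A, X (insert x A) ↔ X A) :
    Qf X e f z (insert x G) = (1 + z x) ^ 2 * Qf X e f z G := by
  have k : ∀ (Y : Finset α → Prop), (∀ A, Y (insert x A) ↔ Y A) →
      s4 Y z (insert x G) = (1 + z x) * s4 Y z G := by
    intro Y hY
    rw [s4_insert Y z hx, s4_congr z G hY]
    ring
  unfold Qf
  rw [k X h, k (fun A => X (insert e A)), k (fun A => X (insert f A)),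
    k (fun A => X (insert e (insert f A)))]
  · ring
  · intro A
    show X (insert e (insert f (insert x A))) ↔ X (insert e (insert f A))
    rw [Finset.insert_comm f x, Finset.insert_comm e x]
    exact h _
  · intro A
    show X (insert f (insert x A)) ↔ X (insert f A)
    rw [Finset.insert_comm f x]
    exact h _
  · intro A
    show X (insert e (insert x A)) ↔ X (insert e A)
    rw [Finset.insert_comm e x]
    exact h _

/-- `x` parallel to `p` in `G` -/
theorem Qf_par {X : Finset α → Prop} {z : α → ℝ} {G : Finset α} {x p : α} (hx : x ∉ G)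
    (hp : p ∈ G) (h : ∀ A, X (insert x A) ↔ X (insert p A)) :
    Qf X e f z (insert x G) = Qf X e f (Function.update z p (z p + z x + z p * z x)) G := by
  obtain ⟨G', hpG', rfl⟩ : ∃ G', p ∉ G' ∧ G = insert p G' :=
    ⟨G.erase p, Finset.notMem_erase _ _, (Finset.insert_erase hp).symm⟩
  have k : ∀ (Y : Finset α → Prop), (∀ A, Y (insert x A) ↔ Y (insert p A)) →
      s4 Y z (insert x (insert p G')) =
        s4 Y (Function.update z p (z p + z x + z p * z x)) (insert p G') := by
    intro Y hY
    rw [s4_insert Y z hx, s4_insert Y z hpG', s4_insert (fun A => Y (insert x A)) z hpG',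
      s4_insert Y _ hpG', s4_update _ _ hpG', s4_update _ _ hpG', Function.update_self]
    have e1 : s4 (fun A => Y (insert x A)) z G' = s4 (fun A => Y (insert p A)) z G' :=
      s4_congr z G' hY
    have e2 : s4 (fun A => Y (insert x (insert p A))) z G' = s4 (fun A => Y (insert p A)) z G' := by
      apply s4_congr
      intro A
      rw [hY (insert p A), Finset.insert_idem]
    rw [e1, e2]
    ring
  unfold Qf
  rw [k X h, k (fun A => X (insert e A)), k (fun A => X (insert f A)),
    k (fun A => X (insert e (insert f A)))]
  · intro A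
    show X (insert e (insert f (insert x A))) ↔ X (insert e (insert f (insert p A)))
    rw [Finset.insert_comm f x, Finset.insert_comm e x, Finset.insert_comm f p,
      Finset.insert_comm e p]
    exact h _
  · intro A
    show X (insert f (insert x A)) ↔ X (insert f (insert p A))
    rw [Finset.insert_comm f x, Finset.insert_comm f p]
    exact h _
  · intro A
    show X (insert e (insert x A)) ↔ X (insert e (insert p A))
    rw [Finset.insert_comm e x, Finset.insert_comm e p]
    exact h _

/-- `x` parallel to `e` -/
theorem Qf_pare {X : Finset α → Prop} {z : α → ℝ} {G : Finset α} {x : α} (hx : x ∉ G)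
    (h : ∀ A, X (insert x A) ↔ X (insert e A)) :
    Qf X e f z (insert x G) = (1 + z x) * Qf X e f z G := by
  unfold Qf
  rw [s4_insert X z hx, s4_insert (fun A => X (insert e A)) z hx,
    s4_insert (fun A => X (insert f A)) z hx,
    s4_insert (fun A => X (insert e (insert f A))) z hx]
  have e1 : s4 (fun A => X (insert x A)) z G = s4 (fun A => X (insert e A)) z G :=
    s4_congr z G h
  have e2 : s4 (fun A => X (insert e (insert x A))) z G = s4 (fun A => X (insert e A)) z G := by
    apply s4_congr
    intro A
    rw [Finset.insert_comm e x, h (insert e A), Finset.insert_idem]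
  have e3 : s4 (fun A => X (insert f (insert x A))) z G =
      s4 (fun A => X (insert e (insert f A))) z G := by
    apply s4_congr
    intro A
    rw [Finset.insert_comm f x, h (insert f A)]
  have e4 : s4 (fun A => X (insert e (insert f (insert x A)))) z G =
      s4 (fun A => X (insert e (insert f A))) z G := by
    apply s4_congr
    intro A
    rw [Finset.insert_comm f x, Finset.insert_comm e x, h (insert e (insert f A)),
      Finset.insert_idem]
  rw [e1, e2, e3, e4]
  ring

theorem Qf_symm (X : Finset α → Prop) (z : α → ℝ) (G : Finset α) :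
    Qf X f e z G = Qf X e f z G := by
  unfold Qf
  have e1 : s4 (fun A => X (insert f (insert e A))) z G =
      s4 (fun A => X (insert e (insert f A))) z G := by
    apply s4_congr
    intro A
    rw [Finset.insert_comm]
  rw [e1]
  ring

/-- the inequality passes to smaller ground sets -/
theorem Qf_down {X : Finset α → Prop} {G : Finset α} {x : α} (hx : x ∉ G)
    (h : ∀ z : α → ℝ, (∀ y, 0 < z y) → 0 ≤ Qf X e f z (insert x G))
    {z : α → ℝ} (hz : ∀ y, 0 < z y) : 0 ≤ Qf X e f z G := by
  set e0 := s4 (fun A => X (insert e A)) z G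
  set e1 := s4 (fun A => X (insert e (insert x A))) z G
  set f0 := s4 (fun A => X (insert f A)) z G
  set f1 := s4 (fun A => X (insert f (insert x A))) z G
  set d0 := s4 (fun A => X (insert e (insert f A))) z G
  set d1 := s4 (fun A => X (insert e (insert f (insert x A)))) z G
  set n0 := s4 X z G
  set n1 := s4 (fun A => X (insert x A)) z G
  have hpos : ∀ t : ℝ, 0 < t → 0 ≤ (e0 + t * e1) * (f0 + t * f1) - (d0 + t * d1) * (n0 + t * n1) := by
    intro t ht
    have h1 := h (Function.update z x t) (by
      intro y
      by_cases hy : y = x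
      · rw [hy, Function.update_self]
        exact ht
      · rw [Function.update_of_ne hy]
        exact hz y)
    unfold Qf at h1
    rw [s4_insert _ _ hx, s4_insert _ _ hx, s4_insert _ _ hx, s4_insert _ _ hx,
      Function.update_self] at h1
    simp only [s4_update _ _ hx] at h1
    exact h1
  have hcont : Filter.Tendsto
      (fun t : ℝ => (e0 + t * e1) * (f0 + t * f1) - (d0 + t * d1) * (n0 + t * n1))
      (nhdsWithin 0 (Set.Ioi 0)) (nhds ((e0 + 0 * e1) * (f0 + 0 * f1) - (d0 + 0 * d1) * (n0 + 0 * n1))) := by
    apply Filter.Tendsto.mono_left _ nhdsWithin_le_nhds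
    apply Continuous.tendsto (by fun_prop : Continuous
      (fun t : ℝ => (e0 + t * e1) * (f0 + t * f1) - (d0 + t * d1) * (n0 + t * n1)))
  have h2 : 0 ≤ (e0 + 0 * e1) * (f0 + 0 * f1) - (d0 + 0 * d1) * (n0 + 0 * n1) := by
    apply ge_of_tendsto hcont
    filter_upwards [self_mem_nhdsWithin] with t ht
    exact hpos t ht
  simp only [zero_mul, add_zero] at h2
  exact h2

end abstract

section matroid

variable {α : Type*} [DecidableEq α] [Fintype α]

theorem sp_iff (M : Matroid α) (hE : M.E = Set.univ) (A : Set α) :
    M.Spanning A ↔ M.closure A = M.E :=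
  Matroid.spanning_iff_closure_eq (by rw [hE]; exact Set.subset_univ _)

theorem sp_loop (M : Matroid α) (hE : M.E = Set.univ) {x : α} (hC : M.IsCircuit {x})
    (A : Finset α) :
    M.Spanning ((insert x A : Finset α) : Set α) ↔ M.Spanning (A : Set α) := by
  have h1 := hC.mem_closure_sdiff_singleton_of_mem (Set.mem_singleton x)
  rw [Set.sdiff_self] at h1
  have h2 : x ∈ M.closure (A : Set α) := M.closure_subset_closure (Set.empty_subset _) h1
  rw [sp_iff M hE, sp_iff M hE, Finset.coe_insert, Matroid.closure_insert_eq_of_mem_closure h2]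

theorem sp_par (M : Matroid α) (hE : M.E = Set.univ) {x p : α} (hxp : x ≠ p)
    (hC : M.IsCircuit {x, p}) (A : Finset α) :
    M.Spanning ((insert x A : Finset α) : Set α) ↔
      M.Spanning ((insert p A : Finset α) : Set α) := by
  have h1 := hC.mem_closure_sdiff_singleton_of_mem (Set.mem_insert x {p})
  have h2 := hC.mem_closure_sdiff_singleton_of_mem (Set.mem_insert_of_mem x (Set.mem_singleton p))
  have e1 : ({x, p} : Set α) \ {x} = {p} := by
    ext y
    simp only [Set.mem_sdiff, Set.mem_insert_iff, Set.mem_singleton_iff]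
    constructor
    · tauto
    · rintro rfl
      exact ⟨Or.inr rfl, hxp.symm⟩
  have e2 : ({x, p} : Set α) \ {p} = {x} := by
    ext y
    simp only [Set.mem_sdiff, Set.mem_insert_iff, Set.mem_singleton_iff]
    constructor
    · tauto
    · rintro rfl
      exact ⟨Or.inl rfl, hxp⟩
  rw [e1] at h1
  rw [e2] at h2
  have h3 : x ∈ M.closure (insert p (A : Set α)) :=
    M.closure_subset_closure (Set.singleton_subset_iff.mpr (Set.mem_insert _ _)) h1
  have h4 : p ∈ M.closure (insert x (A : Set α)) :=
    M.closure_subset_closure (Set.singleton_subset_iff.mpr (Set.mem_insert _ _)) h2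
  have h5 := Matroid.closure_insert_eq_of_mem_closure h3
  have h6 := Matroid.closure_insert_eq_of_mem_closure h4
  rw [sp_iff M hE, sp_iff M hE, Finset.coe_insert, Finset.coe_insert, ← h5, ← h6,
    Set.insert_comm]

/-- a circuit with at most two elements through `x` -/
theorem small_circuit {C : Set α} {x : α} (hx : x ∈ C) (hc : C.encard ≤ 2) :
    C = {x} ∨ ∃ p, p ≠ x ∧ C = {x, p} := by
  by_cases h : ∃ p ∈ C, p ≠ x
  · right
    obtain ⟨p, hp, hne⟩ := h
    refine ⟨p, hne, ?_⟩
    symm
    apply (Set.toFinite ({x, p} : Set α)).eq_of_subset_of_encard_le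
    · exact Set.insert_subset hx (Set.singleton_subset_iff.mpr hp)
    · rw [Set.encard_pair hne.symm]
      exact hc
  · left
    push Not at h
    ext y
    rw [Set.mem_singleton_iff]
    constructor
    · exact h y
    · rintro rfl
      exact hx

/-- `e` is a loop -/
theorem Qf_loope {X : Finset α → Prop} {e f : α} (z : α → ℝ) (G : Finset α)
    (h : ∀ A, X (insert e A) ↔ X A) : Qf X e f z G = 0 := by
  unfold Qf
  have e1 : s4 (fun A => X (insert e A)) z G = s4 X z G := s4_congr z G h
  have e2 : s4 (fun A => X (insert e (insert f A))) z G = s4 (fun A => X (insert f A)) z G := by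
    apply s4_congr
    intro A
    exact h _
  rw [e1, e2]
  ring

/-- `e` and `f` are parallel -/
theorem Qf_paref {X : Finset α → Prop} {e f : α} {z : α → ℝ} (hz : ∀ x, 0 < z x) (G : Finset α)
    (hm : ∀ A, X A → X (insert e A)) (h : ∀ A, X (insert f A) ↔ X (insert e A)) :
    0 ≤ Qf X e f z G := by
  unfold Qf
  have e1 : s4 (fun A => X (insert f A)) z G = s4 (fun A => X (insert e A)) z G := s4_congr z G h
  have e2 : s4 (fun A => X (insert e (insert f A))) z G = s4 (fun A => X (insert e A)) z G := by
    apply s4_congr
    intro A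
    rw [Finset.insert_comm, h (insert e A), Finset.insert_idem]
  rw [e1, e2]
  have h1 := s4_mono hz G hm
  have h2 := s4_nonneg (fun A => X (insert e A)) hz G
  nlinarith

theorem par_base (M : Matroid α) (hE : M.E = Set.univ) {e f : α} (hef : e ≠ f) {C : Set α}
    (hC : M.IsCircuit C) (hCef : ∀ x ∈ C, x = e ∨ x = f) (hc : C.encard ≤ 2) {z : α → ℝ}
    (hz : ∀ x, 0 < z x) (G : Finset α) :
    0 ≤ Qf (fun A : Finset α => M.Spanning (A : Set α)) e f z G := by
  have hm : ∀ (x : α) (A : Finset α), M.Spanning (A : Set α) →
      M.Spanning ((insert x A : Finset α) : Set α) := by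
    intro x A hA
    exact hA.superset (Finset.coe_subset.mpr (Finset.subset_insert _ _))
      (by rw [hE]; exact Set.subset_univ _)
  obtain ⟨x, hx⟩ := hC.nonempty
  have main : ∀ e f : α, e ≠ f → (∀ x ∈ C, x = e ∨ x = f) → e ∈ C →
      0 ≤ Qf (fun A : Finset α => M.Spanning (A : Set α)) e f z G := by
    intro e f hef hCef he
    rcases small_circuit he hc with h1 | ⟨p, hpe, h1⟩
    · rw [h1] at hC
      rw [Qf_loope z G (sp_loop M hE hC)]
    · have hpf : p = f := by
        have hpC : p ∈ C := by
          rw [h1]
          exact Set.mem_insert_of_mem _ (Set.mem_singleton p)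
        rcases hCef p hpC with h2 | h2
        · exact absurd h2 hpe
        · exact h2
      subst hpf
      rw [h1] at hC
      apply Qf_paref hz G (hm e)
      intro A
      exact (sp_par M hE hef hC A).symm
  rcases hCef x hx with rfl | rfl
  · exact main x f hef hCef hx
  · rw [← Qf_symm]
    exact main x e hef.symm (fun y hy => (hCef y hy).symm) hx

/-- the main theorem on `G + e + f` for matroids in which every circuit has at most two or at least
`r` elements -/
theorem par_main (M : Matroid α) (hE : M.E = Set.univ) {r : ℕ} (hr : M.eRank = r)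
    {X : Finset α → Prop} (hX : BI r X (fun A : Finset α => M.Spanning (A : Set α))) {e f : α}
    (hef : e ≠ f)
    (hp : ∀ C, M.IsCircuit C → C.encard ≤ 2 ∨ M.eRank ≤ C.encard) :
    ∀ (k : ℕ) (G : Finset α), G.card = k → e ∉ G → f ∉ G →
    (∀ z : α → ℝ, (∀ x, 0 < z x) → 0 ≤ Qf X e f z G) →
    ∀ z : α → ℝ, (∀ x, 0 < z x) →
      0 ≤ Qf (fun A : Finset α => M.Spanning (A : Set α)) e f z G := by
  intro k
  induction k with
  | zero =>
    intro G hG heG hfG hI z hz
    have hG0 : G = ∅ := Finset.card_eq_zero.mp hG
    by_cases hC2 : ∃ C, M.IsCircuit C ∧ C ⊆ ((insert e (insert f G) : Finset α) : Set α) ∧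
        C.encard < M.eRank
    · obtain ⟨C, hC, hCs, hCc⟩ := hC2
      apply par_base M hE hef hC ?_ ((hp C hC).resolve_right (not_le.mpr hCc)) hz
      intro x hx
      have := hCs hx
      rw [hG0] at this
      simpa using this
    · push Not at hC2
      exact core_on M hE hr hX hef heG hfG hC2 hI hz
  | succ k ih =>
    intro G hG heG hfG hI z hz
    by_cases hC1 : ∃ C, M.IsCircuit C ∧ C ⊆ ((insert e (insert f G) : Finset α) : Set α) ∧
        C.encard < M.eRank
    · obtain ⟨C, hC, hCs, hCc⟩ := hC1
      have hc2 := (hp C hC).resolve_right (not_le.mpr hCc)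
      by_cases hx : ∃ x ∈ C, x ∈ G
      · obtain ⟨x, hxC, hxG⟩ := hx
        have hxG' : x ∉ G.erase x := Finset.notMem_erase _ _
        have hGe : insert x (G.erase x) = G := Finset.insert_erase hxG
        have hI' : ∀ z : α → ℝ, (∀ x, 0 < z x) → 0 ≤ Qf X e f z (G.erase x) := by
          intro z hz
          apply Qf_down hxG' _ hz
          rw [hGe]
          exact hI
        have ih' := ih (G.erase x) (by rw [Finset.card_erase_of_mem hxG, hG]; rfl)
          (fun hh => heG (Finset.mem_of_mem_erase hh))
          (fun hh => hfG (Finset.mem_of_mem_erase hh)) hI'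
        rw [← hGe]
        rcases small_circuit hxC hc2 with h1 | ⟨p, hpx, h1⟩
        · rw [h1] at hC
          rw [Qf_loop hxG' (sp_loop M hE hC)]
          exact mul_nonneg (sq_nonneg _) (ih' z hz)
        · have hpC : p ∈ C := by
            rw [h1]
            exact Set.mem_insert_of_mem _ (Set.mem_singleton p)
          have hpF := hCs hpC
          rw [h1] at hC
          have hpar := sp_par M hE hpx.symm hC
          rw [Finset.mem_coe, Finset.mem_insert, Finset.mem_insert] at hpF
          have h1z : 0 ≤ 1 + z x := by
            have := hz x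
            linarith
          rcases hpF with h2 | h2 | h2
          · subst h2
            rw [Qf_pare hxG' hpar]
            exact mul_nonneg h1z (ih' z hz)
          · subst h2
            rw [← Qf_symm, Qf_pare hxG' hpar, Qf_symm]
            exact mul_nonneg h1z (ih' z hz)
          · rw [Qf_par hxG' (Finset.mem_erase.mpr ⟨hpx, h2⟩) hpar]
            apply ih'
            intro w
            by_cases hw : w = p
            · rw [hw, Function.update_self]
              have h3 := hz p
              have h4 := hz x
              positivity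
            · rw [Function.update_of_ne hw]
              exact hz w
      · push Not at hx
        apply par_base M hE hef hC ?_ hc2 hz
        intro x hxC
        have := hCs hxC
        rw [Finset.mem_coe, Finset.mem_insert, Finset.mem_insert] at this
        rcases this with h2 | h2 | h2
        · exact Or.inl h2
        · exact Or.inr h2
        · exact absurd h2 (hx x hxC)
    · push Not at hC1
      exact core_on M hE hr hX hef heG hfG hC1 hI hz

/-- a matroid in which every circuit has at most two or at least `r` elements: the correlation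
inequality for `X`-sets (independent sets or bases) and the pair `e, f` implies the one for spanning
sets -/
theorem par_corr (M : Matroid α) (hE : M.E = Set.univ)
    (hp : ∀ C, M.IsCircuit C → C.encard ≤ 2 ∨ M.eRank ≤ C.encard) {e f : α} (hef : e ≠ f)
    {X : Finset α → Prop}
    (hX : ∀ r : ℕ, M.eRank = r → BI r X (fun A : Finset α => M.Spanning (A : Set α)))
    (hI : ∀ z : α → ℝ, (∀ x, 0 < z x) →
      (∑ A : Finset α, if X A ∧ e ∈ A ∧ f ∈ A then ∏ a ∈ A, z a else 0) *
        (∑ A : Finset α, if X A then ∏ a ∈ A, z a else 0) ≤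
      (∑ A : Finset α, if X A ∧ e ∈ A then ∏ a ∈ A, z a else 0) *
        (∑ A : Finset α, if X A ∧ f ∈ A then ∏ a ∈ A, z a else 0))
    {z : α → ℝ} (hz : ∀ x, 0 < z x) :
    (∑ A : Finset α, if M.Spanning (A : Set α) ∧ e ∈ A ∧ f ∈ A then ∏ a ∈ A, z a else 0) *
        (∑ A : Finset α, if M.Spanning (A : Set α) then ∏ a ∈ A, z a else 0) ≤
      (∑ A : Finset α, if M.Spanning (A : Set α) ∧ e ∈ A then ∏ a ∈ A, z a else 0) *
        (∑ A : Finset α, if M.Spanning (A : Set α) ∧ f ∈ A then ∏ a ∈ A, z a else 0) := by
  have hfin : M.eRank ≠ ⊤ := by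
    have h1 := M.eRank_le_encard_ground
    intro hh
    rw [hh, hE, top_le_iff, Set.encard_eq_top_iff] at h1
    exact h1 Set.finite_univ
  obtain ⟨r, hr⟩ := ENat.ne_top_iff_exists.mp hfin
  have heG : e ∉ ((Finset.univ : Finset α).erase e).erase f :=
    fun hh => Finset.notMem_erase e _ (Finset.mem_of_mem_erase hh)
  have hfG : f ∉ ((Finset.univ : Finset α).erase e).erase f := Finset.notMem_erase _ _
  apply (corr_iff hef (fun A : Finset α => M.Spanning (A : Set α)) hz).mpr
  exact par_main M hE hr.symm (hX r hr.symm) hef hp _ _ rfl heG hfG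
    (fun z hz => (corr_iff hef X hz).mp (hI z hz)) z hz

end matroid

end Pool.IS
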