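import Pool.Agent.IS.Mat
import Pool.Agent.IS.Key1

/-!
# The core theorem on a ground set `G + e + f`
-/

set_option autoImplicit false
open Classical

namespace Pool.IS

section abstract

variable {α : Type*} [DecidableEq α]
variable {r : ℕ} {N : Finset α → Prop} {e f : α}

/-- all graded pieces inside `G` are nonnegative if the lowest ones are -/
theorem DD_nonneg_on (hP : Pav r N) (hK : KEYall α) (hef : e ≠ f) {z : α → ℝ} (hz : ∀ x, 0 < z x)
    {G : Finset α} (heG : e ∉ G) (hfG : f ∉ G)
    (hbase : ∀ W R : Finset α, Disjoint W R → W ⊆ G → R ⊆ G → W.card < r →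
      0 ≤ DD r N e f z (2 * (r - W.card) - 2) W R) :
    ∀ (k : ℕ) (W R : Finset α), R.card = k → Disjoint W R → W ⊆ G → R ⊆ G →
      ∀ d, 2 * (r - W.card) ≤ d + 2 → 0 ≤ DD r N e f z d W R := by
  intro k
  induction k with
  | zero =>
    intro W R hR hWR hWG hRG d hd
    have heW : e ∉ W := fun hh => heG (hWG hh)
    have hfW : f ∉ W := fun hh => hfG (hWG hh)
    have heR : e ∉ R := fun hh => heG (hRG hh)
    have hfR : f ∉ R := fun hh => hfG (hRG hh)
    by_cases hW : W.card < r
    · by_cases hd2 : d = 2 * (r - W.card) - 2
      · rw [hd2]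
        exact hbase W R hWR hWG hRG hW
      · have h1 := DD_rec hP hK hef hz hWR heW hfW heR hfR hW (d := d) (by omega)
        have hR0 : R = ∅ := Finset.card_eq_zero.mp hR
        rw [hR0] at h1 ⊢
        simp only [Finset.sum_empty, add_zero] at h1
        have h2 : (0 : ℝ) < (d : ℝ) + 1 - (r - W.card) := by
          have : (r : ℝ) < (d : ℝ) + 1 + W.card := by
            exact_mod_cast (by omega : r < d + 1 + W.card)
          linarith
        exact nonneg_of_mul_nonneg_right h1 h2
    · apply le_of_eq
      symm
      unfold DD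
      apply Finset.sum_eq_zero
      intro V _
      apply Finset.sum_eq_zero
      intro U _
      unfold tm
      rw [if_neg]
      omega
  | succ k ih =>
    intro W R hR hWR hWG hRG d hd
    have heW : e ∉ W := fun hh => heG (hWG hh)
    have hfW : f ∉ W := fun hh => hfG (hWG hh)
    have heR : e ∉ R := fun hh => heG (hRG hh)
    have hfR : f ∉ R := fun hh => hfG (hRG hh)
    by_cases hW : W.card < r
    · by_cases hd2 : d = 2 * (r - W.card) - 2
      · rw [hd2]
        exact hbase W R hWR hWG hRG hW
      · have h1 := DD_rec hP hK hef hz hWR heW hfW heR hfR hW (d := d) (by omega)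
        have h2 : (0 : ℝ) < (d : ℝ) + 1 - (r - W.card) := by
          have : (r : ℝ) < (d : ℝ) + 1 + W.card := by
            exact_mod_cast (by omega : r < d + 1 + W.card)
          linarith
        have h3 : 0 ≤ ∑ y ∈ R, (z y) ^ 2 * DD r N e f z (d - 2) (insert y W) (R.erase y) := by
          apply Finset.sum_nonneg
          intro y hy
          apply mul_nonneg (sq_nonneg _)
          have hyW : y ∉ W := fun hh => Finset.disjoint_left.mp hWR hh hy
          have hcy := Finset.card_insert_of_notMem hyW
          apply ih
          · rw [Finset.card_erase_of_mem hy, hR]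
            rfl
          · rw [Finset.disjoint_left]
            intro x hx hx'
            rw [Finset.mem_erase] at hx'
            rcases Finset.mem_insert.mp hx with h4 | h4
            · exact hx'.1 h4
            · exact Finset.disjoint_left.mp hWR h4 hx'.2
          · exact Finset.insert_subset (hRG hy) hWG
          · exact (Finset.erase_subset _ _).trans hRG
          · omega
        have h4 : 0 ≤ ∑ y ∈ R, z y * DD r N e f z (d - 1) W (R.erase y) := by
          apply Finset.sum_nonneg
          intro y hy
          apply mul_nonneg (hz y).le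
          apply ih
          · rw [Finset.card_erase_of_mem hy, hR]
            rfl
          · exact hWR.mono_right (Finset.erase_subset _ _)
          · exact hWG
          · exact (Finset.erase_subset _ _).trans hRG
          · omega
        exact nonneg_of_mul_nonneg_right (by linarith) h2
    · apply le_of_eq
      symm
      unfold DD
      apply Finset.sum_eq_zero
      intro V _
      apply Finset.sum_eq_zero
      intro U _
      unfold tm
      rw [if_neg]
      omega

/-- the four-sum expression -/
noncomputable def Qf (X : Finset α → Prop) (e f : α) (z : α → ℝ) (G : Finset α) : ℝ :=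
  s4 (fun A => X (insert e A)) z G * s4 (fun A => X (insert f A)) z G -
    s4 (fun A => X (insert e (insert f A))) z G * s4 X z G

/-- the core theorem for abstract systems -/
theorem core {I S : Finset α → Prop} (hB : BI r I S) (hP : Pav r (fun A => ¬ S A)) (hef : e ≠ f)
    {G : Finset α} (heG : e ∉ G) (hfG : f ∉ G)
    (hI : ∀ z : α → ℝ, (∀ x, 0 < z x) → 0 ≤ Qf I e f z G)
    {z : α → ℝ} (hz : ∀ x, 0 < z x) : 0 ≤ Qf S e f z G := by
  have hIG : ∀ z : α → ℝ, (∀ x, 0 < z x) →
      0 ≤ ∑ A ∈ G.powerset, ∑ B ∈ G.powerset, zp z A * zp z B * phi I e f A B := by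
    intro z hz
    rw [← diff_phi]
    exact hI z hz
  have hD : ∀ d, 2 * r ≤ d + 2 → 0 ≤ DD r (fun A : Finset α => ¬ S A) e f z d ∅ G := by
    intro d hd
    apply DD_nonneg_on hP keyAll hef hz heG hfG ?_ G.card ∅ G rfl (Finset.disjoint_empty_left _)
      (Finset.empty_subset _) (Finset.Subset.refl _) d (by simpa using hd)
    intro W R hWR hWG hRG hW
    exact base_nonneg hB hef heG hfG hIG hWG hRG hWR hW hz
  have h2 := total_nonneg hP hz G hD
  have h3 := diff_phi S z G e f
  simp only [not_not] at h2
  rw [Qf, h3]
  exact h2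

/-- `Qf` depends only on the sets inside `G + e + f` -/
theorem Qf_congr {X Y : Finset α → Prop} {G : Finset α} (z : α → ℝ)
    (h : ∀ A, A ⊆ insert e (insert f G) → (X A ↔ Y A)) : Qf X e f z G = Qf Y e f z G := by
  have hs : ∀ T : Finset α, T ⊆ {e, f} →
      s4 (fun A => X (T ∪ A)) z G = s4 (fun A => Y (T ∪ A)) z G := by
    intro T hT
    unfold s4
    apply Finset.sum_congr rfl
    intro A hA
    rw [Finset.mem_powerset] at hA
    rw [indR_congr (h (T ∪ A) ?_)]
    intro x hx
    rw [Finset.mem_union] at hx
    rw [Finset.mem_insert, Finset.mem_insert]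
    rcases hx with hx | hx
    · have := hT hx
      rw [Finset.mem_insert, Finset.mem_singleton] at this
      tauto
    · exact Or.inr (Or.inr (hA hx))
  have e1 := hs {e} (by simp)
  have e2 := hs {f} (by simp)
  have e3 := hs {e, f} (Finset.Subset.refl _)
  have e4 := hs ∅ (Finset.empty_subset _)
  simp only [Finset.empty_union] at e4
  have k1 : ∀ A : Finset α, {e} ∪ A = insert e A := fun A => by
    rw [Finset.insert_eq]
  have k2 : ∀ A : Finset α, {f} ∪ A = insert f A := fun A => by
    rw [Finset.insert_eq]
  have k3 : ∀ A : Finset α, {e, f} ∪ A = insert e (insert f A) := fun A => by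
    rw [Finset.insert_union, Finset.insert_eq f A]
  simp only [k1] at e1
  simp only [k2] at e2
  simp only [k3] at e3
  unfold Qf
  rw [e1, e2, e3]
  have e5 : s4 X z G = s4 Y z G := e4
  rw [e5]

end abstract

section matroid

variable {α : Type*} [DecidableEq α] [Fintype α]

/-- glueing of nonspanning sets inside a set without small circuits -/
theorem glue_on (M : Matroid α) (hE : M.E = Set.univ) {r : ℕ} (hr : M.eRank = r) {F : Finset α}
    (hp : ∀ C, M.IsCircuit C → C ⊆ (F : Set α) → M.eRank ≤ C.encard) {P Q : Finset α}
    (hPF : P ⊆ F) (hP : ¬ M.Spanning (P : Set α)) (hQ : ¬ M.Spanning (Q : Set α))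
    (hc : r ≤ (P ∩ Q).card + 1) : ¬ M.Spanning ((P ∪ Q : Finset α) : Set α) := by
  intro hS
  have hB := bi_of_matroid M hE hr
  obtain ⟨I, hI1, hI2⟩ := Finset.exists_subset_card_eq (n := r - 1) (s := P ∩ Q) (by omega)
  by_cases hr0 : r = 0
  · apply hP
    have h1 : M.Spanning ((∅ : Finset α) : Set α) := by
      apply (hB.iff (A := ∅) (by rw [hr0]; rfl)).mp
      simp
    exact h1.superset (by simp) (by rw [hE]; exact Set.subset_univ _)
  have hind : M.Indep (I : Set α) := by
    by_contra hni
    have hd : M.Dep (I : Set α) := by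
      rw [Matroid.not_indep_iff (by rw [hE]; exact Set.subset_univ _)] at hni
      exact hni
    obtain ⟨C, hC1, hC2⟩ := hd.exists_isCircuit_subset
    have h0 : C ⊆ (F : Set α) :=
      hC1.trans (Finset.coe_subset.mpr (hI1.trans (Finset.inter_subset_left.trans hPF)))
    have h1 := hp C hC2 h0
    have h2 := Set.encard_le_encard hC1
    rw [encard_coe, hI2] at h2
    rw [hr] at h1
    have h3 := h1.trans h2
    have h4 : r ≤ r - 1 := by exact_mod_cast h3
    omega
  have hsub : ∀ T : Finset α, I ⊆ T → ¬ M.Spanning (T : Set α) →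
      (T : Set α) ⊆ M.closure (I : Set α) := by
    intro T hIT hT x hx
    by_contra hxc
    apply hT
    have hxI : x ∉ (I : Set α) := by
      intro hh
      exact hxc (M.mem_closure_of_mem hh (by rw [hE]; exact Set.subset_univ _))
    have hxI' : x ∉ I := fun hh => hxI (Finset.mem_coe.mpr hh)
    have h1 : M.Indep (insert x (I : Set α)) := by
      rw [hind.insert_indep_iff_of_notMem hxI]
      exact ⟨by rw [hE]; exact Set.mem_univ _, hxc⟩
    have h2 : M.Indep ((insert x I : Finset α) : Set α) := by
      rw [Finset.coe_insert]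
      exact h1
    have h3 : (insert x I).card = r := by
      rw [Finset.card_insert_of_notMem hxI', hI2]
      omega
    have h4 := (hB.iff h3).mp h2
    refine h4.superset ?_ (by rw [hE]; exact Set.subset_univ _)
    rw [Finset.coe_insert]
    exact Set.insert_subset hx (Finset.coe_subset.mpr hIT)
  have h1 := hsub P (hI1.trans Finset.inter_subset_left) hP
  have h2 := hsub Q (hI1.trans Finset.inter_subset_right) hQ
  have h3 : ((P ∪ Q : Finset α) : Set α) ⊆ M.closure (I : Set α) := by
    rw [Finset.coe_union]
    exact Set.union_subset h1 h2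
  have h4 : M.Spanning (I : Set α) := by
    rw [Matroid.spanning_iff_ground_subset_closure (by rw [hE]; exact Set.subset_univ _)]
    have h5 := hS.closure_eq
    rw [← h5]
    exact M.closure_subset_closure_of_subset_closure h3
  have h5 := hB.sle h4
  omega

/-- the core theorem for a matroid and a set `G + e + f` without small circuits -/
theorem core_on (M : Matroid α) (hE : M.E = Set.univ) {r : ℕ} (hr : M.eRank = r)
    {X : Finset α → Prop} (hX : BI r X (fun A : Finset α => M.Spanning (A : Set α))) {e f : α}
    (hef : e ≠ f) {G : Finset α} (heG : e ∉ G) (hfG : f ∉ G)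
    (hp : ∀ C, M.IsCircuit C → C ⊆ ((insert e (insert f G) : Finset α) : Set α) →
      M.eRank ≤ C.encard)
    (hI : ∀ z : α → ℝ, (∀ x, 0 < z x) → 0 ≤ Qf X e f z G)
    {z : α → ℝ} (hz : ∀ x, 0 < z x) :
    0 ≤ Qf (fun A : Finset α => M.Spanning (A : Set α)) e f z G := by
  set F := insert e (insert f G) with hF
  have hB := bi_of_matroid M hE hr
  let I : Finset α → Prop := fun A => (A ⊆ F ∧ X A) ∨ (¬ A ⊆ F ∧ A.card = r)
  let S : Finset α → Prop := fun A => r ≤ A.card ∧ (A ⊆ F → M.Spanning (A : Set α))
  have hBI : BI r I S := by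
    refine ⟨?_, ?_, ?_⟩
    · intro A hA
      rcases hA with hA | hA
      · exact hX.ile hA.2
      · exact hA.2.le
    · intro A hA
      exact hA.1
    · intro A hA
      constructor
      · rintro (h1 | h1)
        · exact ⟨hA.ge, fun _ => (hX.iff hA).mp h1.2⟩
        · exact ⟨hA.ge, fun hh => absurd hh h1.1⟩
      · rintro ⟨h1, h2⟩
        by_cases h3 : A ⊆ F
        · exact Or.inl ⟨h3, (hX.iff hA).mpr (h2 h3)⟩
        · exact Or.inr ⟨h3, hA⟩
  have hPav : Pav r (fun A => ¬ S A) := by
    refine ⟨?_, ?_, ?_⟩
    · intro A B hAB hB hA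
      apply hB
      refine ⟨hA.1.trans (Finset.card_le_card hAB), fun hh => ?_⟩
      exact (hA.2 (hAB.trans hh)).superset (Finset.coe_subset.mpr hAB)
        (by rw [hE]; exact Set.subset_univ _)
    · intro A hA hS
      have := hS.1
      omega
    · intro P Q hP hQ hc hS
      by_cases h1 : P.card < r
      · have h2 : P ∩ Q = P :=
          Finset.eq_of_subset_of_card_le Finset.inter_subset_left (by omega)
        have h3 : P ⊆ Q := Finset.inter_eq_left.mp h2
        rw [Finset.union_eq_right.mpr h3] at hS
        exact hQ hS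
      · by_cases h1' : Q.card < r
        · have h2 : P ∩ Q = Q :=
            Finset.eq_of_subset_of_card_le Finset.inter_subset_right (by omega)
          have h3 : Q ⊆ P := Finset.inter_eq_right.mp h2
          rw [Finset.union_eq_left.mpr h3] at hS
          exact hP hS
        · have k1 : ∀ T : Finset α, ¬ T.card < r → ¬ S T → T ⊆ F ∧ ¬ M.Spanning (T : Set α) := by
            intro T hT hST
            by_contra hh
            apply hST
            refine ⟨by omega, fun hTF => ?_⟩
            by_contra hns
            exact hh ⟨hTF, hns⟩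
          obtain ⟨hPF, hPn⟩ := k1 P h1 hP
          obtain ⟨hQF, hQn⟩ := k1 Q h1' hQ
          exact glue_on M hE hr hp hPF hPn hQn hc (hS.2 (Finset.union_subset hPF hQF))
  have hIX : ∀ A, A ⊆ F → (I A ↔ X A) := by
    intro A hA
    constructor
    · rintro (h1 | h1)
      · exact h1.2
      · exact absurd hA h1.1
    · intro h1
      exact Or.inl ⟨hA, h1⟩
  have hSM : ∀ A, A ⊆ F → (S A ↔ M.Spanning (A : Set α)) := by
    intro A hA
    constructor
    · intro h1
      exact h1.2 hA
    · intro h1
      exact ⟨hB.sle h1, fun _ => h1⟩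
  have h1 := core hBI hPav hef heG hfG (fun z hz => by
    rw [Qf_congr z hIX]
    exact hI z hz) hz
  rw [Qf_congr z hSM] at h1
  exact h1

end matroid

end Pool.IS
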