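import Pool.Agent.IS.Ray
import Pool.Agent.IS.Par

/-!
# Both hypotheses (bases, independent sets) for matroids whose simplification is paving
-/

set_option autoImplicit false
open Classical

namespace Pool.IS

variable {α : Type*} [DecidableEq α] [Fintype α]

theorem bi_base (M : Matroid α) (hE : M.E = Set.univ) {r : ℕ} (hr : M.eRank = r) :
    BI r (fun A : Finset α => M.IsBase (A : Set α))
      (fun A : Finset α => M.Spanning (A : Set α)) := by
  refine ⟨?_, (bi_of_matroid M hE hr).sle, ?_⟩
  · intro A hA
    exact ((base_iff M hE hr A).mp hA).2.le
  · intro A hA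
    constructor
    · intro h
      exact ((base_iff M hE hr A).mp h).1
    · intro h
      exact (base_iff M hE hr A).mpr ⟨h, hA⟩

end Pool.IS
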