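import Pool.Agent.IS.Mat

/-!
# Paving matroids: the theorem with the hypothesis on bases, and its converse
-/

set_option autoImplicit false
open Classical

namespace Pool.IS

section Pure

variable {α : Type*} [DecidableEq α] {r : ℕ} {B S : Finset α → Prop} {e f : α}

/-- the pair functions of bases and of spanning sets -/
theorem phi_base (sle : ∀ {A : Finset α}, S A → r ≤ A.card)
    (hb : ∀ A : Finset α, B A ↔ S A ∧ A.card = r) {P Q : Finset α} (hef : e ≠ f) (heP : e ∉ P)
    (hfP : f ∉ P) (hfQ : f ∉ Q) :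
    phi B e f P Q = if P.card + Q.card + 2 = 2 * r then phi S e f P Q else 0 := by
  have c1 : (insert e P).card = P.card + 1 := Finset.card_insert_of_notMem heP
  have c2 : (insert f Q).card = Q.card + 1 := Finset.card_insert_of_notMem hfQ
  have c3 : (insert f P).card = P.card + 1 := Finset.card_insert_of_notMem hfP
  have c4 : (insert e (insert f P)).card = P.card + 2 := by
    rw [Finset.card_insert_of_notMem, c3]
    simp [hef, heP]
  by_cases hc : P.card + Q.card + 2 = 2 * r
  · rw [if_pos hc]
    unfold phi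
    congr 1
    · apply indR_congr
      constructor
      · rintro ⟨h1, h2⟩
        exact ⟨((hb _).mp h1).1, ((hb _).mp h2).1⟩
      · rintro ⟨h1, h2⟩
        have g1 := sle h1
        have g2 := sle h2
        exact ⟨(hb _).mpr ⟨h1, by omega⟩, (hb _).mpr ⟨h2, by omega⟩⟩
    · apply indR_congr
      constructor
      · rintro ⟨h1, h2⟩
        exact ⟨((hb _).mp h1).1, ((hb _).mp h2).1⟩
      · rintro ⟨h1, h2⟩
        have g1 := sle h1
        have g2 := sle h2
        exact ⟨(hb _).mpr ⟨h1, by omega⟩, (hb _).mpr ⟨h2, by omega⟩⟩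
  · rw [if_neg hc]
    unfold phi
    rw [indR_false, indR_false, sub_zero]
    · rintro ⟨h1, h2⟩
      have g1 := ((hb _).mp h1).2
      have g2 := ((hb _).mp h2).2
      omega
    · rintro ⟨h1, h2⟩
      have g1 := ((hb _).mp h1).2
      have g2 := ((hb _).mp h2).2
      omega

theorem phi_S_zero (sle : ∀ {A : Finset α}, S A → r ≤ A.card) {P Q : Finset α} (hef : e ≠ f)
    (heP : e ∉ P) (hfP : f ∉ P) (hfQ : f ∉ Q) (hc : P.card + Q.card + 2 < 2 * r) :
    phi S e f P Q = 0 := by
  have c1 : (insert e P).card = P.card + 1 := Finset.card_insert_of_notMem heP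
  have c2 : (insert f Q).card = Q.card + 1 := Finset.card_insert_of_notMem hfQ
  have c3 : (insert f P).card = P.card + 1 := Finset.card_insert_of_notMem hfP
  have c4 : (insert e (insert f P)).card = P.card + 2 := by
    rw [Finset.card_insert_of_notMem, c3]
    simp [hef, heP]
  unfold phi
  rw [indR_false, indR_false, sub_zero]
  · rintro ⟨h1, h2⟩
    have g1 := sle h1
    have g2 := sle h2
    omega
  · rintro ⟨h1, h2⟩
    have g1 := sle h1
    have g2 := sle h2
    omega

/-- the inequality for bases is the lowest part of the inequality for spanning sets -/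
theorem base_of_span (sle : ∀ {A : Finset α}, S A → r ≤ A.card)
    (hb : ∀ A : Finset α, B A ↔ S A ∧ A.card = r) (hef : e ≠ f) {G : Finset α} (heG : e ∉ G)
    (hfG : f ∉ G)
    (hS : ∀ z : α → ℝ, (∀ x, 0 < z x) →
      0 ≤ ∑ P ∈ G.powerset, ∑ Q ∈ G.powerset, zp z P * zp z Q * phi S e f P Q)
    {z : α → ℝ} (hz : ∀ x, 0 < z x) :
    0 ≤ ∑ P ∈ G.powerset, ∑ Q ∈ G.powerset, zp z P * zp z Q * phi B e f P Q := by
  let F : ℝ → ℝ := fun x => ∑ P ∈ G.powerset, ∑ Q ∈ G.powerset,
    zp z P * zp z Q * phi S e f P Q * x ^ (P.card + Q.card + 2 - 2 * r)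
  have hFpos : ∀ x : ℝ, 0 < x → 0 ≤ F x := by
    intro x hx
    have h1 := hS (fun y => z y * x ^ 1) (fun y => mul_pos (hz y) (pow_pos hx _))
    have h2 : x ^ (2 * r) * F x = x ^ 2 * ∑ P ∈ G.powerset, ∑ Q ∈ G.powerset,
        zp (fun y => z y * x ^ 1) P * zp (fun y => z y * x ^ 1) Q * phi S e f P Q := by
      rw [Finset.mul_sum, Finset.mul_sum]
      apply Finset.sum_congr rfl
      intro P hP
      rw [Finset.mul_sum, Finset.mul_sum]
      apply Finset.sum_congr rfl
      intro Q hQ
      rw [Finset.mem_powerset] at hP hQ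
      have e1 := zp_scale z x (fun _ => 1) P
      have e2 := zp_scale z x (fun _ => 1) Q
      rw [e1, e2, Finset.sum_const, Finset.sum_const, smul_eq_mul, smul_eq_mul, mul_one, mul_one]
      by_cases hc : P.card + Q.card + 2 < 2 * r
      · rw [phi_S_zero sle hef (fun hh => heG (hP hh)) (fun hh => hfG (hP hh))
          (fun hh => hfG (hQ hh)) hc]
        ring
      · have e3 : x ^ (2 * r) * x ^ (P.card + Q.card + 2 - 2 * r) =
            x ^ 2 * (x ^ P.card * x ^ Q.card) := by
          rw [← pow_add, ← pow_add, ← pow_add]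
          congr 1
          omega
        calc x ^ (2 * r) * (zp z P * zp z Q * phi S e f P Q * x ^ (P.card + Q.card + 2 - 2 * r)) =
            (x ^ (2 * r) * x ^ (P.card + Q.card + 2 - 2 * r)) * (zp z P * zp z Q * phi S e f P Q) := by
              ring
          _ = _ := by
            rw [e3]
            ring
    have h3 : 0 ≤ x ^ (2 * r) * F x := by
      rw [h2]
      exact mul_nonneg (pow_pos hx _).le h1
    exact nonneg_of_mul_nonneg_right h3 (pow_pos hx _)
  have hF0 : 0 ≤ F 0 := by
    have hcont : Continuous F := by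
      apply continuous_finsetSum
      intro A _
      apply continuous_finsetSum
      intro B _
      exact continuous_const.mul (continuous_pow _)
    have ht : Filter.Tendsto F (nhdsWithin 0 (Set.Ioi 0)) (nhds (F 0)) :=
      (hcont.tendsto 0).mono_left nhdsWithin_le_nhds
    apply ge_of_tendsto ht
    filter_upwards [self_mem_nhdsWithin] with x hx
    exact hFpos x hx
  have hF0' : F 0 = ∑ P ∈ G.powerset, ∑ Q ∈ G.powerset, zp z P * zp z Q * phi B e f P Q := by
    apply Finset.sum_congr rfl
    intro P hP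
    apply Finset.sum_congr rfl
    intro Q hQ
    rw [Finset.mem_powerset] at hP hQ
    rw [phi_base sle hb hef (fun hh => heG (hP hh)) (fun hh => hfG (hP hh))
      (fun hh => hfG (hQ hh))]
    by_cases hc : P.card + Q.card + 2 < 2 * r
    · rw [phi_S_zero sle hef (fun hh => heG (hP hh)) (fun hh => hfG (hP hh))
        (fun hh => hfG (hQ hh)) hc]
      simp
    · by_cases hc' : P.card + Q.card + 2 = 2 * r
      · rw [if_pos hc', hc', Nat.sub_self, pow_zero, mul_one]
      · rw [if_neg hc', zero_pow (by omega), mul_zero, mul_zero]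
  rw [← hF0']
  exact hF0

end Pure

variable {α : Type*} [DecidableEq α] [Fintype α]

theorem base_iff (M : Matroid α) (hE : M.E = Set.univ) {r : ℕ} (hr : M.eRank = r) (A : Finset α) :
    M.IsBase (A : Set α) ↔ M.Spanning (A : Set α) ∧ A.card = r := by
  constructor
  · intro h
    refine ⟨h.spanning, ?_⟩
    have h1 := h.encard_eq_eRank
    rw [hr, encard_coe] at h1
    exact_mod_cast h1
  · rintro ⟨h1, h2⟩
    have h3 := ((bi_of_matroid M hE hr).iff h2).mpr h1
    apply h3.isBase_of_eRk_ge A.finite_toSet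
    rw [h3.eRk_eq_encard, hr, encard_coe, h2]

omit [DecidableEq α] in
theorem finrank (M : Matroid α) (hE : M.E = Set.univ) : ∃ r : ℕ, M.eRank = r := by
  have hfin : M.eRank ≠ ⊤ := by
    have h1 := M.eRank_le_encard_ground
    intro hh
    rw [hh, hE, top_le_iff, Set.encard_eq_top_iff] at h1
    exact h1 Set.finite_univ
  obtain ⟨r, hr⟩ := ENat.ne_top_iff_exists.mp hfin
  exact ⟨r, hr.symm⟩

/-- the spanning inequality (for all weights) implies the one for bases -/
theorem ray_of_span (M : Matroid α) (hE : M.E = Set.univ) {e f : α} (hef : e ≠ f)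
    (hS : ∀ z : α → ℝ, (∀ x, 0 < z x) →
      (∑ A : Finset α, if M.Spanning (A : Set α) ∧ e ∈ A ∧ f ∈ A then ∏ a ∈ A, z a else 0) *
        (∑ A : Finset α, if M.Spanning (A : Set α) then ∏ a ∈ A, z a else 0) ≤
      (∑ A : Finset α, if M.Spanning (A : Set α) ∧ e ∈ A then ∏ a ∈ A, z a else 0) *
        (∑ A : Finset α, if M.Spanning (A : Set α) ∧ f ∈ A then ∏ a ∈ A, z a else 0))
    {z : α → ℝ} (hz : ∀ x, 0 < z x) :
    (∑ A : Finset α, if M.IsBase (A : Set α) ∧ e ∈ A ∧ f ∈ A then ∏ a ∈ A, z a else 0) *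
        (∑ A : Finset α, if M.IsBase (A : Set α) then ∏ a ∈ A, z a else 0) ≤
      (∑ A : Finset α, if M.IsBase (A : Set α) ∧ e ∈ A then ∏ a ∈ A, z a else 0) *
        (∑ A : Finset α, if M.IsBase (A : Set α) ∧ f ∈ A then ∏ a ∈ A, z a else 0) := by
  obtain ⟨r, hr⟩ := finrank M hE
  have heG : e ∉ ((Finset.univ : Finset α).erase e).erase f :=
    fun hh => Finset.notMem_erase e _ (Finset.mem_of_mem_erase hh)
  have hfG : f ∉ ((Finset.univ : Finset α).erase e).erase f := Finset.notMem_erase _ _
  apply (corr_iff hef (fun A : Finset α => M.IsBase (A : Set α)) hz).mpr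
  have h1 := base_of_span (S := fun A : Finset α => M.Spanning (A : Set α))
    (bi_of_matroid M hE hr).sle (base_iff M hE hr) hef heG hfG ?_ hz
  · rw [← diff_phi] at h1
    exact h1
  · intro z hz
    rw [← diff_phi]
    exact (corr_iff hef (fun A : Finset α => M.Spanning (A : Set α)) hz).mp (hS z hz)

/-- the theorem with the hypothesis on bases, from all instances of KEY -/
theorem paving_ray (hK : KEYall α) (M : Matroid α) (hE : M.E = Set.univ)
    (hp : ∀ C, M.IsCircuit C → M.eRank ≤ C.encard) {e f : α} (hef : e ≠ f)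
    (hI : ∀ z : α → ℝ, (∀ x, 0 < z x) →
      (∑ A : Finset α, if M.IsBase (A : Set α) ∧ e ∈ A ∧ f ∈ A then ∏ a ∈ A, z a else 0) *
        (∑ A : Finset α, if M.IsBase (A : Set α) then ∏ a ∈ A, z a else 0) ≤
      (∑ A : Finset α, if M.IsBase (A : Set α) ∧ e ∈ A then ∏ a ∈ A, z a else 0) *
        (∑ A : Finset α, if M.IsBase (A : Set α) ∧ f ∈ A then ∏ a ∈ A, z a else 0))
    {z : α → ℝ} (hz : ∀ x, 0 < z x) :
    (∑ A : Finset α, if M.Spanning (A : Set α) ∧ e ∈ A ∧ f ∈ A then ∏ a ∈ A, z a else 0) *
        (∑ A : Finset α, if M.Spanning (A : Set α) then ∏ a ∈ A, z a else 0) ≤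
      (∑ A : Finset α, if M.Spanning (A : Set α) ∧ e ∈ A then ∏ a ∈ A, z a else 0) *
        (∑ A : Finset α, if M.Spanning (A : Set α) ∧ f ∈ A then ∏ a ∈ A, z a else 0) := by
  obtain ⟨r, hr⟩ := finrank M hE
  have hB : BI r (fun A : Finset α => M.IsBase (A : Set α))
      (fun A : Finset α => M.Spanning (A : Set α)) := by
    refine ⟨?_, (bi_of_matroid M hE hr).sle, ?_⟩
    · intro A hA
      exact ((base_iff M hE hr A).mp hA).2.le
    · intro A hA
      constructor
      · intro h
        exact ((base_iff M hE hr A).mp h).1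
      · intro h
        exact (base_iff M hE hr A).mpr ⟨h, hA⟩
  have hP := pav_of_matroid M hE hr hp
  set G := ((Finset.univ : Finset α).erase e).erase f with hG
  have heG : e ∉ G := fun hh => Finset.notMem_erase e _ (Finset.mem_of_mem_erase hh)
  have hfG : f ∉ G := Finset.notMem_erase _ _
  have hIG : ∀ z : α → ℝ, (∀ x, 0 < z x) →
      0 ≤ ∑ A ∈ G.powerset, ∑ B ∈ G.powerset,
        zp z A * zp z B * phi (fun A : Finset α => M.IsBase (A : Set α)) e f A B := by
    intro z hz
    have h1 := (corr_iff hef (fun A : Finset α => M.IsBase (A : Set α)) hz).mp (hI z hz)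
    rw [← diff_phi]
    exact h1
  have hsub : ∀ X : Finset α, e ∉ X → f ∉ X → X ⊆ G := by
    intro X h1 h2 x hx
    rw [hG, Finset.mem_erase, Finset.mem_erase]
    refine ⟨?_, ?_, Finset.mem_univ _⟩
    · rintro rfl
      exact h2 hx
    · rintro rfl
      exact h1 hx
  have hD : ∀ d, 2 * r ≤ d + 2 →
      0 ≤ DD r (fun A : Finset α => ¬ M.Spanning (A : Set α)) e f z d ∅ G := by
    intro d hd
    apply DD_nonneg hP hK hef hz ?_ G.card ∅ G rfl (Finset.disjoint_empty_left _) (by simp)
      (by simp) heG hfG d (by simpa using hd)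
    intro W R hWR heW hfW heR hfR hW
    exact base_nonneg hB hef heG hfG hIG (hsub W heW hfW) (hsub R heR hfR) hWR hW hz
  have h2 := total_nonneg hP hz G hD
  apply (corr_iff hef (fun A : Finset α => M.Spanning (A : Set α)) hz).mpr
  have h3 := diff_phi (fun A : Finset α => M.Spanning (A : Set α)) z G e f
  simp only [not_not] at h2
  rw [← h3] at h2
  exact h2

end Pool.IS
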