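import Pool.Agent.IS.Defs

/-!
# Reduction of the main lemma (ML) to the counting inequality KEY
-/

set_option autoImplicit false
open Classical

namespace Pool.IS

variable {α : Type*} [DecidableEq α]

/-- indicator of a proposition as an integer -/
noncomputable def ind (p : Prop) : ℤ := if p then 1 else 0

theorem ind_true {p : Prop} (h : p) : ind p = 1 := if_pos h
theorem ind_false {p : Prop} (h : ¬ p) : ind p = 0 := if_neg h
theorem ind_nonneg (p : Prop) : 0 ≤ ind p := by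
  unfold ind
  split_ifs <;> norm_num
theorem ind_le_one (p : Prop) : ind p ≤ 1 := by
  unfold ind
  split_ifs <;> norm_num
theorem ind_mono {p q : Prop} (h : p → q) : ind p ≤ ind q := by
  by_cases hp : p
  · rw [ind_true hp, ind_true (h hp)]
  · rw [ind_false hp]
    exact ind_nonneg q

theorem ind_congr {p q : Prop} (h : p ↔ q) : ind p = ind q := by
  unfold ind
  by_cases hp : p
  · rw [if_pos hp, if_pos (h.mp hp)]
  · rw [if_neg hp, if_neg (fun hq => hp (h.mpr hq))]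

theorem card_filter_ind {β : Type*} (s : Finset β) (p : β → Prop) [DecidablePred p] :
    ((s.filter p).card : ℤ) = ∑ x ∈ s, ind (p x) := by
  unfold ind
  rw [Finset.card_filter]
  push_cast
  apply Finset.sum_congr rfl
  intro x _
  by_cases hx : p x
  · rw [if_pos hx, if_pos hx]
  · rw [if_neg hx, if_neg hx]

/-- the coefficient `c(U)` of the correlation difference -/
noncomputable def cc (a b g n : Finset α → Prop) (U : Finset α) : ℤ :=
  ∑ A ∈ U.powerset, (ind (¬ a A ∧ ¬ b (U \ A)) - ind (¬ g A ∧ ¬ n (U \ A)))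

/-- nonspanning as forced by size and the blocks through `e` or `f` -/
def nz (r : ℕ) (a b : Finset α → Prop) (A : Finset α) : Prop := A.card < r ∨ a A ∨ b A

theorem sum_erase_powerset {M : Type*} [AddCommMonoid M] (U : Finset α) (F : Finset α → α → M) :
    ∑ y ∈ U, ∑ A ∈ (U.erase y).powerset, F A y = ∑ A ∈ U.powerset, ∑ y ∈ U \ A, F A y := by
  apply Finset.sum_comm'
  intro y A
  simp only [Finset.mem_powerset, Finset.mem_sdiff]
  constructor
  · rintro ⟨h1, h2⟩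
    refine ⟨⟨h1, ?_⟩, h2.trans (Finset.erase_subset _ _)⟩
    intro h3
    exact (Finset.mem_erase.mp (h2 h3)).1 rfl
  · rintro ⟨⟨h1, h2⟩, h3⟩
    refine ⟨h1, ?_⟩
    intro x hx
    rw [Finset.mem_erase]
    refine ⟨?_, h3 hx⟩
    rintro rfl
    exact h2 hx

theorem erase_sdiff' (U A : Finset α) (y : α) : (U.erase y) \ A = (U \ A).erase y := by
  ext x
  simp only [Finset.mem_sdiff, Finset.mem_erase]
  tauto

theorem sum_compl_powerset {M : Type*} [AddCommMonoid M] (U : Finset α) (F : Finset α → M) :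
    ∑ A ∈ U.powerset, F (U \ A) = ∑ A ∈ U.powerset, F A := by
  apply Finset.sum_bij' (fun A _ => U \ A) (fun A _ => U \ A)
  · intro A _
    exact Finset.mem_powerset.mpr Finset.sdiff_subset
  · intro A _
    exact Finset.mem_powerset.mpr Finset.sdiff_subset
  · intro A hA
    exact Finset.sdiff_sdiff_eq_self (Finset.mem_powerset.mp hA)
  · intro A hA
    exact Finset.sdiff_sdiff_eq_self (Finset.mem_powerset.mp hA)
  · intro A _
    rfl

theorem sum_insert_powerset {M : Type*} [AddCommMonoid M] (U : Finset α) (F : Finset α → α → M) :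
    ∑ X ∈ U.powerset, ∑ y ∈ U \ X, F (insert y X) y = ∑ X ∈ U.powerset, ∑ y ∈ X, F X y := by
  rw [Finset.sum_sigma', Finset.sum_sigma']
  refine Finset.sum_bij' (fun p _ => (⟨insert p.2 p.1, p.2⟩ : (_ : Finset α) × α))
    (fun p _ => (⟨p.1.erase p.2, p.2⟩ : (_ : Finset α) × α)) ?_ ?_ ?_ ?_ ?_
  · rintro ⟨X, y⟩ h
    simp only [Finset.mem_sigma, Finset.mem_powerset, Finset.mem_sdiff] at h ⊢
    exact ⟨Finset.insert_subset h.2.1 h.1, Finset.mem_insert_self _ _⟩
  · rintro ⟨X, y⟩ h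
    simp only [Finset.mem_sigma, Finset.mem_powerset, Finset.mem_sdiff] at h ⊢
    exact ⟨(Finset.erase_subset _ _).trans h.1, h.1 h.2, Finset.notMem_erase _ _⟩
  · rintro ⟨X, y⟩ h
    simp only [Finset.mem_sigma, Finset.mem_powerset, Finset.mem_sdiff] at h ⊢
    rw [Finset.erase_insert h.2.2]
  · rintro ⟨X, y⟩ h
    simp only [Finset.mem_sigma, Finset.mem_powerset] at h ⊢
    rw [Finset.insert_erase h.2]
  · rintro ⟨X, y⟩ h
    rfl

variable {r : ℕ} {U : Finset α} {a b g n : Finset α → Prop}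

/-- the difference of the two sides of ML, written with `κ` -/
theorem cc_eq (a b g n : Finset α → Prop) (U : Finset α) :
    cc a b g n U = ∑ A ∈ U.powerset, ind (¬ a A ∧ ¬ b (U \ A)) -
      ∑ B ∈ U.powerset, ind (¬ g (U \ B)) * ind (¬ n B) := by
  unfold cc
  rw [Finset.sum_sub_distrib]
  congr 1
  rw [← sum_compl_powerset]
  apply Finset.sum_congr rfl
  intro B hB
  rw [Finset.sdiff_sdiff_eq_self (Finset.mem_powerset.mp hB)]
  unfold ind
  by_cases h1 : g (U \ B) <;> by_cases h2 : n B <;> simp [h1, h2]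

/-- removing the blocks through neither `e` nor `f` decreases the ML difference -/
theorem step1 (h : Sys r U a b g) (hr : 1 ≤ r) (hn : ∀ A ⊆ U, nz r a b A → n A) :
    ((U.card : ℤ) + 1 - r) * cc a b g (nz r a b) U - ∑ y ∈ U, cc a b g (nz r a b) (U.erase y) ≤
      ((U.card : ℤ) + 1 - r) * cc a b g n U - ∑ y ∈ U, cc a b g n (U.erase y) := by
  have key : ∀ n' : Finset α → Prop,
      ((U.card : ℤ) + 1 - r) * cc a b g n' U - ∑ y ∈ U, cc a b g n' (U.erase y) =
      (((U.card : ℤ) + 1 - r) * ∑ A ∈ U.powerset, ind (¬ a A ∧ ¬ b (U \ A)) -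
        ∑ y ∈ U, ∑ A ∈ (U.erase y).powerset, ind (¬ a A ∧ ¬ b ((U.erase y) \ A))) -
      ∑ B ∈ U.powerset, ind (¬ n' B) * (((U.card : ℤ) + 1 - r) * ind (¬ g (U \ B)) -
        ∑ y ∈ U \ B, ind (¬ g ((U \ B).erase y))) := by
    intro n'
    have e1 : ∑ y ∈ U, cc a b g n' (U.erase y) =
        ∑ y ∈ U, ∑ A ∈ (U.erase y).powerset, ind (¬ a A ∧ ¬ b ((U.erase y) \ A)) -
        ∑ B ∈ U.powerset, ∑ y ∈ U \ B, ind (¬ g ((U \ B).erase y)) * ind (¬ n' B) := by
      rw [← sum_erase_powerset U (fun B y => ind (¬ g ((U \ B).erase y)) * ind (¬ n' B)),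
        ← Finset.sum_sub_distrib]
      apply Finset.sum_congr rfl
      intro y _
      rw [cc_eq]
      congr 1
      apply Finset.sum_congr rfl
      intro B _
      rw [erase_sdiff']
    rw [e1, cc_eq, mul_sub]
    have e2 : ∑ B ∈ U.powerset, ind (¬ n' B) * (((U.card : ℤ) + 1 - r) * ind (¬ g (U \ B)) -
        ∑ y ∈ U \ B, ind (¬ g ((U \ B).erase y))) =
        ((U.card : ℤ) + 1 - r) * ∑ B ∈ U.powerset, ind (¬ g (U \ B)) * ind (¬ n' B) -
        ∑ B ∈ U.powerset, ∑ y ∈ U \ B, ind (¬ g ((U \ B).erase y)) * ind (¬ n' B) := by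
      rw [Finset.mul_sum, ← Finset.sum_sub_distrib]
      apply Finset.sum_congr rfl
      intro B _
      rw [mul_sub, Finset.mul_sum]
      congr 1
      · ring
      · apply Finset.sum_congr rfl
        intro y _
        ring
    rw [e2]
    ring
  rw [key, key]
  apply sub_le_sub_left
  apply Finset.sum_le_sum
  intro B hB
  rw [Finset.mem_powerset] at hB
  by_cases hBr : B.card < r
  · rw [ind_false (p := ¬ n B), ind_false (p := ¬ nz r a b B)]
    · exact fun hh => hh (Or.inl hBr)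
    · exact fun hh => hh (hn B hB (Or.inl hBr))
  · apply mul_le_mul_of_nonneg_right
    · exact ind_mono (fun hh hz => hh (hn B hB hz))
    · rw [sub_nonneg]
      by_cases hg : g (U \ B)
      · rw [ind_false (p := ¬ g (U \ B)) (fun hh => hh hg), mul_zero]
        apply le_of_eq
        apply Finset.sum_eq_zero
        intro y _
        apply ind_false
        intro hh
        exact hh (h.gm (Finset.erase_subset _ _) Finset.sdiff_subset hg)
      · rw [ind_true (p := ¬ g (U \ B)) hg, mul_one]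
        calc ∑ y ∈ U \ B, ind (¬ g ((U \ B).erase y)) ≤ ∑ y ∈ U \ B, (1 : ℤ) :=
              Finset.sum_le_sum (fun y _ => ind_le_one _)
          _ = ((U \ B).card : ℤ) := by simp
          _ ≤ (U.card : ℤ) + 1 - r := by
            have h1 := Finset.card_sdiff_add_card_eq_card hB
            push Not at hBr
            omega

/-- the three-term form of `c(U)` without blocks avoiding `e` and `f` -/
noncomputable def psi (r : ℕ) (a b g : Finset α → Prop) (A B : Finset α) : ℤ :=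
  ind (isE r a g A ∧ isE r b g B) + ind (A.card + 1 = r ∧ ¬ a A ∧ ¬ b A ∧ ¬ g B) -
    ind (A.card + 2 = r ∧ ¬ g A ∧ ¬ nz r a b B)

theorem state4 (aA bA gA : Prop) (h1 : aA → bA → gA) (h2 : gA → aA) (h3 : gA → bA) :
    (¬ aA ∧ ¬ bA ∧ ¬ gA) ∨ (aA ∧ ¬ bA ∧ ¬ gA) ∨ (¬ aA ∧ bA ∧ ¬ gA) ∨ (aA ∧ bA ∧ gA) := by
  by_cases b3 : gA
  · exact Or.inr (Or.inr (Or.inr ⟨h2 b3, h3 b3, b3⟩))
  · by_cases b1 : aA
    · by_cases b2 : bA
      · exact absurd (h1 b1 b2) b3
      · exact Or.inr (Or.inl ⟨b1, b2, b3⟩)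
    · by_cases b2 : bA
      · exact Or.inr (Or.inr (Or.inl ⟨b1, b2, b3⟩))
      · exact Or.inl ⟨b1, b2, b3⟩

theorem psi_symm_aux (r x y : ℕ) (aA bA gA aB bB gB : Prop) (hr : 1 ≤ r) (hm : 2 * r ≤ x + y + 2)
    (h1 : r ≤ x + 1 → aA → bA → gA) (h2 : gA → aA) (h3 : gA → bA) (h4 : x + 1 < r → aA)
    (h5 : x + 1 < r → bA) (h6 : x + 2 < r → gA)
    (k1 : r ≤ y + 1 → aB → bB → gB) (k2 : gB → aB) (k3 : gB → bB) (k4 : y + 1 < r → aB)
    (k5 : y + 1 < r → bB) (k6 : y + 2 < r → gB) :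
    (ind (¬ aA ∧ ¬ bB) - ind (¬ gA ∧ ¬ (y < r ∨ aB ∨ bB))) +
    (ind (¬ aB ∧ ¬ bA) - ind (¬ gB ∧ ¬ (x < r ∨ aA ∨ bA))) =
    (ind ((r ≤ x + 1 ∧ aA ∧ ¬ gA) ∧ (r ≤ y + 1 ∧ bB ∧ ¬ gB)) +
      ind (x + 1 = r ∧ ¬ aA ∧ ¬ bA ∧ ¬ gB) - ind (x + 2 = r ∧ ¬ gA ∧ ¬ (y < r ∨ aB ∨ bB))) +
    (ind ((r ≤ y + 1 ∧ aB ∧ ¬ gB) ∧ (r ≤ x + 1 ∧ bA ∧ ¬ gA)) +
      ind (y + 1 = r ∧ ¬ aB ∧ ¬ bB ∧ ¬ gA) - ind (y + 2 = r ∧ ¬ gB ∧ ¬ (x < r ∨ aA ∨ bA))) := by
  rcases lt_trichotomy (x + 2) r with hx | hx | hx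
  · -- x ≤ r - 3
    have a1 := h4 (by omega)
    have a2 := h5 (by omega)
    have a3 := h6 hx
    have e1 : ¬ (y + 1 = r) := by omega
    have e2 : ¬ (y + 2 = r) := by omega
    have e3 : ¬ (x + 1 = r) := by omega
    have e4 : ¬ (x + 2 = r) := by omega
    simp [ind, a1, a2, a3, e1, e2, e3, e4]
  · -- x = r - 2
    have a1 := h4 (by omega)
    have a2 := h5 (by omega)
    have e1 : ¬ (y + 1 = r) := by omega
    have e2 : ¬ (y + 2 = r) := by omega
    have e3 : ¬ (x + 1 = r) := by omega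
    have e5 : ¬ (r ≤ x + 1) := by omega
    simp [ind, a1, a2, e1, e2, e3, e5, hx]
  · rcases lt_trichotomy (y + 2) r with hy | hy | hy
    · have a1 := k4 (by omega)
      have a2 := k5 (by omega)
      have a3 := k6 hy
      have e1 : ¬ (y + 1 = r) := by omega
      have e2 : ¬ (y + 2 = r) := by omega
      have e3 : ¬ (x + 1 = r) := by omega
      have e4 : ¬ (x + 2 = r) := by omega
      simp [ind, a1, a2, a3, e1, e2, e3, e4]
    · have a1 := k4 (by omega)
      have a2 := k5 (by omega)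
      have e1 : ¬ (y + 1 = r) := by omega
      have e3 : ¬ (x + 1 = r) := by omega
      have e4 : ¬ (x + 2 = r) := by omega
      have e5 : ¬ (r ≤ y + 1) := by omega
      simp [ind, a1, a2, e1, e3, e4, e5, hy]
    · have hx1 : r ≤ x + 1 := by omega
      have hy1 : r ≤ y + 1 := by omega
      have e1 : ¬ (x + 2 = r) := by omega
      have e2 : ¬ (y + 2 = r) := by omega
      have p1 := h1 hx1
      have q1 := k1 hy1
      have sA := state4 aA bA gA p1 h2 h3
      have sB := state4 aB bB gB q1 k2 k3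
      clear h1 h2 h3 h4 h5 h6 k1 k2 k3 k4 k5 k6 p1 q1
      by_cases hx2 : x + 1 = r
      · have hx3 : x < r := by omega
        by_cases hy2 : y + 1 = r
        · have hy3 : y < r := by omega
          rcases sA with ⟨b1, b2, b3⟩ | ⟨b1, b2, b3⟩ | ⟨b1, b2, b3⟩ | ⟨b1, b2, b3⟩ <;>
          rcases sB with ⟨b4, b5, b6⟩ | ⟨b4, b5, b6⟩ | ⟨b4, b5, b6⟩ | ⟨b4, b5, b6⟩ <;>
          simp only [ind, e1, e2, hx1, hy1, hx2, hy2, hx3, hy3, b1, b2, b3, b4, b5, b6] <;> simp
        · have hy3 : ¬ (y < r) := by omega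
          rcases sA with ⟨b1, b2, b3⟩ | ⟨b1, b2, b3⟩ | ⟨b1, b2, b3⟩ | ⟨b1, b2, b3⟩ <;>
          rcases sB with ⟨b4, b5, b6⟩ | ⟨b4, b5, b6⟩ | ⟨b4, b5, b6⟩ | ⟨b4, b5, b6⟩ <;>
          simp only [ind, e1, e2, hx1, hy1, hx2, hy2, hx3, hy3, b1, b2, b3, b4, b5, b6] <;> simp
      · have hx3 : ¬ (x < r) := by omega
        by_cases hy2 : y + 1 = r
        · have hy3 : y < r := by omega
          rcases sA with ⟨b1, b2, b3⟩ | ⟨b1, b2, b3⟩ | ⟨b1, b2, b3⟩ | ⟨b1, b2, b3⟩ <;>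
          rcases sB with ⟨b4, b5, b6⟩ | ⟨b4, b5, b6⟩ | ⟨b4, b5, b6⟩ | ⟨b4, b5, b6⟩ <;>
          simp only [ind, e1, e2, hx1, hy1, hx2, hy2, hx3, hy3, b1, b2, b3, b4, b5, b6] <;> simp
        · have hy3 : ¬ (y < r) := by omega
          rcases sA with ⟨b1, b2, b3⟩ | ⟨b1, b2, b3⟩ | ⟨b1, b2, b3⟩ | ⟨b1, b2, b3⟩ <;>
          rcases sB with ⟨b4, b5, b6⟩ | ⟨b4, b5, b6⟩ | ⟨b4, b5, b6⟩ | ⟨b4, b5, b6⟩ <;>
          simp only [ind, e1, e2, hx1, hy1, hx2, hy2, hx3, hy3, b1, b2, b3, b4, b5, b6] <;> simp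

end Pool.IS
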