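import Pool.Agent.IS.Red

/-!
# Reduction of the main lemma (ML) to the counting inequality KEY, second part
-/

set_option autoImplicit false
open Classical

namespace Pool.IS

variable {α : Type*} [DecidableEq α]
variable {r : ℕ} {U : Finset α} {a b g n : Finset α → Prop}

theorem cc_psi (h : Sys r U a b g) (hr : 1 ≤ r) (hm : 2 * r ≤ U.card + 2) :
    cc a b g (nz r a b) U = ∑ A ∈ U.powerset, psi r a b g A (U \ A) := by
  have e1 : ∀ F : Finset α → Finset α → ℤ,
      ∑ A ∈ U.powerset, (F A (U \ A) + F (U \ A) A) = 2 * ∑ A ∈ U.powerset, F A (U \ A) := by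
    intro F
    rw [Finset.sum_add_distrib, two_mul]
    congr 1
    rw [← sum_compl_powerset U (fun A => F A (U \ A))]
    apply Finset.sum_congr rfl
    intro A hA
    rw [Finset.sdiff_sdiff_eq_self (Finset.mem_powerset.mp hA)]
  have e2 : 2 * cc a b g (nz r a b) U = 2 * ∑ A ∈ U.powerset, psi r a b g A (U \ A) := by
    rw [cc, ← e1 (fun A B => ind (¬ a A ∧ ¬ b B) - ind (¬ g A ∧ ¬ nz r a b B)),
      ← e1 (fun A B => psi r a b g A B)]
    apply Finset.sum_congr rfl
    intro A hA
    rw [Finset.mem_powerset] at hA
    have hB : U \ A ⊆ U := Finset.sdiff_subset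
    have hc := Finset.card_sdiff_add_card_eq_card hA
    apply psi_symm_aux r A.card (U \ A).card (a A) (b A) (g A) (a (U \ A)) (b (U \ A)) (g (U \ A))
      hr (by omega)
    · intro h1 h2 h3
      have := h.ab hA hA h2 h3 (by rw [Finset.inter_self]; exact h1)
      rwa [Finset.union_self] at this
    · exact h.ga hA
    · exact h.gb hA
    · exact h.sa hA
    · exact h.sb hA
    · exact h.sg hA
    · intro h1 h2 h3
      have := h.ab hB hB h2 h3 (by rw [Finset.inter_self]; exact h1)
      rwa [Finset.union_self] at this
    · exact h.ga hB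
    · exact h.gb hB
    · exact h.sa hB
    · exact h.sb hB
    · exact h.sg hB
  linarith

/-- the part of `psi` coming from `R2` -/
theorem part_R (h : Sys r U a b g) (hm : 2 * r ≤ U.card + 1) :
    ((SG r U a b g).card : ℤ) ≤
      ∑ D ∈ U.powerset, ∑ y ∈ U \ D, ind (D.card + 2 = r ∧ ¬ g D ∧ ¬ nz r a b ((U \ D).erase y)) -
      ((U.card : ℤ) + 1 - r) * ∑ D ∈ U.powerset, ind (D.card + 2 = r ∧ ¬ g D ∧ ¬ nz r a b (U \ D)) := by
  have e1 : ((SG r U a b g).card : ℤ) = ∑ D ∈ U.powerset, ind (gd r U a b g (U \ D)) := by
    rw [SG, card_filter_ind, ← sum_compl_powerset]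
  rw [e1, Finset.mul_sum, ← Finset.sum_sub_distrib]
  apply Finset.sum_le_sum
  intro D hD
  rw [Finset.mem_powerset] at hD
  have hc := Finset.card_sdiff_add_card_eq_card hD
  set V := U \ D with hV
  have hVU : V ⊆ U := Finset.sdiff_subset
  have hDV : U \ V = D := by rw [hV, Finset.sdiff_sdiff_eq_self hD]
  by_cases hD2 : D.card + 2 = r ∧ ¬ g D
  · obtain ⟨h2, h3⟩ := hD2
    have e2 : ∀ W, ind (D.card + 2 = r ∧ ¬ g D ∧ ¬ nz r a b W) = ind (¬ nz r a b W) := by
      intro W
      apply ind_congr
      tauto
    simp only [e2]
    have hVc : V.card + r = U.card + 2 := by omega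
    -- sets V - y have at least r elements
    have hbig : ∀ y ∈ V, ¬ ((V.erase y).card < r) := by
      intro y hy
      rw [Finset.card_erase_of_mem hy]
      omega
    have hnz : ∀ y ∈ V, (nz r a b (V.erase y) ↔ (a (V.erase y) ∨ b (V.erase y))) := by
      intro y hy
      unfold nz
      have := hbig y hy
      tauto
    by_cases hg : gd r U a b g V
    · rw [ind_true hg]
      have e3 : ∑ y ∈ V, ind (¬ nz r a b (V.erase y)) = (V.card : ℤ) := by
        rw [Finset.card_eq_sum_ones]
        push_cast
        apply Finset.sum_congr rfl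
        intro y hy
        apply ind_true
        rw [hnz y hy]
        have := hg.2.2 y hy
        tauto
      rw [e3]
      have := ind_le_one (¬ nz r a b V)
      have hmr : (0 : ℤ) ≤ (U.card : ℤ) + 1 - r := by omega
      nlinarith
    · rw [ind_false hg]
      by_cases hv : nz r a b V
      · rw [ind_false (p := ¬ nz r a b V) (fun hh => hh hv), mul_zero, sub_zero]
        exact Finset.sum_nonneg (fun y _ => ind_nonneg _)
      · rw [ind_true hv, mul_one, sub_nonneg]
        have hva : ¬ a V := fun hh => hv (Or.inr (Or.inl hh))
        have hvb : ¬ b V := fun hh => hv (Or.inr (Or.inr hh))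
        -- there is exactly one bad y
        have hex : ∃ y ∈ V, nz r a b (V.erase y) := by
          by_contra hno
          push Not at hno
          apply hg
          refine ⟨by rw [hDV]; exact h2, by rw [hDV]; exact h3, ?_⟩
          intro v hv'
          have := hno v hv'
          rw [hnz v hv'] at this
          tauto
        obtain ⟨y0, hy0, hb0⟩ := hex
        have huniq : ∀ y ∈ V, y ≠ y0 → ¬ nz r a b (V.erase y) := by
          intro y hy hne hb1
          rw [hnz y hy] at hb1
          rw [hnz y0 hy0] at hb0
          have hin : (V.erase y ∩ V.erase y0).card + 2 = V.card := by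
            have : V.erase y ∩ V.erase y0 = (V.erase y0).erase y := by
              ext x
              simp only [Finset.mem_inter, Finset.mem_erase]
              tauto
            rw [this, Finset.card_erase_of_mem (Finset.mem_erase.mpr ⟨hne, hy⟩),
              Finset.card_erase_of_mem hy0]
            have : 2 ≤ V.card := by
              have := hbig y hy
              rw [Finset.card_erase_of_mem hy] at this
              have h2' : 1 < V.card := Finset.one_lt_card.mpr ⟨y, hy, y0, hy0, hne⟩
              omega
            omega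
          have hun : V.erase y ∪ V.erase y0 = V := by
            ext x
            simp only [Finset.mem_union, Finset.mem_erase]
            constructor
            · rintro (hh | hh)
              · exact hh.2
              · exact hh.2
            · intro hx
              by_cases hxy : x = y
              · right
                exact ⟨by rw [hxy]; exact hne, hx⟩
              · left
                exact ⟨hxy, hx⟩
          have s1 : V.erase y ⊆ U := (Finset.erase_subset _ _).trans hVU
          have s2 : V.erase y0 ⊆ U := (Finset.erase_subset _ _).trans hVU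
          rcases hb1 with h5 | h5 <;> rcases hb0 with h6 | h6
          · have := h.aa s1 s2 h5 h6 (by omega)
            rw [hun] at this
            exact hva this
          · have := h.ab s1 s2 h5 h6 (by omega)
            rw [hun] at this
            exact hva (h.ga hVU this)
          · have := h.ab s2 s1 h6 h5 (by rw [Finset.inter_comm]; omega)
            rw [Finset.union_comm, hun] at this
            exact hva (h.ga hVU this)
          · have := h.bb s1 s2 h5 h6 (by omega)
            rw [hun] at this
            exact hvb this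
        have e4 : ∑ y ∈ V, ind (¬ nz r a b (V.erase y)) = (V.card : ℤ) - 1 := by
          rw [← Finset.add_sum_erase _ _ hy0, ind_false (p := ¬ nz r a b (V.erase y0))
            (fun hh => hh hb0), zero_add]
          rw [Finset.sum_congr rfl (g := fun _ => (1 : ℤ))]
          · rw [Finset.sum_const, Finset.card_erase_of_mem hy0]
            have : 1 ≤ V.card := Finset.card_pos.mpr ⟨y0, hy0⟩
            simp
            omega
          · intro y hy
            exact ind_true (huniq y (Finset.mem_of_mem_erase hy) (Finset.ne_of_mem_erase hy))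
        rw [e4]
        omega
  · have e2 : ∀ W, ind (D.card + 2 = r ∧ ¬ g D ∧ ¬ nz r a b W) = 0 := by
      intro W
      apply ind_false
      tauto
    simp only [e2]
    rw [ind_false, Finset.sum_const_zero, mul_zero, sub_zero]
    intro hh
    apply hD2
    have h1 := hh.1
    have h2 := hh.2.1
    rw [hDV] at h1 h2
    exact ⟨h1, h2⟩

/-- the part of `psi` coming from free sets -/
theorem part_L (h : Sys r U a b g) :
    ∑ A ∈ U.powerset, ∑ y ∈ U \ A, ind (A.card + 1 = r ∧ ¬ a A ∧ ¬ b A ∧ ¬ g ((U \ A).erase y)) ≤
      ((U.card : ℤ) + 1 - r) * ∑ A ∈ U.powerset, ind (A.card + 1 = r ∧ ¬ a A ∧ ¬ b A ∧ ¬ g (U \ A)) := by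
  rw [Finset.mul_sum]
  apply Finset.sum_le_sum
  intro A hA
  rw [Finset.mem_powerset] at hA
  have hc := Finset.card_sdiff_add_card_eq_card hA
  by_cases hA1 : A.card + 1 = r
  · calc ∑ y ∈ U \ A, ind (A.card + 1 = r ∧ ¬ a A ∧ ¬ b A ∧ ¬ g ((U \ A).erase y)) ≤
          ∑ y ∈ U \ A, ind (A.card + 1 = r ∧ ¬ a A ∧ ¬ b A ∧ ¬ g (U \ A)) := by
          apply Finset.sum_le_sum
          intro y _
          apply ind_mono
          rintro ⟨h1, h2, h3, h4⟩
          exact ⟨h1, h2, h3, fun hh => h4 (h.gm (Finset.erase_subset _ _) Finset.sdiff_subset hh)⟩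
      _ = ((U \ A).card : ℤ) * ind (A.card + 1 = r ∧ ¬ a A ∧ ¬ b A ∧ ¬ g (U \ A)) := by
          rw [Finset.sum_const, nsmul_eq_mul]
      _ = ((U.card : ℤ) + 1 - r) * ind (A.card + 1 = r ∧ ¬ a A ∧ ¬ b A ∧ ¬ g (U \ A)) := by
          congr 1
          omega
  · rw [ind_false (fun hh => hA1 hh.1), mul_zero]
    apply le_of_eq
    apply Finset.sum_eq_zero
    intro y _
    exact ind_false (fun hh => hA1 hh.1)

end Pool.IS
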