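import Pool.Agent.IS.Red2

/-!
# Reduction of the main lemma (ML) to the counting inequality KEY, third part: ML from KEY
-/

set_option autoImplicit false
open Classical

namespace Pool.IS

variable {α : Type*} [DecidableEq α]
variable {r : ℕ} {U : Finset α} {a b g n : Finset α → Prop}

theorem isE_erase (h : Sys r U a b g) {X : Finset α} (hX : X ⊆ U) (hr : r ≤ X.card) (hE : isE r a g X)
    {y : α} (hy : y ∈ X) : isE r a g (X.erase y) := by
  obtain ⟨h1, h2, h3⟩ := hE
  have hs : X.erase y ⊆ U := (Finset.erase_subset _ _).trans hX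
  have hc := Finset.card_erase_of_mem hy
  have hp : 1 ≤ X.card := Finset.card_pos.mpr ⟨y, hy⟩
  refine ⟨by omega, h.am (Finset.erase_subset _ _) hX h2, ?_⟩
  intro hg
  apply h3
  have := h.ag hX hs h2 hg (by
    have : X ∩ X.erase y = X.erase y := Finset.inter_eq_right.mpr (Finset.erase_subset _ _)
    rw [this]
    omega)
  exact h.gm Finset.subset_union_left (Finset.union_subset hX hs) this

theorem isE_erase' (h : Sys r U a b g) {X : Finset α} (hX : X ⊆ U) {y : α} (hy : y ∈ X)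
    (hE : isE r a g (X.erase y)) (ha : a X) : isE r a g X ∧ r ≤ X.card := by
  obtain ⟨h1, h2, h3⟩ := hE
  have hc := Finset.card_erase_of_mem hy
  have hp : 1 ≤ X.card := Finset.card_pos.mpr ⟨y, hy⟩
  refine ⟨⟨by omega, ha, fun hg => h3 (h.gm (Finset.erase_subset _ _) hX hg)⟩, by omega⟩

/-- pairs in which `X + y` is still in the `E`-block -/
theorem sum_PA (h : Sys r U a b g) :
    ∑ X ∈ U.powerset, ∑ y ∈ U \ X,
      ind (isE r a g X ∧ isE r b g ((U \ X).erase y) ∧ a (insert y X)) =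
    ∑ X ∈ U.powerset, ind (isE r a g X ∧ isE r b g (U \ X)) * (if r ≤ X.card then (X.card : ℤ) else 0) := by
  have e1 : ∑ X ∈ U.powerset, ∑ y ∈ U \ X,
      ind (isE r a g X ∧ isE r b g ((U \ X).erase y) ∧ a (insert y X)) =
      ∑ X ∈ U.powerset, ∑ y ∈ U \ X, (fun X' y' =>
        ind (isE r a g (X'.erase y') ∧ isE r b g (U \ X') ∧ a X')) (insert y X) y := by
    apply Finset.sum_congr rfl
    intro X hX
    apply Finset.sum_congr rfl
    intro y hy
    rw [Finset.mem_sdiff] at hy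
    have e2 : U \ insert y X = (U \ X).erase y := by
      ext x
      simp only [Finset.mem_sdiff, Finset.mem_erase, Finset.mem_insert]
      tauto
    simp only
    rw [Finset.erase_insert hy.2, e2]
  rw [e1, sum_insert_powerset U (fun X' y' =>
        ind (isE r a g (X'.erase y') ∧ isE r b g (U \ X') ∧ a X'))]
  apply Finset.sum_congr rfl
  intro X hX
  rw [Finset.mem_powerset] at hX
  by_cases hr : r ≤ X.card
  · rw [if_pos hr]
    have e3 : ∀ y ∈ X, ind (isE r a g (X.erase y) ∧ isE r b g (U \ X) ∧ a X) =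
        ind (isE r a g X ∧ isE r b g (U \ X)) := by
      intro y hy
      apply ind_congr
      constructor
      · rintro ⟨h1, h2, h3⟩
        exact ⟨(isE_erase' h hX hy h1 h3).1, h2⟩
      · rintro ⟨h1, h2⟩
        exact ⟨isE_erase h hX hr h1 hy, h2, h1.2.1⟩
    rw [Finset.sum_congr rfl e3, Finset.sum_const, nsmul_eq_mul]
    ring
  · rw [if_neg hr, mul_zero]
    apply Finset.sum_eq_zero
    intro y hy
    apply ind_false
    rintro ⟨h1, h2, h3⟩
    exact hr (isE_erase' h hX hy h1 h3).2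

/-- pairs in which `Z + y` is still in the `F`-block -/
theorem sum_PB (h : Sys r U a b g) :
    ∑ X ∈ U.powerset, ∑ y ∈ U \ X,
      ind (isE r a g X ∧ isE r b g ((U \ X).erase y) ∧ b (U \ X)) =
    ∑ X ∈ U.powerset, ind (isE r a g X ∧ isE r b g (U \ X)) *
      (if r ≤ (U \ X).card then ((U \ X).card : ℤ) else 0) := by
  apply Finset.sum_congr rfl
  intro X hX
  rw [Finset.mem_powerset] at hX
  have hB : U \ X ⊆ U := Finset.sdiff_subset
  by_cases hr : r ≤ (U \ X).card
  · rw [if_pos hr]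
    have e3 : ∀ y ∈ U \ X, ind (isE r a g X ∧ isE r b g ((U \ X).erase y) ∧ b (U \ X)) =
        ind (isE r a g X ∧ isE r b g (U \ X)) := by
      intro y hy
      apply ind_congr
      constructor
      · rintro ⟨h1, h2, h3⟩
        exact ⟨h1, (isE_erase' h.symm hB hy h2 h3).1⟩
      · rintro ⟨h1, h2⟩
        exact ⟨h1, isE_erase h.symm hB hr h2 hy, h2.2.1⟩
    rw [Finset.sum_congr rfl e3, Finset.sum_const, nsmul_eq_mul]
    ring
  · rw [if_neg hr, mul_zero]
    apply Finset.sum_eq_zero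
    intro y hy
    apply ind_false
    rintro ⟨h1, h2, h3⟩
    exact hr (isE_erase' h.symm hB hy h2 h3).2

theorem card_pairs (p : Finset α → α → Prop)
    [DecidablePred fun q : Finset α × α => q.2 ∉ q.1 ∧ p q.1 q.2] :
    ((((U.powerset ×ˢ U).filter (fun q => q.2 ∉ q.1 ∧ p q.1 q.2)).card : ℕ) : ℤ) =
      ∑ X ∈ U.powerset, ∑ y ∈ U \ X, ind (p X y) := by
  rw [card_filter_ind, Finset.sum_product]
  apply Finset.sum_congr rfl
  intro X _
  rw [Finset.sdiff_eq_filter, Finset.sum_filter]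
  apply Finset.sum_congr rfl
  intro y _
  by_cases hy : y ∈ X
  · rw [if_neg (fun hh => hh hy)]
    exact ind_false (fun hh => hh.1 hy)
  · rw [if_pos hy]
    apply ind_congr
    simp only
    tauto

theorem part_M (h : Sys r U a b g) (hm : 2 * r ≤ U.card + 1) (hr1 : 1 ≤ r) :
    ∑ X ∈ U.powerset, ∑ y ∈ U \ X, ind (isE r a g X ∧ isE r b g ((U \ X).erase y)) =
      ((U.card : ℤ) + 1 - r) * ∑ X ∈ U.powerset, ind (isE r a g X ∧ isE r b g (U \ X)) +
      ((N0 r U a b g).card : ℤ) - ((N2 r U a b g).card : ℤ) + ((r : ℤ) - 1) * ((MM r U a b g).card : ℤ) := by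
  have e0 : ((N0 r U a b g).card : ℤ) = ∑ X ∈ U.powerset, ∑ y ∈ U \ X,
      ind (isE r a g X ∧ isE r b g ((U \ X).erase y) ∧ ¬ a (insert y X) ∧ ¬ b (U \ X)) := by
    rw [N0, card_pairs (fun X y => isE r a g X ∧ isE r b g ((U \ X).erase y) ∧
      ¬ a (insert y X) ∧ ¬ b (U \ X))]
  have e2 : ((N2 r U a b g).card : ℤ) = ∑ X ∈ U.powerset, ∑ y ∈ U \ X,
      ind (isE r a g X ∧ isE r b g ((U \ X).erase y) ∧ a (insert y X) ∧ b (U \ X)) := by
    rw [N2, card_pairs (fun X y => isE r a g X ∧ isE r b g ((U \ X).erase y) ∧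
      a (insert y X) ∧ b (U \ X))]
  have eM : ((MM r U a b g).card : ℤ) = ∑ X ∈ U.powerset,
      ind (isE r a g X ∧ isE r b g (U \ X)) * (if r ≤ X.card ∧ r ≤ (U \ X).card then 1 else 0) := by
    rw [MM, card_filter_ind]
    apply Finset.sum_congr rfl
    intro X _
    by_cases h1 : r ≤ X.card ∧ r ≤ (U \ X).card
    · rw [if_pos h1, mul_one]
      apply ind_congr
      tauto
    · rw [if_neg h1, mul_zero]
      apply ind_false
      tauto
  have e3 : ∑ X ∈ U.powerset, ∑ y ∈ U \ X, ind (isE r a g X ∧ isE r b g ((U \ X).erase y)) =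
      ((N0 r U a b g).card : ℤ) - ((N2 r U a b g).card : ℤ) +
      (∑ X ∈ U.powerset, ∑ y ∈ U \ X,
        ind (isE r a g X ∧ isE r b g ((U \ X).erase y) ∧ a (insert y X)) +
      ∑ X ∈ U.powerset, ∑ y ∈ U \ X,
        ind (isE r a g X ∧ isE r b g ((U \ X).erase y) ∧ b (U \ X))) := by
    rw [e0, e2, ← Finset.sum_sub_distrib, ← Finset.sum_add_distrib, ← Finset.sum_add_distrib]
    apply Finset.sum_congr rfl
    intro X _
    rw [← Finset.sum_sub_distrib, ← Finset.sum_add_distrib, ← Finset.sum_add_distrib]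
    apply Finset.sum_congr rfl
    intro y _
    by_cases h1 : isE r a g X ∧ isE r b g ((U \ X).erase y)
    · by_cases h2 : a (insert y X) <;> by_cases h3 : b (U \ X) <;> simp [ind, h1, h2, h3]
    · have h1' : isE r a g X → ¬ isE r b g ((U \ X).erase y) := fun hh hh' => h1 ⟨hh, hh'⟩
      rw [ind_false h1, ind_false, ind_false, ind_false, ind_false] <;> tauto
  rw [e3, sum_PA h, sum_PB h, eM, ← Finset.sum_add_distrib, Finset.mul_sum, Finset.mul_sum]
  have e4 : ∑ X ∈ U.powerset, (ind (isE r a g X ∧ isE r b g (U \ X)) *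
        (if r ≤ X.card then (X.card : ℤ) else 0) +
      ind (isE r a g X ∧ isE r b g (U \ X)) *
        (if r ≤ (U \ X).card then ((U \ X).card : ℤ) else 0)) =
      ∑ X ∈ U.powerset, ((U.card : ℤ) + 1 - r) * ind (isE r a g X ∧ isE r b g (U \ X)) +
      ∑ X ∈ U.powerset, ((r : ℤ) - 1) * (ind (isE r a g X ∧ isE r b g (U \ X)) *
        (if r ≤ X.card ∧ r ≤ (U \ X).card then 1 else 0)) := by
    rw [← Finset.sum_add_distrib]
    apply Finset.sum_congr rfl
    intro X hX
    rw [Finset.mem_powerset] at hX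
    have hc := Finset.card_sdiff_add_card_eq_card hX
    by_cases h1 : isE r a g X ∧ isE r b g (U \ X)
    · rw [ind_true h1]
      have h2 := h1.1.1
      have h3 := h1.2.1
      by_cases h4 : r ≤ X.card <;> by_cases h5 : r ≤ (U \ X).card
      · rw [if_pos h4, if_pos h5, if_pos ⟨h4, h5⟩]
        push_cast
        omega
      · rw [if_pos h4, if_neg h5, if_neg (fun hh => h5 hh.2)]
        push_cast
        omega
      · rw [if_neg h4, if_pos h5, if_neg (fun hh => h4 hh.1)]
        push_cast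
        omega
      · omega
    · rw [ind_false h1]
      ring
  rw [e4]
  ring

/-- ML without blocks avoiding `e, f` -/
theorem ML0 (h : Sys r U a b g) (hr : 1 ≤ r) (hm : 2 * r ≤ U.card + 1) (hK : KEY r U a b g) :
    ∑ y ∈ U, cc a b g (nz r a b) (U.erase y) ≤
      ((U.card : ℤ) + 1 - r) * cc a b g (nz r a b) U := by
  have e1 : ∀ y ∈ U, cc a b g (nz r a b) (U.erase y) =
      ∑ A ∈ (U.erase y).powerset, psi r a b g A ((U \ A).erase y) := by
    intro y hy
    have hc := Finset.card_erase_of_mem hy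
    have hp : 1 ≤ U.card := Finset.card_pos.mpr ⟨y, hy⟩
    rw [cc_psi (h.mono (Finset.erase_subset _ _)) hr (by omega)]
    apply Finset.sum_congr rfl
    intro A _
    rw [erase_sdiff']
  rw [Finset.sum_congr rfl e1, cc_psi h hr (by omega),
    sum_erase_powerset U (fun A y => psi r a b g A ((U \ A).erase y))]
  have e2 : ∑ A ∈ U.powerset, ∑ y ∈ U \ A, psi r a b g A ((U \ A).erase y) =
      ∑ A ∈ U.powerset, ∑ y ∈ U \ A, ind (isE r a g A ∧ isE r b g ((U \ A).erase y)) +
      ∑ A ∈ U.powerset, ∑ y ∈ U \ A, ind (A.card + 1 = r ∧ ¬ a A ∧ ¬ b A ∧ ¬ g ((U \ A).erase y)) -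
      ∑ A ∈ U.powerset, ∑ y ∈ U \ A, ind (A.card + 2 = r ∧ ¬ g A ∧ ¬ nz r a b ((U \ A).erase y)) := by
    rw [← Finset.sum_add_distrib, ← Finset.sum_sub_distrib]
    apply Finset.sum_congr rfl
    intro A _
    rw [← Finset.sum_add_distrib, ← Finset.sum_sub_distrib]
    rfl
  have e3 : ∑ A ∈ U.powerset, psi r a b g A (U \ A) =
      ∑ A ∈ U.powerset, ind (isE r a g A ∧ isE r b g (U \ A)) +
      ∑ A ∈ U.powerset, ind (A.card + 1 = r ∧ ¬ a A ∧ ¬ b A ∧ ¬ g (U \ A)) -
      ∑ A ∈ U.powerset, ind (A.card + 2 = r ∧ ¬ g A ∧ ¬ nz r a b (U \ A)) := by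
    rw [← Finset.sum_add_distrib, ← Finset.sum_sub_distrib]
    rfl
  rw [e2, e3]
  have p1 := part_R h hm
  have p2 := part_L h
  have p3 := part_M h hm hr
  have hK' : ((N0 r U a b g).card : ℤ) + ((r : ℤ) - 1) * ((MM r U a b g).card : ℤ) ≤
      ((SG r U a b g).card : ℤ) + ((N2 r U a b g).card : ℤ) := by
    have := hK
    unfold KEY at this
    have h2 : (((r - 1 : ℕ)) : ℤ) = (r : ℤ) - 1 := by omega
    rw [← h2]
    exact_mod_cast this
  rw [p3]
  linarith

/-- ML from KEY -/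
theorem ML_of_KEY (h : Sys r U a b g) (hr : 1 ≤ r) (hm : 2 * r ≤ U.card + 1)
    (hn : ∀ A ⊆ U, nz r a b A → n A) (hK : KEY r U a b g) :
    ∑ y ∈ U, cc a b g n (U.erase y) ≤ ((U.card : ℤ) + 1 - r) * cc a b g n U := by
  have h1 := ML0 h hr hm hK
  have h2 := step1 h hr hn
  linarith

end Pool.IS
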