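import Pool.Agent.IS.Asm

/-!
# Pair sums, the expansion of the correlation difference, and the total
-/

set_option autoImplicit false
open Classical

namespace Pool.IS

variable {α : Type*} [DecidableEq α]

/-- pairs of subsets, classified by the intersection and the symmetric difference -/
theorem sum_pairs {M : Type*} [AddCommMonoid M] (G : Finset α) (F : Finset α → Finset α → M) :
    ∑ A ∈ G.powerset, ∑ B ∈ G.powerset, F A B =
      ∑ V ∈ G.powerset, ∑ U ∈ (G \ V).powerset, ∑ A ∈ U.powerset, F (V ∪ A) (V ∪ (U \ A)) := by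
  have e1 : ∑ V ∈ G.powerset, ∑ U ∈ (G \ V).powerset, ∑ A ∈ U.powerset,
      F (V ∪ A) (V ∪ (U \ A)) =
      ∑ V ∈ G.powerset, ∑ p ∈ (G \ V).powerset.sigma (fun U => U.powerset),
        F (V ∪ p.2) (V ∪ (p.1 \ p.2)) := by
    apply Finset.sum_congr rfl
    intro V _
    rw [Finset.sum_sigma']
  rw [e1, ← Finset.sum_product', Finset.sum_sigma']
  refine Finset.sum_bij' (fun p _ => (⟨p.1 ∩ p.2, ⟨(p.1 \ p.2) ∪ (p.2 \ p.1), p.1 \ p.2⟩⟩ :
      (_ : Finset α) × ((_ : Finset α) × Finset α)))
    (fun q _ => (q.1 ∪ q.2.2, q.1 ∪ (q.2.1 \ q.2.2))) ?_ ?_ ?_ ?_ ?_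
  · rintro ⟨A, B⟩ h
    simp only [Finset.mem_product, Finset.mem_powerset] at h
    simp only [Finset.mem_sigma, Finset.mem_powerset]
    refine ⟨Finset.inter_subset_left.trans h.1, ?_, Finset.subset_union_left⟩
    intro x hx
    simp only [Finset.mem_union, Finset.mem_sdiff, Finset.mem_inter] at hx ⊢
    rcases hx with h1 | h1
    · exact ⟨h.1 h1.1, fun hh => h1.2 hh.2⟩
    · exact ⟨h.2 h1.1, fun hh => h1.2 hh.1⟩
  · rintro ⟨V, U, A⟩ h
    simp only [Finset.mem_sigma, Finset.mem_powerset] at h
    simp only [Finset.mem_product, Finset.mem_powerset]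
    have hU : U ⊆ G := h.2.1.trans Finset.sdiff_subset
    exact ⟨Finset.union_subset h.1 (h.2.2.trans hU),
      Finset.union_subset h.1 (Finset.sdiff_subset.trans hU)⟩
  · rintro ⟨A, B⟩ h
    simp only [Prod.mk.injEq]
    constructor
    · ext x
      simp only [Finset.mem_union, Finset.mem_sdiff, Finset.mem_inter]
      tauto
    · ext x
      simp only [Finset.mem_union, Finset.mem_sdiff, Finset.mem_inter]
      tauto
  · rintro ⟨V, U, A⟩ h
    simp only [Finset.mem_sigma, Finset.mem_powerset] at h
    obtain ⟨h1, h2, h3⟩ := h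
    have hVU : ∀ x, x ∈ V → x ∉ U := fun x hx hx' => (Finset.mem_sdiff.mp (h2 hx')).2 hx
    have s1 : (V ∪ A) ∩ (V ∪ (U \ A)) = V := by
      ext x
      simp only [Finset.mem_union, Finset.mem_sdiff, Finset.mem_inter]
      tauto
    have s2 : (V ∪ A) \ (V ∪ (U \ A)) = A := by
      ext x
      simp only [Finset.mem_union, Finset.mem_sdiff]
      constructor
      · tauto
      · intro hx
        refine ⟨Or.inr hx, ?_⟩
        rintro (hh | hh)
        · exact hVU x hh (h3 hx)
        · exact hh.2 hx
    have s3 : (V ∪ (U \ A)) \ (V ∪ A) = U \ A := by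
      ext x
      simp only [Finset.mem_union, Finset.mem_sdiff]
      constructor
      · tauto
      · rintro ⟨hx, hx'⟩
        refine ⟨Or.inr ⟨hx, hx'⟩, ?_⟩
        rintro (hh | hh)
        · exact hVU x hh hx
        · exact hx' hh
    have s4 : A ∪ (U \ A) = U := Finset.union_sdiff_of_subset h3
    simp only
    rw [s1, s2, s3, s4]
  · rintro ⟨A, B⟩ h
    have s1 : A ∩ B ∪ (A \ B) = A := by
      ext x
      simp only [Finset.mem_union, Finset.mem_sdiff, Finset.mem_inter]
      tauto
    have s2 : A ∩ B ∪ (((A \ B) ∪ (B \ A)) \ (A \ B)) = B := by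
      ext x
      simp only [Finset.mem_union, Finset.mem_sdiff, Finset.mem_inter]
      tauto
    simp only
    rw [s1, s2]

theorem zp_mul_pair (z : α → ℝ) {V U A : Finset α} (hVU : Disjoint V U) (hA : A ⊆ U) :
    zp z (V ∪ A) * zp z (V ∪ (U \ A)) = (zp z V) ^ 2 * zp z U := by
  unfold zp
  rw [Finset.prod_union (hVU.mono_right hA),
    Finset.prod_union (hVU.mono_right Finset.sdiff_subset), ← Finset.prod_sdiff hA]
  ring

/-- indicator of a proposition as a real number -/
noncomputable def indR (p : Prop) : ℝ := if p then 1 else 0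

theorem indR_true {p : Prop} (h : p) : indR p = 1 := if_pos h
theorem indR_false {p : Prop} (h : ¬ p) : indR p = 0 := if_neg h
theorem indR_and (p q : Prop) : indR p * indR q = indR (p ∧ q) := by
  unfold indR
  by_cases hp : p <;> by_cases hq : q <;> simp [hp, hq]
theorem indR_congr {p q : Prop} (h : p ↔ q) : indR p = indR q := by
  by_cases hq : q
  · rw [indR_true hq, indR_true (h.mpr hq)]
  · rw [indR_false hq, indR_false (fun hh => hq (h.mp hh))]
theorem ind_cast (p : Prop) : ((ind p : ℤ) : ℝ) = indR p := by
  unfold ind indR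
  by_cases hp : p <;> simp [hp]

/-- the pair function `[X(A+e) X(B+f)] - [X(A+e+f) X(B)]` -/
noncomputable def phi (X : Finset α → Prop) (e f : α) (A B : Finset α) : ℝ :=
  indR (X (insert e A) ∧ X (insert f B)) - indR (X (insert e (insert f A)) ∧ X B)

/-- the four sums -/
noncomputable def s4 (X : Finset α → Prop) (z : α → ℝ) (G : Finset α) : ℝ :=
  ∑ A ∈ G.powerset, indR (X A) * zp z A

theorem diff_phi (X : Finset α → Prop) (z : α → ℝ) (G : Finset α) (e f : α) :
    s4 (fun A => X (insert e A)) z G * s4 (fun A => X (insert f A)) z G -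
      s4 (fun A => X (insert e (insert f A))) z G * s4 X z G =
    ∑ A ∈ G.powerset, ∑ B ∈ G.powerset, zp z A * zp z B * phi X e f A B := by
  unfold s4
  rw [Finset.sum_mul_sum, Finset.sum_mul_sum, ← Finset.sum_sub_distrib]
  apply Finset.sum_congr rfl
  intro A _
  rw [← Finset.sum_sub_distrib]
  apply Finset.sum_congr rfl
  intro B _
  unfold phi
  rw [← indR_and, ← indR_and]
  ring

/-- the decomposition of a sum over all sets -/
theorem sum_all [Fintype α] {e f : α} (hef : e ≠ f) (F : Finset α → ℝ) :
    ∑ A : Finset α, F A = ∑ A ∈ ((Finset.univ.erase e).erase f).powerset,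
      (F A + F (insert e A) + F (insert f A) + F (insert e (insert f A))) := by
  set G := ((Finset.univ : Finset α).erase e).erase f with hG
  have hfG : f ∉ G := Finset.notMem_erase _ _
  have h1 : insert f G = Finset.univ.erase e := by
    rw [hG, Finset.insert_erase]
    exact Finset.mem_erase.mpr ⟨hef.symm, Finset.mem_univ _⟩
  have heG : e ∉ insert f G := by
    rw [h1]
    exact Finset.notMem_erase _ _
  have h2 : insert e (insert f G) = (Finset.univ : Finset α) := by
    rw [h1, Finset.insert_erase (Finset.mem_univ _)]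
  have h3 : (Finset.univ : Finset (Finset α)) = (insert e (insert f G)).powerset := by
    rw [h2]
    ext A
    simp
  rw [h3, Finset.sum_powerset_insert heG, Finset.sum_powerset_insert hfG,
    Finset.sum_powerset_insert hfG, Finset.sum_add_distrib, Finset.sum_add_distrib,
    Finset.sum_add_distrib]
  ring

/-- the correlation inequality in terms of the four sums -/
theorem corr_iff [Fintype α] {e f : α} (hef : e ≠ f) (X : Finset α → Prop) {z : α → ℝ}
    (hz : ∀ x, 0 < z x) :
    ((∑ A : Finset α, if X A ∧ e ∈ A ∧ f ∈ A then ∏ a ∈ A, z a else 0) *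
      (∑ A : Finset α, if X A then ∏ a ∈ A, z a else 0) ≤
    (∑ A : Finset α, if X A ∧ e ∈ A then ∏ a ∈ A, z a else 0) *
      (∑ A : Finset α, if X A ∧ f ∈ A then ∏ a ∈ A, z a else 0)) ↔
    0 ≤ s4 (fun A => X (insert e A)) z ((Finset.univ.erase e).erase f) *
        s4 (fun A => X (insert f A)) z ((Finset.univ.erase e).erase f) -
      s4 (fun A => X (insert e (insert f A))) z ((Finset.univ.erase e).erase f) *
        s4 X z ((Finset.univ.erase e).erase f) := by
  set G := ((Finset.univ : Finset α).erase e).erase f with hG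
  have hmem : ∀ A ∈ G.powerset, e ∉ A ∧ f ∉ A := by
    intro A hA
    rw [Finset.mem_powerset] at hA
    constructor
    · intro hh
      exact Finset.notMem_erase e _ (Finset.mem_of_mem_erase (hA hh))
    · intro hh
      exact Finset.notMem_erase f _ (hA hh)
  have i1 : (∑ A : Finset α, if X A ∧ e ∈ A ∧ f ∈ A then ∏ a ∈ A, z a else 0) =
      z e * z f * s4 (fun A => X (insert e (insert f A))) z G := by
    rw [sum_all hef]
    unfold s4
    rw [Finset.mul_sum]
    apply Finset.sum_congr rfl
    intro A hA
    obtain ⟨he, hf⟩ := hmem A hA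
    have he' : e ∉ insert f A := by simp [hef, he]
    rw [if_neg (by simp [he]), if_neg (by simp [hef.symm, hf]), if_neg (by simp [hef, he])]
    have : (∏ a ∈ insert e (insert f A), z a) = z e * (z f * zp z A) := by
      rw [Finset.prod_insert he', Finset.prod_insert hf]
      rfl
    by_cases hX : X (insert e (insert f A))
    · rw [if_pos (by simp [hX]), this, indR_true hX]
      ring
    · rw [if_neg (by simp [hX]), indR_false hX]
      ring
  have i2 : (∑ A : Finset α, if X A then ∏ a ∈ A, z a else 0) =
      s4 X z G + z e * s4 (fun A => X (insert e A)) z G + z f * s4 (fun A => X (insert f A)) z G +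
      z e * z f * s4 (fun A => X (insert e (insert f A))) z G := by
    rw [sum_all hef]
    unfold s4
    rw [Finset.mul_sum, Finset.mul_sum, Finset.mul_sum, ← Finset.sum_add_distrib,
      ← Finset.sum_add_distrib, ← Finset.sum_add_distrib]
    apply Finset.sum_congr rfl
    intro A hA
    obtain ⟨he, hf⟩ := hmem A hA
    have he' : e ∉ insert f A := by simp [hef, he]
    have t0 : (∏ a ∈ A, z a) = zp z A := rfl
    have t1 : (∏ a ∈ insert e A, z a) = z e * zp z A := Finset.prod_insert he
    have t2 : (∏ a ∈ insert f A, z a) = z f * zp z A := Finset.prod_insert hf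
    have t3 : (∏ a ∈ insert e (insert f A), z a) = z e * (z f * zp z A) := by
      rw [Finset.prod_insert he', Finset.prod_insert hf]
      rfl
    rw [t0, t1, t2, t3]
    unfold indR
    split_ifs <;> ring
  have i3 : (∑ A : Finset α, if X A ∧ e ∈ A then ∏ a ∈ A, z a else 0) =
      z e * s4 (fun A => X (insert e A)) z G +
      z e * z f * s4 (fun A => X (insert e (insert f A))) z G := by
    rw [sum_all hef]
    unfold s4
    rw [Finset.mul_sum, Finset.mul_sum, ← Finset.sum_add_distrib]
    apply Finset.sum_congr rfl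
    intro A hA
    obtain ⟨he, hf⟩ := hmem A hA
    have he' : e ∉ insert f A := by simp [hef, he]
    have t1 : (∏ a ∈ insert e A, z a) = z e * zp z A := Finset.prod_insert he
    have t3 : (∏ a ∈ insert e (insert f A), z a) = z e * (z f * zp z A) := by
      rw [Finset.prod_insert he', Finset.prod_insert hf]
      rfl
    rw [if_neg (by simp [he]), if_neg (c := X (insert f A) ∧ e ∈ insert f A) (by simp [hef, he]),
      t1, t3]
    by_cases h1 : X (insert e A) <;> by_cases h2 : X (insert e (insert f A)) <;>
      simp [indR, h1, h2] <;> ring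
  have i4 : (∑ A : Finset α, if X A ∧ f ∈ A then ∏ a ∈ A, z a else 0) =
      z f * s4 (fun A => X (insert f A)) z G +
      z e * z f * s4 (fun A => X (insert e (insert f A))) z G := by
    rw [sum_all hef]
    unfold s4
    rw [Finset.mul_sum, Finset.mul_sum, ← Finset.sum_add_distrib]
    apply Finset.sum_congr rfl
    intro A hA
    obtain ⟨he, hf⟩ := hmem A hA
    have he' : e ∉ insert f A := by simp [hef, he]
    have t1 : (∏ a ∈ insert f A, z a) = z f * zp z A := Finset.prod_insert hf
    have t3 : (∏ a ∈ insert e (insert f A), z a) = z e * (z f * zp z A) := by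
      rw [Finset.prod_insert he', Finset.prod_insert hf]
      rfl
    rw [if_neg (by simp [hf]), if_neg (c := X (insert e A) ∧ f ∈ insert e A)
      (by simp [hef.symm, hf]), t1, t3]
    by_cases h1 : X (insert f A) <;> by_cases h2 : X (insert e (insert f A)) <;>
      simp [indR, h1, h2] <;> ring
  rw [i1, i2, i3, i4]
  have hpos : 0 < z e * z f := mul_pos (hz e) (hz f)
  constructor
  · intro hh
    have : 0 ≤ (z e * z f) * (s4 (fun A => X (insert e A)) z G * s4 (fun A => X (insert f A)) z G -
      s4 (fun A => X (insert e (insert f A))) z G * s4 X z G) := by nlinarith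
    exact nonneg_of_mul_nonneg_right this hpos
  · intro hh
    have := mul_nonneg hpos.le hh
    nlinarith

end Pool.IS
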