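import Pool.Agent.IS.Key1Defs

/-!
# KEY for `|U| = 2r - 1`: the structure of a split `(X, y)`
-/

set_option autoImplicit false
open Classical

namespace Pool.IS

variable {α : Type*} [DecidableEq α]

/-- a split `U = X + y + Z` with blocks `H ⊇ X`, `K ⊇ Z`, `y` in neither, `|X| = |Z| = r - 1` -/
structure Tau (r : ℕ) (U : Finset α) (a b g : Finset α → Prop) (X Z H K : Finset α) (y : α) :
    Prop where
  hX : X ⊆ U
  hZ : Z ⊆ U
  hy : y ∈ U
  yX : y ∉ X
  yZ : y ∉ Z
  dj : Disjoint X Z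
  cov : ∀ u ∈ U, u ∈ X ∨ u ∈ Z ∨ u = y
  cX : X.card + 1 = r
  cZ : Z.card + 1 = r
  hH : H ∈ blk r U a g
  hK : K ∈ blk r U b g
  XH : X ⊆ H
  ZK : Z ⊆ K
  yH : y ∉ H
  yK : y ∉ K

variable {r : ℕ} {U : Finset α} {a b g : Finset α → Prop} {X Z H K : Finset α} {y : α}

namespace Tau

theorem symm (t : Tau r U a b g X Z H K y) : Tau r U b a g Z X K H y where
  hX := t.hZ
  hZ := t.hX
  hy := t.hy
  yX := t.yZ
  yZ := t.yX
  dj := t.dj.symm
  cov := by
    intro u hu
    rcases t.cov u hu with h | h | h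
    · exact Or.inr (Or.inl h)
    · exact Or.inl h
    · exact Or.inr (Or.inr h)
  cX := t.cZ
  cZ := t.cX
  hH := t.hK
  hK := t.hH
  XH := t.ZK
  ZK := t.XH
  yH := t.yK
  yK := t.yH

theorem HU (t : Tau r U a b g X Z H K y) : H ⊆ U := (mem_blk.mp t.hH).1

theorem KU (t : Tau r U a b g X Z H K y) : K ⊆ U := (mem_blk.mp t.hK).1

theorem aH (t : Tau r U a b g X Z H K y) : a H := (mem_blk.mp t.hH).2.1.2.1

theorem bK (t : Tau r U a b g X Z H K y) : b K := (mem_blk.mp t.hK).2.1.2.1

theorem HK (t : Tau r U a b g X Z H K y) (h : Sys r U a b g) : (H ∩ K).card + 2 ≤ r :=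
  h.blk_b t.hH t.KU t.bK

theorem HZ (t : Tau r U a b g X Z H K y) : H ⊆ X ∪ Z := by
  intro u hu
  rcases t.cov u (t.HU hu) with h1 | h1 | h1
  · exact Finset.mem_union_left _ h1
  · exact Finset.mem_union_right _ h1
  · rw [h1] at hu
    exact absurd hu t.yH

/-- `H = X ∪ (Z ∩ H)` -/
theorem H_eq (t : Tau r U a b g X Z H K y) : H = X ∪ (Z ∩ H) := by
  ext u
  simp only [Finset.mem_union, Finset.mem_inter]
  constructor
  · intro hu
    have := t.HZ hu
    rw [Finset.mem_union] at this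
    tauto
  · rintro (h1 | h1)
    · exact t.XH h1
    · exact h1.2

theorem K_eq (t : Tau r U a b g X Z H K y) : K = Z ∪ (X ∩ K) := t.symm.H_eq

/-- `a + b ≤ r - 2` -/
theorem ab_le (t : Tau r U a b g X Z H K y) (h : Sys r U a b g) :
    (X ∩ K).card + (Z ∩ H).card + 2 ≤ r := by
  have h1 := t.HK h
  have h2 : (X ∩ K) ∪ (Z ∩ H) ⊆ H ∩ K := by
    intro u
    simp only [Finset.mem_union, Finset.mem_inter]
    rintro (⟨h3, h4⟩ | ⟨h3, h4⟩)
    · exact ⟨t.XH h3, h4⟩
    · exact ⟨h4, t.ZK h3⟩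
  have h3 : Disjoint (X ∩ K) (Z ∩ H) :=
    t.dj.mono Finset.inter_subset_left Finset.inter_subset_left
  have h4 := Finset.card_le_card h2
  rw [Finset.card_union_of_disjoint h3] at h4
  omega

theorem cU (t : Tau r U a b g X Z H K y) : U.card + 1 = 2 * r := by
  have h1 : U = insert y (X ∪ Z) := by
    ext u
    rw [Finset.mem_insert, Finset.mem_union]
    constructor
    · intro hu
      have := t.cov u hu
      tauto
    · rintro (h1 | h1 | h1)
      · rw [h1]; exact t.hy
      · exact t.hX h1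
      · exact t.hZ h1
  have h2 : y ∉ X ∪ Z := by
    rw [Finset.mem_union]
    exact fun hh => hh.elim t.yX t.yZ
  have h3 := t.cX
  have h4 := t.cZ
  rw [h1, Finset.card_insert_of_notMem h2, Finset.card_union_of_disjoint t.dj]
  omega

/-- `U - H = y + (Z - H)` -/
theorem W_eq (t : Tau r U a b g X Z H K y) : U \ H = insert y (Z \ H) := by
  ext u
  rw [Finset.mem_sdiff, Finset.mem_insert, Finset.mem_sdiff]
  constructor
  · rintro ⟨h1, h2⟩
    rcases t.cov u h1 with h3 | h3 | h3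
    · exact absurd (t.XH h3) h2
    · exact Or.inr ⟨h3, h2⟩
    · exact Or.inl h3
  · rintro (h1 | h1)
    · rw [h1]; exact ⟨t.hy, t.yH⟩
    · exact ⟨t.hZ h1.1, h1.2⟩

/-- `|U - H| + |Z ∩ H| = r` -/
theorem W_card (t : Tau r U a b g X Z H K y) : (U \ H).card + (Z ∩ H).card = r := by
  have h1 : y ∉ Z \ H := fun hh => t.yZ (Finset.mem_sdiff.mp hh).1
  rw [t.W_eq, Finset.card_insert_of_notMem h1]
  have h2 := Finset.card_sdiff_add_card_inter Z H
  have h3 := t.cZ
  omega

theorem H_card (t : Tau r U a b g X Z H K y) : H.card = X.card + (Z ∩ H).card := by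
  conv_lhs => rw [t.H_eq]
  rw [Finset.card_union_of_disjoint (t.dj.mono_right Finset.inter_subset_left)]

theorem eX (t : Tau r U a b g X Z H K y) (h : Sys r U a b g) : isE r a g X := by
  have h1 := t.cX
  refine ⟨by omega, h.am t.XH t.HU t.aH, fun hg => ?_⟩
  have h2 := h.blk_g t.hH t.hX hg
  rw [Finset.inter_eq_right.mpr t.XH] at h2
  omega

theorem clX (t : Tau r U a b g X Z H K y) (h : Sys r U a b g) : cl U a X = H :=
  h.cl_eq (t.eX h) t.hH t.XH

theorem clZ (t : Tau r U a b g X Z H K y) (h : Sys r U a b g) : cl U b Z = K :=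
  t.symm.clX h.symm

theorem oth_eq (t : Tau r U a b g X Z H K y) : oth U (X, y) = Z := by
  ext u
  rw [oth, Finset.mem_erase, Finset.mem_sdiff]
  constructor
  · rintro ⟨h1, h2, h3⟩
    rcases t.cov u h2 with h4 | h4 | h4
    · exact absurd h4 h3
    · exact h4
    · exact absurd h4 h1
  · intro hu
    exact ⟨fun hh => t.yZ ((show u = y from hh) ▸ hu), t.hZ hu,
      fun hh => (Finset.disjoint_left.mp t.dj) hh hu⟩

theorem of_N0 (h : Sys r U a b g) (hU : U.card + 1 = 2 * r) {p : Finset α × α}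
    (hp : p ∈ N0 r U a b g) :
    Tau r U a b g p.1 (oth U p) (cl U a p.1) (cl U b (oth U p)) p.2 := by
  rw [mem_N0] at hp
  obtain ⟨⟨h1, h2⟩, h3, h4, h5, h6, h7⟩ := hp
  have hyU : p.2 ∈ U \ p.1 := Finset.mem_sdiff.mpr ⟨h2, h3⟩
  have hZU : oth U p ⊆ U := (Finset.erase_subset _ _).trans Finset.sdiff_subset
  have hc1 : (oth U p).card + 1 = (U \ p.1).card := by
    rw [oth, Finset.card_erase_of_mem hyU]
    have : 0 < (U \ p.1).card := Finset.card_pos.mpr ⟨_, hyU⟩
    omega
  have hc2 := Finset.card_sdiff_add_card_eq_card h1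
  have hc3 := h4.1
  have hc4 : r ≤ (oth U p).card + 1 := h5.1
  refine ⟨h1, hZU, h2, h3, Finset.notMem_erase _ _, ?_, ?_, by omega, by omega,
    h.cl_blk h1 h4, h.symm.cl_blk hZU h5, sub_cl h1 h4, sub_cl hZU h5, ?_, ?_⟩
  · rw [Finset.disjoint_left]
    intro u hu hu'
    rw [oth, Finset.mem_erase, Finset.mem_sdiff] at hu'
    exact hu'.2.2 hu
  · intro u hu
    by_cases hX : u ∈ p.1
    · exact Or.inl hX
    · by_cases hy : u = p.2
      · exact Or.inr (Or.inr hy)
      · right; left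
        rw [oth, Finset.mem_erase, Finset.mem_sdiff]
        exact ⟨hy, hu, hX⟩
  · rw [mem_cl]
    exact fun hh => h6 hh.2
  · rw [mem_cl, oth, Finset.insert_erase hyU]
    exact fun hh => h7 hh.2

theorem mem_N0 (t : Tau r U a b g X Z H K y) (h : Sys r U a b g) : (X, y) ∈ N0 r U a b g := by
  have h1 : (U \ X).erase y = Z := t.oth_eq
  have h2 : U \ X = insert y Z := by
    rw [← h1, Finset.insert_erase]
    exact Finset.mem_sdiff.mpr ⟨t.hy, t.yX⟩
  rw [Pool.IS.mem_N0]
  simp only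
  rw [h1]
  refine ⟨⟨t.hX, t.hy⟩, t.yX, t.eX h, t.symm.eX h.symm, fun hh => ?_, fun hh => ?_⟩
  · exact t.yH (by rw [← t.clX h, mem_cl]; exact ⟨t.hy, hh⟩)
  · rw [h2] at hh
    exact t.yK (by rw [← t.clZ h, mem_cl]; exact ⟨t.hy, hh⟩)

theorem src (t : Tau r U a b g X Z H K y) (h : Sys r U a b g) : Src r U a b g X Z where
  hX := t.hX
  hZ := t.hZ
  dj := t.dj
  eX := t.eX h
  eZ := t.symm.eX h.symm
  na := by
    intro u hu hX hZ hh
    rcases t.cov u hu with h4 | h4 | h4
    · exact hX h4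
    · exact hZ h4
    · rw [h4] at hh
      exact t.yH (by rw [← t.clX h, mem_cl]; exact ⟨t.hy, hh⟩)
  nb := by
    intro u hu hX hZ hh
    rcases t.cov u hu with h4 | h4 | h4
    · exact hX h4
    · exact hZ h4
    · rw [h4] at hh
      exact t.yK (by rw [← t.clZ h, mem_cl]; exact ⟨t.hy, hh⟩)
  c1 := by
    have : U \ (X ∪ Z) ⊆ {y} := by
      intro u hu
      rw [Finset.mem_sdiff, Finset.mem_union] at hu
      rw [Finset.mem_singleton]
      rcases t.cov u hu.1 with h4 | h4 | h4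
      · exact absurd (Or.inl h4) hu.2
      · exact absurd (Or.inr h4) hu.2
      · exact h4
    have := Finset.card_le_card this
    rw [Finset.card_singleton] at this
    exact this
  c0 := by
    intro hc
    have : y ∈ X ∪ Z := by rw [hc]; exact t.hy
    rw [Finset.mem_union] at this
    exact absurd this (fun hh => hh.elim t.yX t.yZ)

/-- `y` is determined by `X` -/
theorem y_uniq (h : Sys r U a b g) {Z' H' K' : Finset α} {y' : α}
    (t : Tau r U a b g X Z H K y) (t' : Tau r U a b g X Z' H' K' y') : y = y' := by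
  by_contra hne
  -- `Z ∪ Z'` would be in one block, which contains `y`
  have h1 : K = K' := by
    by_contra hKK
    have h2 := h.symm.blk_inter t.hK t'.hK hKK
    have h3 : Z ∩ Z' ⊆ K ∩ K' := Finset.inter_subset_inter t.ZK t'.ZK
    have h4 := Finset.card_le_card h3
    have h5 : Z \ {y'} ⊆ Z ∩ Z' := by
      intro u hu
      rw [Finset.mem_sdiff, Finset.mem_singleton] at hu
      rw [Finset.mem_inter]
      refine ⟨hu.1, ?_⟩
      rcases t'.cov u (t.hZ hu.1) with h6 | h6 | h6
      · exact absurd hu.1 ((Finset.disjoint_left.mp t.dj) h6)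
      · exact h6
      · exact absurd h6 hu.2
    have h6 := Finset.card_le_card h5
    have h7 := Finset.card_sdiff_add_card_inter Z {y'}
    have h8 : (Z ∩ {y'}).card ≤ 1 := by
      have := Finset.card_le_card (Finset.inter_subset_right (s₁ := Z) (s₂ := {y'}))
      rwa [Finset.card_singleton] at this
    have h9 := t.cZ
    omega
  apply t'.yK
  rw [← h1]
  apply t.ZK
  rcases t.cov y' t'.hy with h6 | h6 | h6
  · exact absurd h6 t'.yX
  · exact h6
  · exact absurd h6.symm hne

end Tau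

end Pool.IS
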