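import Pool.Agent.IS.Sum

/-!
# The total difference for spanning sets is nonnegative if all graded pieces are
-/

set_option autoImplicit false
open Classical

namespace Pool.IS

variable {α : Type*} [DecidableEq α]
variable {r : ℕ} {N : Finset α → Prop} {e f : α}

/-- contraction by a set with at least `r` elements: the coefficient is nonnegative -/
theorem cW_big (hP : Pav r N) {W : Finset α} (hW : r ≤ W.card) (U : Finset α) :
    0 ≤ cW N e f W U := by
  have glue : ∀ {P Q : Finset α}, W ⊆ P → W ⊆ Q → N P → N Q → N (P ∪ Q) := by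
    intro P Q h1 h2 h3 h4
    apply hP.glue h3 h4
    have := Finset.card_le_card (Finset.subset_inter h1 h2)
    omega
  have sub1 : ∀ A : Finset α, W ⊆ W ∪ A := fun A => Finset.subset_union_left
  unfold cW cc
  by_cases he : N (insert e W)
  · have hae : ∀ A : Finset α, N (insert e (W ∪ A)) ↔ N (W ∪ A) := by
      intro A
      constructor
      · exact hP.mono (Finset.subset_insert _ _)
      · intro h
        refine hP.mono ?_ (glue (Finset.subset_insert _ _) (sub1 A) he h)
        intro x hx
        simp only [Finset.mem_insert, Finset.mem_union] at hx ⊢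
        tauto
    by_cases hf : N (insert f W)
    · have hbf : ∀ A : Finset α, N (insert f (W ∪ A)) ↔ N (W ∪ A) := by
        intro A
        constructor
        · exact hP.mono (Finset.subset_insert _ _)
        · intro h
          refine hP.mono ?_ (glue (Finset.subset_insert _ _) (sub1 A) hf h)
          intro x hx
          simp only [Finset.mem_insert, Finset.mem_union] at hx ⊢
          tauto
      have hg : ∀ A : Finset α, N (insert e (insert f (W ∪ A))) ↔ N (W ∪ A) := by
        intro A
        constructor
        · exact hP.mono ((Finset.subset_insert _ _).trans (Finset.subset_insert _ _))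
        · intro h
          refine hP.mono ?_ (glue (Finset.subset_insert _ _)
            ((sub1 A).trans (Finset.subset_insert _ _)) he ((hbf A).mpr h))
          intro x hx
          simp only [Finset.mem_insert, Finset.mem_union] at hx ⊢
          tauto
      apply le_of_eq
      symm
      apply Finset.sum_eq_zero
      intro A _
      simp only [hae, hbf, hg, sub_self]
    · -- e in the hyperplane, f not
      have hbf : ∀ A : Finset α, ¬ N (insert f (W ∪ A)) := by
        intro A h
        exact hf (hP.mono (Finset.insert_subset_insert _ (sub1 A)) h)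
      have hg : ∀ A : Finset α, ¬ N (insert e (insert f (W ∪ A))) := by
        intro A h
        exact hbf A (hP.mono (Finset.subset_insert _ _) h)
      apply le_of_eq
      symm
      rw [Finset.sum_sub_distrib, sub_eq_zero]
      rw [← sum_compl_powerset U (fun A => ind (¬ N (insert e (W ∪ A)) ∧
        ¬ N (insert f (W ∪ (U \ A)))))]
      apply Finset.sum_congr rfl
      intro A hA
      rw [Finset.sdiff_sdiff_eq_self (Finset.mem_powerset.mp hA)]
      apply ind_congr
      have h1 := hbf A
      have h2 := hg A
      have h3 := hae (U \ A)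
      simp only [h1, h2, h3, not_false_eq_true, true_and, and_true]
  · have hae : ∀ A : Finset α, ¬ N (insert e (W ∪ A)) := by
      intro A h
      exact he (hP.mono (Finset.insert_subset_insert _ (sub1 A)) h)
    have hg : ∀ A : Finset α, ¬ N (insert e (insert f (W ∪ A))) := by
      intro A h
      refine hae A (hP.mono (Finset.insert_subset_insert _ (Finset.subset_insert _ _)) h)
    apply Finset.sum_nonneg
    intro A _
    rw [sub_nonneg]
    apply ind_mono
    rintro ⟨-, h2⟩
    refine ⟨hae A, fun hh => h2 (hP.mono (Finset.subset_insert _ _) hh)⟩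

/-- the coefficient vanishes in low degree -/
theorem cW_small (hP : Pav r N) {W U : Finset α} (h : 2 * W.card + U.card + 2 < 2 * r) :
    cW N e f W U = 0 := by
  unfold cW cc
  apply Finset.sum_eq_zero
  intro A hA
  rw [Finset.mem_powerset] at hA
  have hc := Finset.card_sdiff_add_card_eq_card hA
  have c1 : (W ∪ A).card ≤ W.card + A.card := Finset.card_union_le _ _
  have c2 : (W ∪ (U \ A)).card ≤ W.card + (U \ A).card := Finset.card_union_le _ _
  have k1 : (insert e (W ∪ A)).card ≤ (W ∪ A).card + 1 := Finset.card_insert_le _ _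
  have k2 : (insert f (W ∪ A)).card ≤ (W ∪ A).card + 1 := Finset.card_insert_le _ _
  have k3 : (insert f (W ∪ (U \ A))).card ≤ (W ∪ (U \ A)).card + 1 := Finset.card_insert_le _ _
  have k4 : (insert e (insert f (W ∪ A))).card ≤ (insert f (W ∪ A)).card + 1 :=
    Finset.card_insert_le _ _
  rw [ind_false, ind_false, sub_zero]
  · rintro ⟨h1, h2⟩
    by_cases hh : (insert e (insert f (W ∪ A))).card < r
    · exact h1 (hP.small hh)
    · exact h2 (hP.small (by omega))
  · rintro ⟨h1, h2⟩
    by_cases hh : (insert e (W ∪ A)).card < r
    · exact h1 (hP.small hh)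
    · exact h2 (hP.small (by omega))

/-- the pair function as the coefficient `c` -/
theorem sum_phi (z : α → ℝ) (V : Finset α) {U : Finset α} (hVU : Disjoint V U) :
    ∑ A ∈ U.powerset, zp z (V ∪ A) * zp z (V ∪ (U \ A)) *
      phi (fun X => ¬ N X) e f (V ∪ A) (V ∪ (U \ A)) =
      (zp z V) ^ 2 * zp z U * (cW N e f V U : ℝ) := by
  unfold cW cc
  push_cast
  rw [Finset.mul_sum]
  apply Finset.sum_congr rfl
  intro A hA
  rw [zp_mul_pair z hVU (Finset.mem_powerset.mp hA)]
  rw [ind_cast, ind_cast]
  rfl

/-- the total difference is the sum of all terms -/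
theorem diff_total (z : α → ℝ) (G : Finset α) :
    ∑ A ∈ G.powerset, ∑ B ∈ G.powerset, zp z A * zp z B * phi (fun X => ¬ N X) e f A B =
      ∑ V ∈ G.powerset, ∑ U ∈ (G \ V).powerset, (zp z V) ^ 2 * zp z U * (cW N e f V U : ℝ) := by
  rw [sum_pairs G (fun A B => zp z A * zp z B * phi (fun X => ¬ N X) e f A B)]
  apply Finset.sum_congr rfl
  intro V _
  apply Finset.sum_congr rfl
  intro U hU
  exact sum_phi z V ((Finset.disjoint_sdiff).mono_right (Finset.mem_powerset.mp hU))

theorem total_nonneg (hP : Pav r N) {z : α → ℝ} (hz : ∀ x, 0 < z x) (G : Finset α)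
    (hD : ∀ d, 2 * r ≤ d + 2 → 0 ≤ DD r N e f z d ∅ G) :
    0 ≤ ∑ A ∈ G.powerset, ∑ B ∈ G.powerset,
      zp z A * zp z B * phi (fun X => ¬ N X) e f A B := by
  rw [diff_total]
  -- split every term
  have h1 : ∀ V ∈ G.powerset, ∀ U ∈ (G \ V).powerset,
      ∑ d ∈ Finset.range (3 * G.card + 1), (if 2 * r ≤ d + 2 then tm r N e f z d ∅ V U else 0) ≤
      (zp z V) ^ 2 * zp z U * (cW N e f V U : ℝ) := by
    intro V hV U hU
    rw [Finset.mem_powerset] at hV hU
    have hcV := Finset.card_le_card hV
    have hcU := Finset.card_le_card (hU.trans Finset.sdiff_subset)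
    have hpos : 0 ≤ (zp z V) ^ 2 * zp z U := mul_nonneg (sq_nonneg _) (zp_pos hz U).le
    rw [Finset.sum_eq_single (2 * V.card + U.card)]
    · by_cases h2 : 2 * r ≤ 2 * V.card + U.card + 2
      · rw [if_pos h2]
        unfold tm
        by_cases h3 : V.card < r
        · rw [if_pos ⟨by simpa using h3, rfl⟩, Finset.empty_union]
        · rw [if_neg (fun hh => h3 (by simpa using hh.1))]
          apply mul_nonneg hpos
          exact_mod_cast cW_big hP (by omega) U
      · rw [if_neg h2, cW_small hP (by omega)]
        simp
    · intro d _ hd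
      split_ifs
      · unfold tm
        rw [if_neg]
        rintro ⟨-, h3⟩
        exact hd h3.symm
      · rfl
    · intro h2
      exfalso
      apply h2
      rw [Finset.mem_range]
      omega
  have h2 : ∑ d ∈ Finset.range (3 * G.card + 1),
      (if 2 * r ≤ d + 2 then DD r N e f z d ∅ G else 0) ≤
      ∑ V ∈ G.powerset, ∑ U ∈ (G \ V).powerset, (zp z V) ^ 2 * zp z U * (cW N e f V U : ℝ) := by
    calc ∑ d ∈ Finset.range (3 * G.card + 1),
        (if 2 * r ≤ d + 2 then DD r N e f z d ∅ G else 0) =
        ∑ V ∈ G.powerset, ∑ U ∈ (G \ V).powerset, ∑ d ∈ Finset.range (3 * G.card + 1),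
          (if 2 * r ≤ d + 2 then tm r N e f z d ∅ V U else 0) := by
          have e1 : ∀ V ∈ G.powerset, ∑ U ∈ (G \ V).powerset, ∑ d ∈ Finset.range (3 * G.card + 1),
              (if 2 * r ≤ d + 2 then tm r N e f z d ∅ V U else 0) =
              ∑ d ∈ Finset.range (3 * G.card + 1), ∑ U ∈ (G \ V).powerset,
              (if 2 * r ≤ d + 2 then tm r N e f z d ∅ V U else 0) := by
            intro V _
            exact Finset.sum_comm
          rw [Finset.sum_congr rfl e1, Finset.sum_comm]
          apply Finset.sum_congr rfl
          intro d _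
          by_cases h3 : 2 * r ≤ d + 2
          · simp only [if_pos h3]
            rfl
          · simp only [if_neg h3, Finset.sum_const_zero]
      _ ≤ _ := Finset.sum_le_sum (fun V hV => Finset.sum_le_sum (h1 V hV))
  refine le_trans ?_ h2
  apply Finset.sum_nonneg
  intro d _
  split_ifs with h3
  · exact hD d h3
  · exact le_refl _

end Pool.IS
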